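import Pool.Agent.H94.WH.KS

/-!
# MODULE AV: online averages (Lemma A, section 6)

`averages_aux` (list form) by induction on `n`, for all `h0`, `lam`, `δ`, `N`: a nonempty list `e` of pairs (item, weight), valid after the history `h0`.
`n = 0`: choose `k ≥ 1` with `1/k^2 ≤ δ`, `b ≥ N` with `k^2 ≤ g b`; choose successively `k^2` items with weight `lam/k`, `lo > b`, `lo >` previous `hi` (`hR`).
`n → n+1`: `k^2 ≥ 2/δ`, `b ≥ N` with `k^2 ≤ g b`; apply the case `n` successively `k^2` times with weight `lam/k`, history `h0 ++ (everything so far)`, bound = max b (largest hi so far) and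
`δ_i = δ / (2 * g Mx)`, `Mx` = largest `hi` so far (0 at the beginning). (Inner induction on the number of runs, with the invariant below.)
For a set `B` with `Kset (n+1) B`, `B = ⋃_{t<NB} B_t ⊆ [bB,∞)`, `NB ≤ g bB`: let `i0` be the first run with an item with `hi ∈ B`; runs before it have mass `0`, the run `i0` has mass `≤ (lam/k)^2`,
each later run `i` has mass `≤ NB δ_i (lam/k)^2 ≤ (δ/2) (lam/k)^2` because `bB ≤` that `hi ≤ Mx_i`. Total `≤ lam^2/k^2 + δ/2 lam^2 ≤ δ lam^2`.
Convenient invariant for the inner induction (number of runs `i`): for every `B` with `Kset (n+1) B`: mass ≤ `(lam/k)^2 + i (δ/2) (lam/k)^2`, and if no item so far has `hi ∈ B`, mass `= 0`.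
`averages` (function form): `h0 = []`, `lam = 1`; `x k`, `c k` = entries of the list (default for `k ≥ length`); `take k` of the list = `(List.range k).map (fun i => (x i, c i))`.
-/

set_option autoImplicit false

namespace H94.WH

open Finset

section AV
variable {T : Type} (lo hi : T → ℕ) (R : List (T × ℚ) → ℚ → T → Prop)

/-- validity of a list after a history -/
private def AV_Val : List (T × ℚ) → List (T × ℚ) → Prop
  | _, [] => True
  | h, p :: e => 0 < p.2 ∧ R h p.2 p.1 ∧ AV_Val (h ++ [p]) e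

/-- successive items beyond `b` -/
private def AV_Succ : ℕ → List (T × ℚ) → Prop
  | _, [] => True
  | b, p :: e => b < lo p.1 ∧ AV_Succ (hi p.1) e

/-- largest `hi` -/
private def AV_top : ℕ → List (T × ℚ) → ℕ
  | b, [] => b
  | _, p :: e => AV_top (hi p.1) e

open Classical in
/-- mass on `B` -/
private noncomputable def AV_mass (B : Finset ℕ) (e : List (T × ℚ)) : ℝ :=
  (e.map (fun p => if hi p.1 ∈ B then ((p.2 : ℚ) : ℝ) ^ 2 else 0)).sum

private noncomputable def AV_tot (e : List (T × ℚ)) : ℚ := (e.map (fun p => p.2 ^ 2)).sum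

private def AV_set (f : T → ℕ) (e : List (T × ℚ)) : Finset ℕ := (e.map (fun p => f p.1)).toFinset

private theorem AV_Val_append (h e e' : List (T × ℚ)) :
    AV_Val R h (e ++ e') ↔ AV_Val R h e ∧ AV_Val R (h ++ e) e' := by
  induction e generalizing h with
  | nil => simp [AV_Val]
  | cons p e ih =>
    simp only [List.cons_append, AV_Val, ih, List.append_assoc, List.nil_append]
    tauto

private theorem AV_Succ_append (b : ℕ) (e e' : List (T × ℚ)) :
    AV_Succ lo hi b (e ++ e') ↔ AV_Succ lo hi b e ∧ AV_Succ lo hi (AV_top hi b e) e' := by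
  induction e generalizing b with
  | nil => simp [AV_Succ, AV_top]
  | cons p e ih =>
    simp only [List.cons_append, AV_Succ, ih, AV_top]
    tauto

private theorem AV_mass_append (B : Finset ℕ) (e e' : List (T × ℚ)) :
    AV_mass hi B (e ++ e') = AV_mass hi B e + AV_mass hi B e' := by
  simp [AV_mass]

private theorem AV_tot_append (e e' : List (T × ℚ)) : AV_tot (e ++ e') = AV_tot e + AV_tot e' := by
  simp [AV_tot]

private theorem AV_set_append (f : T → ℕ) (e e' : List (T × ℚ)) :
    AV_set f (e ++ e') = AV_set f e ∪ AV_set f e' := by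
  simp [AV_set]

private theorem AV_top_ge {b : ℕ} {e : List (T × ℚ)} (hlh : ∀ x, lo x ≤ hi x)
    (h : AV_Succ lo hi b e) : b ≤ AV_top hi b e ∧ ∀ p ∈ e, b < lo p.1 ∧ hi p.1 ≤ AV_top hi b e := by
  induction e generalizing b with
  | nil => simp [AV_top]
  | cons p e ih =>
    obtain ⟨h1, h2⟩ := h
    obtain ⟨h3, h4⟩ := ih h2
    have h5 := hlh p.1
    refine ⟨by simp only [AV_top]; omega, ?_⟩
    intro q hq
    simp only [AV_top]
    rcases List.mem_cons.1 hq with rfl | hq
    · exact ⟨h1, h3⟩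
    · have := h4 q hq
      exact ⟨by omega, this.2⟩

private theorem AV_mass_nonneg (B : Finset ℕ) (e : List (T × ℚ)) : 0 ≤ AV_mass hi B e := by
  unfold AV_mass
  apply List.sum_nonneg
  intro x hx
  rw [List.mem_map] at hx
  obtain ⟨p, _, rfl⟩ := hx
  split_ifs <;> positivity

private theorem AV_mass_le_tot (B : Finset ℕ) (e : List (T × ℚ)) :
    AV_mass hi B e ≤ ((AV_tot e : ℚ) : ℝ) := by
  induction e with
  | nil => simp [AV_mass, AV_tot]
  | cons p e ih =>
    simp only [AV_mass, AV_tot, List.map_cons, List.sum_cons, Rat.cast_add, Rat.cast_pow] at ih ⊢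
    have : (if hi p.1 ∈ B then ((p.2 : ℚ) : ℝ) ^ 2 else 0) ≤ ((p.2 : ℚ) : ℝ) ^ 2 := by
      split_ifs
      · exact le_rfl
      · positivity
    linarith

private theorem AV_mass_zero {B : Finset ℕ} {e : List (T × ℚ)} (h : ∀ p ∈ e, hi p.1 ∉ B) :
    AV_mass hi B e = 0 := by
  induction e with
  | nil => simp [AV_mass]
  | cons p e ih =>
    have h1 := h p List.mem_cons_self
    have h2 := ih fun q hq => h q (List.mem_cons_of_mem _ hq)
    simp only [AV_mass, List.map_cons, List.sum_cons, if_neg h1, zero_add] at h2 ⊢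
    exact h2

private theorem AV_mass_union {M : ℕ} (F : Fin M → Finset ℕ) (e : List (T × ℚ)) :
    AV_mass hi (Finset.univ.biUnion F) e ≤ ∑ t, AV_mass hi (F t) e := by
  induction e with
  | nil => simp [AV_mass]
  | cons p e ih =>
    have h1 : ∀ B : Finset ℕ, AV_mass hi B (p :: e)
        = (if hi p.1 ∈ B then ((p.2 : ℚ) : ℝ) ^ 2 else 0) + AV_mass hi B e := by
      intro B
      simp only [AV_mass, List.map_cons, List.sum_cons]
    simp only [h1, Finset.sum_add_distrib]
    refine add_le_add ?_ ih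
    split_ifs with h
    · rw [Finset.mem_biUnion] at h
      obtain ⟨t, _, ht⟩ := h
      refine le_trans ?_ (Finset.single_le_sum (f := fun t => if hi p.1 ∈ F t then
        ((p.2 : ℚ) : ℝ) ^ 2 else 0) (fun t _ => by split_ifs <;> positivity) (Finset.mem_univ t))
      rw [if_pos ht]
    · exact Finset.sum_nonneg fun t _ => by split_ifs <;> positivity

/-- inner induction, single items -/
private theorem AV_items (hlh : ∀ x, lo x ≤ hi x)
    (hR : ∀ h c N, 0 < c → ∃ x, R h c x ∧ N < lo x) (h0 : List (T × ℚ)) {μ : ℚ} (hμ : 0 < μ)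
    (b : ℕ) (i : ℕ) :
    ∃ e : List (T × ℚ), e.length = i ∧ AV_Val R h0 e ∧ AV_Succ lo hi b e ∧ AV_tot e = i * μ ^ 2 ∧
      ∀ B : Finset ℕ, B.card ≤ 1 → AV_mass hi B e ≤ (μ : ℝ) ^ 2 := by
  induction i with
  | zero =>
    refine ⟨[], rfl, trivial, trivial, by simp [AV_tot], fun B _ => ?_⟩
    simp only [AV_mass, List.map_nil, List.sum_nil]
    positivity
  | succ i ih =>
    obtain ⟨e, h1, h2, h3, h4, h5⟩ := ih
    obtain ⟨x, hx1, hx2⟩ := hR (h0 ++ e) μ (AV_top hi b e) hμ
    obtain ⟨h6, h7⟩ := AV_top_ge lo hi hlh h3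
    refine ⟨e ++ [(x, μ)], by simp [h1], ?_, ?_, ?_, ?_⟩
    · rw [AV_Val_append]
      exact ⟨h2, hμ, hx1, trivial⟩
    · rw [AV_Succ_append]
      exact ⟨h3, hx2, trivial⟩
    · rw [AV_tot_append, h4]
      simp [AV_tot]
      ring
    · intro B hB
      rw [AV_mass_append]
      by_cases hcase : ∃ p ∈ e, hi p.1 ∈ B
      · obtain ⟨p, hp, hpB⟩ := hcase
        have h8 : AV_mass hi B [(x, μ)] = 0 := by
          apply AV_mass_zero
          intro q hq
          rw [List.mem_singleton] at hq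
          subst hq
          intro hxB
          have h9 := Finset.card_le_one.1 hB _ hpB _ hxB
          have h10 := (h7 p hp).2
          have h11 := hlh x
          simp only at h9
          omega
        rw [h8, add_zero]
        exact h5 B hB
      · push Not at hcase
        rw [AV_mass_zero hi hcase, zero_add]
        refine (AV_mass_le_tot hi B _).trans (le_of_eq ?_)
        simp [AV_tot]

/-- inner induction, runs -/
private theorem AV_runs (hlh : ∀ x, lo x ≤ hi x) (n : ℕ)
    (IH : ∀ (h0 : List (T × ℚ)) (lam : ℚ), 0 < lam → ∀ (δ : ℝ), 0 < δ → ∀ N : ℕ,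
      ∃ e : List (T × ℚ), e ≠ [] ∧ AV_Val R h0 e ∧ AV_Succ lo hi N e ∧ AV_tot e = lam ^ 2 ∧
        Kset (n + 1) (AV_set hi e) ∧ Kset (n + 1) (AV_set lo e) ∧
        ∀ B : Finset ℕ, Kset n B → AV_mass hi B e ≤ δ * (lam : ℝ) ^ 2)
    (h0 : List (T × ℚ)) {μ : ℚ} (hμ : 0 < μ) {δ : ℝ} (hδ : 0 < δ) (b : ℕ) (i : ℕ) :
    ∃ e : List (T × ℚ), (0 < i → e ≠ []) ∧ AV_Val R h0 e ∧ AV_Succ lo hi b e ∧
      AV_tot e = i * μ ^ 2 ∧
      (∃ F : ℕ → Finset ℕ, (∀ j < i, Kset (n + 1) (F j)) ∧ AV_set hi e = (Finset.range i).biUnion F) ∧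
      (∃ F : ℕ → Finset ℕ, (∀ j < i, Kset (n + 1) (F j)) ∧ AV_set lo e = (Finset.range i).biUnion F) ∧
      ∀ B : Finset ℕ, Kset (n + 1) B → AV_mass hi B e ≤ (μ : ℝ) ^ 2 * (1 + i * (δ / 2)) := by
  induction i with
  | zero =>
    refine ⟨[], by simp, trivial, trivial, by simp [AV_tot], ⟨fun _ => ∅, by simp, by simp [AV_set]⟩,
      ⟨fun _ => ∅, by simp, by simp [AV_set]⟩, fun B _ => ?_⟩
    simp only [AV_mass, List.map_nil, List.sum_nil]
    positivity
  | succ i ih =>
    obtain ⟨e, -, h2, h3, h4, ⟨F, hF1, hF2⟩, ⟨F', hF1', hF2'⟩, h5⟩ := ih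
    obtain ⟨h6, h7⟩ := AV_top_ge lo hi hlh h3
    set Mx := AV_top hi b e with hMx
    have hg : (0 : ℝ) < g Mx := by
      have := five_le_g Mx
      have : 0 < g Mx := by omega
      exact_mod_cast this
    obtain ⟨e', k1, k2, k3, k4, k5, k6, k7⟩ := IH (h0 ++ e) μ hμ (δ / (2 * g Mx)) (by positivity) Mx
    have union_aux : ∀ (f : T → ℕ) (F : ℕ → Finset ℕ), (∀ j < i, Kset (n + 1) (F j)) →
        AV_set f e = (Finset.range i).biUnion F → Kset (n + 1) (AV_set f e') →
        ∃ F : ℕ → Finset ℕ, (∀ j < i + 1, Kset (n + 1) (F j)) ∧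
          AV_set f (e ++ e') = (Finset.range (i + 1)).biUnion F := by
      intro f F hF1 hF2 hK
      refine ⟨fun j => if j < i then F j else AV_set f e', ?_, ?_⟩
      · intro j hj
        by_cases hji : j < i
        · simp only [if_pos hji]; exact hF1 j hji
        · simp only [if_neg hji]; exact hK
      · rw [AV_set_append, hF2, Finset.range_add_one, Finset.biUnion_insert]
        simp only [lt_irrefl, if_false]
        rw [Finset.union_comm]
        congr 1
        apply Finset.biUnion_congr rfl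
        intro j hj
        rw [if_pos (Finset.mem_range.1 hj)]
    refine ⟨e ++ e', fun _ => by simp [k1], ?_, ?_, ?_, union_aux hi F hF1 hF2 k5,
      union_aux lo F' hF1' hF2' k6, ?_⟩
    · rw [AV_Val_append]; exact ⟨h2, k2⟩
    · rw [AV_Succ_append]; exact ⟨h3, k3⟩
    · rw [AV_tot_append, h4, k4]; push_cast; ring
    · intro B hB
      rw [AV_mass_append]
      have hμ2 : (0 : ℝ) < (μ : ℝ) ^ 2 := by
        have : (0 : ℝ) < (μ : ℝ) := by exact_mod_cast hμ
        positivity
      by_cases hcase : ∃ p ∈ e, hi p.1 ∈ B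
      · obtain ⟨p, hp, hpB⟩ := hcase
        have h8 := h5 B hB
        obtain ⟨bB, NB, F2, hNB, hF3, hbB, rfl⟩ := hB
        have h9 : bB ≤ Mx := (hbB _ hpB).trans (h7 p hp).2
        have h10 : (NB : ℝ) ≤ g Mx := by exact_mod_cast hNB.trans (g_mono h9)
        have h11 : AV_mass hi (Finset.univ.biUnion F2) e' ≤ (μ : ℝ) ^ 2 * (δ / 2) := by
          refine (AV_mass_union hi F2 e').trans ?_
          refine (Finset.sum_le_sum fun t _ => k7 (F2 t) (hF3 t)).trans ?_
          rw [Finset.sum_const, Finset.card_univ, Fintype.card_fin, nsmul_eq_mul]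
          calc (NB : ℝ) * (δ / (2 * g Mx) * (μ : ℝ) ^ 2)
              ≤ (g Mx : ℝ) * (δ / (2 * g Mx) * (μ : ℝ) ^ 2) :=
                mul_le_mul_of_nonneg_right h10 (by positivity)
            _ = (μ : ℝ) ^ 2 * (δ / 2) := by field_simp
        push_cast
        linarith
      · push Not at hcase
        rw [AV_mass_zero hi hcase, zero_add]
        refine (AV_mass_le_tot hi B _).trans ?_
        rw [k4]
        push_cast
        have : 0 ≤ ((i : ℝ) + 1) * (δ / 2) := by positivity
        nlinarith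

private theorem AV_aux (hlh : ∀ x, lo x ≤ hi x)
    (hR : ∀ h c N, 0 < c → ∃ x, R h c x ∧ N < lo x) (n : ℕ) :
    ∀ (h0 : List (T × ℚ)) (lam : ℚ), 0 < lam → ∀ (δ : ℝ), 0 < δ → ∀ N : ℕ,
      ∃ e : List (T × ℚ), e ≠ [] ∧ AV_Val R h0 e ∧ AV_Succ lo hi N e ∧ AV_tot e = lam ^ 2 ∧
        Kset (n + 1) (AV_set hi e) ∧ Kset (n + 1) (AV_set lo e) ∧
        ∀ B : Finset ℕ, Kset n B → AV_mass hi B e ≤ δ * (lam : ℝ) ^ 2 := by
  have hmem : ∀ (f : T → ℕ) (e : List (T × ℚ)) (b : ℕ), (∀ p ∈ e, b ≤ f p.1) →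
      ∀ a ∈ AV_set f e, b ≤ a := by
    intro f e b h a ha
    simp only [AV_set, List.mem_toFinset, List.mem_map] at ha
    obtain ⟨p, hp, rfl⟩ := ha
    exact h p hp
  have hSuccW : ∀ (b N : ℕ) (e : List (T × ℚ)), N ≤ b → AV_Succ lo hi b e → AV_Succ lo hi N e := by
    intro b N e hN h
    cases e with
    | nil => trivial
    | cons p e => exact ⟨lt_of_le_of_lt hN h.1, h.2⟩
  have hlo : ∀ (b : ℕ) (e : List (T × ℚ)), AV_Succ lo hi b e →
      (∀ p ∈ e, b ≤ lo p.1) ∧ ∀ p ∈ e, b ≤ hi p.1 := by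
    intro b e h
    obtain ⟨_, h7⟩ := AV_top_ge lo hi hlh h
    exact ⟨fun p hp => (h7 p hp).1.le, fun p hp => (h7 p hp).1.le.trans (hlh _)⟩
  induction n with
  | zero =>
    intro h0 lam hlam δ hδ N
    obtain ⟨k, hk⟩ := exists_nat_gt (max 1 (1 / δ))
    have hk1 : (1 : ℝ) < k := (le_max_left _ _).trans_lt hk
    have hk0 : 0 < k := by
      have : (0 : ℝ) < k := by linarith
      exact_mod_cast this
    have hkq : (0 : ℚ) < k := by exact_mod_cast hk0
    have hkr : (0 : ℝ) < k := by exact_mod_cast hk0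
    have hkδ : 1 / (k : ℝ) ^ 2 ≤ δ := by
      have h1 : 1 / δ < k := (le_max_right _ _).trans_lt hk
      rw [div_lt_iff₀ hδ] at h1
      rw [div_le_iff₀ (by positivity)]
      nlinarith
    obtain ⟨b0, hb0⟩ := exists_le_g (k ^ 2)
    set b := max b0 N with hb
    have hgb : k ^ 2 ≤ g b := hb0.trans (g_mono (le_max_left _ _))
    obtain ⟨e, h1, h2, h3, h4, h5⟩ := AV_items lo hi R hlh hR h0 (μ := lam / k) (by positivity) b (k ^ 2)
    obtain ⟨hl1, hl2⟩ := hlo b e h3
    have hcard : ∀ f : T → ℕ, (AV_set f e).card ≤ g b := by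
      intro f
      refine (List.toFinset_card_le _).trans ?_
      rw [List.length_map, h1]
      exact hgb
    refine ⟨e, ?_, h2, hSuccW b N e (le_max_right _ _) h3, ?_, Kset.of_card (hcard hi) (hmem hi e b hl2),
      Kset.of_card (hcard lo) (hmem lo e b hl1), ?_⟩
    · intro he
      rw [he] at h1
      simp only [List.length_nil] at h1
      have : 0 < k ^ 2 := by positivity
      omega
    · rw [h4]; push_cast; field_simp
    · intro B hB
      refine (h5 B hB).trans ?_
      push_cast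
      rw [div_pow]
      have : (lam : ℝ) ^ 2 / (k : ℝ) ^ 2 = 1 / (k : ℝ) ^ 2 * (lam : ℝ) ^ 2 := by ring
      rw [this]
      exact mul_le_mul_of_nonneg_right hkδ (by positivity)
  | succ n ih =>
    intro h0 lam hlam δ hδ N
    obtain ⟨k, hk⟩ := exists_nat_gt (max 1 (2 / δ))
    have hk1 : (1 : ℝ) < k := (le_max_left _ _).trans_lt hk
    have hk0 : 0 < k := by
      have : (0 : ℝ) < k := by linarith
      exact_mod_cast this
    have hkq : (0 : ℚ) < k := by exact_mod_cast hk0
    have hkr : (0 : ℝ) < k := by exact_mod_cast hk0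
    have hkδ : 1 / (k : ℝ) ^ 2 ≤ δ / 2 := by
      have h1 : 2 / δ < k := (le_max_right _ _).trans_lt hk
      rw [div_lt_iff₀ hδ] at h1
      rw [div_le_iff₀ (by positivity)]
      nlinarith
    obtain ⟨b0, hb0⟩ := exists_le_g (k ^ 2)
    set b := max b0 N with hb
    have hgb : k ^ 2 ≤ g b := hb0.trans (g_mono (le_max_left _ _))
    obtain ⟨e, h1, h2, h3, h4, ⟨F, hF1, hF2⟩, ⟨F', hF1', hF2'⟩, h5⟩ :=
      AV_runs lo hi R hlh n ih h0 (μ := lam / k) (by positivity) hδ b (k ^ 2)
    obtain ⟨hl1, hl2⟩ := hlo b e h3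
    have hK : ∀ (f : T → ℕ) (F : ℕ → Finset ℕ), (∀ j < k ^ 2, Kset (n + 1) (F j)) →
        AV_set f e = (Finset.range (k ^ 2)).biUnion F → (∀ p ∈ e, b ≤ f p.1) →
        Kset (n + 1 + 1) (AV_set f e) := by
      intro f F hF1 hF2 hbf
      have h6 := hmem f e b hbf
      rw [hF2] at h6 ⊢
      refine Kset.succ_finset (b := b) _ _ (by simpa using hgb) (fun i hi => hF1 i (Finset.mem_range.1 hi)) ?_
      intro i hi a ha
      exact h6 a (Finset.mem_biUnion.2 ⟨i, hi, ha⟩)
    refine ⟨e, h1 (by positivity), h2, hSuccW b N e (le_max_right _ _) h3, ?_,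
      hK hi F hF1 hF2 hl2, hK lo F' hF1' hF2' hl1, ?_⟩
    · rw [h4]; push_cast; field_simp
    · intro B hB
      refine (h5 B hB).trans ?_
      push_cast
      have hl : (0 : ℝ) ≤ (lam : ℝ) ^ 2 := by positivity
      calc ((lam : ℝ) / k) ^ 2 * (1 + (k : ℝ) ^ 2 * (δ / 2))
          = 1 / (k : ℝ) ^ 2 * (lam : ℝ) ^ 2 + δ / 2 * (lam : ℝ) ^ 2 := by field_simp
        _ ≤ δ / 2 * (lam : ℝ) ^ 2 + δ / 2 * (lam : ℝ) ^ 2 :=
            add_le_add (mul_le_mul_of_nonneg_right hkδ hl) le_rfl
        _ = δ * (lam : ℝ) ^ 2 := by ring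

private theorem AV_sum_getD {α M : Type} [AddCommMonoid M] (f : α → M) (d : α) (e : List α) :
    (e.map f).sum = ∑ k ∈ Finset.range e.length, f (e.getD k d) := by
  induction e with
  | nil => simp
  | cons p e ih =>
    rw [List.map_cons, List.sum_cons, ih, List.length_cons, Finset.sum_range_succ']
    simp [add_comm]

private theorem AV_take {α : Type} (d : α) (e : List α) {k : ℕ} (hk : k ≤ e.length) :
    e.take k = (List.range k).map (fun i => e.getD i d) := by
  apply List.ext_getElem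
  · simp [hk]
  · intro i h1 h2
    simp only [List.length_take] at h1
    have : i < e.length := by omega
    rw [List.getElem_take, List.getElem_map, List.getElem_range, List.getD_eq_getElem _ _ this]

private theorem AV_Val_get (h e : List (T × ℚ)) (d : T × ℚ) (hv : AV_Val R h e) :
    ∀ k < e.length, 0 < (e.getD k d).2 ∧ R (h ++ e.take k) (e.getD k d).2 (e.getD k d).1 := by
  induction e generalizing h with
  | nil => simp
  | cons p e ih =>
    intro k hk
    cases k with
    | zero => simpa using ⟨hv.1, hv.2.1⟩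
    | succ k =>
      have := ih (h ++ [p]) hv.2.2 k (by simpa using hk)
      simpa using this

private theorem AV_Succ_get (b : ℕ) (e : List (T × ℚ)) (d : T × ℚ) (hv : AV_Succ lo hi b e) :
    (0 < e.length → b < lo (e.getD 0 d).1) ∧
      ∀ k, k + 1 < e.length → hi (e.getD k d).1 < lo (e.getD (k + 1) d).1 := by
  induction e generalizing b with
  | nil => simp
  | cons p e ih =>
    have h1 := ih (hi p.1) hv.2
    refine ⟨fun _ => by simpa using hv.1, ?_⟩
    intro k hk
    cases k with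
    | zero =>
      have := h1.1 (by simpa using hk)
      simpa using this
    | succ k =>
      have := h1.2 k (by simpa using hk)
      simpa using this

private theorem AV_set_get (f : T → ℕ) (e : List (T × ℚ)) (d : T × ℚ) :
    (Finset.range e.length).image (fun k => f (e.getD k d).1) = AV_set f e := by
  ext a
  simp only [AV_set, Finset.mem_image, Finset.mem_range, List.mem_toFinset, List.mem_map]
  constructor
  · rintro ⟨k, hk, rfl⟩
    refine ⟨e.getD k d, ?_, rfl⟩
    rw [List.getD_eq_getElem _ _ hk]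
    exact List.getElem_mem hk
  · rintro ⟨p, hp, rfl⟩
    obtain ⟨k, hk, rfl⟩ := List.getElem_of_mem hp
    exact ⟨k, hk, by rw [List.getD_eq_getElem _ _ hk]⟩

end AV

theorem averages {T : Type} [Inhabited T] (lo hi : T → ℕ) (hlh : ∀ x, lo x ≤ hi x)
    (R : List (T × ℚ) → ℚ → T → Prop) (hR : ∀ h c N, 0 < c → ∃ x, R h c x ∧ N < lo x)
    (n : ℕ) (δ : ℝ) (hδ : 0 < δ) (N : ℕ) :
    ∃ (M : ℕ) (x : ℕ → T) (c : ℕ → ℚ), 0 < M ∧ (∀ k < M, 0 < c k) ∧
      (∀ k < M, R ((List.range k).map (fun i => (x i, c i))) (c k) (x k)) ∧ N < lo (x 0) ∧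
      (∀ k, k + 1 < M → hi (x k) < lo (x (k + 1))) ∧ ∑ k ∈ Finset.range M, (c k) ^ 2 = 1 ∧
      Kset (n + 1) ((Finset.range M).image (fun k => hi (x k))) ∧
      Kset (n + 1) ((Finset.range M).image (fun k => lo (x k))) ∧
      ∀ B ⊆ Finset.range M, Kset n (B.image (fun k => hi (x k))) → ∑ k ∈ B, (c k : ℝ) ^ 2 ≤ δ := by
  obtain ⟨e, h1, h2, h3, h4, h5, h6, h7⟩ := AV_aux lo hi R hlh hR n [] 1 one_pos δ hδ N
  set d : T × ℚ := default with hd
  have hM : 0 < e.length := List.length_pos_iff.2 h1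
  have hV := AV_Val_get R [] e d h2
  have hS := AV_Succ_get lo hi N e d h3
  refine ⟨e.length, fun k => (e.getD k d).1, fun k => (e.getD k d).2, hM, fun k hk => (hV k hk).1,
    ?_, hS.1 hM, hS.2, ?_, ?_, ?_, ?_⟩
  · intro k hk
    have := (hV k hk).2
    rw [AV_take d e hk.le, List.nil_append] at this
    exact this
  · rw [← AV_sum_getD (fun p : T × ℚ => p.2 ^ 2) d e]
    simpa [AV_tot] using h4
  · rw [AV_set_get hi e d]; exact h5
  · rw [AV_set_get lo e d]; exact h6
  · intro B hB hK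
    have h8 := h7 _ hK
    rw [Rat.cast_one, one_pow, mul_one] at h8
    refine le_trans ?_ h8
    unfold AV_mass
    rw [AV_sum_getD _ d e]
    have h9 : ∑ k ∈ B, (((e.getD k d).2 : ℚ) : ℝ) ^ 2
        = ∑ k ∈ B, (if hi (e.getD k d).1 ∈ B.image (fun k => hi (e.getD k d).1) then
          (((e.getD k d).2 : ℚ) : ℝ) ^ 2 else 0) := by
      refine Finset.sum_congr rfl fun k hk => ?_
      rw [if_pos (Finset.mem_image_of_mem _ hk)]
    rw [h9]
    refine Finset.sum_le_sum_of_subset_of_nonneg hB fun k _ _ => ?_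
    split_ifs <;> positivity

end H94.WH
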