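import Pool.Agent.H94.WH.Defs

/-!
# MODULE KS: the families `K_n` (section 1 of /team-store/H94_WH.md)
All by induction on `n`. `Kset (n+1) A ↔ ∃ b N F, N ≤ g b ∧ (∀ i, Kset n (F i)) ∧ (∀ a ∈ A, b ≤ a) ∧ A = ⋃ F i`.
(In `Kset.succ_finset` re-index a finset by `Fin s.card` (`Finset.equivFin`).)
-/

set_option autoImplicit false

namespace H94.WH

open Finset

theorem g_mono : Monotone g := by
  intro a b h
  unfold g
  exact Nat.pow_le_pow_right (by norm_num) (by omega)
theorem five_le_g (b : ℕ) : 5 ≤ g b := by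
  unfold g
  calc 5 = 5 ^ 1 := by norm_num
    _ ≤ 5 ^ (4 * b + 2) := Nat.pow_le_pow_right (by norm_num) (by omega)
theorem exists_le_g (K : ℕ) : ∃ b, K ≤ g b := by
  refine ⟨K, ?_⟩
  unfold g
  calc K ≤ 4 * K + 2 := by omega
    _ ≤ 5 ^ (4 * K + 2) := (Nat.lt_pow_self (by norm_num)).le

theorem Kset.empty (n : ℕ) : Kset n ∅ := by
  cases n with
  | zero => simp [Kset]
  | succ n =>
    refine ⟨0, 0, fun i => i.elim0, Nat.zero_le _, fun i => i.elim0, by simp, by simp⟩
/-- hereditary -/
theorem Kset.sub {n : ℕ} {A B : Finset ℕ} (h : Kset n A) (hB : B ⊆ A) : Kset n B := by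
  induction n generalizing A B with
  | zero => exact le_trans (Finset.card_le_card hB) h
  | succ n ih =>
    obtain ⟨b, N, F, hN, hF, hb, rfl⟩ := h
    refine ⟨b, N, fun i => F i ∩ B, hN, fun i => ih (hF i) Finset.inter_subset_left,
      fun a ha => hb a (hB ha), ?_⟩
    ext a
    simp only [Finset.mem_biUnion, Finset.mem_univ, true_and, Finset.mem_inter]
    constructor
    · intro ha
      have := hB ha
      simp only [Finset.mem_biUnion, Finset.mem_univ, true_and] at this
      obtain ⟨i, hi⟩ := this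
      exact ⟨i, hi, ha⟩
    · rintro ⟨i, _, ha⟩
      exact ha
theorem Kset.mono {n n' : ℕ} (hn : n ≤ n') {A : Finset ℕ} (h : Kset n A) : Kset n' A := by
  induction n', hn using Nat.le_induction with
  | base => exact h
  | succ k _ ih =>
    refine ⟨0, 1, fun _ => A, le_trans (by norm_num) (five_le_g 0), fun _ => ih, by simp, ?_⟩
    ext a
    simp
theorem Kset.single (n a : ℕ) : Kset n {a} := by
  apply Kset.mono (Nat.zero_le n)
  simp [Kset]
/-- union of at most `g b` members contained in `[b, ∞)` -/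
theorem Kset.succ_finset {ι : Type*} {n b : ℕ} (s : Finset ι) (F : ι → Finset ℕ) (hs : s.card ≤ g b)
    (hF : ∀ i ∈ s, Kset n (F i)) (hb : ∀ i ∈ s, ∀ a ∈ F i, b ≤ a) : Kset (n + 1) (s.biUnion F) := by
  refine ⟨b, s.card, fun i => F (s.equivFin.symm i : ι), hs, fun i => hF _ (s.equivFin.symm i).2, ?_, ?_⟩
  · intro a ha
    obtain ⟨i, hi, hai⟩ := Finset.mem_biUnion.mp ha
    exact hb i hi a hai
  · ext a
    simp only [Finset.mem_biUnion, Finset.mem_univ, true_and]
    constructor
    · rintro ⟨i, hi, ha⟩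
      refine ⟨s.equivFin ⟨i, hi⟩, ?_⟩
      simpa using ha
    · rintro ⟨i, ha⟩
      exact ⟨_, (s.equivFin.symm i).2, ha⟩
theorem Kset.succ_fin {n b N : ℕ} (F : Fin N → Finset ℕ) (hN : N ≤ g b)
    (hF : ∀ i, Kset n (F i)) (hb : ∀ i, ∀ a ∈ F i, b ≤ a) :
    Kset (n + 1) (Finset.univ.biUnion F) := by
  apply Kset.succ_finset (b := b)
  · simpa using hN
  · intro i _
    exact hF i
  · intro i _
    exact hb i
/-- (b = 0, `g 0 = 5`) -/
theorem Kset.union {n : ℕ} {A B : Finset ℕ} (hA : Kset n A) (hB : Kset n B) : Kset (n + 1) (A ∪ B) := by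
  have h := Kset.succ_finset (n := n) (b := 0) (Finset.univ : Finset Bool)
    (fun i => if i then A else B) (le_trans (by simp) (five_le_g 0))
    (by
      intro i _
      cases i
      · simpa using hB
      · simpa using hA) (by intro i _ a _; exact Nat.zero_le _)
  convert h using 1
  ext a
  simp only [Finset.mem_union, Finset.mem_biUnion, Finset.mem_univ, true_and]
  constructor
  · rintro (ha | ha)
    · exact ⟨true, by simpa using ha⟩
    · exact ⟨false, by simpa using ha⟩
  · rintro ⟨i, hi⟩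
    cases i
    · right
      simpa using hi
    · left
      simpa using hi
theorem Kset.of_card {b : ℕ} {A : Finset ℕ} (hA : A.card ≤ g b) (hb : ∀ a ∈ A, b ≤ a) : Kset 1 A := by
  have h := Kset.succ_finset (n := 0) (b := b) A (fun a => ({a} : Finset ℕ)) hA
    (fun i _ => Kset.single 0 i) (by
      intro i hi a ha
      rw [Finset.mem_singleton] at ha
      rw [ha]
      exact hb i hi)
  rwa [Finset.biUnion_singleton_eq_self] at h
/-- spreading -/
theorem Kset.image {n : ℕ} {A : Finset ℕ} (h : Kset n A) (φ : ℕ → ℕ) (hφ : ∀ a ∈ A, a ≤ φ a) :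
    Kset n (A.image φ) := by
  induction n generalizing A with
  | zero => exact le_trans Finset.card_image_le h
  | succ n ih =>
    obtain ⟨b, N, F, hN, hF, hb, rfl⟩ := h
    refine ⟨b, N, fun i => (F i).image φ, hN, fun i => ih (hF i) ?_, ?_, ?_⟩
    · intro a ha
      exact hφ a (Finset.mem_biUnion.mpr ⟨i, Finset.mem_univ _, ha⟩)
    · intro a ha
      obtain ⟨c, hc, rfl⟩ := Finset.mem_image.mp ha
      exact le_trans (hb c hc) (hφ c hc)
    · ext a
      simp only [Finset.mem_image, Finset.mem_biUnion, Finset.mem_univ, true_and]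
      constructor
      · rintro ⟨c, ⟨i, hi⟩, hc⟩
        exact ⟨i, c, hi, hc⟩
      · rintro ⟨i, c, hi, hc⟩
        exact ⟨c, ⟨i, hi⟩, hc⟩
/-- spreading, convenient form: every element of `B` is above an element of `A`, different ones for
different elements of `B` -/
theorem Kset.of_inj {n : ℕ} {A B : Finset ℕ} (h : Kset n A) (ψ : ℕ → ℕ) (hψ : ∀ b ∈ B, ψ b ∈ A ∧ ψ b ≤ b)
    (hinj : ∀ b ∈ B, ∀ b' ∈ B, ψ b = ψ b' → b = b') : Kset n B := by
  induction n generalizing A B with
  | zero =>
    refine le_trans ?_ h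
    exact Finset.card_le_card_of_injOn ψ (fun b hb => (hψ b hb).1)
      (fun b hb b' hb' e => hinj b hb b' hb' e)
  | succ n ih =>
    obtain ⟨b, N, F, hN, hF, hb, rfl⟩ := h
    refine ⟨b, N, fun i => B.filter (fun x => ψ x ∈ F i), hN, fun i => ih (hF i) ?_ ?_, ?_, ?_⟩
    · intro x hx
      rw [Finset.mem_filter] at hx
      exact ⟨hx.2, (hψ x hx.1).2⟩
    · intro x hx y hy e
      rw [Finset.mem_filter] at hx hy
      exact hinj x hx.1 y hy.1 e
    · intro x hx
      exact le_trans (hb _ (hψ x hx).1) (hψ x hx).2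
    · ext x
      simp only [Finset.mem_filter, Finset.mem_biUnion, Finset.mem_univ, true_and]
      constructor
      · intro hx
        have := (hψ x hx).1
        simp only [Finset.mem_biUnion, Finset.mem_univ, true_and] at this
        obtain ⟨i, hi⟩ := this
        exact ⟨i, hx, hi⟩
      · rintro ⟨i, hx, _⟩
        exact hx
/-- composition -/
theorem Kset.comp {n k : ℕ} {A : Finset ℕ} (h : Kset n A) (B : ℕ → Finset ℕ) (hB : ∀ a ∈ A, Kset k (B a))
    (hb : ∀ a ∈ A, ∀ x ∈ B a, a ≤ x) : Kset (n + k) (A.biUnion B) := by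
  induction n generalizing A with
  | zero =>
    have h1 : A.card ≤ 1 := h
    rw [Finset.card_le_one_iff_subset_singleton] at h1
    obtain ⟨a, ha⟩ := h1
    by_cases haA : a ∈ A
    · apply Kset.mono (n := k) (by omega)
      apply Kset.sub (hB a haA)
      intro x hx
      obtain ⟨c, hc, hxc⟩ := Finset.mem_biUnion.mp hx
      have := Finset.mem_singleton.mp (ha hc)
      rwa [this] at hxc
    · have hA : A = ∅ := by
        apply Finset.eq_empty_of_forall_notMem
        intro c hc
        have := Finset.mem_singleton.mp (ha hc)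
        exact haA (this ▸ hc)
      rw [hA]
      simpa using Kset.empty (0 + k)
  | succ n ih =>
    obtain ⟨b, N, F, hN, hF, hb', rfl⟩ := h
    have e : n + 1 + k = (n + k) + 1 := by ring
    rw [e]
    refine ⟨b, N, fun i => (F i).biUnion B, hN, fun i => ih (hF i) ?_ ?_, ?_, ?_⟩
    · intro a ha
      exact hB a (Finset.mem_biUnion.mpr ⟨i, Finset.mem_univ _, ha⟩)
    · intro a ha
      exact hb a (Finset.mem_biUnion.mpr ⟨i, Finset.mem_univ _, ha⟩)
    · intro x hx
      obtain ⟨c, hc, hxc⟩ := Finset.mem_biUnion.mp hx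
      exact le_trans (hb' c hc) (hb c hc x hxc)
    · ext x
      simp only [Finset.mem_biUnion, Finset.mem_univ, true_and]
      constructor
      · rintro ⟨c, ⟨i, hi⟩, hc⟩
        exact ⟨i, c, hi, hc⟩
      · rintro ⟨i, c, hi, hc⟩
        exact ⟨c, ⟨i, hi⟩, hc⟩

end H94.WH
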