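import Pool.Agent.H94.WH.VL2
import Pool.Agent.H94.WH.KS

/-!
# MODULE CN1: the cone `C` (section 3)
* `C.smul`: cases/induction on `C v`: atom: `smul_single`; even: `c • pre j v = pre j (c • v)`, `res` commutes with `c •`; odd: `c' • (c • _)`; merge.
* `C.res`: induction: atom: result is the atom or `0 = single (0,[]) 0`; even: `res J (pre j v) = pre j (res J v)`, same `A`
  (`res (cell A a) (res J v) = res J (res (cell A a) v)`); odd: replace `I` by `J ∩ I`; merge: `res J (pre 0 (∑ u i)) = pre 0 (∑ res J (u i))`.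
* `C.mono_root`: every element of the cone is a leaf atom or has a single root symbol.
* `res_sep`: `J` separated from `A`: if `v` has a position `p.1 ∈ J`, let `a = max {a ∈ A | a ≤ p.1}`; then all positions of `v` in `J` are in
  `cell A a` (a smaller one `p'.1 < a` contradicts `Sep A J` because `a ∈ J` by order-convexity; for one above the next element `a'` of `A`: `a' ∈ J`
  and `p.1 < a'`), so `res J v = res J (res (cell A a) v)`.
-/

set_option autoImplicit false

namespace H94.WH

open Finset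

theorem C.zero : C 0 := by
  have h := C.atom 0 0
  rwa [Finsupp.single_zero] at h

theorem C.smul (c : ℚ) {v : V} (h : C v) : C (c • v) := by
  induction h with
  | atom l c' =>
    rw [Finsupp.smul_single]
    exact C.atom l _
  | even j hj hj2 v A hA hs hv ih =>
    rw [← pre_smul]
    refine C.even j hj hj2 (c • v) A hA ?_ ?_
    · intro p hp
      exact hs p (Finsupp.support_smul hp)
    · intro a ha
      rw [res_smul]
      exact ih a ha
  | odd q hq ws bs hsp hC I hI c' _ =>
    rw [smul_smul]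
    exact C.odd q hq ws bs hsp hC I hI _
  | merge b N hN u hu hb ih =>
    rw [← pre_smul, Finset.smul_sum]
    refine C.merge b N hN (fun i => c • u i) ih ?_
    intro i p hp
    exact hb i p (Finsupp.support_smul hp)

theorem C.res {v : V} (h : C v) {J : Set ℕ} (hJ : J.OrdConnected) : C (res J v) := by
  induction h with
  | atom l c' =>
    by_cases hl : l ∈ J
    · rw [res_eq_self]
      · exact C.atom l c'
      · intro p hp
        have h1 := Finsupp.support_single_subset hp
        rw [Finset.mem_singleton] at h1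
        rw [h1]; exact hl
    · rw [res_eq_zero]
      · exact C.zero
      · intro p hp
        have h1 := Finsupp.support_single_subset hp
        rw [Finset.mem_singleton] at h1
        rw [h1]; exact hl
  | even j hj hj2 v A hA hs hv ih =>
    rw [res_pre]
    refine C.even j hj hj2 _ A hA ?_ ?_
    · intro p hp
      exact hs p (mem_res.1 hp).1
    · intro a ha
      have h1 := ih a ha
      rw [res_res, Set.inter_comm, ← res_res] at h1
      exact h1
  | odd q hq ws bs hsp hC I hI c' _ =>
    rw [res_smul, res_pre, res_res]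
    exact C.odd q hq ws bs hsp hC (J ∩ I) (hJ.inter hI) _
  | merge b N hN u hu hb ih =>
    rw [res_pre, res_sum]
    refine C.merge b N hN (fun i => H94.WH.res J (u i)) ih ?_
    intro i p hp
    exact hb i p (mem_res.1 hp).1

theorem C.mono_root {v : V} (h : C v) :
    (∃ l c, v = Finsupp.single (l, []) c) ∨ ∃ s, v = pre s (comp s v) := by
  cases h with
  | atom l c' => exact Or.inl ⟨l, c', rfl⟩
  | even j hj hj2 v A hA hs hv =>
    refine Or.inr ⟨j, ?_⟩
    rw [comp_pre]
  | odd q hq ws bs hsp hC I hI c' =>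
    refine Or.inr ⟨q, ?_⟩
    rw [← pre_smul, comp_pre]
  | merge b N hN u hu hb =>
    refine Or.inr ⟨0, ?_⟩
    rw [comp_pre]

theorem C.col {v : V} (h : C v) (S : Set ℕ) : C (col S v) := by
  rcases C.mono_root h with ⟨l, c, rfl⟩ | ⟨s, hs⟩
  · rw [col_single]
    exact C.zero
  · by_cases hsS : s ∈ S
    · rw [hs, col_pre_mem hsS, ← hs]
      exact h
    · rw [hs, col_pre_not hsS]
      exact C.zero

theorem C.leaf {v : V} (h : C v) : C (leaf v) := by
  rcases C.mono_root h with ⟨l, c, rfl⟩ | ⟨s, hs⟩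
  · rw [leaf_single]
    exact h
  · rw [hs, leaf_pre]
    exact C.zero

/-- cells of order-convex sets -/
theorem ordConnected_cell (A : Finset ℕ) (a : ℕ) : (cell A a).OrdConnected := by
  refine ⟨?_⟩
  rintro x ⟨hx1, _⟩ y ⟨_, hy2⟩ z ⟨hz1, hz2⟩
  exact ⟨hx1.trans hz1, fun a' ha' h => lt_of_le_of_lt hz2 (hy2 a' ha' h)⟩

theorem sep_cell {A : Finset ℕ} {a : ℕ} (ha : a ∈ A) : Sep A (cell A a) := by
  rintro a' ha' ⟨h1, h2⟩ j ⟨hj1, _⟩
  have h3 : a' = a := by
    by_contra h
    exact lt_irrefl _ (h2 a' ha' (lt_of_le_of_ne h1 (Ne.symm h)))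
  rw [h3]
  exact hj1

theorem CN1_lt {A : Finset ℕ} {a a' : ℕ} (ha' : a' ∈ A) (h : a < a') {l : ℕ}
    (h1 : l ∈ cell A a) (h2 : l ∈ cell A a') : False := by
  have h3 := h1.2 a' ha' h
  have h4 := h2.1
  omega

theorem cell_disjoint {A : Finset ℕ} {a a' : ℕ} (ha : a ∈ A) (ha' : a' ∈ A) (h : a ≠ a') :
    Disjoint (cell A a) (cell A a') := by
  rw [Set.disjoint_left]
  intro l h1 h2
  rcases lt_or_gt_of_ne h with h3 | h3
  · exact CN1_lt ha' h3 h1 h2
  · exact CN1_lt ha h3 h2 h1

/-- every position above some element of `A` is in a cell -/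
theorem mem_some_cell {A : Finset ℕ} {l : ℕ} (h : ∃ a ∈ A, a ≤ l) : ∃ a ∈ A, l ∈ cell A a := by
  classical
  obtain ⟨a0, ha0, hl0⟩ := h
  have hne : (A.filter (fun a => a ≤ l)).Nonempty := ⟨a0, Finset.mem_filter.2 ⟨ha0, hl0⟩⟩
  have hm := Finset.max'_mem _ hne
  rw [Finset.mem_filter] at hm
  refine ⟨_, hm.1, hm.2, ?_⟩
  intro a' ha' h1
  by_contra h2
  have h3 := Finset.le_max' (A.filter (fun a => a ≤ l)) a'
    (Finset.mem_filter.2 ⟨ha', not_lt.1 h2⟩)
  exact absurd h1 (not_lt.2 h3)

/-- separated restriction only sees one cell -/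
theorem res_sep {A : Finset ℕ} {v : V} (hs : ∀ p ∈ v.support, ∃ a ∈ A, a ≤ p.1) {J : Set ℕ}
    (hJ : J.OrdConnected) (hsep : Sep A J) :
    res J v = 0 ∨ ∃ a ∈ A, res J v = res J (res (cell A a) v) := by
  by_cases h : ∃ p ∈ v.support, p.1 ∈ J
  · right
    obtain ⟨p, hp, hpJ⟩ := h
    obtain ⟨a, ha, hpa⟩ := mem_some_cell (hs p hp)
    refine ⟨a, ha, ?_⟩
    rw [res_res]
    refine res_congr fun p' hp' => ?_
    constructor
    · intro hJ'
      refine ⟨hJ', ?_⟩
      obtain ⟨a', ha', hpa'⟩ := mem_some_cell (hs p' hp')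
      rcases lt_trichotomy a a' with h1 | h1 | h1
      · exfalso
        have h2 := hpa.2 a' ha' h1
        have h3 := hpa'.1
        have h4 : a' ∈ J := hJ.out hpJ hJ' ⟨h2.le, h3⟩
        have h5 := hsep a' ha' h4 p.1 hpJ
        omega
      · rw [h1]; exact hpa'
      · exfalso
        have h2 := hpa'.2 a ha h1
        have h3 := hpa.1
        have h4 : a ∈ J := hJ.out hJ' hpJ ⟨h2.le, h3⟩
        have h5 := hsep a ha h4 p'.1 hJ'
        omega
    · exact fun hJ' => hJ'.1
  · left
    push Not at h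
    exact res_eq_zero h

end H94.WH
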