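import Pool.Agent.H94.WH.CN1

/-!
# MODULE CN2: structure of the elements of the cone according to the root symbol
Case analysis on `C v` (`cases h`), with `comp_single`, `comp_smul`, `comp_pre`, `comp_pre_ne`, `res_pre`.
* `C.cells`: even (root `j = s`): `comp s v` is the `v'` of the constructor; `res_sep` gives `res J v' = 0` or `= res J (res (cell A a) v')`, in `C` by `C.res`. odd (root `q = s`): `comp s v = c • res I ws.sum`,
  `A = (range ws.length).image bs`; for `r < ws.length`: `res (cell A (bs r)) ws.sum = ws[r]` (the supports are in `[bs r, bs (r+1))`, `bs` strictly monotone), so the cells are in `C`; then again `res_sep`.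
  Other roots: `comp s v = 0`, `A = ∅`.
* `C.comp_zero`: merge: the data of the constructor (`comp 0 (pre 0 _) = _`), otherwise `0` = empty sum.
* `C.comp_odd`: odd: the data of the constructor; even root (parity), atom, merge (root 0 is not odd): `comp q v = 0`.
-/

set_option autoImplicit false

namespace H94.WH

open Finset

theorem CN2_list_sum (ws : List V) : ws.sum = ∑ i : Fin ws.length, ws[i] := by
  rw [← List.sum_ofFn]
  congr 1
  exact List.ofFn_getElem.symm

theorem CN2_mem_sum {ws : List V} {p : Atom} (h : p ∈ ws.sum.support) :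
    ∃ r, ∃ hr : r < ws.length, p ∈ (ws[r]).support := by
  classical
  rw [CN2_list_sum] at h
  have h1 := Finsupp.support_finsetSum h
  rw [Finset.mem_biUnion] at h1
  obtain ⟨i, _, hi⟩ := h1
  exact ⟨i, i.2, hi⟩

theorem CN2_cell {ws : List V} {bs : ℕ → ℕ} {q : ℕ} (hsp : Special q ws bs) {r : ℕ}
    (hr : r < ws.length) :
    res (cell ((Finset.range ws.length).image bs) (bs r)) ws.sum = ws[r] := by
  obtain ⟨hmono, -, hsupp, -⟩ := hsp
  rw [CN2_list_sum, res_sum, Finset.sum_eq_single (⟨r, hr⟩ : Fin ws.length)]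
  · apply res_eq_self
    intro p hp
    obtain ⟨h1, h2⟩ := hsupp r hr p hp
    refine ⟨h1, fun a' ha' hlt => ?_⟩
    rw [Finset.mem_image] at ha'
    obtain ⟨r', _, rfl⟩ := ha'
    have h3 : r < r' := hmono.lt_iff_lt.mp hlt
    exact lt_of_lt_of_le h2 (hmono.monotone h3)
  · intro i _ hi
    apply res_eq_zero
    rintro p hp ⟨h3, h4⟩
    obtain ⟨h1, h2⟩ := hsupp i i.2 p hp
    have hne : (i : ℕ) ≠ r := fun h => hi (Fin.ext h)
    rcases lt_or_gt_of_ne hne with h | h
    · have : bs (i + 1) ≤ bs r := hmono.monotone h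
      omega
    · have h5 := h4 (bs i) (Finset.mem_image.mpr ⟨i, Finset.mem_range.mpr i.2, rfl⟩) (hmono h)
      omega
  · intro h
    exact absurd (Finset.mem_univ _) h

/-- the trivial case of `C.cells` -/
theorem CN2_triv {v : V} {s : ℕ} (h0 : comp s v = 0) : ∃ A, Kset (nn s) A ∧
    (∀ p ∈ (comp s v).support, ∃ a ∈ A, a ≤ p.1) ∧
    ∀ J : Set ℕ, J.OrdConnected → Sep A J → C (H94.WH.res J (comp s v)) := by
  refine ⟨∅, Kset.empty _, ?_, ?_⟩
  · intro p hp
    rw [h0] at hp
    simp at hp
  · intro J _ _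
    rw [h0, res_zero]
    exact C.zero

/-- structure of an element of the cone with root symbol `s ≥ 1` -/
theorem C.cells {v : V} (h : C v) {s : ℕ} (hs : 1 ≤ s) : ∃ A, Kset (nn s) A ∧
    (∀ p ∈ (comp s v).support, ∃ a ∈ A, a ≤ p.1) ∧
    ∀ J : Set ℕ, J.OrdConnected → Sep A J → C (H94.WH.res J (comp s v)) := by
  classical
  cases h with
  | atom l c => exact CN2_triv (comp_single s l c)
  | even j hj hj2 v A hA hs' hv =>
    by_cases hsj : s = j
    · subst hsj
      rw [comp_pre]
      refine ⟨A, hA, hs', fun J hJ hsep => ?_⟩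
      rcases res_sep hs' hJ hsep with h1 | ⟨a, ha, h1⟩
      · rw [h1]
        exact C.zero
      · rw [h1]
        exact (hv a ha).res hJ
    · exact CN2_triv (comp_pre_ne hsj v)
  | odd q hq ws bs hsp hC I hI c =>
    by_cases hsq : s = q
    · subst hsq
      rw [H94.WH.comp_smul, comp_pre]
      set A : Finset ℕ := (Finset.range ws.length).image bs with hA
      have hs' : ∀ p ∈ (c • H94.WH.res I ws.sum).support, ∃ a ∈ A, a ≤ p.1 := by
        intro p hp
        have h1 : p ∈ (H94.WH.res I ws.sum).support := Finsupp.support_smul hp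
        obtain ⟨r, hr, h2⟩ := CN2_mem_sum (mem_res.mp h1).1
        exact ⟨bs r, Finset.mem_image.mpr ⟨r, Finset.mem_range.mpr hr, rfl⟩,
          (hsp.2.2.1 r hr p h2).1⟩
      refine ⟨A, hsp.2.1, hs', fun J hJ hsep => ?_⟩
      rcases res_sep hs' hJ hsep with h1 | ⟨a, ha, h1⟩
      · rw [h1]
        exact C.zero
      · rw [h1]
        rw [hA, Finset.mem_image] at ha
        obtain ⟨r, hr, rfl⟩ := ha
        have hr' := Finset.mem_range.mp hr
        have h2 : H94.WH.res (cell A (bs r)) (c • H94.WH.res I ws.sum) =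
            c • H94.WH.res I ws[r] := by
          rw [H94.WH.res_smul, res_res, Set.inter_comm, ← res_res, hA, CN2_cell hsp hr']
        rw [h2]
        exact ((hC _ (List.getElem_mem hr')).res hI).smul c |>.res hJ
    · refine CN2_triv ?_
      rw [H94.WH.comp_smul, comp_pre_ne hsq, smul_zero]
  | merge b N hN u hu hb =>
    exact CN2_triv (comp_pre_ne (by omega) _)

/-- structure of an element of the cone with root symbol `0` -/
theorem C.comp_zero {v : V} (h : C v) : ∃ (b N : ℕ) (u : Fin N → V), N ≤ g b ∧ (∀ i, C (u i)) ∧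
    (∀ i, ∀ p ∈ (u i).support, b ≤ p.1) ∧ comp 0 v = ∑ i, u i := by
  classical
  have triv : comp 0 v = 0 → ∃ (b N : ℕ) (u : Fin N → V), N ≤ g b ∧ (∀ i, C (u i)) ∧
    (∀ i, ∀ p ∈ (u i).support, b ≤ p.1) ∧ comp 0 v = ∑ i, u i := by
    intro h0
    refine ⟨0, 0, Fin.elim0, Nat.zero_le _, fun i => i.elim0, fun i => i.elim0, ?_⟩
    rw [h0]
    simp
  cases h with
  | atom l c => exact triv (comp_single 0 l c)
  | even j hj hj2 v A hA hs' hv => exact triv (comp_pre_ne (by omega) v)
  | odd q hq ws bs hsp hC I hI c =>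
    refine triv ?_
    have : (0 : ℕ) ≠ q := by
      rintro rfl
      exact absurd hq (by decide)
    rw [H94.WH.comp_smul, comp_pre_ne this, smul_zero]
  | merge b N hN u hu hb =>
    exact ⟨b, N, u, hN, hu, hb, comp_pre 0 _⟩

/-- structure of an element of the cone with odd root symbol `q` -/
theorem C.comp_odd {v : V} (h : C v) {q : ℕ} (hq : Odd q) : comp q v = 0 ∨
    ∃ (ws : List V) (bs : ℕ → ℕ) (I : Set ℕ) (c : ℚ), Special q ws bs ∧ (∀ w ∈ ws, C w) ∧
      I.OrdConnected ∧ comp q v = c • H94.WH.res I ws.sum := by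
  cases h with
  | atom l c => exact Or.inl (comp_single q l c)
  | even j hj hj2 v A hA hs' hv =>
    left
    apply comp_pre_ne
    rintro rfl
    exact (Nat.not_even_iff_odd.mpr hq) hj2
  | odd q' hq' ws bs hsp hC I hI c =>
    by_cases hqq : q = q'
    · subst hqq
      right
      refine ⟨ws, bs, I, c, hsp, hC, hI, ?_⟩
      rw [H94.WH.comp_smul, comp_pre]
    · left
      rw [H94.WH.comp_smul, comp_pre_ne hqq, smul_zero]
  | merge b N hN u hu hb =>
    left
    apply comp_pre_ne
    rintro rfl
    exact absurd hq (by decide)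

end H94.WH
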