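import Mathlib

/-!
# MP_96d438_an: a hereditarily indecomposable weak Hilbert space -- definitions
(paper proof: /team-store/H94_WH.md)
-/

set_option autoImplicit false

namespace H94.WH

open Finset

/-! ## Parameters -/

/-- growth function -/
def g (n : ℕ) : ℕ := 5 ^ (4 * n + 2)

/-- the (inverse) weights: `m 0 = 4`, `m 1 = 16`, `m (s+1) = m s ^ 2` -/
def m (s : ℕ) : ℕ := 2 ^ (2 ^ (s + 1))

/-- complexities -/
def nn (s : ℕ) : ℕ := 2 ^ ((s + 5) ^ 2)

/-! ## The families `K_n` -/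

/-- modified Schreier families of finite subsets of `ℕ` -/
def Kset : ℕ → Finset ℕ → Prop
  | 0, A => A.card ≤ 1
  | n + 1, A => ∃ (b N : ℕ) (F : Fin N → Finset ℕ), N ≤ g b ∧ (∀ i, Kset n (F i)) ∧
      (∀ a ∈ A, b ≤ a) ∧ A = Finset.univ.biUnion F

/-- `[a, next element of A after a)` -/
def cell (A : Finset ℕ) (a : ℕ) : Set ℕ := {l | a ≤ l ∧ ∀ a' ∈ A, a < a' → l < a'}

/-- `J` is separated from `A`: a point of `A` in `J` is the least element of `J` -/
def Sep (A : Finset ℕ) (J : Set ℕ) : Prop := ∀ a ∈ A, a ∈ J → ∀ j ∈ J, a ≤ j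

/-! ## Lifted functionals -/

/-- atoms: (position, path) -/
abbrev Atom : Type := ℕ × List ℕ

/-- lifted functionals -/
abbrev V : Type := Atom →₀ ℚ

/-- finitely supported sequences (`𝕜 = ℝ` or `ℂ`) -/
abbrev X0 (𝕜 : Type) [RCLike 𝕜] : Type := ℕ →₀ 𝕜

/-- weight of a path -/
noncomputable def wt (π : List ℕ) : ℝ := (π.map (fun s => ((m s : ℝ))⁻¹)).prod

/-- the functional with lift `v` -/
noncomputable def Phi {𝕜 : Type} [RCLike 𝕜] (v : V) (x : X0 𝕜) : 𝕜 :=
  v.sum (fun a c => (((c : ℝ) * wt a.2 : ℝ) : 𝕜) * x a.1)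

/-- the norm of the lift -/
noncomputable def nrm (v : V) : ℝ := Real.sqrt (∑ a ∈ v.support, (v a : ℝ) ^ 2)

open Classical in
/-- restriction to positions in `J` -/
noncomputable def res (J : Set ℕ) (v : V) : V := v.filter (fun a => a.1 ∈ J)

open Classical in
/-- restriction to the paths starting with a symbol in `S` -/
noncomputable def col (S : Set ℕ) (v : V) : V := v.filter (fun a => ∃ s ∈ S, a.2.head? = some s)

open Classical in
/-- the part on the empty path -/
noncomputable def leaf (v : V) : V := v.filter (fun a => a.2 = [])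

/-- put `s` in front of all paths -/
noncomputable def pre (s : ℕ) (v : V) : V := v.mapDomain (fun a => (a.1, s :: a.2))

/-- the atoms whose path starts with `s`, with `s` removed -/
noncomputable def comp (s : ℕ) (v : V) : V :=
  v.comapDomain (fun a => (a.1, s :: a.2)) (fun a _ b _ h => by
    simp only [Prod.mk.injEq, List.cons.injEq, true_and] at h
    exact Prod.ext h.1 h.2)

/-- restriction of a sequence to positions in `J` -/
noncomputable def resX {𝕜 : Type} [RCLike 𝕜] (J : Set ℕ) (x : X0 𝕜) : X0 𝕜 := by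
  classical exact x.filter (fun l => l ∈ J)

/-! ## The coding and the cone -/

theorem exists_code : ∃ f : List V → ℕ, Function.Injective f :=
  Countable.exists_injective_nat (List V)

/-- an injective coding of lists of lifted functionals by even numbers `≥ q + 2` -/
noncomputable def code (q : ℕ) (ws : List V) : ℕ := 2 * (Classical.choose exists_code ws + q + 1)

/-- `ws` is a special sequence for `q` with starting points `bs` (membership in the cone is a
separate condition) -/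
def Special (q : ℕ) (ws : List V) (bs : ℕ → ℕ) : Prop :=
  StrictMono bs ∧ Kset (nn q) ((Finset.range ws.length).image bs) ∧
  (∀ r (hr : r < ws.length), ∀ p ∈ (ws[r]).support, bs r ≤ p.1 ∧ p.1 < bs (r + 1)) ∧
  (∀ r (hr : r < ws.length), col {code q (ws.take r)} ws[r] = ws[r])

/-- the cone of lifted functionals -/
inductive C : V → Prop
  | atom (l : ℕ) (c : ℚ) : C (Finsupp.single (l, []) c)
  | even (j : ℕ) (hj : 1 ≤ j) (hj2 : Even j) (v : V) (A : Finset ℕ) (hA : Kset (nn j) A)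
      (hs : ∀ p ∈ v.support, ∃ a ∈ A, a ≤ p.1) (hv : ∀ a ∈ A, C (res (cell A a) v)) : C (pre j v)
  | odd (q : ℕ) (hq : Odd q) (ws : List V) (bs : ℕ → ℕ) (hsp : Special q ws bs)
      (hC : ∀ w ∈ ws, C w) (I : Set ℕ) (hI : I.OrdConnected) (c : ℚ) :
      C (c • pre q (res I ws.sum))
  | merge (b N : ℕ) (hN : N ≤ g b) (u : Fin N → V) (hu : ∀ i, C (u i))
      (hb : ∀ i, ∀ p ∈ (u i).support, b ≤ p.1) : C (pre 0 (∑ i, u i))

/-- the classes `G_d` -/
def G : ℕ → V → Prop
  | 0, v => C v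
  | d + 1, v => ∃ (b N : ℕ) (u : Fin N → V), N ≤ g b ∧ (∀ i, G d (u i)) ∧
      (∀ i, ∀ p ∈ (u i).support, b ≤ p.1) ∧ v = ∑ i, u i

/-- the norm on `c_00` -/
noncomputable def nor {𝕜 : Type} [RCLike 𝕜] (x : X0 𝕜) : ℝ :=
  sSup {t : ℝ | ∃ v, C v ∧ nrm v ≤ 1 ∧ t = ‖Phi v x‖}

/-! ## Blocks -/

/-- `l2 a B = (∑_{k ∈ B} a_k^2)^{1/2}` -/
noncomputable def l2 (a : ℕ → ℝ) (B : Finset ℕ) : ℝ := Real.sqrt (∑ k ∈ B, (a k) ^ 2)

/-- successive intervals `[lo k, hi k]`, `k < M` -/
def Ivals (M : ℕ) (lo hi : ℕ → ℕ) : Prop :=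
  (∀ k < M, lo k ≤ hi k) ∧ ∀ k, k + 1 < M → hi k < lo (k + 1)

/-- `Z` has nonzero vectors supported beyond every bound -/
def Far {𝕜 : Type} [RCLike 𝕜] (Z : Submodule 𝕜 (X0 𝕜)) : Prop := ∀ N : ℕ, ∃ z ∈ Z, z ≠ 0 ∧ ∀ l ∈ z.support, N < l

end H94.WH
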