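import Pool.Agent.H94.WH.GS

/-!
# definition of exact pairs (no proof needed)
-/

set_option autoImplicit false

namespace H94.WH

open Finset

variable {𝕜 : Type} [RCLike 𝕜]

/-- exact pair of weight `p` -/
structure Exact (p D : ℕ) (x : X0 𝕜) (u : V) (lo hi : ℕ) : Prop where
  hlh : lo ≤ hi
  hx : ∀ l ∈ x.support, lo ≤ l ∧ l ≤ hi
  hu : ∀ a ∈ u.support, lo ≤ a.1 ∧ a.1 ≤ hi
  hC : C u
  hn : nrm u ≤ 1
  hcol : col {p} u = u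
  hPhi : Phi u x = 1
  e1 : ∀ d ≤ D, ∀ v, G d v → ‖Phi v x‖ ≤ 100 * nrm v
  e2 : ∀ d ≤ D, ∀ v, G d v → ∀ s, 1 ≤ s → s < p → ‖Phi (col {s} v) x‖ ≤ 100 / m s * nrm v
  e3 : ∀ d ≤ D, ∀ v, G d v → ‖Phi (col {s | p < s} v) x‖ ≤ 100 / m p * nrm v

end H94.WH
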