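import Pool.Agent.H94.WH.EX0
import Pool.Agent.H94.WH.ED

/-!
# MODULE EX: existence of exact vectors (Lemma X, section 9)

`exists_exact`: `averages` at level `n = nn p - 1` (so `{lo} ∈ K_{nn p}`), `δ` small (depending on `p` only), items `(y, u, lo, hi, J)` : X0 × V × ℕ × ℕ × ℕ with
`R h c (y,u,lo,hi,J)`: `y ∈ Z`, supports of `y` and `u` in `[lo,hi]`, `lo ≤ hi`, `Good 5 (D+r) J' y` where J' is... NOTE: the window `[J k, J (k+1))` of `y_k` starts at `J k`, `y_k` is good for `J k`, and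
`J (k+1)` is chosen after `y_k`; so the item carries its own `J` (with `Good 5 (D+r) J y`), `J` is a function of the history: `J > p+1`, `J >` previous `J`, `m J ≥ 4 m_{p+1} ∑|y_prev|`.
`u`: `exists_norming` with `c = 1/4 < 1/2 ≤ nor y`, and multiply `y` by a scalar of absolute value 1 so that `Phi u y` is a real number `≥ 1/4` (`Good` and `nor` do not change). `hR` from `base` (choose `J` first, then `y`). `u_total = pre p (∑ c_k • u_k) ∈ C` (constructor `even` with `A = {lo k}`), `nrm ≤ 1`,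
`Phi u_total x' = ∑ c_k^2 Phi u_k y_k ≥ 1/4`; `x = x' / Phi u_total x'`.
-/

set_option autoImplicit false

namespace H94.WH

open Finset

variable {𝕜 : Type} [RCLike 𝕜]

/-- items -/
structure EX_Item (𝕜 : Type) [RCLike 𝕜] where
  y : X0 𝕜
  u : V
  lo : ℕ
  hi : ℕ
  J : ℕ
  hlh : lo ≤ hi

instance : Inhabited (EX_Item 𝕜) := ⟨⟨0, 0, 0, 0, 0, le_rfl⟩⟩

/-- the rule -/
def EX_R (p D : ℕ) (Z : Submodule 𝕜 (X0 𝕜)) (h : List (EX_Item 𝕜 × ℚ)) (_c : ℚ) (t : EX_Item 𝕜) : Prop :=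
  t.y ∈ Z ∧ (∀ l ∈ t.y.support, t.lo ≤ l ∧ l ≤ t.hi) ∧ (∀ a ∈ t.u.support, t.lo ≤ a.1 ∧ a.1 ≤ t.hi) ∧
  C t.u ∧ nrm t.u ≤ 1 ∧ (∃ ρ : ℝ, 1 / 4 ≤ ρ ∧ Phi t.u t.y = (ρ : 𝕜)) ∧ Good 5 (D + 2 ^ (p + 1)) t.J t.y ∧
  p + 1 < t.J ∧ ∀ e ∈ h, e.1.J < t.J ∧ 4 * (m (p + 1) : ℝ) * ∑ l ∈ e.1.y.support, ‖e.1.y l‖ ≤ m t.J

theorem EX_chooseJ (p : ℕ) (h : List (EX_Item 𝕜 × ℚ)) : ∃ J : ℕ, p + 1 < J ∧
    ∀ e ∈ h, e.1.J < J ∧ 4 * (m (p + 1) : ℝ) * ∑ l ∈ e.1.y.support, ‖e.1.y l‖ ≤ m J := by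
  induction h with
  | nil => exact ⟨p + 2, by omega, by simp⟩
  | cons e h ih =>
    obtain ⟨J, hJ1, hJ2⟩ := ih
    obtain ⟨s, hs⟩ := exists_m_ge (4 * (m (p + 1) : ℝ) * ∑ l ∈ e.1.y.support, ‖e.1.y l‖)
    refine ⟨max J (max (e.1.J + 1) s), by omega, ?_⟩
    intro e' he'
    rcases List.mem_cons.1 he' with rfl | he'
    · refine ⟨by omega, hs.trans ?_⟩
      have : m s ≤ m (max J (max (e'.1.J + 1) s)) := m_strictMono.monotone (by omega)
      exact_mod_cast this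
    · obtain ⟨h1, h2⟩ := hJ2 e' he'
      refine ⟨by omega, h2.trans ?_⟩
      have : m J ≤ m (max J (max (e.1.J + 1) s)) := m_strictMono.monotone (by omega)
      exact_mod_cast this

theorem EX_unimod (w : 𝕜) (hw : 0 < ‖w‖) : ∃ z : 𝕜, ‖z‖ = 1 ∧ z * w = ((‖w‖ : ℝ) : 𝕜) := by
  refine ⟨(starRingEnd 𝕜) w * (((‖w‖)⁻¹ : ℝ) : 𝕜), ?_, ?_⟩
  · rw [norm_mul, RCLike.norm_conj, RCLike.norm_ofReal, abs_of_pos (inv_pos.2 hw), mul_inv_cancel₀ hw.ne']
  · have h1 : (starRingEnd 𝕜) w * w = ((‖w‖ ^ 2 : ℝ) : 𝕜) := by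
      rw [RCLike.conj_mul]; norm_cast
    rw [mul_right_comm, h1, ← RCLike.ofReal_mul]
    congr 1
    field_simp

theorem EX_hR (p D : ℕ) {Z : Submodule 𝕜 (X0 𝕜)} (hZ : Far Z) (h : List (EX_Item 𝕜 × ℚ)) (c : ℚ) (N : ℕ) :
    ∃ t : EX_Item 𝕜, EX_R p D Z h c t ∧ N < t.lo := by
  obtain ⟨J, hJ1, hJ2⟩ := EX_chooseJ p h
  obtain ⟨y, hyZ, hgood, hnor, hsup⟩ := base hZ (D + 2 ^ (p + 1)) J N
  obtain ⟨hi, hhi1, hhi2⟩ : ∃ hi : ℕ, N + 1 ≤ hi ∧ ∀ l ∈ y.support, l ≤ hi :=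
    ⟨max (N + 1) (y.support.sup id), le_max_left _ _,
      fun l hl => le_max_of_le_right (Finset.le_sup (f := id) hl)⟩
  have hJc : (Set.Icc (N + 1) hi).OrdConnected := Set.ordConnected_Icc
  obtain ⟨u, hu1, hu2, hu3, hu4⟩ := exists_norming hJc (x := y)
    (fun l hl => ⟨hsup l hl, hhi2 l hl⟩) (c := 1 / 4) (by linarith)
  obtain ⟨z, hz1, hz2⟩ := EX_unimod (Phi u y) (by linarith)
  refine ⟨⟨z • y, u, N + 1, hi, J, hhi1⟩, ⟨Z.smul_mem z hyZ, ?_, fun a ha => hu3 a ha, hu1, hu2,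
    ⟨‖Phi u y‖, hu4.le, ?_⟩, ?_, hJ1, hJ2⟩, Nat.lt_succ_self _⟩
  · intro l hl
    have : l ∈ y.support := Finsupp.support_smul hl
    exact ⟨hsup l this, hhi2 l this⟩
  · show Phi u (z • y) = _
    rw [Phi_smul_right, hz2]
  · intro d hd v hv
    have hh := hgood d hd v hv
    simp only [Phi_smul_right, norm_mul, hz1, one_mul]
    exact hh

theorem EX_ivals {M : ℕ} {lo hi : ℕ → ℕ} (hI : Ivals M lo hi) {i j : ℕ} (hij : i < j) (hj : j < M) :
    hi i < lo j := by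
  induction j with
  | zero => omega
  | succ j ih =>
    rcases Nat.lt_succ_iff_lt_or_eq.1 hij with h | rfl
    · have h1 := ih h (by omega)
      have h2 := hI.1 j (by omega)
      have h3 := hI.2 j hj
      omega
    · exact hI.2 i hj

theorem EX_lo_le {M : ℕ} {lo hi : ℕ → ℕ} (hI : Ivals M lo hi) {i j : ℕ} (hij : i ≤ j) (hj : j < M) :
    lo i ≤ lo j := by
  rcases Nat.lt_or_eq_of_le hij with h | rfl
  · have := EX_ivals hI h hj
    have := hI.1 i (by omega)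
    omega
  · exact le_rfl

theorem EX_hi_le {M : ℕ} {lo hi : ℕ → ℕ} (hI : Ivals M lo hi) {i j : ℕ} (hij : i ≤ j) (hj : j < M) :
    hi i ≤ hi j := by
  rcases Nat.lt_or_eq_of_le hij with h | rfl
  · have := EX_ivals hI h hj
    have := hI.1 j hj
    omega
  · exact le_rfl

theorem EX_res_cell {M : ℕ} {lo hi : ℕ → ℕ} (hI : Ivals M lo hi) (u : ℕ → V) (c : ℕ → ℚ)
    (hu : ∀ k < M, ∀ a ∈ (u k).support, lo k ≤ a.1 ∧ a.1 ≤ hi k) {k : ℕ} (hk : k < M) :
    res (cell ((Finset.range M).image lo) (lo k)) (∑ i ∈ Finset.range M, c i • u i) = c k • u k := by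
  rw [res_sum, Finset.sum_eq_single_of_mem k (Finset.mem_range.2 hk)]
  · rw [res_smul, res_eq_self]
    intro p hp
    have h1 := hu k hk p hp
    refine ⟨h1.1, ?_⟩
    intro a' ha' hlt
    obtain ⟨j, hj, rfl⟩ := Finset.mem_image.1 ha'
    have hj' := Finset.mem_range.1 hj
    have hkj : k < j := by
      by_contra hcon
      have := EX_lo_le hI (not_lt.1 hcon) hk
      omega
    have := EX_ivals hI hkj hj'
    omega
  · intro i hi' hik
    have hi'' := Finset.mem_range.1 hi'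
    rw [res_smul, res_eq_zero, smul_zero]
    intro p hp hmem
    have h1 := hu i hi'' p hp
    rcases Nat.lt_or_gt_of_ne hik with h | h
    · have h2 := EX_ivals hI h hk
      have h3 := hmem.1
      omega
    · have h2 := EX_ivals hI h hi''
      have h2' := hI.1 k hk
      have h3 := hmem.2 (lo i) (Finset.mem_image_of_mem _ hi') (by omega)
      omega

theorem EX_disj {M : ℕ} {lo hi : ℕ → ℕ} (hI : Ivals M lo hi) {i j : ℕ} (hi' : i < M) (hj : j < M) (hij : i ≠ j)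
    {l : ℕ} (h1 : lo i ≤ l ∧ l ≤ hi i) (h2 : lo j ≤ l ∧ l ≤ hi j) : False := by
  rcases Nat.lt_or_gt_of_ne hij with h | h
  · have := EX_ivals hI h hj
    omega
  · have := EX_ivals hI h hi'
    omega

theorem EX_final {p : ℕ} (hp : 2 ≤ p) (hpe : Even p) {D : ℕ} {Z : Submodule 𝕜 (X0 𝕜)} {M : ℕ} (hM : 0 < M)
    {lo hi : ℕ → ℕ} (hI : Ivals M lo hi) (y : ℕ → X0 𝕜) (u : ℕ → V) (c : ℕ → ℚ) (ρ : ℕ → ℝ)
    (hyZ : ∀ k < M, y k ∈ Z) (hy : ∀ k < M, ∀ l ∈ (y k).support, lo k ≤ l ∧ l ≤ hi k)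
    (hu : ∀ k < M, ∀ a ∈ (u k).support, lo k ≤ a.1 ∧ a.1 ≤ hi k)
    (hC : ∀ k < M, C (u k)) (hn : ∀ k < M, nrm (u k) ≤ 1) (hρ : ∀ k < M, 1 / 4 ≤ ρ k ∧ Phi (u k) (y k) = (ρ k : 𝕜))
    (hc : ∑ k ∈ Finset.range M, (c k) ^ 2 = 1) (hK : Kset (nn p) ((Finset.range M).image lo))
    (hest : ∀ d ≤ D, ∀ v, G d v →
      ‖Phi v ((m p : ℝ) • ∑ k ∈ Finset.range M, (c k : ℝ) • y k)‖ ≤ 17 * nrm v ∧
      (∀ s, 1 ≤ s → s < p → ‖Phi (col {s} v) ((m p : ℝ) • ∑ k ∈ Finset.range M, (c k : ℝ) • y k)‖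
        ≤ 17 / m s * nrm v) ∧
      ‖Phi (col {s | p < s} v) ((m p : ℝ) • ∑ k ∈ Finset.range M, (c k : ℝ) • y k)‖ ≤ 12 / m p * nrm v) :
    ∃ x u', x ∈ Z ∧ Exact p D x u' (lo 0) (hi (M - 1)) := by
  classical
  set x' : X0 𝕜 := (m p : ℝ) • ∑ k ∈ Finset.range M, (c k : ℝ) • y k with hx'
  set w : V := ∑ i ∈ Finset.range M, c i • u i with hw
  have hcR : ∑ k ∈ Finset.range M, (c k : ℝ) ^ 2 = 1 := by
    have := congrArg (fun q : ℚ => (q : ℝ)) hc
    push_cast at this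
    exact this
  have hreal : ∀ (r : ℝ) (x : X0 𝕜), r • x = (r : 𝕜) • x := fun r x => RCLike.real_smul_eq_coe_smul r x
  -- membership
  have hx'Z : x' ∈ Z := by
    rw [hx', hreal]
    apply Z.smul_mem
    apply Z.sum_mem
    intro k hk
    rw [hreal]
    exact Z.smul_mem _ (hyZ k (Finset.mem_range.1 hk))
  have hxsupp : ∀ l ∈ x'.support, lo 0 ≤ l ∧ l ≤ hi (M - 1) := by
    intro l hl
    rw [hx'] at hl
    have h1 := Finsupp.support_smul hl
    have h2 := Finsupp.support_finsetSum h1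
    obtain ⟨k, hk, hl2⟩ := Finset.mem_biUnion.1 h2
    have hk' := Finset.mem_range.1 hk
    have h3 := hy k hk' l (Finsupp.support_smul hl2)
    exact ⟨(EX_lo_le hI (Nat.zero_le k) hk').trans h3.1, h3.2.trans (EX_hi_le hI (by omega) (by omega))⟩
  have hwsupp : ∀ a ∈ w.support, ∃ k < M, lo k ≤ a.1 ∧ a.1 ≤ hi k := by
    intro a ha
    rw [hw] at ha
    have h2 := Finsupp.support_finsetSum ha
    obtain ⟨k, hk, hl2⟩ := Finset.mem_biUnion.1 h2
    have hk' := Finset.mem_range.1 hk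
    exact ⟨k, hk', hu k hk' a (Finsupp.support_smul hl2)⟩
  have hwC : C (pre p w) := by
    refine C.even p (by omega) hpe w _ hK ?_ ?_
    · intro a ha
      obtain ⟨k, hk, h1, -⟩ := hwsupp a ha
      exact ⟨lo k, Finset.mem_image_of_mem _ (Finset.mem_range.2 hk), h1⟩
    · intro a ha
      obtain ⟨k, hk, rfl⟩ := Finset.mem_image.1 ha
      have hk' := Finset.mem_range.1 hk
      rw [hw, EX_res_cell hI u c hu hk']
      exact C.smul _ (hC k hk')
  have hnw : nrm (pre p w) ≤ 1 := by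
    rw [nrm_pre]
    have h1 : nrm w ^ 2 = ∑ k ∈ Finset.range M, nrm (c k • u k) ^ 2 := by
      rw [hw]
      refine nrm_sum_sq (Finset.range M) (fun k => Set.Icc (lo k) (hi k)) ?_ _ ?_
      · intro i hi' j hj hij
        rw [Set.disjoint_left]
        intro l h1 h2
        exact EX_disj hI (Finset.mem_range.1 hi') (Finset.mem_range.1 hj) hij h1 h2
      · intro k hk a ha
        exact hu k (Finset.mem_range.1 hk) a (Finsupp.support_smul ha)
    have h2 : nrm w ^ 2 ≤ 1 := by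
      rw [h1, ← hcR]
      refine Finset.sum_le_sum fun k hk => ?_
      rw [nrm_smul, mul_pow, sq_abs]
      have h3 := hn k (Finset.mem_range.1 hk)
      have h4 := nrm_nonneg (u k)
      have h5 : nrm (u k) ^ 2 ≤ 1 := by nlinarith
      nlinarith [sq_nonneg (c k : ℝ)]
    nlinarith [nrm_nonneg w]
  -- the value
  obtain ⟨r, hr⟩ : ∃ r : ℝ, r = ∑ k ∈ Finset.range M, (c k : ℝ) ^ 2 * ρ k := ⟨_, rfl⟩
  have hr4 : 1 / 4 ≤ r := by
    have h1 : ∑ k ∈ Finset.range M, (c k : ℝ) ^ 2 * (1 / 4) ≤ ∑ k ∈ Finset.range M, (c k : ℝ) ^ 2 * ρ k :=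
      Finset.sum_le_sum fun k hk =>
        mul_le_mul_of_nonneg_left (hρ k (Finset.mem_range.1 hk)).1 (sq_nonneg _)
    rw [← Finset.sum_mul, hcR, one_mul] at h1
    rw [hr]; exact h1
  have hr0 : 0 < r := by linarith
  have hval : Phi (pre p w) x' = (r : 𝕜) := by
    rw [Phi_pre, hx', Phi_smul_real, ← mul_assoc, ← RCLike.ofReal_mul, inv_mul_cancel₀ (m_pos p).ne',
      RCLike.ofReal_one, one_mul, hw, Phi_sum_left, hr]
    push_cast
    refine Finset.sum_congr rfl fun i hi' => ?_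
    have hi'' := Finset.mem_range.1 hi'
    rw [Phi_smul_left, Phi_sum_right, Finset.sum_eq_single_of_mem i hi']
    · rw [Phi_smul_real, (hρ i hi'').2]
      push_cast
      ring
    · intro j hj hji
      have hj' := Finset.mem_range.1 hj
      rw [Phi_smul_real, Phi_eq_zero_of_disj, mul_zero]
      intro a ha hmem
      exact EX_disj hI hj' hi'' hji (hy j hj' _ hmem) (hu i hi'' a ha)
  have hsc : ∀ v : V, ‖Phi v ((r⁻¹ : ℝ) • x')‖ ≤ 4 * ‖Phi v x'‖ := by
    intro v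
    rw [Phi_smul_real, norm_mul, RCLike.norm_ofReal, abs_of_pos (inv_pos.2 hr0)]
    have h1 : r⁻¹ ≤ 4 := by
      rw [inv_le_comm₀ hr0 (by norm_num)]
      linarith
    exact mul_le_mul_of_nonneg_right h1 (norm_nonneg _)
  refine ⟨(r⁻¹ : ℝ) • x', pre p w, ?_, ?_⟩
  · rw [hreal]; exact Z.smul_mem _ hx'Z
  · refine ⟨(EX_lo_le hI (Nat.zero_le _) (by omega)).trans (hI.1 (M - 1) (by omega)), ?_, ?_, hwC, hnw,
      col_pre_mem (Set.mem_singleton p) w, ?_, ?_, ?_, ?_⟩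
    · intro l hl
      exact hxsupp l (Finsupp.support_smul hl)
    · intro a ha
      obtain ⟨q, hq, rfl⟩ := mem_pre.1 ha
      obtain ⟨k, hk, h1, h2⟩ := hwsupp q hq
      exact ⟨(EX_lo_le hI (Nat.zero_le k) hk).trans h1, h2.trans (EX_hi_le hI (by omega) (by omega))⟩
    · rw [Phi_smul_real, hval, ← RCLike.ofReal_mul, inv_mul_cancel₀ hr0.ne', RCLike.ofReal_one]
    · intro d hd v hv
      have h1 := (hest d hd v hv).1
      have h2 := hsc v
      have h3 := nrm_nonneg v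
      linarith
    · intro d hd v hv s hs1 hs2
      have h1 := (hest d hd v hv).2.1 s hs1 hs2
      have h2 := hsc (col {s} v)
      have h3 := nrm_nonneg v
      have h4 := m_pos s
      have h5 : 4 * (17 / (m s : ℝ) * nrm v) ≤ 100 / m s * nrm v := by
        have : (100 / (m s : ℝ)) * nrm v - 4 * (17 / (m s : ℝ) * nrm v) = 32 / m s * nrm v := by ring
        have h6 : 0 ≤ 32 / (m s : ℝ) * nrm v := by positivity
        linarith
      linarith
    · intro d hd v hv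
      have h1 := (hest d hd v hv).2.2
      have h2 := hsc (col {s | p < s} v)
      have h3 := nrm_nonneg v
      have h4 := m_pos p
      have h5 : 4 * (12 / (m p : ℝ) * nrm v) ≤ 100 / m p * nrm v := by
        have : (100 / (m p : ℝ)) * nrm v - 4 * (12 / (m p : ℝ) * nrm v) = 52 / m p * nrm v := by ring
        have h6 : 0 ≤ 52 / (m p : ℝ) * nrm v := by positivity
        linarith
      linarith

theorem exists_exact {p : ℕ} (hp : 2 ≤ p) (hpe : Even p) {D : ℕ} (hD : D ≤ nn (p - 1))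
    {Z : Submodule 𝕜 (X0 𝕜)} (hZ : Far Z) (N : ℕ) :
    ∃ x u lo hi, x ∈ Z ∧ N < lo ∧ Exact p D x u lo hi := by
  classical
  obtain ⟨b0, hb0⟩ := exists_le_g (p + 5)
  have hYY : 0 ≤ YY p 5 0 := by unfold YY; positivity
  obtain ⟨κ, hκ⟩ : ∃ κ : ℝ, κ = (m p : ℝ) ^ 2 * (YY p 5 0 + 5) := ⟨_, rfl⟩
  have hκ0 : 0 < κ := by
    rw [hκ]
    have := m_pos p
    positivity
  obtain ⟨M, t, c, hM, hc0, hR, hN, hsucc, hc, hKhi, hKlo, hsm⟩ := averages (T := EX_Item 𝕜) (fun t => t.lo)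
    (fun t => t.hi) (fun t => t.hlh) (EX_R p D Z) (fun h c N _ => EX_hR p D hZ h c N) (nn p - 1) ((κ⁻¹) ^ 2)
    (by positivity) (max N b0)
  have h1nn : nn p - 1 + 1 = nn p := Nat.sub_add_cancel (one_le_nn p)
  rw [h1nn] at hKlo
  have hI : Ivals M (fun k => (t k).lo) (fun k => (t k).hi) := ⟨fun k _ => (t k).hlh, hsucc⟩
  -- the function J
  obtain ⟨JM, hJM1, hJM2⟩ := EX_chooseJ (𝕜 := 𝕜) p [(t (M - 1), (1 : ℚ))]
  have hJM2' := hJM2 (t (M - 1), 1) (by simp)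
  have hstep : ∀ k, k + 1 < M → (t k).J < (t (k + 1)).J ∧
      4 * (m (p + 1) : ℝ) * ∑ l ∈ (t k).y.support, ‖(t k).y l‖ ≤ m (t (k + 1)).J := by
    intro k hk
    obtain ⟨-, -, -, -, -, -, -, -, h9⟩ := hR (k + 1) hk
    exact h9 (t k, c k) (List.mem_map.2 ⟨k, List.mem_range.2 (by omega), rfl⟩)
  choose! ρ hρ using fun k (hk : k < M) => (hR k hk).2.2.2.2.2.1
  have hest := fun d (hd : d ≤ D) v (hv : G d v) => ris_estimates (𝕜 := 𝕜) hp hD hM hI
    (y := fun k => (t k).y) (fun k => (c k : ℝ)) (fun k => if k < M then (t k).J else JM + (k - M))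
    (fun k hk => (hR k hk).2.1)
    (fun k hk => by
      simp only [hk, if_true]
      exact (hR k hk).2.2.2.2.2.2.1)
    (by
      simp only [hM, if_true]
      exact (hR 0 hM).2.2.2.2.2.2.2.1)
    (fun k => by
      rcases lt_trichotomy (k + 1) M with h | h | h
      · have h' : k < M := by omega
        simp only [h, h', if_true]
        exact (hstep k h).1
      · have h' : k < M := by omega
        have h'' : ¬ (k + 1 < M) := by omega
        have h3 : k = M - 1 := by omega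
        simp only [h', h'', if_true, if_false]
        rw [h3]
        have := hJM2'.1
        simp only at this
        omega
      · have h' : ¬ (k < M) := by omega
        have h'' : ¬ (k + 1 < M) := by omega
        simp only [h', h'', if_false]
        omega)
    (fun k hk => by
      rcases Nat.lt_or_ge (k + 1) M with h | h
      · simp only [h, if_true]
        exact (hstep k h).2
      · have h'' : ¬ (k + 1 < M) := by omega
        have h3 : k = M - 1 := by omega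
        have h4 : k + 1 - M = 0 := by omega
        simp only [h'', if_false, h4, add_zero]
        rw [h3]
        exact hJM2'.2)
    (hb0.trans (g_mono ((le_max_right N b0).trans hN.le)))
    (δ := (κ⁻¹) ^ 2) (by positivity)
    (by
      rw [Real.sqrt_sq (by positivity), ← hκ, mul_inv_cancel₀ hκ0.ne'])
    (by
      have := congrArg (fun q : ℚ => (q : ℝ)) hc
      push_cast at this
      exact this)
    hsm hd hv
  obtain ⟨x, u', hxZ, hE⟩ := EX_final hp hpe hM hI (fun k => (t k).y) (fun k => (t k).u) c ρ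
    (fun k hk => (hR k hk).1) (fun k hk => (hR k hk).2.1) (fun k hk => (hR k hk).2.2.1)
    (fun k hk => (hR k hk).2.2.2.1) (fun k hk => (hR k hk).2.2.2.2.1) hρ hc hKlo hest
  exact ⟨x, u', _, _, hxZ, lt_of_le_of_lt (le_max_left _ _) hN, hE⟩

end H94.WH
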