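import Pool.Agent.H94.WH.IS0

/-!
# MODULE IS: the main estimate (Lemma IS, section 7)

`XX r = Cc * (1/2)^r + 2 (xq + xt)`, `YY = 2 ((q+2) Cc + yq)`. Induction on `r` (for all `d`, `v`, `α β`).
`r = 0`: `B = ∅`; term by term: `‖Phi v (x k)‖ = ‖Phi (res [lo k,hi k] v) (x k)‖ ≤ Cc nrm (res ..)`, `sum_abs_mul_nrm_le`. `cc q 0 d = 0`.
Step `r → r+1`: `Phi_split q`:
 * leaf: `leaf_term`;
 * `col {0} v`: `Phi (col {0} v) x = (m 0)⁻¹ Phi (comp 0 v) x`, `comp 0 v ∈ G (d+1)` (`G.comp_zero`), induction hypothesis with `d+1` (`(d+1)+r ≤ D`), `cc q r (d+1)`;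
 * `col {s} v`, `1 ≤ s < q`: `descend` with `X = XX r`, `Y = YY`, `C1 = Cc`, `c = cc q r d`: `B_s.image hi ∈ K_{nn s + d + cc q r d + 1}`, `nn s ≤ nn (q-1)`;
 * `col {q} v`: `hq`;
 * `col {s | q < s} v`: `tail_term`.
`B` = union of the at most `q + 3 ≤ g (lo 0)` sets; all `hi k ≥ lo 0`; `Kset.succ_finset`, `cc_step0`, `cc_stepS`, `cc_stepQ`.
Coefficients: `l2 a (Ico α β)`: `XX r * ∑_{s<q} 1/m_s + xq + xt ≤ XX r / 2 + xq + xt = XX (r+1)`; `l2 a B`: `Cc + YY ∑_{s<q} 1/m_s + (q-1) Cc + yq + Cc ≤ YY`.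
-/

set_option autoImplicit false

namespace H94.WH

open Finset

variable {𝕜 : Type} [RCLike 𝕜]

/-- coefficient of the main term -/
noncomputable def XX (Cc xq xt : ℝ) (r : ℕ) : ℝ := Cc * (2 : ℝ)⁻¹ ^ r + 2 * (xq + xt)
/-- coefficient of the small set -/
noncomputable def YY (q : ℕ) (Cc yq : ℝ) : ℝ := 2 * (((q : ℝ) + 2) * Cc + yq)

private theorem IS_ivals_lt {M : ℕ} {lo hi : ℕ → ℕ} (hI : Ivals M lo hi) {i j : ℕ} (hij : i < j) (hj : j < M) :
    hi i < lo j := by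
  induction j with
  | zero => omega
  | succ j ihj =>
    rcases Nat.lt_succ_iff_lt_or_eq.mp hij with h | h
    · have h1 := ihj h (by omega)
      have h2 := hI.1 j (by omega)
      have h3 := hI.2 j hj
      omega
    · subst h; exact hI.2 i hj

private theorem IS_lo0_le {M : ℕ} {lo hi : ℕ → ℕ} (hI : Ivals M lo hi) {k : ℕ} (hk : k < M) :
    lo 0 ≤ hi k := by
  rcases Nat.eq_zero_or_pos k with h | h
  · subst h; exact hI.1 0 hk
  · have h1 := IS_ivals_lt hI h hk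
    have h2 := hI.1 0 (by omega)
    have h3 := hI.1 k hk
    omega

private theorem IS_XX_nonneg {Cc xq xt : ℝ} (hCc : 0 ≤ Cc) (hxq : 0 ≤ xq) (hxt : 0 ≤ xt) (r : ℕ) :
    0 ≤ XX Cc xq xt r := by
  unfold XX
  have : (0:ℝ) ≤ (2 : ℝ)⁻¹ ^ r := by positivity
  nlinarith [mul_nonneg hCc this]

private theorem IS_YY_nonneg {q : ℕ} {Cc yq : ℝ} (hCc : 0 ≤ Cc) (hyq : 0 ≤ yq) : 0 ≤ YY q Cc yq := by
  unfold YY
  positivity

private theorem IS_base {M : ℕ} {lo hi : ℕ → ℕ} (hI : Ivals M lo hi) {x : ℕ → X0 𝕜} (a : ℕ → ℝ)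
    (hx : ∀ k < M, ∀ l ∈ (x k).support, lo k ≤ l ∧ l ≤ hi k) {d : ℕ} {Cc : ℝ} (hCc : 0 ≤ Cc)
    (h1 : ∀ k < M, ∀ v, G d v → ‖Phi v (x k)‖ ≤ Cc * nrm v)
    {v : V} (hv : G d v) {α β : ℕ} (hβ : β ≤ M) :
    ‖Phi v (∑ k ∈ Finset.Ico α β, a k • x k)‖ ≤ nrm v * (Cc * l2 a (Finset.Ico α β)) := by
  have hM : ∀ k ∈ Finset.Ico α β, k < M := fun k hk => lt_of_lt_of_le (Finset.mem_Ico.mp hk).2 hβ
  rw [Phi_sum_right]
  refine (norm_sum_le _ _).trans ?_
  have hterm : ∀ k ∈ Finset.Ico α β, ‖Phi v (a k • x k)‖ ≤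
      Cc * (|a k| * nrm (res (Set.Icc (lo k) (hi k)) v)) := by
    intro k hk
    rw [Phi_smul_real, norm_mul]
    have hr : Phi (res (Set.Icc (lo k) (hi k)) v) (x k) = Phi v (x k) :=
      Phi_res v (x k) (fun l hl => ⟨(hx k (hM k hk) l hl).1, (hx k (hM k hk) l hl).2⟩)
    rw [← hr]
    have h := h1 k (hM k hk) _ (G.res hv (J := Set.Icc (lo k) (hi k)) Set.ordConnected_Icc)
    have hn : ‖((a k : ℝ) : 𝕜)‖ = |a k| := RCLike.norm_ofReal _
    rw [hn]
    calc |a k| * ‖Phi (res (Set.Icc (lo k) (hi k)) v) (x k)‖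
        ≤ |a k| * (Cc * nrm (res (Set.Icc (lo k) (hi k)) v)) :=
          mul_le_mul_of_nonneg_left h (abs_nonneg _)
      _ = _ := by ring
  refine (Finset.sum_le_sum hterm).trans ?_
  rw [← Finset.mul_sum]
  have hd : ∀ i ∈ Finset.Ico α β, ∀ j ∈ Finset.Ico α β, i ≠ j →
      Disjoint (Set.Icc (lo i) (hi i)) (Set.Icc (lo j) (hi j)) := by
    intro i hi' j hj' hij
    rw [Set.disjoint_left]
    intro l hl1 hl2
    rcases lt_or_gt_of_ne hij with h | h
    · have := IS_ivals_lt hI h (hM j hj')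
      have h1 := hl1.2
      have h2 := hl2.1
      omega
    · have := IS_ivals_lt hI h (hM i hi')
      have h1 := hl2.2
      have h2 := hl1.1
      omega
  have h2 := sum_abs_mul_nrm_le (Finset.Ico α β) (fun k => Set.Icc (lo k) (hi k)) hd v a
  calc Cc * ∑ k ∈ Finset.Ico α β, |a k| * nrm (res (Set.Icc (lo k) (hi k)) v)
      ≤ Cc * (nrm v * l2 a (Finset.Ico α β)) := mul_le_mul_of_nonneg_left h2 hCc
    _ = _ := by ring

/-- arithmetic of the step -/
private theorem IS_arith {q : ℕ} (hq1 : 1 ≤ q) {Cc xq yq xt N L Lb : ℝ} (hCc : 0 ≤ Cc) (hyq : 0 ≤ yq)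
    (hxq : 0 ≤ xq) (hxt : 0 ≤ xt) (hN : 0 ≤ N) (hL : 0 ≤ L) (hLb : 0 ≤ Lb) (r : ℕ) :
    N * (Cc * Lb) + (m 0 : ℝ)⁻¹ * (N * (XX Cc xq xt r * L + YY q Cc yq * Lb)) +
      ∑ s ∈ Finset.Ico 1 q, N * (XX Cc xq xt r / m s * L + (YY q Cc yq / m s + Cc) * Lb) +
      N * (xq * L + yq * Lb) + N * (xt * L + Cc * Lb) ≤
    N * (XX Cc xq xt (r + 1) * L + YY q Cc yq * Lb) := by
  have hX := IS_XX_nonneg hCc hxq hxt r
  have hY := IS_YY_nonneg (q := q) hCc hyq
  set X := XX Cc xq xt r with hXdef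
  set Y := YY q Cc yq with hYdef
  set T : ℝ := ∑ s ∈ Finset.Ico 1 q, ((m s : ℝ))⁻¹ with hT
  have hsum : ∑ s ∈ Finset.Ico 1 q, N * (X / m s * L + (Y / m s + Cc) * Lb) =
      N * ((X * L + Y * Lb) * T + ((q : ℝ) - 1) * (Cc * Lb)) := by
    have : ∀ s ∈ Finset.Ico 1 q, N * (X / m s * L + (Y / m s + Cc) * Lb) =
        N * (X * L + Y * Lb) * ((m s : ℝ))⁻¹ + N * (Cc * Lb) := by
      intro s _
      rw [div_eq_mul_inv, div_eq_mul_inv]; ring
    rw [Finset.sum_congr rfl this, Finset.sum_add_distrib, ← Finset.mul_sum, Finset.sum_const,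
      Nat.card_Ico, nsmul_eq_mul, Nat.cast_sub hq1]
    push_cast
    ring
  have hS : (m 0 : ℝ)⁻¹ + T ≤ 1 / 2 := by
    have h := sum_inv_m_le q
    rw [Finset.range_eq_Ico, Finset.sum_eq_sum_Ico_succ_bot (by omega : 0 < q)] at h
    simpa using h
  rw [hsum]
  have hXX : XX Cc xq xt (r + 1) = X / 2 + xq + xt := by
    rw [hXdef]; unfold XX; rw [pow_succ]; ring
  have hYY : Y = 2 * (((q : ℝ) + 2) * Cc + yq) := rfl
  rw [hXX]
  have e1 : N * (Cc * Lb) + (m 0 : ℝ)⁻¹ * (N * (X * L + Y * Lb)) +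
      N * ((X * L + Y * Lb) * T + ((q : ℝ) - 1) * (Cc * Lb)) +
      N * (xq * L + yq * Lb) + N * (xt * L + Cc * Lb) =
      N * ((X * L + Y * Lb) * ((m 0 : ℝ)⁻¹ + T) + (xq + xt) * L +
        ((((q : ℝ) + 1) * Cc) + yq) * Lb) := by ring
  rw [e1]
  apply mul_le_mul_of_nonneg_left _ hN
  have h2 : (X * L + Y * Lb) * ((m 0 : ℝ)⁻¹ + T) ≤ (X * L + Y * Lb) * (1 / 2) :=
    mul_le_mul_of_nonneg_left hS (by positivity)
  have h3 : ((((q : ℝ) + 1) * Cc) + yq) * Lb ≤ (Y / 2) * Lb := by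
    apply mul_le_mul_of_nonneg_right _ hLb
    rw [hYY]
    nlinarith
  nlinarith

theorem main_estimate {q : ℕ} (hq1 : 1 ≤ q) {M : ℕ} {lo hi : ℕ → ℕ} (hI : Ivals M lo hi) {x : ℕ → X0 𝕜} (a : ℕ → ℝ)
    (hx : ∀ k < M, ∀ l ∈ (x k).support, lo k ≤ l ∧ l ≤ hi k) (D : ℕ) {Cc xq yq xt : ℝ} (hCc : 0 ≤ Cc)
    (hxq : 0 ≤ xq) (hyq : 0 ≤ yq) (hxt : 0 ≤ xt)
    (h1 : ∀ k < M, ∀ d ≤ D, ∀ v, G d v → ‖Phi v (x k)‖ ≤ Cc * nrm v)
    (Crit : ℕ → Set ℕ) (hdis : ∀ i < M, ∀ j < M, i ≠ j → Disjoint (Crit i) (Crit j))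
    (h3 : ∀ k < M, ∀ d ≤ D, ∀ v, G d v → ‖Phi (col {s | q < s ∧ s ∉ Crit k} v) (x k)‖ ≤ xt * nrm v)
    (hq : ∀ d ≤ D, ∀ v, G d v → ∀ α β, β ≤ M → ∃ B ⊆ Finset.Ico α β, Kset (d + 3) (B.image hi) ∧
      ‖Phi (col {q} v) (∑ k ∈ Finset.Ico α β, a k • x k)‖ ≤ nrm v * (xq * l2 a (Finset.Ico α β) + yq * l2 a B))
    (hg : q + 5 ≤ g (lo 0)) :
    ∀ r d, d + r ≤ D → ∀ v, G d v → ∀ α β, β ≤ M → ∃ B ⊆ Finset.Ico α β, Kset (cc q r d) (B.image hi) ∧
      ‖Phi v (∑ k ∈ Finset.Ico α β, a k • x k)‖ ≤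
        nrm v * (XX Cc xq xt r * l2 a (Finset.Ico α β) + YY q Cc yq * l2 a B) := by
  intro r
  induction r with
  | zero =>
    intro d hd v hv α β hβ
    refine ⟨∅, Finset.empty_subset _, ?_, ?_⟩
    · rw [Finset.image_empty]; exact Kset.empty _
    · have h := IS_base hI a hx hCc (fun k hk w hw => h1 k hk d (by omega) w hw) hv (α := α) hβ
      refine h.trans ?_
      apply mul_le_mul_of_nonneg_left _ (nrm_nonneg v)
      rw [l2_empty, mul_zero, add_zero]
      apply mul_le_mul_of_nonneg_right _ (l2_nonneg _ _)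
      unfold XX
      rw [pow_zero, mul_one]
      linarith
  | succ r ih =>
    intro d hd v hv α β hβ
    have hX := IS_XX_nonneg hCc hxq hxt r
    have hY := IS_YY_nonneg (q := q) hCc hyq
    set Z : X0 𝕜 := ∑ k ∈ Finset.Ico α β, a k • x k with hZ
    -- leaf
    obtain ⟨Bl, hBl1, hBl2, hBl3⟩ := leaf_term hI a hx hCc (fun k hk w hw => h1 k hk d (by omega) w hw) hv (α := α) hβ
    -- tail
    obtain ⟨Bt, hBt1, hBt2, hBt3⟩ := tail_term (q := q) hI a hx hCc hxt
      (fun k hk w hw => h1 k hk d (by omega) w hw) Crit hdis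
      (fun k hk w hw => h3 k hk d (by omega) w hw) hv (α := α) hβ
    -- q
    obtain ⟨Bq, hBq1, hBq2, hBq3⟩ := hq d (by omega) v hv α β hβ
    -- 0
    obtain ⟨B0, hB01, hB02, hB03⟩ := ih (d + 1) (by omega) (comp 0 v) (G.comp_zero hv) α β hβ
    -- s
    have hs : ∀ s, 1 ≤ s ∧ s < q → ∃ B ⊆ Finset.Ico α β, Kset (nn s + d + cc q r d + 1) (B.image hi) ∧
      ‖Phi (col {s} v) Z‖ ≤
        nrm v * (XX Cc xq xt r / m s * l2 a (Finset.Ico α β) + (YY q Cc yq / m s + Cc) * l2 a B) := by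
      intro s hs
      exact descend hI a hx hs.1 hX hY hCc (fun k hk w hw => h1 k hk d (by omega) w hw)
        (fun w hw α β hβ => ih d (by omega) w hw α β hβ) v hv α β hβ
    choose! Bs hBs1 hBs2 hBs3 using hs
    -- the union
    let F : ℕ → Finset ℕ := fun i => if i = 0 then B0 else if i < q then Bs i else if i = q then Bq else
      if i = q + 1 then Bl else Bt
    have hF0 : F 0 = B0 := if_pos rfl
    have hFs : ∀ s, 1 ≤ s ∧ s < q → F s = Bs s := by
      intro s hs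
      have h : s ≠ 0 := by omega
      show (if s = 0 then B0 else if s < q then Bs s else _) = Bs s
      rw [if_neg h, if_pos hs.2]
    have hFq : F q = Bq := by
      show (if q = 0 then B0 else if q < q then Bs q else if q = q then Bq else _) = Bq
      rw [if_neg (by omega), if_neg (lt_irrefl q), if_pos rfl]
    have hFl : F (q + 1) = Bl := by
      show (if q + 1 = 0 then B0 else if q + 1 < q then Bs (q + 1) else if q + 1 = q then Bq else
        if q + 1 = q + 1 then Bl else Bt) = Bl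
      rw [if_neg (by omega), if_neg (by omega), if_neg (by omega), if_pos rfl]
    have hFt : F (q + 2) = Bt := by
      show (if q + 2 = 0 then B0 else if q + 2 < q then Bs (q + 2) else if q + 2 = q then Bq else
        if q + 2 = q + 1 then Bl else Bt) = Bt
      rw [if_neg (by omega), if_neg (by omega), if_neg (by omega), if_neg (by omega)]
    have hcases : ∀ i ∈ Finset.range (q + 3), i = 0 ∨ (1 ≤ i ∧ i < q) ∨ i = q ∨ i = q + 1 ∨ i = q + 2 := by
      intro i hi'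
      have := Finset.mem_range.mp hi'
      omega
    have hFsub : ∀ i ∈ Finset.range (q + 3), F i ⊆ Finset.Ico α β := by
      intro i hi'
      rcases hcases i hi' with h | h | h | h | h
      · subst h; rw [hF0]; exact hB01
      · rw [hFs i h]; exact hBs1 i h
      · subst h; rw [hFq]; exact hBq1
      · subst h; rw [hFl]; exact hBl1
      · subst h; rw [hFt]; exact hBt1
    have hc0 := cc_step0 q r d
    have hcS := cc_stepS q r d
    have hcQ := cc_stepQ q r d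
    obtain ⟨c, hc⟩ : ∃ c, cc q (r + 1) d = c + 1 := ⟨cc q (r + 1) d - 1, by omega⟩
    have hFK : ∀ i ∈ Finset.range (q + 3), Kset c ((F i).image hi) := by
      intro i hi'
      rcases hcases i hi' with h | h | h | h | h
      · subst h; rw [hF0]; exact Kset.mono (by omega) hB02
      · rw [hFs i h]
        have : nn i ≤ nn (q - 1) := nn_mono (by omega)
        exact Kset.mono (by omega) (hBs2 i h)
      · subst h; rw [hFq]; exact Kset.mono (by omega) hBq2
      · subst h; rw [hFl]; exact Kset.mono (by omega) hBl2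
      · subst h; rw [hFt]; exact Kset.mono (by omega) hBt2
    let B : Finset ℕ := (Finset.range (q + 3)).biUnion F
    have hFB : ∀ i, i < q + 3 → F i ⊆ B := fun i hi' =>
      Finset.subset_biUnion_of_mem F (Finset.mem_range.mpr hi')
    have hBsub : B ⊆ Finset.Ico α β := Finset.biUnion_subset.mpr hFsub
    refine ⟨B, hBsub, ?_, ?_⟩
    · rw [hc]
      have himg : B.image hi = (Finset.range (q + 3)).biUnion (fun i => (F i).image hi) :=
        Finset.biUnion_image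
      rw [himg]
      refine Kset.succ_finset (b := lo 0) (Finset.range (q + 3)) (fun i => (F i).image hi) ?_ hFK ?_
      · rw [Finset.card_range]; omega
      · intro i hi' y hy
        obtain ⟨k, hk, rfl⟩ := Finset.mem_image.mp hy
        exact IS_lo0_le hI (lt_of_lt_of_le (Finset.mem_Ico.mp (hFsub i hi' hk)).2 hβ)
    · have hLb : 0 ≤ l2 a B := l2_nonneg _ _
      have hL : 0 ≤ l2 a (Finset.Ico α β) := l2_nonneg _ _
      have hN := nrm_nonneg v
      have e1 : ‖Phi (leaf v) Z‖ ≤ nrm v * (Cc * l2 a B) := by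
        refine hBl3.trans (mul_le_mul_of_nonneg_left (mul_le_mul_of_nonneg_left (l2_mono a ?_) hCc) hN)
        rw [← hFl]; exact hFB _ (by omega)
      have e2 : ‖Phi (col {0} v) Z‖ ≤
          (m 0 : ℝ)⁻¹ * (nrm v * (XX Cc xq xt r * l2 a (Finset.Ico α β) + YY q Cc yq * l2 a B)) := by
        rw [norm_Phi_col_single]
        apply mul_le_mul_of_nonneg_left _ (by have := m_pos 0; positivity)
        refine hB03.trans ?_
        have hl : l2 a B0 ≤ l2 a B := l2_mono a (by rw [← hF0]; exact hFB _ (by omega))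
        have hin : XX Cc xq xt r * l2 a (Finset.Ico α β) + YY q Cc yq * l2 a B0 ≤
            XX Cc xq xt r * l2 a (Finset.Ico α β) + YY q Cc yq * l2 a B := by
          have := mul_le_mul_of_nonneg_left hl hY
          linarith
        have hB0n : 0 ≤ XX Cc xq xt r * l2 a (Finset.Ico α β) + YY q Cc yq * l2 a B := by positivity
        calc nrm (comp 0 v) * (XX Cc xq xt r * l2 a (Finset.Ico α β) + YY q Cc yq * l2 a B0)
            ≤ nrm (comp 0 v) * (XX Cc xq xt r * l2 a (Finset.Ico α β) + YY q Cc yq * l2 a B) :=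
              mul_le_mul_of_nonneg_left hin (nrm_nonneg _)
          _ ≤ _ := mul_le_mul_of_nonneg_right (nrm_comp_le 0 v) hB0n
      have e3 : ∀ s ∈ Finset.Ico 1 q, ‖Phi (col {s} v) Z‖ ≤
          nrm v * (XX Cc xq xt r / m s * l2 a (Finset.Ico α β) + (YY q Cc yq / m s + Cc) * l2 a B) := by
        intro s hs
        have hs' : 1 ≤ s ∧ s < q := ⟨(Finset.mem_Ico.mp hs).1, (Finset.mem_Ico.mp hs).2⟩
        refine (hBs3 s hs').trans (mul_le_mul_of_nonneg_left ?_ hN)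
        have hl : l2 a (Bs s) ≤ l2 a B := l2_mono a (by rw [← hFs s hs']; exact hFB _ (by omega))
        have hco : 0 ≤ YY q Cc yq / m s + Cc := by
          have := m_pos s
          positivity
        have := mul_le_mul_of_nonneg_left hl hco
        linarith
      have e4 : ‖Phi (col {q} v) Z‖ ≤ nrm v * (xq * l2 a (Finset.Ico α β) + yq * l2 a B) := by
        refine hBq3.trans (mul_le_mul_of_nonneg_left ?_ hN)
        have hl : l2 a Bq ≤ l2 a B := l2_mono a (by rw [← hFq]; exact hFB _ (by omega))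
        have := mul_le_mul_of_nonneg_left hl hyq
        linarith
      have e5 : ‖Phi (col {s | q < s} v) Z‖ ≤ nrm v * (xt * l2 a (Finset.Ico α β) + Cc * l2 a B) := by
        refine hBt3.trans (mul_le_mul_of_nonneg_left ?_ hN)
        have hl : l2 a Bt ≤ l2 a B := l2_mono a (by rw [← hFt]; exact hFB _ (by omega))
        have := mul_le_mul_of_nonneg_left hl hCc
        linarith
      rw [Phi_split q hq1 v Z]
      have hnorm : ‖Phi (leaf v) Z + Phi (col {0} v) Z + ∑ s ∈ Finset.Ico 1 q, Phi (col {s} v) Z +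
          Phi (col {q} v) Z + Phi (col {s | q < s} v) Z‖ ≤
          ‖Phi (leaf v) Z‖ + ‖Phi (col {0} v) Z‖ + ∑ s ∈ Finset.Ico 1 q, ‖Phi (col {s} v) Z‖ +
          ‖Phi (col {q} v) Z‖ + ‖Phi (col {s | q < s} v) Z‖ := by
        have n1 := norm_add_le (Phi (leaf v) Z + Phi (col {0} v) Z + ∑ s ∈ Finset.Ico 1 q, Phi (col {s} v) Z +
          Phi (col {q} v) Z) (Phi (col {s | q < s} v) Z)
        have n2 := norm_add_le (Phi (leaf v) Z + Phi (col {0} v) Z + ∑ s ∈ Finset.Ico 1 q, Phi (col {s} v) Z)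
          (Phi (col {q} v) Z)
        have n3 := norm_add_le (Phi (leaf v) Z + Phi (col {0} v) Z) (∑ s ∈ Finset.Ico 1 q, Phi (col {s} v) Z)
        have n4 := norm_add_le (Phi (leaf v) Z) (Phi (col {0} v) Z)
        have n5 := norm_sum_le (Finset.Ico 1 q) (fun s => Phi (col {s} v) Z)
        linarith
      refine hnorm.trans ?_
      have hsum := Finset.sum_le_sum e3
      have harith := IS_arith (q := q) hq1 hCc hyq hxq hxt hN hL hLb r
      linarith

end H94.WH
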