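import Pool.Agent.H94.WH.LB
import Pool.Agent.H94.WH.IS

/-!
# MODULE EX0: estimates for exact vectors (Lemma X, section 9)

`ris_estimates` (the analytic part): `y_k` (k < M) with rational weights `c_k`, `y_k` `(5, D + r, J k)`-good, `r = 2^(p+1)`, `p + 1 < J 0`, `J k < J (k+1)`, and `∑ |y_k| ≤ m (J (k+1)) / (4 m (p+1))`.
`Crit k = {s | J k ≤ s ∧ s < J (k+1)}` (pairwise disjoint). Hypotheses of `main_estimate` with `q := p`, `D := D + r`, `Cc = 5`, `xq = 5/m_p`, `yq = 0`, `xt = 11/m_{p+1}`: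
 h3: `{s | p < s ∧ s ∉ Crit k} = {s | p < s ∧ s < J k} ∪ {s | p < s ∧ J (k+1) ≤ s}`: `abs_Phi_range_le` (c = 5): `10/m_{p+1}`; `abs_Phi_tail_le`: `4/m(J(k+1)) * ∑|y_k| ≤ 1/m_{p+1}`;
 hq: term by term with goodness (`p < J k`): `‖Phi (col {p} v) (y k)| ≤ 5/m_p nrm v`, `B = ∅`.
 `XX 5 (5/m_p) (11/m_{p+1}) r = 5/m_p + 10/m_p + 22/m_{p+1} ≤ 16/m_p` (`two_pow_inv`, `m_{p+1} = m_p^2`, `m_p ≥ 22`).
 With masses of `K_n`-sets `≤ δ` (`n = nn p - 1`, `par1` for the complexities) and `x' = m_p • ∑ c_k y_k`: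
 e1: `≤ nrm v (16 + m_p YY √δ) ≤ 17 nrm v`. e2: `descend` with `X = 16/m_p`, `Y = YY p 5 0`, `C1 = 5`: `≤ nrm v (16/m_s + m_p (YY/m_s + 5) √δ) ≤ 17/m_s nrm v`.
 e3: `tail_term`: `≤ m_p (11/m_{p+1} + 5 √δ) nrm v ≤ 12/m_p nrm v`.
-/

set_option autoImplicit false

namespace H94.WH

open Finset

variable {𝕜 : Type} [RCLike 𝕜]

/-- `m p ≥ 256` for `p ≥ 2` -/
theorem EX0_m_ge {p : ℕ} (hp : 2 ≤ p) : (256 : ℝ) ≤ m p := by
  have h : m 2 ≤ m p := m_strictMono.monotone hp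
  have h2 : m 2 = 256 := by norm_num [m]
  rw [h2] at h
  exact_mod_cast h

theorem EX0_lt {M : ℕ} {lo hi : ℕ → ℕ} (hI : Ivals M lo hi) {i j : ℕ} (hij : i < j) (hj : j < M) :
    hi i < lo j := by
  induction j, hij using Nat.le_induction with
  | base => exact hI.2 i hj
  | succ j hj' ih =>
    have h1 := ih (by omega)
    have h2 := hI.1 j (by omega)
    have h3 := hI.2 j hj
    omega

theorem EX0_disj {M : ℕ} {lo hi : ℕ → ℕ} (hI : Ivals M lo hi) {i j : ℕ} (hi' : i < M) (hj : j < M) (hij : i ≠ j) :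
    Disjoint (Set.Icc (lo i) (hi i)) (Set.Icc (lo j) (hi j)) := by
  rw [Set.disjoint_left]
  intro l h1 h2
  rcases lt_or_gt_of_ne hij with h | h
  · have := EX0_lt hI h hj
    have a1 := h1.2
    have a2 := h2.1
    omega
  · have := EX0_lt hI h hi'
    have a1 := h1.1
    have a2 := h2.2
    omega

theorem EX0_h3 {p D' j1 j2 : ℕ} {y : X0 𝕜} (hg : Good 5 D' j1 y) (hj : p + 1 < j1) (hj2 : j1 < j2)
    (hJ2 : 4 * (m (p + 1) : ℝ) * ∑ l ∈ y.support, ‖y l‖ ≤ m j2) {d : ℕ} (hd : d ≤ D') {v : V} (hv : G d v) :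
    ‖Phi (col {s | p < s ∧ s ∉ {s | j1 ≤ s ∧ s < j2}} v) y‖ ≤ 11 / m (p + 1) * nrm v := by
  have hset : {s | p < s ∧ s ∉ {s | j1 ≤ s ∧ s < j2}} = {s | p < s ∧ s < j1} ∪ {s | j2 ≤ s} := by
    ext s
    simp only [Set.mem_ofPred_eq, Set.mem_union]
    constructor
    · rintro ⟨h1, h2⟩
      by_cases h : s < j1
      · exact Or.inl ⟨h1, h⟩
      · right
        by_contra h3
        exact h2 ⟨by omega, by omega⟩
    · rintro (⟨h1, h2⟩ | h)
      · exact ⟨h1, fun h3 => by omega⟩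
      · exact ⟨by omega, fun h3 => by omega⟩
  have hdis : Disjoint {s | p < s ∧ s < j1} {s | j2 ≤ s} := by
    rw [Set.disjoint_left]
    rintro s ⟨h1, h2⟩ h3
    simp only [Set.mem_ofPred_eq] at h3
    omega
  rw [hset, col_union hdis, Phi_add_left]
  have e1 := abs_Phi_range_le p j1 v y 5 (by norm_num)
    (fun s h1 h2 => (hg d hd v hv).2 s (by omega) h2)
  have e2 := abs_Phi_tail_le j2 v y
  have hm1 := m_pos (p + 1)
  have hm2 := m_pos j2
  have e3 : 4 / (m j2 : ℝ) * nrm v * ∑ l ∈ y.support, ‖y l‖ ≤ 1 / m (p + 1) * nrm v := by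
    have h4 : 4 / (m j2 : ℝ) * ∑ l ∈ y.support, ‖y l‖ ≤ 1 / m (p + 1) := by
      rw [div_mul_eq_mul_div, div_le_div_iff₀ hm2 hm1]
      linarith
    calc 4 / (m j2 : ℝ) * nrm v * ∑ l ∈ y.support, ‖y l‖
        = (4 / (m j2 : ℝ) * ∑ l ∈ y.support, ‖y l‖) * nrm v := by ring
      _ ≤ 1 / m (p + 1) * nrm v := mul_le_mul_of_nonneg_right h4 (nrm_nonneg v)
  calc ‖Phi (col {s | p < s ∧ s < j1} v) y + Phi (col {s | j2 ≤ s} v) y‖
      ≤ ‖Phi (col {s | p < s ∧ s < j1} v) y‖ + ‖Phi (col {s | j2 ≤ s} v) y‖ := norm_add_le _ _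
    _ ≤ 2 * 5 / m (p + 1) * nrm v + 1 / m (p + 1) * nrm v := add_le_add e1 (e2.trans e3)
    _ = 11 / m (p + 1) * nrm v := by ring

theorem EX0_hq {p D' M : ℕ} (hp : 1 ≤ p) {lo hi : ℕ → ℕ} (hI : Ivals M lo hi) {y : ℕ → X0 𝕜} (c : ℕ → ℝ) (J : ℕ → ℕ)
    (hy : ∀ k < M, ∀ l ∈ (y k).support, lo k ≤ l ∧ l ≤ hi k)
    (hgood : ∀ k < M, Good 5 D' (J k) (y k)) (hJ : ∀ k < M, p < J k)
    {d : ℕ} (hd : d ≤ D') {v : V} (hv : G d v) {α β : ℕ} (hβ : β ≤ M) :
    ‖Phi (col {p} v) (∑ k ∈ Finset.Ico α β, c k • y k)‖ ≤ nrm v * (5 / m p * l2 c (Finset.Ico α β)) := by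
  rw [Phi_sum_right]
  have e1 : ∀ k ∈ Finset.Ico α β, ‖Phi (col {p} v) (c k • y k)‖ ≤
      5 / m p * (|c k| * nrm (res (Set.Icc (lo k) (hi k)) v)) := by
    intro k hk
    have hkM : k < M := by
      have := (Finset.mem_Ico.1 hk).2
      omega
    rw [Phi_smul_real, norm_mul, RCLike.norm_ofReal]
    have e2 : Phi (col {p} v) (y k) = Phi (col {p} (res (Set.Icc (lo k) (hi k)) v)) (y k) := by
      rw [← res_col, Phi_res]
      intro l hl
      exact Set.mem_Icc.2 (hy k hkM l hl)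
    rw [e2]
    have e3 := (hgood k hkM d hd _ (hv.res (J := Set.Icc (lo k) (hi k)) Set.ordConnected_Icc)).2 p hp (hJ k hkM)
    calc |c k| * ‖Phi (col {p} (res (Set.Icc (lo k) (hi k)) v)) (y k)‖
        ≤ |c k| * (5 / m p * nrm (res (Set.Icc (lo k) (hi k)) v)) :=
          mul_le_mul_of_nonneg_left e3 (abs_nonneg _)
      _ = _ := by ring
  have e4 := sum_abs_mul_nrm_le (Finset.Ico α β) (fun k => Set.Icc (lo k) (hi k))
    (fun i h1 j h2 h3 => by
      have a1 := (Finset.mem_Ico.1 h1).2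
      have a2 := (Finset.mem_Ico.1 h2).2
      exact EX0_disj hI (by omega) (by omega) h3) v c
  have hm := m_pos p
  calc ‖∑ k ∈ Finset.Ico α β, Phi (col {p} v) (c k • y k)‖
      ≤ ∑ k ∈ Finset.Ico α β, ‖Phi (col {p} v) (c k • y k)‖ := norm_sum_le _ _
    _ ≤ ∑ k ∈ Finset.Ico α β, 5 / m p * (|c k| * nrm (res (Set.Icc (lo k) (hi k)) v)) :=
        Finset.sum_le_sum e1
    _ = 5 / m p * ∑ k ∈ Finset.Ico α β, (|c k| * nrm (res (Set.Icc (lo k) (hi k)) v)) := by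
        rw [Finset.mul_sum]
    _ ≤ 5 / m p * (nrm v * l2 c (Finset.Ico α β)) :=
        mul_le_mul_of_nonneg_left e4 (by positivity)
    _ = _ := by ring

theorem EX0_XX {p : ℕ} (hp : 2 ≤ p) : XX 5 (5 / m p) (11 / m (p + 1)) (2 ^ (p + 1)) ≤ 16 / m p := by
  unfold XX
  rw [two_pow_inv]
  have hm := m_pos p
  have h2 := EX0_m_ge hp
  have h3 : (m (p + 1) : ℝ) = (m p : ℝ) ^ 2 := by rw [m_succ]; push_cast; rfl
  rw [h3]
  have h4 : 5 * ((m p : ℝ))⁻¹ + 2 * (5 / m p + 11 / (m p : ℝ) ^ 2) = (15 + 22 / m p) / m p := by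
    field_simp
    ring
  rw [h4]
  apply div_le_div_of_nonneg_right _ hm.le
  have h5 : (22 : ℝ) / m p ≤ 1 := by
    rw [div_le_one hm]
    linarith
  linarith

theorem EX0_YY (p : ℕ) : 0 ≤ YY p 5 0 := by
  unfold YY
  positivity

/-- scaling by `m p` -/
theorem EX0_scale (p : ℕ) (v : V) (x : X0 𝕜) : ‖Phi v ((m p : ℝ) • x)‖ = m p * ‖Phi v x‖ := by
  rw [Phi_smul_real, norm_mul, RCLike.norm_ofReal, abs_of_pos (m_pos p)]

theorem ris_estimates {p : ℕ} (hp : 2 ≤ p) {D : ℕ} (hD : D ≤ nn (p - 1)) {M : ℕ} (hM : 0 < M) {lo hi : ℕ → ℕ}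
    (hI : Ivals M lo hi) {y : ℕ → X0 𝕜} (c : ℕ → ℝ) (J : ℕ → ℕ)
    (hy : ∀ k < M, ∀ l ∈ (y k).support, lo k ≤ l ∧ l ≤ hi k)
    (hgood : ∀ k < M, Good 5 (D + 2 ^ (p + 1)) (J k) (y k)) (hJ0 : p + 1 < J 0)
    (hJ : ∀ k, J k < J (k + 1)) (hJ2 : ∀ k < M, 4 * (m (p + 1) : ℝ) * ∑ l ∈ (y k).support, ‖y k l‖ ≤ m (J (k + 1)))
    (hg : p + 5 ≤ g (lo 0)) {δ : ℝ} (hδ : 0 < δ) (hδ2 : (m p : ℝ) ^ 2 * (YY p 5 0 + 5) * Real.sqrt δ ≤ 1)
    (hc : ∑ k ∈ Finset.range M, (c k) ^ 2 = 1)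
    (hsm : ∀ B ⊆ Finset.range M, Kset (nn p - 1) (B.image hi) → ∑ k ∈ B, (c k) ^ 2 ≤ δ)
    {d : ℕ} (hd : d ≤ D) {v : V} (hv : G d v) :
    ‖Phi v ((m p : ℝ) • ∑ k ∈ Finset.range M, c k • y k)‖ ≤ 17 * nrm v ∧
    (∀ s, 1 ≤ s → s < p → ‖Phi (col {s} v) ((m p : ℝ) • ∑ k ∈ Finset.range M, c k • y k)‖ ≤ 17 / m s * nrm v) ∧
    ‖Phi (col {s | p < s} v) ((m p : ℝ) • ∑ k ∈ Finset.range M, c k • y k)‖ ≤ 12 / m p * nrm v := by
  set r : ℕ := 2 ^ (p + 1) with hr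
  have hmp := m_pos p
  have hmge := EX0_m_ge hp
  have hJm : StrictMono J := strictMono_nat_of_lt_succ hJ
  have hJk : ∀ k, p + 1 < J k := fun k => lt_of_lt_of_le hJ0 (hJm.monotone (Nat.zero_le k))
  have hYY := EX0_YY p
  have hsq : 0 ≤ Real.sqrt δ := Real.sqrt_nonneg δ
  have hdD : ∀ {d' : ℕ}, d' ≤ D → d' ≤ D + r := fun h => h.trans (Nat.le_add_right _ _)
  -- hypotheses of the main estimate
  have h1 : ∀ k < M, ∀ d' ≤ D + r, ∀ w, G d' w → ‖Phi w (y k)‖ ≤ 5 * nrm w :=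
    fun k hk d' hd' w hw => (hgood k hk d' hd' w hw).1
  have hdis : ∀ i < M, ∀ j < M, i ≠ j →
      Disjoint {s | J i ≤ s ∧ s < J (i + 1)} {s | J j ≤ s ∧ s < J (j + 1)} := by
    intro i _ j _ hij
    rw [Set.disjoint_left]
    rintro s ⟨a1, a2⟩ ⟨b1, b2⟩
    rcases lt_or_gt_of_ne hij with h | h
    · have := hJm.monotone (show i + 1 ≤ j from h)
      omega
    · have := hJm.monotone (show j + 1 ≤ i from h)
      omega
  have h3 : ∀ k < M, ∀ d' ≤ D + r, ∀ w, G d' w →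
      ‖Phi (col {s | p < s ∧ s ∉ {s | J k ≤ s ∧ s < J (k + 1)}} w) (y k)‖ ≤ 11 / m (p + 1) * nrm w :=
    fun k hk d' hd' w hw => EX0_h3 (hgood k hk) (hJk k) (hJ k) (hJ2 k hk) hd' hw
  have hq : ∀ d' ≤ D + r, ∀ w, G d' w → ∀ α β, β ≤ M → ∃ B ⊆ Finset.Ico α β, Kset (d' + 3) (B.image hi) ∧
      ‖Phi (col {p} w) (∑ k ∈ Finset.Ico α β, c k • y k)‖ ≤
        nrm w * (5 / m p * l2 c (Finset.Ico α β) + 0 * l2 c B) := by
    intro d' hd' w hw α β hβ
    refine ⟨∅, Finset.empty_subset _, ?_, ?_⟩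
    · rw [Finset.image_empty]
      exact Kset.empty _
    · rw [zero_mul, add_zero]
      exact EX0_hq (by omega) hI c J hy hgood (fun k _ => by have := hJk k; omega) hd' hw hβ
  have H := main_estimate (q := p) (by omega) hI c hy (D + r) (Cc := 5) (xq := 5 / m p) (yq := 0)
    (xt := 11 / m (p + 1)) (by norm_num) (by positivity) le_rfl (div_nonneg (by norm_num) (m_pos _).le) h1
    (fun k => {s | J k ≤ s ∧ s < J (k + 1)}) hdis h3 hq hg
  have hX : XX 5 (5 / m p) (11 / m (p + 1)) r ≤ 16 / m p := EX0_XX hp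
  have hrec : ∀ d' ≤ D, ∀ w, G d' w → ∀ α β, β ≤ M → ∃ B ⊆ Finset.Ico α β, Kset (cc p r d') (B.image hi) ∧
      ‖Phi w (∑ k ∈ Finset.Ico α β, c k • y k)‖ ≤
        nrm w * (16 / m p * l2 c (Finset.Ico α β) + YY p 5 0 * l2 c B) := by
    intro d' hd' w hw α β hβ
    obtain ⟨B, hB, hK, hle⟩ := H r d' (Nat.add_le_add_right hd' r) w hw α β hβ
    refine ⟨B, hB, hK, hle.trans ?_⟩
    apply mul_le_mul_of_nonneg_left _ (nrm_nonneg w)
    exact add_le_add (mul_le_mul_of_nonneg_right hX (l2_nonneg _ _)) le_rfl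
  -- complexities
  have hpar := par1 p (by omega)
  rw [← hr] at hpar
  have hcc : ∀ d' ≤ D, cc p r d' ≤ cc p r (nn (p - 1)) := fun d' hd' => cc_mono (hd'.trans hD)
  have hl1 : l2 c (Finset.range M) = 1 := by
    unfold l2
    rw [hc, Real.sqrt_one]
  have hIco : Finset.Ico 0 M = Finset.range M := by
    rw [Finset.range_eq_Ico]
  have hl2 : ∀ B ⊆ Finset.range M, ∀ n' ≤ nn p - 1, Kset n' (B.image hi) → l2 c B ≤ Real.sqrt δ :=
    fun B hB n' hn' hK => l2_le_sqrt (hsm B hB (hK.mono hn'))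
  refine ⟨?_, ?_, ?_⟩
  · -- e1
    obtain ⟨B, hB, hK, hle⟩ := hrec d hd v hv 0 M le_rfl
    rw [hIco] at hB hle
    have hccd := hcc d hd
    have hs := hl2 B hB _ (by omega) hK
    rw [EX0_scale]
    rw [hl1, mul_one] at hle
    have e0 : m p * (YY p 5 0 * l2 c B) ≤ 1 := by
      calc (m p : ℝ) * (YY p 5 0 * l2 c B) ≤ m p * (YY p 5 0 * Real.sqrt δ) := by gcongr
        _ = 1 * (m p * (YY p 5 0 * Real.sqrt δ)) := by ring
        _ ≤ m p * (m p * ((YY p 5 0 + 5) * Real.sqrt δ)) := by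
            apply mul_le_mul (by linarith) _ (by positivity) hmp.le
            gcongr
            linarith
        _ = (m p : ℝ) ^ 2 * (YY p 5 0 + 5) * Real.sqrt δ := by ring
        _ ≤ 1 := hδ2
    calc (m p : ℝ) * ‖Phi v (∑ k ∈ Finset.range M, c k • y k)‖
        ≤ m p * (nrm v * (16 / m p + YY p 5 0 * l2 c B)) := mul_le_mul_of_nonneg_left hle hmp.le
      _ = nrm v * (16 + m p * (YY p 5 0 * l2 c B)) := by
          field_simp
      _ ≤ nrm v * (16 + 1) := by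
          apply mul_le_mul_of_nonneg_left _ (nrm_nonneg v)
          linarith
      _ = 17 * nrm v := by ring
  · -- e2
    intro s hs1 hsp
    obtain ⟨B, hB, hK, hle⟩ := descend hI c hy hs1 (d := d) (c := cc p r d) (X := 16 / m p) (Y := YY p 5 0)
      (C1 := 5) (by positivity) hYY (by norm_num) (fun k hk w hw => h1 k hk d (hdD hd) w hw)
      (hrec d hd) v hv 0 M le_rfl
    rw [hIco] at hB hle
    have hccd := hcc d hd
    have hnn : nn s ≤ nn (p - 1) := nn_mono (by omega)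
    have hs := hl2 B hB _ (by omega) hK
    rw [EX0_scale]
    rw [hl1, mul_one] at hle
    have hms := m_pos s
    have hmsp : (m s : ℝ) ≤ m p := by exact_mod_cast (m_strictMono hsp).le
    have hms1 : (1 : ℝ) ≤ m s := by
      have := four_le_m s
      have h4 : (4 : ℝ) ≤ m s := by exact_mod_cast this
      linarith
    have e0 : m p * ((YY p 5 0 / m s + 5) * l2 c B) ≤ 1 / m s := by
      rw [le_div_iff₀ hms]
      calc (m p : ℝ) * ((YY p 5 0 / m s + 5) * l2 c B) * m s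
          ≤ m p * ((YY p 5 0 / m s + 5) * Real.sqrt δ) * m s := by
            have : 0 ≤ YY p 5 0 / m s := div_nonneg hYY hms.le
            gcongr
        _ = m p * ((YY p 5 0 + 5 * m s) * Real.sqrt δ) := by
            field_simp
        _ ≤ m p * ((m p * (YY p 5 0 + 5)) * Real.sqrt δ) := by
            have h5 : YY p 5 0 + 5 * m s ≤ m p * (YY p 5 0 + 5) := by
              have : 1 * YY p 5 0 ≤ m p * YY p 5 0 := mul_le_mul_of_nonneg_right (by linarith) hYY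
              nlinarith
            gcongr
        _ = (m p : ℝ) ^ 2 * (YY p 5 0 + 5) * Real.sqrt δ := by ring
        _ ≤ 1 := hδ2
    calc (m p : ℝ) * ‖Phi (col {s} v) (∑ k ∈ Finset.range M, c k • y k)‖
        ≤ m p * (nrm v * (16 / m p / m s + (YY p 5 0 / m s + 5) * l2 c B)) :=
          mul_le_mul_of_nonneg_left hle hmp.le
      _ = nrm v * (16 / m s + m p * ((YY p 5 0 / m s + 5) * l2 c B)) := by
          field_simp
      _ ≤ nrm v * (16 / m s + 1 / m s) := by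
          apply mul_le_mul_of_nonneg_left _ (nrm_nonneg v)
          linarith
      _ = 17 / m s * nrm v := by ring
  · -- e3
    obtain ⟨B, hB, hK, hle⟩ := tail_term (q := p) hI c hy (d := d) (Cc := 5) (xt := 11 / m (p + 1)) (by norm_num)
      (div_nonneg (by norm_num) (m_pos _).le) (fun k hk w hw => h1 k hk d (hdD hd) w hw)
      (fun k => {s | J k ≤ s ∧ s < J (k + 1)}) hdis (fun k hk w hw => h3 k hk d (hdD hd) w hw) hv
      (α := 0) (β := M) le_rfl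
    rw [hIco] at hB hle
    have hccd := hcc d hd
    have hs := hl2 B hB _ (by omega) hK
    rw [EX0_scale]
    rw [hl1, mul_one] at hle
    have h6 : (m (p + 1) : ℝ) = (m p : ℝ) ^ 2 := by rw [m_succ]; push_cast; rfl
    have e0 : m p * (5 * l2 c B) ≤ 1 / m p := by
      rw [le_div_iff₀ hmp]
      calc (m p : ℝ) * (5 * l2 c B) * m p ≤ m p * (5 * Real.sqrt δ) * m p := by gcongr
        _ = (m p : ℝ) ^ 2 * (0 + 5) * Real.sqrt δ := by ring
        _ ≤ (m p : ℝ) ^ 2 * (YY p 5 0 + 5) * Real.sqrt δ := by gcongr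
        _ ≤ 1 := hδ2
    calc (m p : ℝ) * ‖Phi (col {s | p < s} v) (∑ k ∈ Finset.range M, c k • y k)‖
        ≤ m p * (nrm v * (11 / m (p + 1) + 5 * l2 c B)) :=
          mul_le_mul_of_nonneg_left hle hmp.le
      _ = nrm v * (11 / m p + m p * (5 * l2 c B)) := by
          rw [h6]
          field_simp
      _ ≤ nrm v * (11 / m p + 1 / m p) := by
          apply mul_le_mul_of_nonneg_left _ (nrm_nonneg v)
          linarith
      _ = 12 / m p * nrm v := by ring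

end H94.WH
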