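import Mathlib

/-!
# MODULE HI2: closed direct sums in Banach spaces
The continuous linear bijection `Y₀ × Y₁ → Y₀ ⊔ Y₁`, `(y₀,y₁) ↦ y₀ + y₁`, between Banach spaces is an isomorphism (`ContinuousLinearEquiv.ofBijective`, or `Submodule.ClosedComplemented` tools).
-/

set_option autoImplicit false

namespace H94.WH

theorem exists_proj_bound {𝕜 : Type} [RCLike 𝕜] {X : Type} [NormedAddCommGroup X] [NormedSpace 𝕜 X] [CompleteSpace X]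
    {Y₀ Y₁ : Submodule 𝕜 X} (h0 : IsClosed (Y₀ : Set X)) (h1 : IsClosed (Y₁ : Set X))
    (hd : Y₀ ⊓ Y₁ = ⊥) (hc : IsClosed ((Y₀ ⊔ Y₁ : Submodule 𝕜 X) : Set X)) :
    ∃ K : ℝ, 0 < K ∧ ∀ y₀ ∈ Y₀, ∀ y₁ ∈ Y₁, ‖y₀‖ ≤ K * ‖y₀ + y₁‖ ∧ ‖y₁‖ ≤ K * ‖y₀ + y₁‖ := by
  have : CompleteSpace Y₀ := h0.completeSpace_coe
  have : CompleteSpace Y₁ := h1.completeSpace_coe
  set f : (Y₀ × Y₁) →L[𝕜] X := Y₀.subtypeL.coprod Y₁.subtypeL with hf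
  have hfa : ∀ p : Y₀ × Y₁, f p = (p.1 : X) + p.2 := fun p => by simp [hf]
  have hinj : Function.Injective f := by
    rw [injective_iff_map_eq_zero]
    intro p hp
    rw [hfa] at hp
    have h2 : (p.1 : X) = -(p.2 : X) := eq_neg_of_add_eq_zero_left hp
    have h3 : (p.1 : X) ∈ Y₀ ⊓ Y₁ := ⟨p.1.2, by rw [h2]; exact Y₁.neg_mem p.2.2⟩
    rw [hd, Submodule.mem_bot] at h3
    have h4 : (p.2 : X) = 0 := by
      rw [h3, zero_add] at hp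
      exact hp
    exact Prod.ext (Subtype.ext h3) (Subtype.ext h4)
  have hrange : Set.range f = ((Y₀ ⊔ Y₁ : Submodule 𝕜 X) : Set X) := by
    ext x
    rw [SetLike.mem_coe, Submodule.mem_sup]
    constructor
    · rintro ⟨p, rfl⟩
      exact ⟨p.1, p.1.2, p.2, p.2.2, (hfa p).symm⟩
    · rintro ⟨y, hy, z, hz, rfl⟩
      exact ⟨(⟨y, hy⟩, ⟨z, hz⟩), hfa _⟩
  obtain ⟨K, hK⟩ := f.antilipschitz_of_injective_of_isClosed_range hinj (by rw [hrange]; exact hc)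
  refine ⟨(K : ℝ) + 1, by positivity, fun y hy z hz => ?_⟩
  have h2 := hK.le_mul_dist (⟨y, hy⟩, ⟨z, hz⟩) 0
  rw [dist_zero_right, map_zero, dist_zero_right, hfa] at h2
  have h3 : ‖y‖ ≤ ‖((⟨y, hy⟩, ⟨z, hz⟩) : Y₀ × Y₁)‖ := norm_fst_le ((⟨y, hy⟩, ⟨z, hz⟩) : Y₀ × Y₁)
  have h4 : ‖z‖ ≤ ‖((⟨y, hy⟩, ⟨z, hz⟩) : Y₀ × Y₁)‖ := norm_snd_le ((⟨y, hy⟩, ⟨z, hz⟩) : Y₀ × Y₁)
  have h5 : 0 ≤ ‖y + z‖ := norm_nonneg _
  have h6 : ‖((⟨y, hy⟩, ⟨z, hz⟩) : Y₀ × Y₁)‖ ≤ (K : ℝ) * ‖y + z‖ := h2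
  constructor <;> nlinarith

end H94.WH
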