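import Pool.Agent.H94.WH.GC

/-!
# MODULE GF: families (G9), (G10)

`G.family`: induction on `n`. `n = 0`: at most one summand. Step: `A = ⋃_{i<N} F i`; choose for `a ∈ A` an index `i(a)` with `a ∈ F (i a)`;
`A_i = A.filter (i a = i) ⊆ F i`; `∑_{a ∈ A} = ∑_i ∑_{a ∈ A_i}` (`Finset.sum_fiberwise`), each inner sum in `G (n+d)` with positions `≥ b`.

`G.comp_mem`: induction on `d`. `d = 0` (`G 0 v` is `C v`): `C.cells`, `comp s v = ∑_{a ∈ A} res (cell A a) (comp s v)` (`sum_res_eq`, `mem_some_cell`, `cell_disjoint`), then `G.family`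
(`G (nn s + 0)`). Step: `comp s v = ∑ comp s v_i`, each in `G (nn s + d)` with positions `≥ b`.

`G.comp_odd`: induction on `d`; `d = 0`: `C.comp_odd`; every `w ∈ ws` satisfies `col {code ..} w = w` and `code q _ ≥ q + 2`.
-/

set_option autoImplicit false

namespace H94.WH

open Finset

theorem GF_mem_sum {ι : Type*} (s : Finset ι) (u : ι → V) {p : Atom}
    (hp : p ∈ (∑ i ∈ s, u i).support) : ∃ i ∈ s, p ∈ (u i).support := by
  classical
  have h := Finsupp.support_finsetSum hp
  rw [Finset.mem_biUnion] at h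
  exact h

/-- G9 -/
theorem G.family {n d : ℕ} {A : Finset ℕ} (hA : Kset n A) (u : ℕ → V) (hu : ∀ a ∈ A, G d (u a))
    (hb : ∀ a ∈ A, ∀ p ∈ (u a).support, a ≤ p.1) : G (n + d) (∑ a ∈ A, u a) := by
  classical
  induction n generalizing A with
  | zero =>
    rw [zero_add]
    have h1 : A.card ≤ 1 := hA
    rcases A.eq_empty_or_nonempty with rfl | ⟨a, ha⟩
    · rw [Finset.sum_empty]
      exact G.zero d
    · have h2 : A = {a} := by
        rw [Finset.eq_singleton_iff_unique_mem]
        exact ⟨ha, fun x hx => Finset.card_le_one.1 h1 x hx a ha⟩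
      rw [h2, Finset.sum_singleton]
      exact hu a ha
  | succ n ih =>
    obtain ⟨b, N, F, hN, hF, hbA, hAeq⟩ := hA
    rcases A.eq_empty_or_nonempty with h0 | ⟨a0, ha0⟩
    · rw [h0, Finset.sum_empty]
      exact G.zero _
    have hidx : ∀ a ∈ A, ∃ i, a ∈ F i := by
      intro a ha
      rw [hAeq, Finset.mem_biUnion] at ha
      obtain ⟨i, -, hi⟩ := ha
      exact ⟨i, hi⟩
    obtain ⟨i0, -⟩ := hidx a0 ha0
    let idx : ℕ → Fin N := fun a => if h : ∃ i, a ∈ F i then Classical.choose h else i0
    have hidx2 : ∀ a ∈ A, a ∈ F (idx a) := by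
      intro a ha
      have h1 := hidx a ha
      have h2 : idx a = Classical.choose h1 := dif_pos h1
      rw [h2]
      exact Classical.choose_spec h1
    rw [← Finset.sum_fiberwise A idx u]
    have hcast : n + 1 + d = (n + d) + 1 := by ring
    rw [hcast]
    refine G.sum_finset (b := b) Finset.univ (fun i => ∑ a ∈ A with idx a = i, u a) ?_ ?_ ?_
    · rw [Finset.card_univ, Fintype.card_fin]
      exact hN
    · intro i _
      refine ih ?_ ?_ ?_
      · refine Kset.sub (hF i) ?_
        intro a ha
        rw [Finset.mem_filter] at ha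
        have := hidx2 a ha.1
        rwa [ha.2] at this
      · intro a ha
        exact hu a (Finset.mem_filter.1 ha).1
      · intro a ha
        exact hb a (Finset.mem_filter.1 ha).1
    · intro i _ p hp
      obtain ⟨a, ha, hpa⟩ := GF_mem_sum _ _ hp
      have h1 := (Finset.mem_filter.1 ha).1
      exact (hbA a h1).trans (hb a h1 p hpa)

theorem G.comp_mem {d : ℕ} {v : V} (h : G d v) {s : ℕ} (hs : 1 ≤ s) : G (nn s + d) (comp s v) := by
  induction d generalizing v with
  | zero =>
    obtain ⟨A, hA, hs', hJ⟩ := C.cells h hs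
    have h1 : ∑ a ∈ A, H94.WH.res (cell A a) (comp s v) = comp s v := by
      refine sum_res_eq A (cell A) ?_ _ ?_
      · intro a ha a' ha' hne
        exact cell_disjoint ha ha' hne
      · intro p hp
        exact mem_some_cell (hs' p hp)
    rw [← h1]
    refine G.family hA (fun a => H94.WH.res (cell A a) (comp s v)) ?_ ?_
    · intro a ha
      exact hJ (cell A a) (ordConnected_cell A a) (sep_cell ha)
    · intro a _ p hp
      exact (mem_res.1 hp).2.1
  | succ d ih =>
    obtain ⟨b, N, u, hN, hu, hb, rfl⟩ := h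
    refine ⟨b, N, fun i => comp s (u i), hN, fun i => ih (hu i), ?_, ?_⟩
    · intro i p hp
      exact hb i (p.1, s :: p.2) (mem_comp.1 hp)
    · rw [comp_sum]

theorem GF_col_list (S : Set ℕ) (ws : List V) (h : ∀ w ∈ ws, H94.WH.col S w = w) :
    H94.WH.col S ws.sum = ws.sum := by
  induction ws with
  | nil => rw [List.sum_nil, col_zero]
  | cons w ws ih =>
    rw [List.sum_cons, col_add, h w (by simp), ih (fun w' hw' => h w' (by simp [hw']))]

/-- G10 -/
theorem G.comp_odd {d : ℕ} {v : V} (h : G d v) {q : ℕ} (hq : Odd q) :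
    H94.WH.col {s | q + 2 ≤ s} (comp q v) = comp q v := by
  induction d generalizing v with
  | zero =>
    rcases C.comp_odd h hq with h0 | ⟨ws, bs, I, c, hsp, -, -, h1⟩
    · rw [h0, col_zero]
    · rw [h1, col_smul, ← res_col, GF_col_list]
      intro w hw
      obtain ⟨r, hr, rfl⟩ := List.getElem_of_mem hw
      have h2 := hsp.2.2.2 r hr
      conv_lhs => rw [← h2]
      rw [col_col]
      have h3 : {s | q + 2 ≤ s} ∩ {code q (ws.take r)} = {code q (ws.take r)} := by
        apply Set.inter_eq_right.2
        intro x hx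
        rw [Set.mem_singleton_iff] at hx
        rw [hx]
        show q + 2 ≤ code q (ws.take r)
        unfold code
        omega
      rw [h3, h2]
  | succ d ih =>
    obtain ⟨b, N, u, hN, hu, hb, rfl⟩ := h
    rw [comp_sum, col_sum]
    exact Finset.sum_congr rfl fun i _ => ih (hu i)

end H94.WH
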