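import Pool.Agent.H94.WH.GS

/-!
# MODULE NO: the norm `nor` on `c_00` (section 3)

`nor x = sSup {‖Phi v x‖ : C v, nrm v ≤ 1}`; the set is nonempty (`v = 0`) and bounded above by `2 * ∑ |x l|` (`abs_Phi_le`).
* `abs_Phi_le_nor`: for `nrm v > 0` take rational `c` with `0 < c ≤ 1/nrm v` arbitrarily close to `1/nrm v` (density of `ℚ`): `C (c • v)`, `nrm (c • v) ≤ 1`.
* `abs_Phi_le_nor_G`: `G.pre_zero` iterated: `Phi v x = (m 0)^d * Phi (pre 0 (.. v)) x`; induction on `d`.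
* `nor_resX_le`: `Phi v (resX J x) = Phi (res J v) x` and `C.res`.
* `exists_norming`: from the definition of `sSup`, and restrict `v` to `J` (`Phi_res`).
-/

set_option autoImplicit false

namespace H94.WH

open Finset

variable {𝕜 : Type} [RCLike 𝕜]

theorem resX_apply_mem {J : Set ℕ} {x : X0 𝕜} {l : ℕ} (h : l ∈ J) : resX J x l = x l := by
  classical
  unfold resX
  exact Finsupp.filter_apply_pos _ _ h
theorem resX_apply_not {J : Set ℕ} {x : X0 𝕜} {l : ℕ} (h : l ∉ J) : resX J x l = 0 := by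
  classical
  unfold resX
  exact Finsupp.filter_apply_neg _ _ h
theorem mem_resX_support {J : Set ℕ} {x : X0 𝕜} {l : ℕ} : l ∈ (resX J x).support ↔ l ∈ x.support ∧ l ∈ J := by
  rw [Finsupp.mem_support_iff, Finsupp.mem_support_iff]
  by_cases h : l ∈ J
  · rw [resX_apply_mem h]
    simp [h]
  · rw [resX_apply_not h]
    simp [h]

theorem NO_zero_mem (x : X0 𝕜) : (0 : ℝ) ∈ {t : ℝ | ∃ v, C v ∧ nrm v ≤ 1 ∧ t = ‖Phi v x‖} :=
  ⟨0, C.zero, by rw [nrm_zero]; norm_num, by rw [Phi_zero_left, norm_zero]⟩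

theorem NO_le_l1 {v : V} (hv : nrm v ≤ 1) (x : X0 𝕜) : ‖Phi v x‖ ≤ 2 * ∑ l ∈ x.support, ‖x l‖ := by
  have h := abs_Phi_le v x
  have h0 : 0 ≤ ∑ l ∈ x.support, ‖x l‖ := sum_nonneg fun l _ => norm_nonneg _
  calc ‖Phi v x‖ ≤ 2 * nrm v * ∑ l ∈ x.support, ‖x l‖ := h
    _ = nrm v * (2 * ∑ l ∈ x.support, ‖x l‖) := by ring
    _ ≤ 1 * (2 * ∑ l ∈ x.support, ‖x l‖) := mul_le_mul_of_nonneg_right hv (by linarith)
    _ = _ := by ring

theorem NO_bdd (x : X0 𝕜) : BddAbove {t : ℝ | ∃ v, C v ∧ nrm v ≤ 1 ∧ t = ‖Phi v x‖} := by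
  refine ⟨2 * ∑ l ∈ x.support, ‖x l‖, ?_⟩
  rintro t ⟨v, -, hv, rfl⟩
  exact NO_le_l1 hv x

theorem NO_le {v : V} (hC : C v) (hv : nrm v ≤ 1) (x : X0 𝕜) : ‖Phi v x‖ ≤ nor x :=
  le_csSup (NO_bdd x) ⟨v, hC, hv, rfl⟩

theorem nor_nonneg (x : X0 𝕜) : 0 ≤ nor x := le_csSup (NO_bdd x) (NO_zero_mem x)
theorem nor_le_of {x : X0 𝕜} {c : ℝ} (hc : 0 ≤ c) (h : ∀ v, C v → nrm v ≤ 1 → ‖Phi v x‖ ≤ c) : nor x ≤ c := by
  apply csSup_le ⟨0, NO_zero_mem x⟩
  rintro t ⟨v, hC, hv, rfl⟩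
  exact h v hC hv
theorem nor_le_l1 (x : X0 𝕜) : nor x ≤ 2 * ∑ l ∈ x.support, ‖x l‖ := by
  apply csSup_le ⟨0, NO_zero_mem x⟩
  rintro t ⟨v, hC, hv, rfl⟩
  exact NO_le_l1 hv x
theorem abs_Phi_le_nor {v : V} (hv : C v) (x : X0 𝕜) : ‖Phi v x‖ ≤ nrm v * nor x := by
  rcases (nrm_nonneg v).eq_or_lt with h0 | h0
  · have : v = 0 := nrm_eq_zero h0.symm
    rw [this, Phi_zero_left, norm_zero, nrm_zero, zero_mul]
  · by_contra hcon
    push Not at hcon
    have hn := nor_nonneg x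
    have hP : 0 < ‖Phi v x‖ := lt_of_le_of_lt (mul_nonneg h0.le hn) hcon
    have h1 : nor x / ‖Phi v x‖ < 1 / nrm v := by
      rw [div_lt_div_iff₀ hP h0]
      linarith
    obtain ⟨c, hc1, hc2⟩ := exists_rat_btwn h1
    have hc0 : (0 : ℝ) < (c : ℝ) := lt_of_le_of_lt (div_nonneg hn hP.le) hc1
    have h2 : nrm (c • v) ≤ 1 := by
      rw [nrm_smul, abs_of_pos hc0]
      rw [lt_div_iff₀ h0] at hc2
      exact hc2.le
    have h3 := NO_le (C.smul c hv) h2 x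
    rw [norm_Phi_smul_left, abs_of_pos hc0] at h3
    rw [div_lt_iff₀ hP] at hc1
    linarith
theorem abs_Phi_le_nor_G {d : ℕ} {v : V} (hv : G d v) (x : X0 𝕜) : ‖Phi v x‖ ≤ 4 ^ d * nrm v * nor x := by
  induction d generalizing v with
  | zero =>
    have h : C v := hv
    have := abs_Phi_le_nor h x
    rw [pow_zero, one_mul]
    exact this
  | succ d ih =>
    have h := ih (G.pre_zero hv)
    rw [norm_Phi_pre, nrm_pre] at h
    have hm : (m 0 : ℝ) = 4 := by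
      unfold m; norm_num
    rw [hm] at h
    have h2 : ‖Phi v x‖ = 4 * ((4 : ℝ)⁻¹ * ‖Phi v x‖) := by ring
    rw [h2, pow_succ]
    linarith
theorem abs_coord_le (x : X0 𝕜) (l : ℕ) : ‖x l‖ ≤ nor x := by
  have h := NO_le (C.atom l 1) (by rw [nrm_single]; norm_num) x
  rw [Phi_single] at h
  simpa using h
theorem nor_zero : nor (0 : X0 𝕜) = 0 := by
  apply le_antisymm _ (nor_nonneg _)
  apply nor_le_of le_rfl
  intro v _ _
  rw [Phi_zero_right, norm_zero]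
theorem eq_zero_of_nor {x : X0 𝕜} (h : nor x = 0) : x = 0 := by
  ext l
  have := abs_coord_le x l
  rw [h] at this
  simpa using this
theorem NO_smul_le (c : 𝕜) (x : X0 𝕜) : nor (c • x) ≤ ‖c‖ * nor x := by
  apply nor_le_of (mul_nonneg (norm_nonneg _) (nor_nonneg _))
  intro v hC hv
  rw [Phi_smul_right, norm_mul]
  exact mul_le_mul_of_nonneg_left (NO_le hC hv x) (norm_nonneg _)
theorem nor_smul (c : 𝕜) (x : X0 𝕜) : nor (c • x) = ‖c‖ * nor x := by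
  apply le_antisymm (NO_smul_le c x)
  by_cases hc : c = 0
  · rw [hc, zero_smul, norm_zero, zero_mul, nor_zero]
  · have h := NO_smul_le c⁻¹ (c • x)
    rw [smul_smul, inv_mul_cancel₀ hc, one_smul, norm_inv] at h
    have hpos : 0 < ‖c‖ := norm_pos_iff.2 hc
    calc ‖c‖ * nor x ≤ ‖c‖ * (‖c‖⁻¹ * nor (c • x)) := mul_le_mul_of_nonneg_left h hpos.le
      _ = nor (c • x) := by rw [← mul_assoc, mul_inv_cancel₀ hpos.ne', one_mul]
theorem nor_smul_real (c : ℝ) (x : X0 𝕜) : nor (c • x) = |c| * nor x := by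
  have h : c • x = (c : 𝕜) • x := by
    ext l
    rw [Finsupp.smul_apply, Finsupp.smul_apply, RCLike.real_smul_eq_coe_mul, smul_eq_mul]
  rw [h, nor_smul, RCLike.norm_ofReal]
theorem nor_add_le (x y : X0 𝕜) : nor (x + y) ≤ nor x + nor y := by
  apply nor_le_of (add_nonneg (nor_nonneg _) (nor_nonneg _))
  intro v hC hv
  rw [Phi_add_right]
  exact (norm_add_le _ _).trans (add_le_add (NO_le hC hv x) (NO_le hC hv y))
theorem nor_neg (x : X0 𝕜) : nor (-x) = nor x := by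
  unfold nor
  simp only [Phi_neg_right, norm_neg]
theorem nor_resX_le {J : Set ℕ} (hJ : J.OrdConnected) (x : X0 𝕜) : nor (resX J x) ≤ nor x := by
  apply nor_le_of (nor_nonneg _)
  intro v hC hv
  rw [← Phi_res_eq]
  exact NO_le (C.res hC hJ) ((nrm_res_le J v).trans hv) x
/-- norming functionals supported where `x` lives -/
theorem exists_norming {x : X0 𝕜} {J : Set ℕ} (hJ : J.OrdConnected) (hx : ∀ l ∈ x.support, l ∈ J)
    {c : ℝ} (hc : c < nor x) : ∃ u, C u ∧ nrm u ≤ 1 ∧ (∀ p ∈ u.support, p.1 ∈ J) ∧ c < ‖Phi u x‖ := by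
  obtain ⟨t, ⟨v, hC, hv, rfl⟩, hct⟩ := exists_lt_of_lt_csSup ⟨0, NO_zero_mem x⟩ hc
  refine ⟨res J v, C.res hC hJ, (nrm_res_le J v).trans hv, ?_, ?_⟩
  · intro p hp
    exact (mem_res.1 hp).2
  · rw [Phi_res v x hx]
    exact hct

end H94.WH
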