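import Pool.Agent.H94.WH.SD
import Pool.Agent.H94.WH.GF
import Pool.Agent.H94.WH.NO

/-!
# MODULE LH2: lower bound for special vectors (section 10)
`v = pre q (∑ w_k) ∈ C`: constructor `odd` with `ws = (List.range (2*M')).map w`, `w k = c k • u k`, `I = univ`, scalar `1`, `bs` = strictly monotone extension of `lo` (`bs k = lo k` for `k < 2M'`, `bs (2M'-1+j) = hi (2M'-1) + j` for `j ≥ 1`..),
`ws.take r = (List.range r).map w`, `col {p k} (w k) = w k` from `hcol`. `nrm v ^ 2 = ∑ c_k^2 nrm (u_k)^2 ≤ 2` (`nrm_pre`, `nrm_sum_sq`), `Phi v (∑ c_k x_k) = (m q)⁻¹ ∑ c_k^2 = 2/m_q` (different blocks do not interact),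
so `2/m_q ≤ √2 nor (..)` (`abs_Phi_le_nor`).
-/

set_option autoImplicit false

namespace H94.WH

open Finset

variable {𝕜 : Type} [RCLike 𝕜]

theorem LH2_listsum {n : ℕ} (w : ℕ → V) : ((List.range n).map w).sum = ∑ k ∈ Finset.range n, w k := by
  induction n with
  | zero => simp
  | succ n ih => rw [List.range_succ, List.map_append, List.sum_append, ih, Finset.sum_range_succ]; simp

theorem LH2_smul_support {c : ℚ} {u : V} {p : Atom} (h : p ∈ (c • u).support) : p ∈ u.support :=
  Finsupp.support_smul h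

theorem LH2_far {n : ℕ} {lo hi : ℕ → ℕ} (hI : Ivals n lo hi) {i j : ℕ} (hij : i < j) (hj : j < n) :
    hi i < lo j := by
  induction j with
  | zero => omega
  | succ j ih =>
    have h1 := hI.2 j hj
    rcases Nat.lt_or_ge i j with h2 | h2
    · have h3 := ih h2 (by omega)
      have h4 := hI.1 j (by omega)
      omega
    · have : i = j := by omega
      subst this
      exact h1

theorem special_lower {q : ℕ} (hq : Odd q) {M' : ℕ} (hM : 0 < M') {δ : ℝ}
    {x : ℕ → X0 𝕜} {u : ℕ → V} {c : ℕ → ℚ} {lo hi : ℕ → ℕ} (h : SpecialData q M' δ x u c lo hi) :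
    1 / (m q : ℝ) ≤ nor (∑ k ∈ Finset.range (2 * M'), (c k : ℝ) • x k) := by
  classical
  obtain ⟨n, hn⟩ : ∃ n, n = 2 * M' := ⟨_, rfl⟩
  have hn0 : 0 < n := by omega
  have hI := h.hI
  have hex := h.hex
  have hlo := h.hlo
  have hsum := h.hsum
  rw [← hn] at hI hex hlo hsum ⊢
  obtain ⟨w, hw⟩ : ∃ w : ℕ → V, w = fun i => c i • u i := ⟨_, rfl⟩
  have hwk : ∀ k, w k = c k • u k := fun k => by rw [hw]
  rw [← hw] at hex
  obtain ⟨bs, hbs⟩ : ∃ bs : ℕ → ℕ, bs = fun k => if k < n then lo k else hi (n - 1) + 1 + (k - n) :=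
    ⟨_, rfl⟩
  have hbs1 : ∀ k < n, bs k = lo k := fun k hk => by rw [hbs]; simp [hk]
  have hbs2 : ∀ k, n ≤ k → bs k = hi (n - 1) + 1 + (k - n) := fun k hk => by
    rw [hbs]; simp [not_lt.2 hk]
  have hnext : ∀ k < n, hi k < bs (k + 1) := by
    intro k hk
    rcases Nat.lt_or_ge (k + 1) n with h1 | h1
    · rw [hbs1 _ h1]
      exact hI.2 k h1
    · rw [hbs2 _ h1]
      have : k = n - 1 := by omega
      subst this
      omega
  have hmono : StrictMono bs := by
    refine strictMono_nat_of_lt_succ fun k => ?_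
    rcases Nat.lt_or_ge k n with h1 | h1
    · rw [hbs1 k h1]
      exact lt_of_le_of_lt (hI.1 k h1) (hnext k h1)
    · rw [hbs2 k h1, hbs2 (k + 1) (by omega)]
      omega
  obtain ⟨ws, hws⟩ : ∃ ws : List V, ws = (List.range n).map w := ⟨_, rfl⟩
  have hlen : ws.length = n := by rw [hws]; simp
  have hget : ∀ r (hr : r < ws.length), ws[r] = w r := by
    intro r hr
    subst hws
    simp
  have htake : ∀ r, r < n → ws.take r = (List.range r).map w := by
    intro r hr
    rw [hws, ← List.map_take, List.take_range, min_eq_left hr.le]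
  have hsp : Special q ws bs := by
    refine ⟨hmono, ?_, ?_, ?_⟩
    · rw [hlen]
      have : (Finset.range n).image bs = (Finset.range n).image lo := by
        refine Finset.image_congr fun k hk => hbs1 k ?_
        simpa using hk
      rw [this]
      exact hlo
    · intro r hr p hp
      rw [hget r hr, hwk] at hp
      rw [hlen] at hr
      have h1 := (hex r hr).hu p (LH2_smul_support hp)
      exact ⟨by rw [hbs1 r hr]; exact h1.1, lt_of_le_of_lt h1.2 (hnext r hr)⟩
    · intro r hr
      have hr' := hr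
      rw [hlen] at hr'
      rw [hget r hr, htake r hr', hwk, col_smul, (hex r hr').hcol]
  have hCw : ∀ v ∈ ws, C v := by
    intro v hv
    rw [hws, List.mem_map] at hv
    obtain ⟨k, hk, rfl⟩ := hv
    rw [List.mem_range] at hk
    rw [hwk]
    have h1 : G 0 (u k) := (hex k hk).hC
    exact G.smul h1 (c k)
  have hCv : C (pre q (∑ k ∈ Finset.range n, w k)) := by
    have h1 := C.odd q hq ws bs hsp hCw Set.univ Set.ordConnected_univ 1
    rw [one_smul, res_eq_self (fun p _ => Set.mem_univ _), hws, LH2_listsum] at h1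
    exact h1
  -- norm of the functional
  have hd : ∀ i ∈ Finset.range n, ∀ j ∈ Finset.range n, i ≠ j →
      Disjoint (Set.Icc (lo i) (hi i)) (Set.Icc (lo j) (hi j)) := by
    intro i hi' j hj hij
    rw [Finset.mem_range] at hi' hj
    rw [Set.disjoint_left]
    intro a ha1 ha2
    rw [Set.mem_Icc] at ha1 ha2
    rcases Nat.lt_or_ge i j with h1 | h1
    · have := LH2_far hI h1 hj
      omega
    · have := LH2_far hI (lt_of_le_of_ne h1 (Ne.symm hij)) hi'
      omega
  have hnrm : nrm (pre q (∑ k ∈ Finset.range n, w k)) ^ 2 ≤ 2 := by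
    rw [nrm_pre, nrm_sum_sq (Finset.range n) (fun k => Set.Icc (lo k) (hi k)) hd w]
    · have h1 : ∀ k ∈ Finset.range n, nrm (w k) ^ 2 ≤ ((c k ^ 2 : ℚ) : ℝ) := by
        intro k hk
        rw [Finset.mem_range] at hk
        rw [hwk, nrm_smul, mul_pow, sq_abs]
        push_cast
        have h2 := (hex k hk).hn
        have h3 := nrm_nonneg (u k)
        have h4 : nrm (u k) ^ 2 ≤ 1 := by nlinarith
        have h5 : 0 ≤ (c k : ℝ) ^ 2 := sq_nonneg _
        nlinarith
      refine (Finset.sum_le_sum h1).trans (le_of_eq ?_)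
      rw [← Rat.cast_sum, hsum]
      norm_num
    · intro k hk p hp
      rw [Finset.mem_range] at hk
      rw [hwk] at hp
      exact (hex k hk).hu p (LH2_smul_support hp)
  -- the value of the functional
  have hval : Phi (pre q (∑ k ∈ Finset.range n, w k)) (∑ k ∈ Finset.range n, (c k : ℝ) • x k)
      = ((2 * (m q : ℝ)⁻¹ : ℝ) : 𝕜) := by
    rw [Phi_pre, Phi_sum_left]
    have h1 : ∀ k ∈ Finset.range n, Phi (w k) (∑ j ∈ Finset.range n, (c j : ℝ) • x j)
        = (((c k ^ 2 : ℚ) : ℝ) : 𝕜) := by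
      intro k hk
      rw [Phi_sum_right, Finset.sum_eq_single k]
      · rw [Phi_smul_real, hwk, Phi_smul_left, (hex k (Finset.mem_range.1 hk)).hPhi]
        push_cast
        ring
      · intro j hj hjk
        rw [Phi_smul_real, Phi_eq_zero_of_disj, mul_zero]
        intro p hp hpx
        rw [hwk] at hp
        have h2 := (hex k (Finset.mem_range.1 hk)).hu p (LH2_smul_support hp)
        have h3 := (hex j (Finset.mem_range.1 hj)).hx p.1 hpx
        exact Set.disjoint_left.1 (hd k hk j hj (Ne.symm hjk)) ⟨h2.1, h2.2⟩ ⟨h3.1, h3.2⟩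
      · intro h2
        exact absurd hk h2
    rw [Finset.sum_congr rfl h1]
    have h2 : (∑ k ∈ Finset.range n, (((c k ^ 2 : ℚ) : ℝ) : 𝕜)) = ((2 : ℝ) : 𝕜) := by
      rw [← RCLike.ofReal_sum, ← Rat.cast_sum, hsum]
      norm_num
    rw [h2]
    push_cast
    ring
  have hfin := abs_Phi_le_nor hCv (∑ k ∈ Finset.range n, (c k : ℝ) • x k)
  rw [hval, RCLike.norm_ofReal] at hfin
  have hm : (0 : ℝ) < m q := by
    unfold m
    positivity
  have hinv : (0 : ℝ) < (m q : ℝ)⁻¹ := by positivity
  rw [abs_of_pos (by positivity)] at hfin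
  have hN0 := nrm_nonneg (pre q (∑ k ∈ Finset.range n, w k))
  have hN2 : nrm (pre q (∑ k ∈ Finset.range n, w k)) ≤ 2 := by nlinarith
  have hx0 := nor_nonneg (∑ k ∈ Finset.range n, (c k : ℝ) • x k)
  rw [one_div]
  nlinarith

end H94.WH
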