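import Pool.Agent.H94.WH.GF

/-!
# MODULE GQ0: the q-lemma (G11) for elements of the cone

Write `p k = code q ((List.range k).map w)` (injective in the list, so also in `k`: the lists have different lengths).

`qlemma0` (v in the cone). If `comp q v = 0` take `Ch = ∅`, `γ = 0`. Otherwise (`C.comp_odd`) `comp q v = c • res I ws.sum`; replace `I` by `I ∩ [b,∞)` (`comp q v` has
positions `≥ b`). Let `ρ` = the length of the longest common prefix of `ws` and `(w 0, .., w (M-1))`: `ρ ≤ M`, `ρ ≤ ws.length`, `ws[r] = w r` for `r < ρ`, and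
(`ρ = M` or `ρ = ws.length` or `ws[ρ] ≠ w ρ`). For `k < M`:
`col {p k} (comp q v) = c • ∑_r res I (col {p k} ws[r])`, and `col {p k} ws[r] = ws[r]` if `ws.take r = (List.range k).map w`, else `0` (since
`ws[r] = col {code q (ws.take r)} ws[r]` and `code` is injective); equality of the lists means `r = k ≤ ρ`. Hence
 * `k < ρ`: `res [lo k, hi k] (col {p k} (comp q v)) = c • res I (w k)`: equal to `c • w k` if `[lo k, hi k] ⊆ I`, to `0` if disjoint from `I`;
 * `k > ρ`: `= 0`;  `k = ρ`: supported in `I ∩ [lo k, hi k]`, so `= 0` if `hi k < b`.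
`γ k = c` if `k < ρ ∧ [lo k, hi k] ⊆ I`, else `0`. `Ch = {k < M : b ≤ hi k ∧ (k = ρ ∨ ([lo k,hi k] meets I and is not contained in I) ∨ (k ∈ Q ∧ k-1 ∉ Q) ∨ (k ∉ Q ∧ k ≥ 1 ∧ k-1 ∈ Q))}`
with `Q = {k < ρ : [lo k, hi k] ⊆ I}` (an interval of indices). It has at most `5 ≤ g b` elements (`Kset.of_card`): 1 + 2 + 1 + 1.
-/

set_option autoImplicit false

namespace H94.WH

open Finset

theorem code_inj {q : ℕ} {ws ws' : List V} (h : code q ws = code q ws') : ws = ws' := by
  unfold code at h
  apply Classical.choose_spec exists_code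
  omega

theorem code_even (q : ℕ) (ws : List V) : Even (code q ws) := by
  unfold code
  exact even_two_mul _

theorem code_ge (q : ℕ) (ws : List V) : q + 2 ≤ code q ws := by
  unfold code
  omega

theorem GQ0_card2 (S : Finset ℕ) (h : ∀ a ∈ S, ∀ b ∈ S, ∀ c ∈ S, a < b → b < c → False) :
    S.card ≤ 2 := by
  by_contra hcon
  push Not at hcon
  obtain ⟨a, ha, b, hb, c, hc, hab, hac, hbc⟩ := Finset.two_lt_card.1 hcon
  rcases lt_or_gt_of_ne hab with h1 | h1 <;> rcases lt_or_gt_of_ne hac with h2 | h2 <;>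
    rcases lt_or_gt_of_ne hbc with h3 | h3
  · exact h a ha b hb c hc h1 h3
  · exact h a ha c hc b hb h2 h3
  · omega
  · exact h c hc a ha b hb h2 h1
  · exact h b hb a ha c hc h1 h2
  · omega
  · exact h b hb c hc a ha h3 h2
  · exact h c hc b hb a ha h3 h1

theorem GQ0_take_le {w : ℕ → V} {ws : List V} {j k : ℕ} (hjk : j ≤ k)
    (h : ws.take k = (List.range k).map w) : ws.take j = (List.range j).map w := by
  have h1 : (ws.take k).take j = ((List.range k).map w).take j := by rw [h]
  rw [List.take_take, min_eq_left hjk, ← List.map_take, List.take_range, min_eq_left hjk] at h1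
  exact h1

theorem GQ0_get {w : ℕ → V} {ws : List V} {j k : ℕ} (hjk : j < k)
    (h : ws.take k = (List.range k).map w) : ws.getD j 0 = w j := by
  have h1 : (ws.take k)[j]? = ((List.range k).map w)[j]? := by rw [h]
  rw [List.getElem?_take_of_lt hjk, List.getElem?_map, List.getElem?_range hjk] at h1
  simp only [Option.map_some] at h1
  rw [List.getD_eq_getElem?_getD, h1]
  rfl

theorem GQ0_sum {q : ℕ} {w : ℕ → V} {ws : List V}
    (hcol : ∀ r (hr : r < ws.length), H94.WH.col {code q (ws.take r)} ws[r] = ws[r]) (k : ℕ) :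
    (¬ (k < ws.length ∧ ws.take k = (List.range k).map w) →
      H94.WH.col {code q ((List.range k).map w)} ws.sum = 0) ∧
    ((k < ws.length ∧ ws.take k = (List.range k).map w) →
      H94.WH.col {code q ((List.range k).map w)} ws.sum = ws.getD k 0) := by
  have hs : ws.sum = ∑ r : Fin ws.length, ws[(r : ℕ)] := (Fin.sum_univ_getElem ws).symm
  have hz : ∀ r : Fin ws.length, ws.take r ≠ (List.range k).map w →
      H94.WH.col {code q ((List.range k).map w)} ws[(r : ℕ)] = 0 := by
    intro r hr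
    rw [← hcol r r.2, col_col]
    have h1 : ({code q ((List.range k).map w)} ∩ {code q (ws.take r)} : Set ℕ) = ∅ := by
      rw [Set.eq_empty_iff_forall_notMem]
      rintro x ⟨hx1, hx2⟩
      rw [Set.mem_singleton_iff] at hx1 hx2
      exact hr (code_inj (hx2.symm.trans hx1))
    rw [h1]
    ext ⟨l, π⟩
    rcases π with _ | ⟨s, π⟩
    · rw [col_apply_nil]
      simp
    · rw [col_apply_cons]
      simp
  have hlen : ∀ r : Fin ws.length, ws.take r = (List.range k).map w → (r : ℕ) = k := by
    intro r hr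
    have h1 := congrArg List.length hr
    rw [List.length_take, List.length_map, List.length_range] at h1
    have := r.2
    omega
  constructor
  · intro hk
    rw [hs, col_sum]
    refine Finset.sum_eq_zero fun r _ => hz r fun hr => hk ?_
    have := hlen r hr
    rw [← this]
    refine ⟨r.2, ?_⟩
    rw [this]
    rw [this] at hr
    exact hr
  · rintro ⟨hk, htake⟩
    rw [hs, col_sum, Finset.sum_eq_single (⟨k, hk⟩ : Fin ws.length)]
    · have h1 := hcol k hk
      rw [← htake]
      have h2 : ws.getD k 0 = ws[k] := by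
        rw [List.getD_eq_getElem?_getD, List.getElem?_eq_getElem hk]
        rfl
      rw [h2]
      exact h1
    · intro r _ hr
      refine hz r fun h1 => hr ?_
      exact Fin.ext (hlen r h1)
    · intro h1
      exact absurd (Finset.mem_univ _) h1

/-- `code q ws ≥ 2 (q+1)`, so `q + 2 ≤ code q ws` for `q ≥ 0` -/
theorem qlemma0 {q : ℕ} (hq : Odd q) {M : ℕ} {w : ℕ → V} {lo hi : ℕ → ℕ} (hI : Ivals M lo hi)
    (hw : ∀ k < M, ∀ p ∈ (w k).support, lo k ≤ p.1 ∧ p.1 ≤ hi k)
    (hc : ∀ k < M, H94.WH.col {code q ((List.range k).map w)} (w k) = w k)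
    {v : V} (h : C v) (b : ℕ) (hb : ∀ p ∈ v.support, b ≤ p.1) :
    ∃ (Ch : Finset ℕ) (γ : ℕ → ℚ), Ch ⊆ Finset.range M ∧ Kset 1 (Ch.image hi) ∧ (∀ k ∈ Ch, b ≤ hi k) ∧
      (∀ k < M, k ∉ Ch → H94.WH.res (Set.Icc (lo k) (hi k))
        (H94.WH.col {code q ((List.range k).map w)} (comp q v)) = γ k • w k) ∧
      ∀ k, k + 1 < M → k ∉ Ch → k + 1 ∉ Ch → γ k = γ (k + 1) := by
  classical
  rcases h.comp_odd hq with h0 | ⟨ws, bs, I, c, hsp, hC, hIo, hcomp⟩
  · refine ⟨∅, 0, by simp, by simpa using Kset.empty 1, by simp, ?_, by simp⟩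
    intro k hk _
    rw [h0, col_zero, res_zero]
    simp
  -- intervals
  have hlohi : ∀ k < M, lo k ≤ hi k := hI.1
  have hsucc : ∀ j k, j < k → k < M → hi j < lo k := by
    intro j k hjk
    induction k, hjk using Nat.le_induction with
    | base => intro hk; exact hI.2 j hk
    | succ k hk ih =>
      intro hk2
      have h1 := ih (by omega)
      have h2 := hlohi k (by omega)
      have h3 := hI.2 k hk2
      omega
  -- the interval I'
  set I' : Set ℕ := Set.Ici b ∩ I with hI'
  have hI'o : I'.OrdConnected := Set.ordConnected_Ici.inter hIo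
  have hcomp' : comp q v = c • H94.WH.res I' ws.sum := by
    have h1 : H94.WH.res (Set.Ici b) (comp q v) = comp q v := by
      apply res_eq_self
      intro p hp
      rw [mem_comp] at hp
      exact hb (p.1, q :: p.2) hp
    rw [← h1, hcomp, res_smul, res_res]
  have hX := GQ0_sum (w := w) hsp.2.2.2
  set Pre : ℕ → Prop := fun k => k < ws.length ∧ ws.take k = (List.range k).map w with hPre
  have hPre_lt : ∀ j k, j ≤ k → Pre k → Pre j := by
    rintro j k hjk ⟨h1, h2⟩
    exact ⟨by omega, GQ0_take_le hjk h2⟩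
  have hPre_get : ∀ j k, j < k → Pre k → ws.getD j 0 = w j := by
    rintro j k hjk ⟨h1, h2⟩
    exact GQ0_get hjk h2
  set Q : ℕ → Prop := fun k => k < M ∧ Pre k ∧ ws.getD k 0 = w k ∧ Set.Icc (lo k) (hi k) ⊆ I' with hQ
  have hQconv : ∀ i j k, i < j → j < k → Q i → Q k → Q j := by
    rintro i j k hij hjk ⟨hi1, hi2, hi3, hi4⟩ ⟨hk1, hk2, hk3, hk4⟩
    refine ⟨by omega, hPre_lt j k hjk.le hk2, hPre_get j k hjk hk2, ?_⟩
    have a1 : hi i ∈ I' := hi4 ⟨hlohi i hi1, le_rfl⟩
    have a2 : lo k ∈ I' := hk4 ⟨le_rfl, hlohi k hk1⟩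
    have a3 := hsucc i j hij (by omega)
    have a4 := hsucc j k hjk hk1
    intro x hx
    exact hI'o.out a1 a2 ⟨by have := hx.1; omega, by have := hx.2; omega⟩
  have hQb : ∀ k, Q k → b ≤ lo k := by
    rintro k ⟨h1, h2, h3, h4⟩
    exact (h4 ⟨le_rfl, hlohi k h1⟩).1
  -- the four parts of Ch
  set S1 := (Finset.range M).filter (fun k => b ≤ hi k ∧ Pre k ∧ ws.getD k 0 ≠ w k) with hS1
  set S2 := (Finset.range M).filter (fun k => (∃ x ∈ Set.Icc (lo k) (hi k), x ∈ I') ∧
    ¬ Set.Icc (lo k) (hi k) ⊆ I') with hS2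
  set S3 := (Finset.range M).filter (fun k => 1 ≤ k ∧ Q (k - 1) ∧ ¬ Q k) with hS3
  set S4 := (Finset.range M).filter (fun k => 1 ≤ k ∧ ¬ Q (k - 1) ∧ Q k) with hS4
  have c1 : S1.card ≤ 1 := by
    rw [Finset.card_le_one]
    intro x hx y hy
    rw [hS1, Finset.mem_filter] at hx hy
    rcases lt_trichotomy x y with h1 | h1 | h1
    · exact absurd (hPre_get x y h1 hy.2.2.1) hx.2.2.2
    · exact h1
    · exact absurd (hPre_get y x h1 hx.2.2.1) hy.2.2.2
  have c2 : S2.card ≤ 2 := by
    apply GQ0_card2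
    intro x hx y hy z hz hxy hyz
    rw [hS2, Finset.mem_filter, Finset.mem_range] at hx hy hz
    obtain ⟨hx1, ⟨x', hx2, hx3⟩, hx4⟩ := hx
    obtain ⟨hy1, _, hy4⟩ := hy
    obtain ⟨hz1, ⟨z', hz2, hz3⟩, hz4⟩ := hz
    apply hy4
    intro t ht
    have a3 := hsucc x y hxy hy1
    have a4 := hsucc y z hyz hz1
    exact hI'o.out hx3 hz3 ⟨by have := hx2.2; have := ht.1; omega, by
      have := hz2.1; have := ht.2; omega⟩
  have c3 : S3.card ≤ 1 := by
    rw [Finset.card_le_one]
    intro x hx y hy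
    rw [hS3, Finset.mem_filter] at hx hy
    rcases lt_trichotomy x y with h1 | h1 | h1
    · exfalso
      rcases (show x = y - 1 ∨ x < y - 1 by omega) with h2 | h2
      · exact hx.2.2.2 (h2 ▸ hy.2.2.1)
      · exact hx.2.2.2 (hQconv (x - 1) x (y - 1) (by omega) h2 hx.2.2.1 hy.2.2.1)
    · exact h1
    · exfalso
      rcases (show y = x - 1 ∨ y < x - 1 by omega) with h2 | h2
      · exact hy.2.2.2 (h2 ▸ hx.2.2.1)
      · exact hy.2.2.2 (hQconv (y - 1) y (x - 1) (by omega) h2 hy.2.2.1 hx.2.2.1)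
  have c4 : S4.card ≤ 1 := by
    rw [Finset.card_le_one]
    intro x hx y hy
    rw [hS4, Finset.mem_filter] at hx hy
    rcases lt_trichotomy x y with h1 | h1 | h1
    · exfalso
      rcases (show x = y - 1 ∨ x < y - 1 by omega) with h2 | h2
      · exact hy.2.2.1 (h2 ▸ hx.2.2.2)
      · exact hy.2.2.1 (hQconv x (y - 1) y h2 (by omega) hx.2.2.2 hy.2.2.2)
    · exact h1
    · exfalso
      rcases (show y = x - 1 ∨ y < x - 1 by omega) with h2 | h2
      · exact hx.2.2.1 (h2 ▸ hy.2.2.2)
      · exact hx.2.2.1 (hQconv y (x - 1) x h2 (by omega) hy.2.2.2 hx.2.2.2)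
  have hbCh : ∀ k ∈ S1 ∪ S2 ∪ S3 ∪ S4, b ≤ hi k := by
    intro k hk
    rw [Finset.mem_union, Finset.mem_union, Finset.mem_union] at hk
    rcases hk with ((hk | hk) | hk) | hk
    · rw [hS1, Finset.mem_filter] at hk
      exact hk.2.1
    · rw [hS2, Finset.mem_filter] at hk
      obtain ⟨_, ⟨x, hx1, hx2⟩, _⟩ := hk
      exact le_trans hx2.1 hx1.2
    · rw [hS3, Finset.mem_filter, Finset.mem_range] at hk
      have a1 := hQb _ hk.2.2.1
      have a2 := hsucc (k - 1) k (by omega) hk.1
      have a3 := hlohi (k - 1) (by omega)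
      have a4 := hlohi k hk.1
      omega
    · rw [hS4, Finset.mem_filter, Finset.mem_range] at hk
      have a1 := hQb _ hk.2.2.2
      have a4 := hlohi k hk.1
      omega
  refine ⟨S1 ∪ S2 ∪ S3 ∪ S4, fun k => if Q k then c else 0, ?_, ?_, hbCh, ?_, ?_⟩
  · refine Finset.union_subset (Finset.union_subset (Finset.union_subset ?_ ?_) ?_) ?_ <;>
      exact Finset.filter_subset _ _
  · refine Kset.of_card (b := b) ?_ ?_
    · have h5 := five_le_g b
      have h1 := Finset.card_image_le (s := S1 ∪ S2 ∪ S3 ∪ S4) (f := hi)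
      have h2 := Finset.card_union_le (S1 ∪ S2 ∪ S3) S4
      have h3 := Finset.card_union_le (S1 ∪ S2) S3
      have h4 := Finset.card_union_le S1 S2
      omega
    · intro a ha
      rw [Finset.mem_image] at ha
      obtain ⟨k, hk, rfl⟩ := ha
      exact hbCh k hk
  · intro k hk hkCh
    simp only [Finset.mem_union, not_or] at hkCh
    obtain ⟨⟨⟨n1, n2⟩, n3⟩, n4⟩ := hkCh
    have e1 : H94.WH.col {code q ((List.range k).map w)} (comp q v) =
        c • H94.WH.res I' (H94.WH.col {code q ((List.range k).map w)} ws.sum) := by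
      rw [hcomp', col_smul, res_col]
    rw [e1, res_smul, res_res]
    beta_reduce
    by_cases hP : Pre k
    · rw [(hX k).2 hP]
      by_cases hW : ws.getD k 0 = w k
      · by_cases hsub : Set.Icc (lo k) (hi k) ⊆ I'
        · have hQk : Q k := ⟨hk, hP, hW, hsub⟩
          rw [if_pos hQk, hW, res_eq_self]
          intro p hp
          have := hw k hk p hp
          exact ⟨this, hsub this⟩
        · have hQk : ¬ Q k := fun h => hsub h.2.2.2
          rw [if_neg hQk, hW, res_eq_zero]
          · simp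
          · intro p hp hp2
            apply n2
            rw [hS2, Finset.mem_filter, Finset.mem_range]
            exact ⟨hk, ⟨p.1, hp2.1, hp2.2⟩, hsub⟩
      · have hQk : ¬ Q k := fun h => hW h.2.2.1
        have hlt : hi k < b := by
          by_contra hcon
          apply n1
          rw [hS1, Finset.mem_filter, Finset.mem_range]
          exact ⟨hk, by omega, hP, hW⟩
        rw [if_neg hQk, res_eq_zero]
        · simp
        · intro p hp hp2
          have a1 := hp2.1.2
          have a2 : b ≤ p.1 := hp2.2.1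
          omega
    · have hQk : ¬ Q k := fun h => hP h.2.1
      rw [(hX k).1 hP, if_neg hQk, res_zero]
      simp
  · intro k hk hkCh hkCh'
    simp only [Finset.mem_union, not_or] at hkCh'
    obtain ⟨⟨⟨n1, n2⟩, n3⟩, n4⟩ := hkCh'
    beta_reduce
    by_cases h1 : Q k
    · by_cases h2 : Q (k + 1)
      · rw [if_pos h1, if_pos h2]
      · exfalso
        apply n3
        rw [hS3, Finset.mem_filter, Finset.mem_range]
        exact ⟨hk, by omega, h1, h2⟩
    · by_cases h2 : Q (k + 1)
      · exfalso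
        apply n4
        rw [hS4, Finset.mem_filter, Finset.mem_range]
        exact ⟨hk, by omega, h1, h2⟩
      · rw [if_neg h1, if_neg h2]

end H94.WH
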