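import Pool.Agent.H94.WH.SD
import Pool.Agent.H94.WH.EX
import Pool.Agent.H94.WH.GQ0

/-!
# MODULE LH3: existence of special vectors (section 10)
`averages` at level `n = nn q - 2` with `δ/2` and items `T` = pairs `(x,u,lo,hi,x',u',lo',hi')`, `lo(item) = lo`, `hi(item) = max lo hi'`; for a history `h : List (T × ℚ)` let
`W h` = `h.flatMap (fun (item, c) => [c • item.u, c • item.u'])`. `R h c item`: `lo ≤ hi`, `hi < lo'`, `x ∈ Y`, `Exact (code q (W h)) (nn (q+1)) x u lo hi`, `x' ∈ Z`, `Exact (code q (W h ++ [c • u])) (nn (q+1)) x' u' lo' hi'`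
(`exists_exact`: `code_ge`, `code_even`, `nn (q+1) ≤ nn (code - 1)`). Bound `N` with `q + 5 ≤ g N`.
Flatten: `x k`, `u k`, `lo k`, `hi k` = first/second component of item `k/2` according to the parity of `k`, `c k` = weight of item `k/2`; `(List.range (2j)).map w = W (history j)`.
`{lo k : k < 2M'} ⊆ {Lo_j} ∪ {lo_{2j+1}}`, `lo_{2j+1} ≥ Lo_j` (`Kset.image`), `Kset.union`: `(nn q - 2) + 1 + 1 = nn q`. `hsm`: `{Hi_j : j = k/2, k ∈ B}` is the image of `{hi_k : k ∈ B}` under a map `≥ id` (`Kset.image`), mass `≤ 2 * δ/2`.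
-/

set_option autoImplicit false

namespace H94.WH

open Finset

variable {𝕜 : Type} [RCLike 𝕜]

/-- items: pairs of exact vectors -/
structure LH3_T (𝕜 : Type) [RCLike 𝕜] : Type where
  x : X0 𝕜
  u : V
  lo : ℕ
  hi : ℕ
  x' : X0 𝕜
  u' : V
  lo' : ℕ
  hi' : ℕ

noncomputable instance LH3_inh : Inhabited (LH3_T 𝕜) := ⟨⟨0, 0, 0, 0, 0, 0, 0, 0⟩⟩

/-- the lifts of a history -/
noncomputable def LH3_W (h : List (LH3_T 𝕜 × ℚ)) : List V :=
  h.flatMap (fun p => [p.2 • p.1.u, p.2 • p.1.u'])

/-- spreading along an injective parametrisation -/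
theorem LH3_spread {n : ℕ} {S : Finset ℕ} {f h : ℕ → ℕ} (hK : Kset n (S.image f))
    (hinj : ∀ i ∈ S, ∀ j ∈ S, f i = f j → i = j) (hle : ∀ i ∈ S, f i ≤ h i) :
    Kset n (S.image h) := by
  classical
  set φ : ℕ → ℕ := fun a => if ha : ∃ i ∈ S, f i = a then h (Classical.choose ha) else a with hφ
  have key : ∀ i ∈ S, φ (f i) = h i := by
    intro i hi
    have hex : ∃ j ∈ S, f j = f i := ⟨i, hi, rfl⟩
    have hs := Classical.choose_spec hex
    have : Classical.choose hex = i := hinj _ hs.1 _ hi hs.2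
    simp only [hφ]
    rw [dif_pos hex, this]
  have h1 : Kset n ((S.image f).image φ) := by
    apply Kset.image hK
    intro a ha
    obtain ⟨i, hi, rfl⟩ := Finset.mem_image.mp ha
    rw [key i hi]
    exact hle i hi
  rw [Finset.image_image] at h1
  have h2 : S.image (φ ∘ f) = S.image h := by
    apply Finset.image_congr
    intro i hi
    exact key i hi
  rwa [h2] at h1

theorem LH3_sum_half {A : Type} [Field A] (f : ℕ → A) (M : ℕ) :
    ∑ k ∈ Finset.range (2 * M), f (k / 2) = 2 * ∑ j ∈ Finset.range M, f j := by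
  induction M with
  | zero => simp
  | succ M ih =>
    have h1 : 2 * (M + 1) = 2 * M + 1 + 1 := by ring
    rw [h1, Finset.sum_range_succ, Finset.sum_range_succ, ih, Finset.sum_range_succ]
    have h2 : (2 * M) / 2 = M := by omega
    have h3 : (2 * M + 1) / 2 = M := by omega
    rw [h2, h3]
    ring

theorem LH3_mass (c : ℕ → ℝ) (B : Finset ℕ) :
    ∑ k ∈ B, (c (k / 2)) ^ 2 ≤ 2 * ∑ j ∈ B.image (fun k => k / 2), (c j) ^ 2 := by
  classical
  have h1 : B ⊆ (B.image (fun k => k / 2)).biUnion (fun j => {2 * j, 2 * j + 1}) := by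
    intro k hk
    rw [Finset.mem_biUnion]
    refine ⟨k / 2, Finset.mem_image_of_mem _ hk, ?_⟩
    simp only [Finset.mem_insert, Finset.mem_singleton]
    omega
  calc ∑ k ∈ B, (c (k / 2)) ^ 2
      ≤ ∑ k ∈ (B.image (fun k => k / 2)).biUnion (fun j => {2 * j, 2 * j + 1}), (c (k / 2)) ^ 2 :=
        Finset.sum_le_sum_of_subset_of_nonneg h1 (fun _ _ _ => sq_nonneg _)
    _ ≤ ∑ j ∈ B.image (fun k => k / 2), ∑ k ∈ ({2 * j, 2 * j + 1} : Finset ℕ), (c (k / 2)) ^ 2 := by
        rw [Finset.sum_biUnion]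
        intro a _ b _ hab
        simp only [Function.onFun]
        rw [Finset.disjoint_left]
        intro t ht ht'
        simp only [Finset.mem_insert, Finset.mem_singleton] at ht ht'
        omega
    _ = 2 * ∑ j ∈ B.image (fun k => k / 2), (c j) ^ 2 := by
        rw [Finset.mul_sum]
        apply Finset.sum_congr rfl
        intro j _
        rw [Finset.sum_pair (by omega)]
        have h2 : (2 * j) / 2 = j := by omega
        have h3 : (2 * j + 1) / 2 = j := by omega
        rw [h2, h3]
        ring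

theorem exists_special {q : ℕ} (hq : Odd q) {δ : ℝ} (hδ : 0 < δ) {Y Z : Submodule 𝕜 (X0 𝕜)} (hY : Far Y) (hZ : Far Z) :
    ∃ (M' : ℕ) (x : ℕ → X0 𝕜) (u : ℕ → V) (c : ℕ → ℚ) (lo hi : ℕ → ℕ), 0 < M' ∧ SpecialData q M' δ x u c lo hi ∧
      ∀ j < M', x (2 * j) ∈ Y ∧ x (2 * j + 1) ∈ Z := by
  classical
  obtain ⟨N, hN⟩ := exists_le_g (q + 5)
  set R : List (LH3_T 𝕜 × ℚ) → ℚ → LH3_T 𝕜 → Prop := fun h c t =>
    t.hi < t.lo' ∧ t.x ∈ Y ∧ Exact (code q (LH3_W h)) (nn (q + 1)) t.x t.u t.lo t.hi ∧
      t.x' ∈ Z ∧ Exact (code q (LH3_W h ++ [c • t.u])) (nn (q + 1)) t.x' t.u' t.lo' t.hi' with hRdef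
  have hcode : ∀ ws : List V, 2 ≤ code q ws ∧ nn (q + 1) ≤ nn (code q ws - 1) := by
    intro ws
    have := code_ge q ws
    refine ⟨by omega, nn_mono (by omega)⟩
  have hR : ∀ (h : List (LH3_T 𝕜 × ℚ)) (c : ℚ) (N : ℕ), 0 < c → ∃ x, R h c x ∧ N < x.lo := by
    intro h c N _
    obtain ⟨x, u, lo, hi, hx, hlo, hE⟩ := exists_exact (hcode (LH3_W h)).1 (code_even q _)
      (hcode (LH3_W h)).2 hY N
    obtain ⟨x', u', lo', hi', hx', hlo', hE'⟩ := exists_exact (hcode (LH3_W h ++ [c • u])).1
      (code_even q _) (hcode (LH3_W h ++ [c • u])).2 hZ hi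
    exact ⟨⟨x, u, lo, hi, x', u', lo', hi'⟩, ⟨hlo', hx, hE, hx', hE'⟩, hlo⟩
  obtain ⟨M, X, c, hM, hc, hRk, hN0, hsucc, hsum, hKhi, hKlo, hsm⟩ :=
    averages (T := LH3_T 𝕜) (fun t => t.lo) (fun t => max t.lo t.hi') (fun t => le_max_left _ _)
      R hR (nn q - 2) (δ / 2) (by positivity) N
  have hnn : nn q - 2 + 1 + 1 = nn q := by
    have : 2 ≤ nn q := by
      unfold nn
      calc 2 = 2 ^ 1 := by norm_num
        _ ≤ 2 ^ ((q + 5) ^ 2) := Nat.pow_le_pow_right (by norm_num) (Nat.one_le_pow _ _ (by omega))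
    omega
  set xx : ℕ → X0 𝕜 := fun k => if k % 2 = 0 then (X (k / 2)).x else (X (k / 2)).x' with hxx
  set uu : ℕ → V := fun k => if k % 2 = 0 then (X (k / 2)).u else (X (k / 2)).u' with huu
  set ll : ℕ → ℕ := fun k => if k % 2 = 0 then (X (k / 2)).lo else (X (k / 2)).lo' with hll
  set hh : ℕ → ℕ := fun k => if k % 2 = 0 then (X (k / 2)).hi else (X (k / 2)).hi' with hhh
  set cc : ℕ → ℚ := fun k => c (k / 2) with hcc
  have e0 : ∀ j, (2 * j) % 2 = 0 := fun j => by omega
  have e1 : ∀ j, ¬ (2 * j + 1) % 2 = 0 := fun j => by omega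
  have e2 : ∀ j, (2 * j) / 2 = j := fun j => by omega
  have e3 : ∀ j, (2 * j + 1) / 2 = j := fun j => by omega
  have xx0 : ∀ j, xx (2 * j) = (X j).x := fun j => by simp only [hxx, e2, if_pos (e0 j)]
  have xx1 : ∀ j, xx (2 * j + 1) = (X j).x' := fun j => by simp only [hxx, e3, if_neg (e1 j)]
  have uu0 : ∀ j, uu (2 * j) = (X j).u := fun j => by simp only [huu, e2, if_pos (e0 j)]
  have uu1 : ∀ j, uu (2 * j + 1) = (X j).u' := fun j => by simp only [huu, e3, if_neg (e1 j)]
  have ll0 : ∀ j, ll (2 * j) = (X j).lo := fun j => by simp only [hll, e2, if_pos (e0 j)]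
  have ll1 : ∀ j, ll (2 * j + 1) = (X j).lo' := fun j => by simp only [hll, e3, if_neg (e1 j)]
  have hh0 : ∀ j, hh (2 * j) = (X j).hi := fun j => by simp only [hhh, e2, if_pos (e0 j)]
  have hh1 : ∀ j, hh (2 * j + 1) = (X j).hi' := fun j => by simp only [hhh, e3, if_neg (e1 j)]
  have cc0 : ∀ j, cc (2 * j) = c j := fun j => by simp only [hcc, e2]
  have cc1 : ∀ j, cc (2 * j + 1) = c j := fun j => by simp only [hcc, e3]
  have hlist : ∀ j, (List.range (2 * j)).map (fun i => cc i • uu i) =
      LH3_W ((List.range j).map (fun i => (X i, c i))) := by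
    intro j
    induction j with
    | zero => simp [LH3_W]
    | succ j ih =>
      have h1 : 2 * (j + 1) = 2 * j + 1 + 1 := by ring
      rw [h1, List.range_succ, List.range_succ, List.map_append, List.map_append, ih,
        List.range_succ, List.map_append]
      unfold LH3_W
      rw [List.flatMap_append]
      simp [uu0, uu1, cc0, cc1, List.append_assoc]
  have hlist1 : ∀ j, (List.range (2 * j + 1)).map (fun i => cc i • uu i) =
      LH3_W ((List.range j).map (fun i => (X i, c i))) ++ [c j • (X j).u] := by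
    intro j
    rw [List.range_succ, List.map_append, hlist j]
    simp [uu0, cc0]
  have parity : ∀ k, k < 2 * M → ∃ j < M, k = 2 * j ∨ k = 2 * j + 1 := by
    intro k hk
    exact ⟨k / 2, by omega, by omega⟩
  have hIv : Ivals (2 * M) ll hh := by
    constructor
    · intro k hk
      obtain ⟨j, hj, rfl | rfl⟩ := parity k hk
      · rw [ll0, hh0]; exact (hRk j hj).2.2.1.hlh
      · rw [ll1, hh1]; exact (hRk j hj).2.2.2.2.hlh
    · intro k hk
      obtain ⟨j, hj, rfl | rfl⟩ := parity k (by omega)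
      · rw [ll1, hh0]; exact (hRk j hj).1
      · have h1 : 2 * j + 1 + 1 = 2 * (j + 1) := by ring
        rw [h1, ll0, hh1]
        exact lt_of_le_of_lt (le_max_right _ _) (hsucc j (by omega))
  -- strict monotonicity
  have hLmono : ∀ i j, i < j → j < M → (X i).lo < (X j).lo := by
    intro i j hij
    induction j with
    | zero => omega
    | succ j ih =>
      intro hj
      have hstep : (X j).lo < (X (j + 1)).lo :=
        lt_of_le_of_lt (le_max_left _ _) (hsucc j hj)
      rcases Nat.lt_succ_iff_lt_or_eq.mp hij with h | h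
      · exact lt_trans (ih h (by omega)) hstep
      · rw [h]; exact hstep
  have hhmono : ∀ i j, i < j → j < 2 * M → hh i < hh j := by
    intro i j hij
    induction j with
    | zero => omega
    | succ j ih =>
      intro hj
      have hstep : hh j < hh (j + 1) :=
        lt_of_lt_of_le (hIv.2 j hj) (hIv.1 (j + 1) hj)
      rcases Nat.lt_succ_iff_lt_or_eq.mp hij with h | h
      · exact lt_trans (ih h (by omega)) hstep
      · rw [h]; exact hstep
  refine ⟨M, xx, uu, cc, ll, hh, hM, ?_, ?_⟩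
  · refine ⟨hIv, ?_, ?_, ?_, ?_, ?_, ?_, ?_⟩
    · intro k hk
      exact hc (k / 2) (by omega)
    · intro j _
      rw [cc0, cc1]
    · intro k hk
      obtain ⟨j, hj, rfl | rfl⟩ := parity k hk
      · rw [hlist, xx0, uu0, ll0, hh0]
        exact (hRk j hj).2.2.1
      · rw [hlist1, xx1, uu1, ll1, hh1]
        exact (hRk j hj).2.2.2.2
    · have h1 : ll 0 = (X 0).lo := ll0 0
      rw [h1]
      exact le_trans hN (g_mono hN0.le)
    · rw [LH3_sum_half (fun j => (c j) ^ 2) M, hsum]
      norm_num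
    · -- the left ends
      have h1 : Kset (nn q - 2 + 1) ((Finset.range M).image (fun j => (X j).lo')) := by
        refine LH3_spread hKlo ?_ ?_
        · intro i hi j hj hij
          rw [Finset.mem_range] at hi hj
          rcases lt_trichotomy i j with h | h | h
          · exact absurd hij (ne_of_lt (hLmono i j h hj))
          · exact h
          · exact absurd hij.symm (ne_of_lt (hLmono j i h hi))
        · intro j hj
          rw [Finset.mem_range] at hj
          exact le_of_lt (lt_of_le_of_lt (hRk j hj).2.2.1.hlh (hRk j hj).1)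
      have h2 := Kset.union hKlo h1
      rw [hnn] at h2
      refine Kset.sub h2 ?_
      intro a ha
      obtain ⟨k, hk, rfl⟩ := Finset.mem_image.mp ha
      rw [Finset.mem_range] at hk
      rw [Finset.mem_union]
      obtain ⟨j, hj, rfl | rfl⟩ := parity k hk
      · left
        exact Finset.mem_image.mpr ⟨j, Finset.mem_range.mpr hj, (ll0 j).symm⟩
      · right
        exact Finset.mem_image.mpr ⟨j, Finset.mem_range.mpr hj, (ll1 j).symm⟩
    · -- small masses
      intro B hB hKB
      have hB' : B.image (fun k => k / 2) ⊆ Finset.range M := by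
        intro j hj
        obtain ⟨k, hk, rfl⟩ := Finset.mem_image.mp hj
        have := Finset.mem_range.mp (hB hk)
        rw [Finset.mem_range]
        omega
      have h1 : Kset (nn q - 2) ((B.image (fun k => k / 2)).image (fun j => max (X j).lo (X j).hi')) := by
        rw [Finset.image_image]
        refine LH3_spread hKB ?_ ?_
        · intro i hi j hj hij
          have hi' := Finset.mem_range.mp (hB hi)
          have hj' := Finset.mem_range.mp (hB hj)
          rcases lt_trichotomy i j with h | h | h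
          · exact absurd hij (ne_of_lt (hhmono i j h hj'))
          · exact h
          · exact absurd hij.symm (ne_of_lt (hhmono j i h hi'))
        · intro k hk
          have hk' := Finset.mem_range.mp (hB hk)
          obtain ⟨j, hj, rfl | rfl⟩ := parity k hk'
          · simp only [Function.comp, e2]
            rw [hh0]
            exact le_trans (le_of_lt (lt_of_lt_of_le (hRk j hj).1 (hRk j hj).2.2.2.2.hlh)) (le_max_right _ _)
          · simp only [Function.comp, e3]
            rw [hh1]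
            exact le_max_right _ _
      have h2 := hsm _ hB' h1
      have h3 := LH3_mass (fun j => (c j : ℝ)) B
      calc ∑ k ∈ B, (cc k : ℝ) ^ 2 ≤ 2 * ∑ j ∈ B.image (fun k => k / 2), (c j : ℝ) ^ 2 := h3
        _ ≤ 2 * (δ / 2) := by linarith
        _ = δ := by ring
  · intro j hj
    rw [xx0, xx1]
    exact ⟨(hRk j hj).2.1, (hRk j hj).2.2.2.1⟩

end H94.WH
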