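import Pool.Agent.H94.WH.LH1
import Pool.Agent.H94.WH.LH2
import Pool.Agent.H94.WH.LH3

/-!
# MODULE LH: Lemma H (section 10)
choose `q` odd with `2000/m_q ≤ κ` (`exists_m_ge`, `m_strictMono`), `δ > 0` with `YY q 100 (300/m q) * √δ ≤ 100/(m q)^2`; `exists_special`; `y = ∑ c_{2j} x_{2j}`, `z = ∑ c_{2j+1} x_{2j+1}`.
-/

set_option autoImplicit false

namespace H94.WH

open Finset

variable {𝕜 : Type} [RCLike 𝕜]

theorem LH_pairs {M : Type*} [AddCommMonoid M] (f : ℕ → M) (n : ℕ) :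
    ∑ k ∈ Finset.range (2 * n), f k = ∑ j ∈ Finset.range n, (f (2 * j) + f (2 * j + 1)) := by
  induction n with
  | zero => simp
  | succ n ih =>
    rw [Finset.sum_range_succ, ← ih, show 2 * (n + 1) = 2 * n + 1 + 1 by ring,
      Finset.sum_range_succ, Finset.sum_range_succ, add_assoc]

theorem far_hi {Y Z : Submodule 𝕜 (X0 𝕜)} (hY : Far Y) (hZ : Far Z) {κ : ℝ} (hκ : 0 < κ) :
    ∃ y ∈ Y, ∃ z ∈ Z, y + z ≠ 0 ∧ nor (y - z) ≤ κ * nor (y + z) := by
  obtain ⟨s, hs⟩ := exists_m_ge (2000 / κ)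
  obtain ⟨q, hq, hsq⟩ : ∃ q, Odd q ∧ s ≤ q := ⟨2 * s + 1, ⟨s, rfl⟩, by omega⟩
  have hmq : 2000 / κ ≤ (m q : ℝ) := by
    refine hs.trans ?_
    exact_mod_cast m_strictMono.monotone hsq
  have hm0 : (0 : ℝ) < m q := m_pos q
  have hYY : 0 < YY q 100 (300 / m q) := by
    unfold YY
    positivity
  obtain ⟨δ, hδ, hδ2⟩ : ∃ δ : ℝ, 0 < δ ∧
      YY q 100 (300 / m q) * Real.sqrt δ ≤ 100 / (m q) ^ 2 := by
    refine ⟨(100 / (m q : ℝ) ^ 2 / YY q 100 (300 / m q)) ^ 2, by positivity, ?_⟩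
    rw [Real.sqrt_sq (by positivity)]
    rw [mul_div_cancel₀ _ hYY.ne']
  obtain ⟨M', x, u, c, lo, hi, hM, h, hmem⟩ := exists_special (𝕜 := 𝕜) hq hδ hY hZ
  have hup := special_upper (𝕜 := 𝕜) hq hM hδ2 h
  have hlow := special_lower (𝕜 := 𝕜) hq hM h
  rw [LH_pairs] at hup hlow
  set y : X0 𝕜 := ∑ j ∈ Finset.range M', (c (2 * j) : ℝ) • x (2 * j) with hy
  set z : X0 𝕜 := ∑ j ∈ Finset.range M', (c (2 * j + 1) : ℝ) • x (2 * j + 1) with hz
  have h1 : y + z = ∑ j ∈ Finset.range M', ((c (2 * j) : ℝ) • x (2 * j) +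
      (c (2 * j + 1) : ℝ) • x (2 * j + 1)) := by
    rw [hy, hz, ← Finset.sum_add_distrib]
  have h2 : y - z = ∑ j ∈ Finset.range M', (((-1) ^ (2 * j) * (c (2 * j) : ℝ)) • x (2 * j) +
      ((-1) ^ (2 * j + 1) * (c (2 * j + 1) : ℝ)) • x (2 * j + 1)) := by
    rw [hy, hz, ← Finset.sum_sub_distrib]
    refine Finset.sum_congr rfl fun j _ => ?_
    rw [pow_succ, pow_mul]
    simp [sub_eq_add_neg]
  rw [← h1] at hlow
  rw [← h2] at hup
  refine ⟨y, ?_, z, ?_, ?_, ?_⟩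
  · refine Submodule.sum_mem _ fun j hj => ?_
    exact Submodule.smul_of_tower_mem _ _ (hmem j (Finset.mem_range.1 hj)).1
  · refine Submodule.sum_mem _ fun j hj => ?_
    exact Submodule.smul_of_tower_mem _ _ (hmem j (Finset.mem_range.1 hj)).2
  · intro h0
    rw [h0, nor_zero] at hlow
    have : 0 < 1 / (m q : ℝ) := by positivity
    linarith
  · calc nor (y - z) ≤ 2000 / (m q : ℝ) ^ 2 := hup
      _ ≤ κ * (1 / m q) := by
          rw [div_le_iff₀ hκ] at hmq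
          rw [div_le_iff₀ (by positivity)]
          have : κ * (1 / (m q : ℝ)) * (m q : ℝ) ^ 2 = m q * κ := by
            field_simp
          rw [this]
          exact hmq
      _ ≤ κ * nor (y + z) := mul_le_mul_of_nonneg_left hlow hκ.le

end H94.WH
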