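import Mathlib

/-!
# Statement of MP_96d438_an: weak Hilbert spaces, hereditarily indecomposable spaces
-/

set_option autoImplicit false

namespace H94

open Module

variable (𝕜 : Type) [RCLike 𝕜]

/-- The Banach space `X` over `𝕜` (`ℝ` or `ℂ`) is a weak Hilbert space: it is infinite-dimensional and there are
constants `δ ∈ (0,1]`, `C ≥ 1` such that every finite-dimensional subspace `E` contains a subspace `F` with
`dim F ≥ δ dim E`, an isomorphism `T` of `F` onto the Euclidean space of the same dimension with `‖T‖ ‖T⁻¹‖ ≤ C`,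
and a projection `P` of `X` onto `F` with `‖P‖ ≤ C`. -/
def IsWeakHilbert (X : Type) [NormedAddCommGroup X] [NormedSpace 𝕜 X] : Prop :=
  ¬ FiniteDimensional 𝕜 X ∧ ∃ δ C : ℝ, 0 < δ ∧ δ ≤ 1 ∧ 1 ≤ C ∧
    ∀ E : Submodule 𝕜 X, FiniteDimensional 𝕜 E →
      ∃ F : Submodule 𝕜 X, F ≤ E ∧ δ * (finrank 𝕜 E : ℝ) ≤ (finrank 𝕜 F : ℝ) ∧
        (∃ T : F ≃L[𝕜] EuclideanSpace 𝕜 (Fin (finrank 𝕜 F)),
          ‖(T : F →L[𝕜] EuclideanSpace 𝕜 (Fin (finrank 𝕜 F)))‖ *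
            ‖(T.symm : EuclideanSpace 𝕜 (Fin (finrank 𝕜 F)) →L[𝕜] F)‖ ≤ C) ∧
        ∃ P : X →L[𝕜] X, (∀ x, P x ∈ F) ∧ (∀ x ∈ F, P x = x) ∧ ‖P‖ ≤ C

/-- `Y` (a closed infinite-dimensional subspace) is indecomposable: it is not the direct sum of two closed
infinite-dimensional subspaces. -/
def Indecomposable {X : Type} [NormedAddCommGroup X] [NormedSpace 𝕜 X] (Y : Submodule 𝕜 X) : Prop :=
  ¬ ∃ Y₀ Y₁ : Submodule 𝕜 X, IsClosed (Y₀ : Set X) ∧ IsClosed (Y₁ : Set X) ∧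
    ¬ FiniteDimensional 𝕜 Y₀ ∧ ¬ FiniteDimensional 𝕜 Y₁ ∧ Y₀ ⊓ Y₁ = ⊥ ∧ Y₀ ⊔ Y₁ = Y

/-- `X` is hereditarily indecomposable: every closed infinite-dimensional subspace is indecomposable. -/
def IsHI (X : Type) [NormedAddCommGroup X] [NormedSpace 𝕜 X] : Prop :=
  ∀ Y : Submodule 𝕜 X, IsClosed (Y : Set X) → ¬ FiniteDimensional 𝕜 Y → Indecomposable 𝕜 Y

end H94
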