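import Pool.Agent.H94.WH.HI1
import Pool.Agent.H94.WH.HI2
import Pool.Agent.H94.WH.LH
import Pool.Agent.H94.WH.Stmt

/-!
# MODULE HIP: the completion is hereditarily indecomposable (section 11)

`hi_XB`: `Y₀ ⊓ Y₁ = ⊥`, `Y₀ ⊔ Y₁ = Y` closed: `exists_proj_bound`. Apply `far_hi` with a small `κ` to the far subspaces near `Y₀`, `Y₁` (`exists_far_near`, `ε` small):
`z₀ + z₁ ≠ 0`, `‖z₀ - z₁‖ ≤ κ ‖z₀+z₁‖`, so `‖z_i‖ ≤ ‖z₀+z₁‖` (κ ≤ 1), `‖y₀ - y₁‖ ≤ (κ + 2ε) ‖z₀+z₁‖`,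
`‖z₀+z₁‖ ≤ ‖y₀‖ + ‖y₁‖ + 2ε ‖z₀+z₁‖ ≤ 2K (κ+2ε) ‖z₀+z₁‖ + 2ε ‖z₀+z₁‖ < ‖z₀+z₁‖` (apply the projection bound to `y₀ + (-y₁)`).
-/

set_option autoImplicit false

namespace H94.WH

open Finset

theorem HIP_norm {𝕜 : Type} [RCLike 𝕜] {E : Type} [NormedAddCommGroup E] [NormedSpace 𝕜 E]
    (a b : E) : 2 * ‖a‖ ≤ ‖a + b‖ + ‖a - b‖ := by
  have h1 : (a + b) + (a - b) = (2 : 𝕜) • a := by
    rw [two_smul]
    abel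
  have h2 := norm_add_le (a + b) (a - b)
  rw [h1, norm_smul, RCLike.norm_two] at h2
  exact h2

theorem hi_XB (𝕜 : Type) [RCLike 𝕜] : IsHI 𝕜 (XB 𝕜) := by
  intro Y hYc _ hdec
  obtain ⟨Y₀, Y₁, h0c, h1c, h0, h1, hinf, hsup⟩ := hdec
  obtain ⟨K, hK, hb⟩ := exists_proj_bound h0c h1c hinf (by rw [hsup]; exact hYc)
  obtain ⟨ε, hε⟩ : ∃ ε : ℝ, ε = 1 / (16 * (K + 1)) := ⟨_, rfl⟩
  have hε0 : 0 < ε := by rw [hε]; positivity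
  have hεK : ε * (16 * (K + 1)) = 1 := by
    rw [hε]
    field_simp
  have hε1 : ε ≤ 1 := by nlinarith
  obtain ⟨Z₀, hZ₀, hn₀⟩ := exists_far_near Y₀ h0 hε0
  obtain ⟨Z₁, hZ₁, hn₁⟩ := exists_far_near Y₁ h1 hε0
  obtain ⟨z₀, hz₀, z₁, hz₁, hne, hle⟩ := far_hi hZ₀ hZ₁ hε0
  obtain ⟨y₀, hy₀, hd₀⟩ := hn₀ z₀ hz₀
  obtain ⟨y₁, hy₁, hd₁⟩ := hn₁ z₁ hz₁
  obtain ⟨S, hS⟩ : ∃ S, S = nor (z₀ + z₁) := ⟨_, rfl⟩
  rw [← hS] at hle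
  have hS0 : 0 < S := by
    rw [hS]
    refine lt_of_le_of_ne (nor_nonneg _) ?_
    intro h
    exact hne (eq_zero_of_nor h.symm)
  have hab : ‖emb z₀ + emb z₁‖ = S := by rw [← emb_add, norm_emb, hS]
  have hamb : ‖emb z₀ - emb z₁‖ ≤ ε * S := by rw [← emb_sub, norm_emb]; exact hle
  have hεS : ε * S ≤ S := by nlinarith
  have ha : nor z₀ ≤ S := by
    have h2 := HIP_norm (𝕜 := 𝕜) (emb z₀) (emb z₁)
    rw [norm_emb, hab] at h2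
    linarith
  have hb' : nor z₁ ≤ S := by
    have h2 := HIP_norm (𝕜 := 𝕜) (emb z₁) (emb z₀)
    rw [norm_emb, add_comm (emb z₁) (emb z₀), hab, norm_sub_rev] at h2
    linarith
  have hd₀' : ‖y₀ - emb z₀‖ ≤ ε * S := hd₀.trans (mul_le_mul_of_nonneg_left ha hε0.le)
  have hd₁' : ‖y₁ - emb z₁‖ ≤ ε * S := hd₁.trans (mul_le_mul_of_nonneg_left hb' hε0.le)
  have hy : ‖y₀ + -y₁‖ ≤ 3 * (ε * S) := by
    have h2 : y₀ + -y₁ = (y₀ - emb z₀) - (y₁ - emb z₁) + (emb z₀ - emb z₁) := by abel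
    rw [h2]
    have h3 := norm_add_le ((y₀ - emb z₀) - (y₁ - emb z₁)) (emb z₀ - emb z₁)
    have h4 := norm_sub_le (y₀ - emb z₀) (y₁ - emb z₁)
    linarith
  obtain ⟨hb0, hb1⟩ := hb y₀ hy₀ (-y₁) (Y₁.neg_mem hy₁)
  rw [norm_neg] at hb1
  have hsum : S ≤ ‖y₀‖ + ‖y₁‖ + 2 * (ε * S) := by
    rw [← hab]
    have h2 : emb z₀ + emb z₁ = y₀ + y₁ - (y₀ - emb z₀) - (y₁ - emb z₁) := by abel
    have h3 := norm_sub_le (y₀ + y₁ - (y₀ - emb z₀)) (y₁ - emb z₁)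
    have h4 := norm_sub_le (y₀ + y₁) (y₀ - emb z₀)
    have h5 := norm_add_le y₀ y₁
    rw [← h2, hab] at h3
    rw [hab]
    linarith
  have hK1 : K * ‖y₀ + -y₁‖ ≤ K * (3 * (ε * S)) := mul_le_mul_of_nonneg_left hy hK.le
  have h2 : S ≤ (6 * K + 2) * ε * S := by nlinarith
  have h3 : (6 * K + 2) * ε < 1 := by nlinarith
  nlinarith

end H94.WH
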