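import Pool.Agent.H94.WH.WHP
import Pool.Agent.H94.WH.HIP

set_option autoImplicit false

namespace H94

/-- For `𝕜 = ℝ` and `𝕜 = ℂ` there is a weak Hilbert space over `𝕜` that is hereditarily indecomposable. -/
theorem exists_HI_weakHilbert (𝕜 : Type) [RCLike 𝕜] :
    ∃ (X : Type) (_ : NormedAddCommGroup X) (_ : NormedSpace 𝕜 X) (_ : CompleteSpace X),
      IsWeakHilbert 𝕜 X ∧ IsHI 𝕜 X :=
  ⟨WH.XB 𝕜, inferInstance, inferInstance, inferInstance, WH.weakHilbert_XB 𝕜, WH.hi_XB 𝕜⟩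

end H94
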