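import Pool.Agent.H94.WH.GS

/-!
# MODULE GC: cell structure of `comp s v`, `s ≥ 1`, `v ∈ G_d` (G5)

`G.cells`: induction on `d`. `d = 0`: `C.cells`. Step: `v = ∑_{i<N} v_i`, positions of `v_i` `≥ b`, `N ≤ g b`; `A_i` for `v_i`;
`A = ⋃ (A_i.image (max b))` (Kset.image, Kset.succ_fin). For `J` separated from `A` put `J' = J ∩ [b,∞)`; `J'` is separated from `A_i`
(if `a ∈ A_i ∩ J'` then `max b a = a ∈ A`), and `res J (comp s v) = ∑ res J' (comp s v_i)`.
-/

set_option autoImplicit false

namespace H94.WH

open Finset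

/-- G5 -/
theorem G.cells {d : ℕ} {v : V} (h : G d v) {s : ℕ} (hs : 1 ≤ s) : ∃ A, Kset (nn s + d) A ∧
    (∀ p ∈ (comp s v).support, ∃ a ∈ A, a ≤ p.1) ∧
    ∀ J : Set ℕ, J.OrdConnected → Sep A J → G d (H94.WH.res J (comp s v)) := by
  classical
  induction d generalizing v with
  | zero => exact C.cells h hs
  | succ d ih =>
    obtain ⟨b, N, u, hN, hu, hb, rfl⟩ := h
    choose A hA h1 h2 using fun i => ih (hu i)
    have hpos : ∀ i, ∀ p ∈ (comp s (u i)).support, b ≤ p.1 := by
      intro i p hp
      exact hb i (p.1, s :: p.2) (mem_comp.1 hp)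
    refine ⟨Finset.univ.biUnion (fun i => (A i).image (max b)), ?_, ?_, ?_⟩
    · apply Kset.succ_fin _ hN
      · intro i
        exact Kset.image (hA i) (max b) (fun a _ => le_max_right _ _)
      · intro i a ha
        obtain ⟨a', -, rfl⟩ := Finset.mem_image.1 ha
        exact le_max_left _ _
    · intro p hp
      rw [comp_sum] at hp
      have : ∃ i, p ∈ (comp s (u i)).support := by
        by_contra hcon
        push Not at hcon
        rw [Finsupp.mem_support_iff] at hp
        apply hp
        rw [Finsupp.finsetSum_apply]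
        apply Finset.sum_eq_zero
        intro i _
        exact Finsupp.notMem_support_iff.1 (hcon i)
      obtain ⟨i, hi⟩ := this
      obtain ⟨a, ha, hap⟩ := h1 i p hi
      exact ⟨max b a, Finset.mem_biUnion.2 ⟨i, Finset.mem_univ _,
        Finset.mem_image.2 ⟨a, ha, rfl⟩⟩, max_le (hpos i p hi) hap⟩
    · intro J hJ hsep
      have e : H94.WH.res J (comp s (∑ i, u i))
          = ∑ i, H94.WH.res (J ∩ Set.Ici b) (comp s (u i)) := by
        rw [comp_sum, res_sum]
        apply Finset.sum_congr rfl
        intro i _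
        apply res_congr
        intro p hp
        exact ⟨fun h => ⟨h, hpos i p hp⟩, fun h => h.1⟩
      rw [e]
      refine ⟨b, N, fun i => H94.WH.res (J ∩ Set.Ici b) (comp s (u i)), hN, ?_, ?_, rfl⟩
      · intro i
        apply h2 i _ (hJ.inter Set.ordConnected_Ici)
        intro a ha haJ j hj
        have hba : b ≤ a := haJ.2
        apply hsep a _ haJ.1 j hj.1
        refine Finset.mem_biUnion.2 ⟨i, Finset.mem_univ _, Finset.mem_image.2 ⟨a, ha, ?_⟩⟩
        exact max_eq_right hba
      · intro i p hp
        exact (mem_res.1 hp).2.2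

end H94.WH
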