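import Pool.Agent.H94.WH.GQ0

/-!
# MODULE GQ: the q-lemma (G11)
`qlemma`: induction on `d` (for all `v`, `b`), everything is additive: if `v = ∑_{i<N} v_i`, positions of `v_i` `≥ b0`, `N ≤ g b0`, and positions of `v` `≥ b`: with `b' = max b b0`, `v = ∑ res (Ici b') (v_i)`
(positions `≥ b'`, in `G d`, `N ≤ g b'`); take `Ch_i, γ_i` for these and `b'`; `Ch = ⋃ Ch_i` (`Kset.succ_fin`: all `hi k ≥ b'`), `γ = ∑ γ_i`. `d = 0`: `qlemma0`.
-/

set_option autoImplicit false

namespace H94.WH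

open Finset

/-- G11 -/
theorem qlemma {q : ℕ} (hq : Odd q) {M : ℕ} {w : ℕ → V} {lo hi : ℕ → ℕ} (hI : Ivals M lo hi)
    (hw : ∀ k < M, ∀ p ∈ (w k).support, lo k ≤ p.1 ∧ p.1 ≤ hi k)
    (hc : ∀ k < M, H94.WH.col {code q ((List.range k).map w)} (w k) = w k)
    {d : ℕ} {v : V} (h : G d v) (b : ℕ) (hb : ∀ p ∈ v.support, b ≤ p.1) :
    ∃ (Ch : Finset ℕ) (γ : ℕ → ℚ), Ch ⊆ Finset.range M ∧ Kset (d + 1) (Ch.image hi) ∧ (∀ k ∈ Ch, b ≤ hi k) ∧
      (∀ k < M, k ∉ Ch → H94.WH.res (Set.Icc (lo k) (hi k))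
        (H94.WH.col {code q ((List.range k).map w)} (comp q v)) = γ k • w k) ∧
      ∀ k, k + 1 < M → k ∉ Ch → k + 1 ∉ Ch → γ k = γ (k + 1) := by
  classical
  induction d generalizing v b with
  | zero => exact qlemma0 hq hI hw hc h b hb
  | succ d ih =>
    obtain ⟨b0, N, u, hN, hu, hub, hv⟩ := h
    set b' := max b b0 with hb'
    have hv' : v = ∑ i, H94.WH.res (Set.Ici b') (u i) := by
      rw [← res_sum, ← hv, eq_comm]
      apply res_eq_self
      intro p hp
      have h1 := hb p hp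
      have h2 : b0 ≤ p.1 := by
        rw [hv] at hp
        obtain ⟨i, _, hi⟩ := Finset.mem_biUnion.1 (Finsupp.support_finsetSum hp)
        exact hub i p hi
      show b' ≤ p.1
      exact max_le h1 h2
    have key := fun i => ih (G.res (hu i) (Set.ordConnected_Ici (a := b'))) b' (fun p hp => by
      rw [mem_res] at hp
      exact hp.2)
    choose Ch γ hCh hK hb1 hcol hγ using key
    refine ⟨Finset.univ.biUnion Ch, fun k => ∑ i, γ i k, ?_, ?_, ?_, ?_, ?_⟩
    · exact Finset.biUnion_subset.2 fun i _ => hCh i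
    · rw [Finset.biUnion_image]
      refine Kset.succ_fin (b := b') _ (hN.trans (g_mono (le_max_right _ _))) hK ?_
      intro i a ha
      obtain ⟨k, hk, rfl⟩ := Finset.mem_image.1 ha
      exact hb1 i k hk
    · intro k hk
      obtain ⟨i, _, hi⟩ := Finset.mem_biUnion.1 hk
      exact (le_max_left _ _).trans (hb1 i k hi)
    · intro k hk hkCh
      rw [hv', comp_sum, col_sum, res_sum, Finset.sum_smul]
      refine Finset.sum_congr rfl fun i _ => hcol i k hk fun hki => hkCh ?_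
      exact Finset.mem_biUnion.2 ⟨i, Finset.mem_univ i, hki⟩
    · intro k hk h1 h2
      refine Finset.sum_congr rfl fun i _ => hγ i k hk (fun hki => h1 ?_) (fun hki => h2 ?_)
      · exact Finset.mem_biUnion.2 ⟨i, Finset.mem_univ i, hki⟩
      · exact Finset.mem_biUnion.2 ⟨i, Finset.mem_univ i, hki⟩

end H94.WH
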