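import Pool.Agent.H94.WH.GS

/-!
# MODULE GR: critical sets (G8)

`G.crit`: `K_d`-smallness of the set of `k` for which the part of `v` with root symbols in `Crit k` is nonzero on `[lo k, hi k]`.
Induction on `d`. `d = 0`: `v ∈ C` has one root symbol (`C.mono_root`), which is in `Crit k` for at most one `k < M`. Step: the set is contained in the union of the
sets of the `v_i`; every member has `b ≤ hi k` (some position of the restricted `v` is in `[lo k, hi k]`). `Kset.succ_fin`, `Kset.sub`.
-/

set_option autoImplicit false

namespace H94.WH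

open Finset

open Classical in
/-- G8 -/
theorem G.crit {d : ℕ} {v : V} (h : G d v) {M : ℕ} {lo hi : ℕ → ℕ} (hI : Ivals M lo hi)
    (Crit : ℕ → Set ℕ) (hdis : ∀ i < M, ∀ j < M, i ≠ j → Disjoint (Crit i) (Crit j)) :
    Kset d (((Finset.range M).filter
      (fun k => H94.WH.res (Set.Icc (lo k) (hi k)) (H94.WH.col (Crit k) v) ≠ 0)).image hi) := by
  induction d generalizing v with
  | zero =>
    change ((((Finset.range M).filter
      (fun k => H94.WH.res (Set.Icc (lo k) (hi k)) (H94.WH.col (Crit k) v) ≠ 0)).image hi).card ≤ 1)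
    refine Finset.card_image_le.trans ?_
    rw [Finset.card_le_one]
    intro i hi' j hj'
    rw [Finset.mem_filter, Finset.mem_range] at hi' hj'
    rcases C.mono_root h with ⟨l, c, rfl⟩ | ⟨s, hs⟩
    · exfalso
      apply hi'.2
      rw [col_single]
      exact res_eq_zero (fun p hp => absurd hp (by simp))
    · have key : ∀ k, H94.WH.res (Set.Icc (lo k) (hi k)) (H94.WH.col (Crit k) v) ≠ 0 →
          s ∈ Crit k := by
        intro k hk
        by_contra hcon
        apply hk
        rw [hs, col_pre_not hcon]
        exact res_eq_zero (fun p hp => absurd hp (by simp))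
      by_contra hne
      exact Set.disjoint_left.1 (hdis i hi'.1 j hj'.1 hne) (key i hi'.2) (key j hj'.2)
  | succ d ih =>
    obtain ⟨b, N, u, hN, hu, hb, rfl⟩ := h
    refine Kset.sub (Kset.succ_fin (b := b) (fun i => ((Finset.range M).filter
      (fun k => H94.WH.res (Set.Icc (lo k) (hi k)) (H94.WH.col (Crit k) (u i)) ≠ 0)).image hi) hN
      (fun i => ih (hu i)) ?_) ?_
    · intro i a ha
      obtain ⟨k, hk, rfl⟩ := Finset.mem_image.1 ha
      rw [Finset.mem_filter] at hk
      obtain ⟨p, hp⟩ := Finsupp.support_nonempty_iff.2 hk.2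
      have h1 := mem_res.1 hp
      exact (hb i p (mem_col.1 h1.1).1).trans h1.2.2
    · intro a ha
      obtain ⟨k, hk, rfl⟩ := Finset.mem_image.1 ha
      rw [Finset.mem_filter] at hk
      by_contra hcon
      simp only [Finset.mem_biUnion, Finset.mem_univ, true_and, not_exists] at hcon
      apply hk.2
      rw [col_sum, res_sum]
      refine Finset.sum_eq_zero fun i _ => ?_
      by_contra h0
      exact hcon i (Finset.mem_image_of_mem hi (Finset.mem_filter.2 ⟨hk.1, h0⟩))

end H94.WH
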