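import Pool.Agent.H94.WH.VB3

/-!
# MODULE VB4: bounds for the pairing `Phi`
`abs_Phi_le` (2.1): first for `x = single l 1` by induction on a bound for the lengths of the paths in `v`:
`Phi v e_l = v (l,[]) + ∑_s (m s)⁻¹ Phi (comp s v) e_l` (finite sum: `exists_bound`, `leaf_add_col`, `col_finset`, `Phi_col_single`),
`|..| ≤ nrm v + ∑_s (m s)⁻¹ * 2 * nrm v ≤ 2 nrm v` (`sum_inv_m_all`, `nrm_comp_le`).
`abs_Phi_tail_le`: `Phi (col {s | t ≤ s} v) x = ∑_{t ≤ s < Q} (m s)⁻¹ Phi (comp s v) x`, `sum_inv_m_tail`.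
-/

set_option autoImplicit false

namespace H94.WH

open Finset

variable {𝕜 : Type} [RCLike 𝕜]

/-- splitting according to the root symbol -/
theorem Phi_split (q : ℕ) (hq : 1 ≤ q) (v : V) (x : X0 𝕜) : Phi v x = Phi (leaf v) x + Phi (col {0} v) x +
    ∑ s ∈ Finset.Ico 1 q, Phi (col {s} v) x + Phi (col {q} v) x + Phi (col {s | q < s} v) x := by
  have h1 : col Set.univ v = col ((Finset.range (q + 1) : Finset ℕ) : Set ℕ) v + col {s | q < s} v := by
    rw [← col_union]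
    · congr 1
      ext s
      simp only [Finset.coe_range, Set.mem_univ, Set.mem_union, Set.mem_Iio, Set.mem_ofPred_eq, true_iff]
      omega
    · rw [Set.disjoint_left]
      intro s hs hs'
      simp only [Finset.coe_range, Set.mem_Iio, Set.mem_ofPred_eq] at hs hs'
      omega
  have h2 : Phi v x = Phi (leaf v) x + Phi (col Set.univ v) x := by
    rw [← Phi_add_left, leaf_add_col]
  rw [h2, h1, Phi_add_left, col_finset, Phi_sum_left, Finset.sum_range_succ,
    Finset.sum_range_eq_add_Ico _ (by omega)]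
  ring

private theorem VB4_leaf (v : V) (l : ℕ) : ‖Phi (leaf v) (Finsupp.single l (1 : 𝕜))‖ ≤ nrm v := by
  have h1 : Phi (leaf v) (Finsupp.single l (1 : 𝕜)) = (((v (l, []) : ℚ) : ℝ) : 𝕜) := by
    unfold Phi Finsupp.sum
    rw [Finset.sum_eq_single (l, [])]
    · dsimp only
      rw [leaf_apply, if_pos rfl, wt_nil]
      simp
    · intro b hb hne
      have h2 := (mem_leaf.1 hb).2
      have h3 : b.1 ≠ l := by
        intro h
        apply hne
        exact Prod.ext h h2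
      dsimp only
      rw [Finsupp.single_eq_of_ne h3, mul_zero]
    · intro h
      rw [Finsupp.notMem_support_iff.1 h]
      simp
  rw [h1, RCLike.norm_ofReal]
  exact abs_apply_le v (l, [])

private theorem VB4_expand (v : V) (x : X0 𝕜) : ∃ Q : ℕ, ∀ S : Set ℕ, ∀ T : Finset ℕ,
    S ∩ Set.Iio Q = T → Phi (col S v) x = ∑ s ∈ T, (((m s : ℝ)⁻¹ : ℝ) : 𝕜) * Phi (comp s v) x := by
  obtain ⟨Q, -, hQ⟩ := exists_bound v
  refine ⟨Q, fun S T h => ?_⟩
  rw [hQ S, h, col_finset, Phi_sum_left]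
  exact Finset.sum_congr rfl fun s _ => Phi_col_single s v x

private theorem VB4_single (L : ℕ) : ∀ v : V, (∀ p ∈ v.support, p.2.length < L) → ∀ l : ℕ,
    ‖Phi v (Finsupp.single l (1 : 𝕜))‖ ≤ 2 * nrm v := by
  induction L with
  | zero =>
    intro v hv l
    have h0 : v = 0 := by
      rw [← Finsupp.support_eq_empty, Finset.eq_empty_iff_forall_notMem]
      intro p hp
      exact absurd (hv p hp) (Nat.not_lt_zero _)
    rw [h0, Phi_zero_left, norm_zero, nrm_zero, mul_zero]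
  | succ L ih =>
    intro v hv l
    obtain ⟨Q, hQ⟩ := VB4_expand v (Finsupp.single l (1 : 𝕜))
    have h2 : Phi v (Finsupp.single l (1 : 𝕜)) = Phi (leaf v) (Finsupp.single l (1 : 𝕜)) +
        Phi (col Set.univ v) (Finsupp.single l (1 : 𝕜)) := by
      rw [← Phi_add_left, leaf_add_col]
    rw [h2, hQ Set.univ (Finset.range Q) (by simp)]
    have h3 : ∀ s ∈ Finset.range Q, ‖(((m s : ℝ)⁻¹ : ℝ) : 𝕜) * Phi (comp s v) (Finsupp.single l (1 : 𝕜))‖ ≤
        (m s : ℝ)⁻¹ * (2 * nrm v) := by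
      intro s _
      rw [norm_mul, RCLike.norm_ofReal, abs_of_pos (inv_pos.2 (m_pos s))]
      refine mul_le_mul_of_nonneg_left ?_ (inv_pos.2 (m_pos s)).le
      refine (ih (comp s v) ?_ l).trans ?_
      · intro p hp
        have := hv _ (mem_comp.1 hp)
        simp only [List.length_cons] at this
        omega
      · have := nrm_comp_le s v
        linarith
    calc ‖Phi (leaf v) (Finsupp.single l (1 : 𝕜)) +
          ∑ s ∈ Finset.range Q, (((m s : ℝ)⁻¹ : ℝ) : 𝕜) * Phi (comp s v) (Finsupp.single l (1 : 𝕜))‖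
        ≤ ‖Phi (leaf v) (Finsupp.single l (1 : 𝕜))‖ +
          ‖∑ s ∈ Finset.range Q, (((m s : ℝ)⁻¹ : ℝ) : 𝕜) * Phi (comp s v) (Finsupp.single l (1 : 𝕜))‖ :=
          norm_add_le _ _
      _ ≤ nrm v + ∑ s ∈ Finset.range Q, (m s : ℝ)⁻¹ * (2 * nrm v) :=
          add_le_add (VB4_leaf v l) ((norm_sum_le _ _).trans (Finset.sum_le_sum h3))
      _ = nrm v + (∑ s ∈ Finset.range Q, (m s : ℝ)⁻¹) * (2 * nrm v) := by rw [Finset.sum_mul]
      _ ≤ nrm v + 1 / 2 * (2 * nrm v) := by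
          have := mul_le_mul_of_nonneg_right (sum_inv_m_le Q) (by linarith [nrm_nonneg v] : (0 : ℝ) ≤ 2 * nrm v)
          linarith
      _ = 2 * nrm v := by ring

/-- (2.1) -/
theorem abs_Phi_le (v : V) (x : X0 𝕜) : ‖Phi v x‖ ≤ 2 * nrm v * ∑ l ∈ x.support, ‖x l‖ := by
  have h1 : x = ∑ l ∈ x.support, x l • Finsupp.single l (1 : 𝕜) := by
    conv_lhs => rw [← Finsupp.sum_single x]
    unfold Finsupp.sum
    refine Finset.sum_congr rfl fun l _ => ?_
    rw [Finsupp.smul_single, smul_eq_mul, mul_one]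
  have h2 : Phi v x = ∑ l ∈ x.support, x l * Phi v (Finsupp.single l (1 : 𝕜)) := by
    conv_lhs => rw [h1]
    rw [Phi_sum_right]
    exact Finset.sum_congr rfl fun l _ => Phi_smul_right v _ _
  rw [h2, Finset.mul_sum]
  refine (norm_sum_le _ _).trans (Finset.sum_le_sum fun l _ => ?_)
  rw [norm_mul, mul_comm]
  refine mul_le_mul_of_nonneg_right ?_ (norm_nonneg _)
  refine VB4_single (v.support.sup (fun p => p.2.length) + 1) v (fun p hp => ?_) l
  exact Nat.lt_succ_of_le (Finset.le_sup (f := fun p : Atom => p.2.length) hp)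

theorem abs_Phi_tail_le (t : ℕ) (v : V) (x : X0 𝕜) :
    ‖Phi (col {s | t ≤ s} v) x‖ ≤ 4 / m t * nrm v * ∑ l ∈ x.support, ‖x l‖ := by
  obtain ⟨Q, hQ⟩ := VB4_expand v x
  rw [hQ {s | t ≤ s} (Finset.Ico t Q) (by ext s; simp)]
  set X : ℝ := ∑ l ∈ x.support, ‖x l‖ with hX
  have hX0 : 0 ≤ X := Finset.sum_nonneg fun _ _ => norm_nonneg _
  have h3 : ∀ s ∈ Finset.Ico t Q, ‖(((m s : ℝ)⁻¹ : ℝ) : 𝕜) * Phi (comp s v) x‖ ≤
      (m s : ℝ)⁻¹ * (2 * nrm v * X) := by
    intro s _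
    rw [norm_mul, RCLike.norm_ofReal, abs_of_pos (inv_pos.2 (m_pos s))]
    refine mul_le_mul_of_nonneg_left ?_ (inv_pos.2 (m_pos s)).le
    refine (abs_Phi_le (comp s v) x).trans ?_
    refine mul_le_mul_of_nonneg_right ?_ hX0
    have := nrm_comp_le s v
    linarith
  calc ‖∑ s ∈ Finset.Ico t Q, (((m s : ℝ)⁻¹ : ℝ) : 𝕜) * Phi (comp s v) x‖
      ≤ ∑ s ∈ Finset.Ico t Q, (m s : ℝ)⁻¹ * (2 * nrm v * X) :=
        (norm_sum_le _ _).trans (Finset.sum_le_sum h3)
    _ = (∑ s ∈ Finset.Ico t Q, (m s : ℝ)⁻¹) * (2 * nrm v * X) := by rw [Finset.sum_mul]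
    _ ≤ 2 / m t * (2 * nrm v * X) := by
        refine mul_le_mul_of_nonneg_right (sum_inv_m_tail _ t fun s hs => (Finset.mem_Ico.1 hs).1) ?_
        have := nrm_nonneg v
        positivity
    _ = 4 / m t * nrm v * X := by ring

/-- summing single-symbol bounds over `q < s < j` -/
theorem abs_Phi_range_le (q j : ℕ) (v : V) (x : X0 𝕜) (c : ℝ) (hc : 0 ≤ c)
    (h : ∀ s, q < s → s < j → ‖Phi (col {s} v) x‖ ≤ c / m s * nrm v) :
    ‖Phi (col {s | q < s ∧ s < j} v) x‖ ≤ 2 * c / m (q + 1) * nrm v := by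
  have h1 : {s | q < s ∧ s < j} = ((Finset.Ioo q j : Finset ℕ) : Set ℕ) := by
    ext s
    simp
  rw [h1, col_finset, Phi_sum_left]
  calc ‖∑ s ∈ Finset.Ioo q j, Phi (col {s} v) x‖
      ≤ ∑ s ∈ Finset.Ioo q j, c / m s * nrm v := by
        refine (norm_sum_le _ _).trans (Finset.sum_le_sum fun s hs => ?_)
        rw [Finset.mem_Ioo] at hs
        exact h s hs.1 hs.2
    _ = (∑ s ∈ Finset.Ioo q j, (m s : ℝ)⁻¹) * (c * nrm v) := by
        rw [Finset.sum_mul]
        exact Finset.sum_congr rfl fun s _ => by ring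
    _ ≤ 2 / m (q + 1) * (c * nrm v) := by
        refine mul_le_mul_of_nonneg_right (sum_inv_m_tail _ (q + 1) fun s hs => ?_) ?_
        · have := (Finset.mem_Ioo.1 hs).1
          omega
        · have := nrm_nonneg v
          positivity
    _ = 2 * c / m (q + 1) * nrm v := by ring

end H94.WH
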