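import Pool.Agent.H94.WH.CN2
import Pool.Agent.H94.WH.VB4

/-!
# MODULE GS: basic closure properties of the classes `G d` (section 5, G1-G4, G6)
All by induction on `d` (`G (d+1) v ↔ ∃ b N u, ..`), the case `d = 0` is in CN.
-/

set_option autoImplicit false

namespace H94.WH

open Finset

theorem G.zero (d : ℕ) : G d 0 := by
  cases d with
  | zero => exact C.zero
  | succ d =>
    exact ⟨0, 0, fun i => i.elim0, Nat.zero_le _, fun i => i.elim0, fun i => i.elim0, by simp⟩

theorem G.smul {d : ℕ} {v : V} (h : G d v) (c : ℚ) : G d (c • v) := by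
  induction d generalizing v with
  | zero => exact C.smul c h
  | succ d ih =>
    obtain ⟨b, N, u, hN, hu, hb, rfl⟩ := h
    refine ⟨b, N, fun i => c • u i, hN, fun i => ih (hu i), ?_, Finset.smul_sum⟩
    intro i p hp
    exact hb i p (Finsupp.support_smul hp)

theorem G.res {d : ℕ} {v : V} (h : G d v) {J : Set ℕ} (hJ : J.OrdConnected) : G d (res J v) := by
  induction d generalizing v with
  | zero => exact C.res h hJ
  | succ d ih =>
    obtain ⟨b, N, u, hN, hu, hb, rfl⟩ := h
    refine ⟨b, N, fun i => H94.WH.res J (u i), hN, fun i => ih (hu i), ?_, res_sum J _ u⟩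
    intro i p hp
    exact hb i p (mem_res.1 hp).1

theorem G.col {d : ℕ} {v : V} (h : G d v) (S : Set ℕ) : G d (col S v) := by
  induction d generalizing v with
  | zero => exact C.col h S
  | succ d ih =>
    obtain ⟨b, N, u, hN, hu, hb, rfl⟩ := h
    refine ⟨b, N, fun i => H94.WH.col S (u i), hN, fun i => ih (hu i), ?_, col_sum S _ u⟩
    intro i p hp
    exact hb i p (mem_col.1 hp).1

theorem G.leaf {d : ℕ} {v : V} (h : G d v) : G d (leaf v) := by
  induction d generalizing v with
  | zero => exact C.leaf h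
  | succ d ih =>
    obtain ⟨b, N, u, hN, hu, hb, rfl⟩ := h
    refine ⟨b, N, fun i => H94.WH.leaf (u i), hN, fun i => ih (hu i), ?_, leaf_sum _ u⟩
    intro i p hp
    exact hb i p (mem_leaf.1 hp).1

theorem GS_step {d : ℕ} {v : V} (h : G d v) : G (d + 1) v := by
  refine ⟨0, 1, fun _ => v, ?_, fun _ => h, fun _ p _ => Nat.zero_le _, by simp⟩
  have := five_le_g 0
  omega

theorem G.mono {d d' : ℕ} (hd : d ≤ d') {v : V} (h : G d v) : G d' v := by
  induction d', hd using Nat.le_induction with
  | base => exact h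
  | succ k _ ih => exact GS_step ih

/-- sums over a finset -/
theorem G.sum_finset {ι : Type*} {d b : ℕ} (s : Finset ι) (u : ι → V) (hs : s.card ≤ g b)
    (hu : ∀ i ∈ s, G d (u i)) (hb : ∀ i ∈ s, ∀ p ∈ (u i).support, b ≤ p.1) :
    G (d + 1) (∑ i ∈ s, u i) := by
  refine ⟨b, s.card, fun j => u (s.equivFin.symm j), hs, fun j => hu _ (s.equivFin.symm j).2,
    fun j => hb _ (s.equivFin.symm j).2, ?_⟩
  rw [← Finset.sum_coe_sort s u]
  exact (s.equivFin.symm.sum_comp (fun i : s => u i)).symm

/-- G3 -/
theorem G.leafset {d : ℕ} {v : V} (h : G d v) :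
    Kset d ((H94.WH.leaf v).support.image Prod.fst) := by
  induction d generalizing v with
  | zero =>
    change (((H94.WH.leaf v).support.image Prod.fst).card ≤ 1)
    rcases C.mono_root h with ⟨l, c, rfl⟩ | ⟨s, hs⟩
    · rw [leaf_single]
      refine Finset.card_image_le.trans ?_
      exact (Finset.card_le_card Finsupp.support_single_subset).trans (by simp)
    · rw [hs, leaf_pre]
      simp
  | succ d ih =>
    obtain ⟨b, N, u, hN, hu, hb, rfl⟩ := h
    refine Kset.sub (Kset.succ_fin (b := b) (fun i => (H94.WH.leaf (u i)).support.image Prod.fst) hN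
      (fun i => ih (hu i)) ?_) ?_
    · intro i a ha
      obtain ⟨p, hp, rfl⟩ := Finset.mem_image.1 ha
      exact hb i p (mem_leaf.1 hp).1
    · intro a ha
      obtain ⟨p, hp, rfl⟩ := Finset.mem_image.1 ha
      rw [leaf_sum] at hp
      by_contra hcon
      simp only [Finset.mem_biUnion, Finset.mem_univ, true_and, not_exists] at hcon
      rw [Finsupp.mem_support_iff, Finsupp.finsetSum_apply] at hp
      apply hp
      refine Finset.sum_eq_zero fun i _ => ?_
      by_contra h0
      exact hcon i (Finset.mem_image_of_mem Prod.fst (Finsupp.mem_support_iff.2 h0))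

/-- G4 -/
theorem G.comp_zero {d : ℕ} {v : V} (h : G d v) : G (d + 1) (comp 0 v) := by
  induction d generalizing v with
  | zero => exact C.comp_zero h
  | succ d ih =>
    obtain ⟨b, N, u, hN, hu, hb, rfl⟩ := h
    refine ⟨b, N, fun i => comp 0 (u i), hN, fun i => ih (hu i), ?_, comp_sum 0 _ u⟩
    intro i p hp
    exact hb i (p.1, 0 :: p.2) (mem_comp.1 hp)

/-- G6 -/
theorem G.pre_zero {d : ℕ} {v : V} (h : G (d + 1) v) : G d (pre 0 v) := by
  induction d generalizing v with
  | zero =>
    obtain ⟨b, N, u, hN, hu, hb, rfl⟩ := h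
    exact C.merge b N hN u hu hb
  | succ d ih =>
    obtain ⟨b, N, u, hN, hu, hb, rfl⟩ := h
    refine ⟨b, N, fun i => pre 0 (u i), hN, fun i => ih (hu i), ?_, H94.WH.pre_sum 0 _ u⟩
    intro i p hp
    obtain ⟨q, hq, rfl⟩ := mem_pre.1 hp
    exact hb i q hq

end H94.WH
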