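import Pool.Agent.H94.WH.GS

/-!
# MODULE GT: starting points (G7)

`G.starts`: induction on `d`. `d = 0`: `S = ∅`, `N = 1`, `u 0 = res (Ico n1 n2) v`. Step: `v = ∑_{i<N} v_i`, positions of `v_i` `≥ b`, `N ≤ g b`,
`S_i` for `v_i`; `S = {b} ∪ ⋃ (S_i.filter (b ≤ ·))` (Kset.succ_fin, Kset.union; `2*(d+1) = 2*d+1+1`). Let `S ∩ [n1,n2) = ∅`. If `n1 < b` then `n2 ≤ b` and
`res (Ico n1 n2) v = 0` (take 0 summands). If `b ≤ n1` then `S_i ∩ [n1,n2) = ∅` and `N * (g n1)^d ≤ (g n1)^(d+1)`; concatenate the families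
(pad with zeros `C.zero` so that all have exactly `(g n1)^d` members and use `finProdFinEquiv`, or first prove a version with a list / finset of summands).
-/

set_option autoImplicit false

namespace H94.WH

open Finset

theorem GT_list (d : ℕ) : ∀ {v : V}, G d v → ∃ S, Kset (2 * d) S ∧
    ∀ n1 n2 : ℕ, n1 ≤ n2 → (∀ a ∈ S, ¬ (n1 ≤ a ∧ a < n2)) →
      ∃ L : List V, L.length ≤ (g n1) ^ d ∧ (∀ u ∈ L, C u) ∧
        H94.WH.res (Set.Ico n1 n2) v = L.sum := by
  induction d with
  | zero =>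
    intro v h
    refine ⟨∅, Kset.empty _, fun n1 n2 h12 _ =>
      ⟨[H94.WH.res (Set.Ico n1 n2) v], by simp, ?_, by simp⟩⟩
    intro u hu
    rw [List.mem_singleton] at hu
    subst hu
    exact C.res h Set.ordConnected_Ico
  | succ d ih =>
    rintro v ⟨b, N, u, hN, hu, hb, hv⟩
    choose S hS hS2 using fun i => ih (hu i)
    refine ⟨{b} ∪ (univ.biUnion fun i => (S i).filter (b ≤ ·)), ?_, ?_⟩
    · have h1 : Kset (2 * d + 1) (univ.biUnion fun i => (S i).filter (b ≤ ·)) :=
        Kset.succ_fin (b := b) _ hN (fun i => (hS i).sub (filter_subset _ _))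
          (fun i a ha => (mem_filter.1 ha).2)
      have h2 := Kset.union (Kset.single (2 * d + 1) b) h1
      have h3 : 2 * (d + 1) = 2 * d + 1 + 1 := by ring
      rw [h3]
      exact h2
    · intro n1 n2 h12 hS'
      by_cases hb1 : n1 < b
      · have hb2 : n2 ≤ b := by
          by_contra hc
          push Not at hc
          exact hS' b (mem_union_left _ (mem_singleton_self _)) ⟨hb1.le, hc⟩
        refine ⟨[], by simp, by simp, ?_⟩
        rw [hv, res_sum, List.sum_nil]
        apply Finset.sum_eq_zero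
        intro i _
        apply res_eq_zero
        intro p hp hp2
        have h1 := hb i p hp
        have h2 := hp2.2
        omega
      · push Not at hb1
        have hi : ∀ i, ∃ L : List V, L.length ≤ (g n1) ^ d ∧ (∀ w ∈ L, C w) ∧
            H94.WH.res (Set.Ico n1 n2) (u i) = L.sum := fun i => hS2 i n1 n2 h12
          (fun a ha h' => hS' a (mem_union_right _ (mem_biUnion.2 ⟨i, mem_univ _,
            mem_filter.2 ⟨ha, hb1.trans h'.1⟩⟩)) h')
        choose L hL1 hL2 hL3 using hi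
        refine ⟨(List.ofFn L).flatten, ?_, ?_, ?_⟩
        · rw [List.length_flatten, List.map_ofFn, List.sum_ofFn]
          calc ∑ i, (List.length ∘ L) i ≤ ∑ i : Fin N, g n1 ^ d :=
                Finset.sum_le_sum fun i _ => hL1 i
            _ = N * g n1 ^ d := by simp
            _ ≤ g n1 * g n1 ^ d := Nat.mul_le_mul_right _ (hN.trans (g_mono hb1))
            _ = g n1 ^ (d + 1) := by ring
        · intro w hw
          rw [List.mem_flatten] at hw
          obtain ⟨l, hl, hwl⟩ := hw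
          rw [List.mem_ofFn] at hl
          obtain ⟨i, rfl⟩ := hl
          exact hL2 i w hwl
        · rw [hv, res_sum, List.sum_flatten, List.map_ofFn, List.sum_ofFn]
          exact Finset.sum_congr rfl fun i _ => hL3 i

/-- G7 -/
theorem G.starts {d : ℕ} {v : V} (h : G d v) : ∃ S, Kset (2 * d) S ∧
    ∀ n1 n2 : ℕ, n1 ≤ n2 → (∀ a ∈ S, ¬ (n1 ≤ a ∧ a < n2)) →
      ∃ (N : ℕ) (u : Fin N → V), N ≤ (g n1) ^ d ∧ (∀ i, C (u i)) ∧
        H94.WH.res (Set.Ico n1 n2) v = ∑ i, u i := by
  obtain ⟨S, hS, hS2⟩ := GT_list d h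
  refine ⟨S, hS, fun n1 n2 h12 hS' => ?_⟩
  obtain ⟨L, hL1, hL2, hL3⟩ := hS2 n1 n2 h12 hS'
  refine ⟨L.length, fun i => L.get i, hL1, fun i => hL2 _ (List.get_mem _ _), ?_⟩
  rw [hL3, ← List.sum_ofFn, List.ofFn_get]

end H94.WH
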