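import Pool.Agent.H94.WH.SP

/-!
# MODULE HI1: gliding hump (section 11)

`exists_far_near`: for an infinite-dimensional subspace `Y` of `XB` and `ε > 0` there is a far subspace `Z` of `c_00` such that every `z ∈ Z` has `y ∈ Y` with `‖y - z‖ ≤ ε ‖z‖` (WLOG `ε ≤ 1`):
choose successively `y_k ∈ Y`, `‖y_k‖ = 1`, `coordX l y_k = 0` for `l < h_k` (a finite-codimensional subspace of `Y` is nonzero), `z_k` finitely supported in `[h_k,∞)` with `‖y_k - z_k‖ < ε 2^{-k-3}` (`exists_approx`),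
`h_{k+1}` > `h_k` and > the support of `z_k`; `Z = span {z_k}`. For `z = ∑ t_k z_k`: `|t_k| ‖z_k‖ = ‖z|[h_k, h_{k+1})‖ ≤ ‖z‖` (`nor_resX_le`) and `‖z_k‖ ≥ 1/2`, so `‖∑ t_k (y_k - z_k)‖ ≤ ∑ 2 ‖z‖ ε 2^{-k-3} ≤ ε ‖z‖`.
-/

set_option autoImplicit false

namespace H94.WH

open Finset

variable {𝕜 : Type} [RCLike 𝕜]

theorem HI1_step (Y : Submodule 𝕜 (XB 𝕜)) (hY : ¬ FiniteDimensional 𝕜 Y) (h : ℕ) {η : ℝ}
    (hη : 0 < η) :
    ∃ y ∈ Y, ∃ z : X0 𝕜, ‖y‖ = 1 ∧ (∀ l ∈ z.support, h ≤ l) ∧ ‖y - emb z‖ < η := by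
  obtain ⟨y0, hy0, hne, hc⟩ : ∃ y ∈ Y, y ≠ 0 ∧ ∀ l < h, coordX l y = 0 := by
    by_contra hcon
    push Not at hcon
    apply hY
    let L : Y →ₗ[𝕜] (Fin h → 𝕜) :=
      LinearMap.pi fun l => (coordX (𝕜 := 𝕜) l.1).toLinearMap.comp Y.subtype
    refine Module.Finite.of_injective L ?_
    rw [← LinearMap.ker_eq_bot, eq_bot_iff]
    intro y hy
    rw [LinearMap.mem_ker] at hy
    by_contra hne
    have hne' : (y : XB 𝕜) ≠ 0 := fun h0 => hne (by
      rw [Submodule.mem_bot]
      exact Subtype.ext h0)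
    obtain ⟨l, hl, hl2⟩ := hcon y.1 y.2 hne'
    apply hl2
    have := congrFun hy ⟨l, hl⟩
    simpa [L] using this
  have hn : ‖y0‖ ≠ 0 := norm_ne_zero_iff.2 hne
  have hcv : ∀ l < h, coordX l ((((‖y0‖⁻¹ : ℝ)) : 𝕜) • y0) = 0 := by
    intro l hl
    rw [map_smul, hc l hl, smul_zero]
  obtain ⟨z, hz, hz2⟩ := exists_approx h _ hcv hη
  refine ⟨_, Y.smul_mem _ hy0, z, ?_, hz, hz2⟩
  rw [norm_smul, RCLike.norm_ofReal, abs_of_nonneg (by positivity), inv_mul_cancel₀ hn]

theorem HI1_sum (n : Finset ℕ) : ∑ k ∈ n, (1 / 2 : ℝ) ^ (k + 3) ≤ 1 / 4 := by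
  have h1 : Summable fun k : ℕ => (1 / 2 : ℝ) ^ (k + 3) := by
    simp_rw [pow_add]
    exact (summable_geometric_two).mul_right _
  refine (h1.sum_le_tsum n fun k _ => by positivity).trans ?_
  simp_rw [pow_add]
  rw [tsum_mul_right, tsum_geometric_two]
  norm_num

theorem exists_far_near (Y : Submodule 𝕜 (XB 𝕜)) (hY : ¬ FiniteDimensional 𝕜 Y) {ε : ℝ} (hε : 0 < ε) :
    ∃ Z : Submodule 𝕜 (X0 𝕜), Far Z ∧ ∀ z ∈ Z, ∃ y ∈ Y, ‖y - emb z‖ ≤ ε * nor z := by
  set ε' := min ε 1 with hε'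
  have hε'0 : 0 < ε' := lt_min hε one_pos
  have hε'1 : ε' ≤ 1 := min_le_right _ _
  have hε'2 : ε' ≤ ε := min_le_left _ _
  have hη : ∀ k : ℕ, 0 < ε' * (1 / 2 : ℝ) ^ (k + 3) := fun k => by positivity
  choose Yf hYf Zf hY1 hZs hYZ using fun (h k : ℕ) => HI1_step Y hY h (hη k)
  let hs : ℕ → ℕ := fun n => Nat.rec 0 (fun k h => max (h + 1) ((Zf h k).support.sup id + 1)) n
  have hs_succ : ∀ k, hs (k + 1) = max (hs k + 1) ((Zf (hs k) k).support.sup id + 1) := fun k => rfl
  have hs_lt : ∀ k, hs k < hs (k + 1) := fun k => by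
    rw [hs_succ]
    exact lt_of_lt_of_le (Nat.lt_succ_self _) (le_max_left _ _)
  have hs_mono : StrictMono hs := strictMono_nat_of_lt_succ hs_lt
  set y : ℕ → XB 𝕜 := fun k => Yf (hs k) k with hy
  set z : ℕ → X0 𝕜 := fun k => Zf (hs k) k with hz
  have hzlo : ∀ k, ∀ l ∈ (z k).support, hs k ≤ l := fun k l hl => hZs (hs k) k l hl
  have hzhi : ∀ k, ∀ l ∈ (z k).support, l < hs (k + 1) := by
    intro k l hl
    rw [hs_succ]
    have h1 : l ≤ (Zf (hs k) k).support.sup id := Finset.le_sup (f := id) hl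
    exact lt_of_lt_of_le (Nat.lt_succ_of_le h1) (le_max_right _ _)
  have hyz : ∀ k, ‖y k - emb (z k)‖ ≤ ε' * (1 / 2 : ℝ) ^ (k + 3) := fun k => (hYZ (hs k) k).le
  have hη2 : ∀ k : ℕ, ε' * (1 / 2 : ℝ) ^ (k + 3) ≤ 1 / 2 := by
    intro k
    have h1 : (1 / 2 : ℝ) ^ (k + 3) ≤ (1 / 2) ^ 1 :=
      pow_le_pow_of_le_one (by norm_num) (by norm_num) (by omega)
    calc ε' * (1 / 2 : ℝ) ^ (k + 3) ≤ 1 * (1 / 2) ^ 1 :=
          mul_le_mul hε'1 h1 (by positivity) zero_le_one
      _ = 1 / 2 := by norm_num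
  have hnz : ∀ k, 1 / 2 ≤ nor (z k) := by
    intro k
    have h1 : ‖y k‖ = 1 := hY1 (hs k) k
    have h2 : ‖y k‖ ≤ ‖y k - emb (z k)‖ + ‖emb (z k)‖ := by
      have := norm_add_le (y k - emb (z k)) (emb (z k))
      rwa [sub_add_cancel] at this
    rw [norm_emb] at h2
    have h3 := hyz k
    have h4 := hη2 k
    linarith
  refine ⟨Submodule.span 𝕜 (Set.range z), ?_, ?_⟩
  · intro N
    refine ⟨z (N + 1), Submodule.subset_span ⟨N + 1, rfl⟩, ?_, ?_⟩
    · intro h0
      have h1 := hnz (N + 1)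
      rw [h0, nor_zero] at h1
      norm_num at h1
    · intro l hl
      have h1 := hzlo (N + 1) l hl
      have h2 : N + 1 ≤ hs (N + 1) := hs_mono.le_apply
      omega
  · intro w hw
    obtain ⟨c, hc⟩ := Finsupp.mem_span_range_iff_exists_finsupp.1 hw
    have hcoef : ∀ i, ‖c i‖ ≤ 2 * nor w := by
      intro i
      have h1 : resX (Set.Ico (hs i) (hs (i + 1))) w = c i • z i := by
        refine Finsupp.ext fun l => ?_
        obtain hl | hl := Classical.em (l ∈ Set.Ico (hs i) (hs (i + 1)))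
        · rw [resX_apply_mem hl, ← hc, Finsupp.sum_apply, Finsupp.sum, Finset.sum_eq_single i]
          · intro j _ hji
            rw [Finsupp.smul_apply]
            have h2 : z j l = 0 := by
              by_contra hne
              have h3 := hzlo j l (Finsupp.mem_support_iff.2 hne)
              have h4 := hzhi j l (Finsupp.mem_support_iff.2 hne)
              rcases lt_or_gt_of_ne hji with h | h
              · have := hs_mono.monotone (show j + 1 ≤ i from h)
                have := hl.1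
                omega
              · have := hs_mono.monotone (show i + 1 ≤ j from h)
                have := hl.2
                omega
            rw [h2, smul_zero]
          · intro hi
            rw [Finsupp.notMem_support_iff.1 hi, zero_smul, Finsupp.zero_apply]
        · rw [resX_apply_not hl, Finsupp.smul_apply]
          have h2 : z i l = 0 := by
            by_contra hne
            exact hl ⟨hzlo i l (Finsupp.mem_support_iff.2 hne),
              hzhi i l (Finsupp.mem_support_iff.2 hne)⟩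
          rw [h2, smul_zero]
      have h2 := nor_resX_le (J := Set.Ico (hs i) (hs (i + 1))) Set.ordConnected_Ico w
      rw [h1, nor_smul] at h2
      have h3 := hnz i
      have h4 := norm_nonneg (c i)
      nlinarith
    refine ⟨c.sum fun i a => a • y i, ?_, ?_⟩
    · refine Submodule.sum_mem _ fun i _ => ?_
      exact Y.smul_mem _ (hYf (hs i) i)
    · have h1 : (c.sum fun i a => a • y i) - emb w = ∑ i ∈ c.support, c i • (y i - emb (z i)) := by
        rw [← hc, Finsupp.sum, Finsupp.sum, emb_sum, ← Finset.sum_sub_distrib]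
        refine Finset.sum_congr rfl fun i _ => ?_
        rw [emb_smul, smul_sub]
      rw [h1]
      have hw0 : 0 ≤ nor w := nor_nonneg w
      calc ‖∑ i ∈ c.support, c i • (y i - emb (z i))‖
          ≤ ∑ i ∈ c.support, ‖c i • (y i - emb (z i))‖ := norm_sum_le _ _
        _ ≤ ∑ i ∈ c.support, (2 * nor w * ε') * (1 / 2 : ℝ) ^ (i + 3) := by
            refine Finset.sum_le_sum fun i _ => ?_
            rw [norm_smul]
            calc ‖c i‖ * ‖y i - emb (z i)‖ ≤ (2 * nor w) * (ε' * (1 / 2 : ℝ) ^ (i + 3)) :=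
                  mul_le_mul (hcoef i) (hyz i) (norm_nonneg _) (by positivity)
              _ = (2 * nor w * ε') * (1 / 2 : ℝ) ^ (i + 3) := by ring
        _ = (2 * nor w * ε') * ∑ i ∈ c.support, (1 / 2 : ℝ) ^ (i + 3) := by
            rw [Finset.mul_sum]
        _ ≤ (2 * nor w * ε') * (1 / 4) :=
            mul_le_mul_of_nonneg_left (HI1_sum _) (by positivity)
        _ ≤ ε * nor w := by nlinarith

end H94.WH
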