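import Pool.Agent.H94.WH.ED
import Pool.Agent.H94.WH.GF
import Pool.Agent.H94.WH.GQ

/-!
# MODULE HQ: the conditional estimate (hypothesis hq of Lemma IS for special vectors, section 10)

`w k = c k • u k`, `p k = code q ((List.range k).map w)`, `x k` exact of weight `p k ≥ q + 2` (pairwise different by `code_inj`). `V' = comp q v ∈ G_{nn q + d}` (`G.comp_mem`), all its root symbols are `≥ q + 2` (`G.comp_odd`).
`Phi (col {q} v) x = (m q)⁻¹ Phi V' x` (`Phi_col_single`). For `k ∈ Ico α β`, `V'_k = res [lo k, hi k] V' = col {p k} V'_k + col {s | q < s ∧ s < p k} V'_k + col {s | p k < s} V'_k`.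
Rest: `e2` with `abs_Phi_range_le` and `e3` (`1/m (p k) ≤ 1/m (q+1)`): `≤ 300/m_{q+1} nrm V'_k`; sum: `sum_abs_mul_nrm_le`.
Main part `P_k = Phi (col {p k} V'_k) (x k)`, `λ_k = nrm (col {p k} V'_k)`. Take `Ch, γ` from `qlemma` (b = 0). `k ∈ Ch`: `|P_k| ≤ 100 λ_k`. `k ∉ Ch`: `P_k = γ_k * Phi (w k) (x k) = γ_k c_k`, `|γ_k| c_k nrm (u k) = λ_k` and
`nrm (u k) ≥ 1/100` (`1 = Phi (u k) (x k) ≤ 100 nrm (u k)`). So the `k`-th term is `(-1)^k c_k^2 γ_k`, `|..| ≤ 100 c_k λ_k`. Pair `k = 2j, 2j+1`: if both are in `Ico α β \ Ch` the two terms cancel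
(`γ` equal, `c` equal). Otherwise, if `k ∈ Ico α β \ Ch` and its partner `k'` is in `Ch ∩ Ico α β`: `100 c_k λ_k = 100 c_{k'} λ_k`; if the partner is not in `Ico α β` then `k = α` or `k = β - 1`.
`∑_k 100 c_{k'} λ_k ≤ 100 nrm V' l2 c Ch`. `B = (Ch ∩ Ico α β) ∪ ({α, β-1} ∩ Ico α β)`, `B.image hi ∈ K_{d+2}`. Total: `(m q)⁻¹ nrm v (300/m_{q+1} l2 + 300 l2_B)`.
-/

set_option autoImplicit false

namespace H94.WH

open Finset

variable {𝕜 : Type} [RCLike 𝕜]

private lemma HQ_ivals_lt {M : ℕ} {lo hi : ℕ → ℕ} (hI : Ivals M lo hi) :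
    ∀ j i : ℕ, i < j → j < M → hi i < lo j := by
  intro j
  induction j with
  | zero => intro i hi; omega
  | succ j ih =>
    intro i hij hjM
    rcases Nat.lt_succ_iff_lt_or_eq.mp hij with h | h
    · have h1 := ih i h (by omega)
      have h2 := hI.1 j (by omega)
      have h3 := hI.2 j hjM
      omega
    · subst h
      exact hI.2 i hjM

private lemma HQ_disj {M : ℕ} {lo hi : ℕ → ℕ} (hI : Ivals M lo hi) {i j : ℕ} (hi' : i < M)
    (hj : j < M) (hij : i ≠ j) :
    Disjoint (Set.Icc (lo i) (hi i)) (Set.Icc (lo j) (hi j)) := by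
  rw [Set.disjoint_left]
  rintro l ⟨h1, h2⟩ ⟨h3, h4⟩
  rcases lt_or_gt_of_ne hij with h | h
  · have := HQ_ivals_lt hI j i h hj
    omega
  · have := HQ_ivals_lt hI i j h hi'
    omega

/-- the part of `v` away from the symbol `p` -/
private lemma HQ_rest {q p D : ℕ} (hqp : q + 2 ≤ p) {x : X0 𝕜} {u : V} {lo hi : ℕ}
    (hE : Exact p D x u lo hi) {e : ℕ} (he : e ≤ D) {v : V} (hv : G e v)
    (hcol : col {s | q + 2 ≤ s} v = v) :
    ‖Phi v x - Phi (col {p} v) x‖ ≤ 300 / m (q + 1) * nrm v := by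
  have h1 : col {s | q < s} v = v := by
    have e1 : ({s | q < s} : Set ℕ) ∩ {s | q + 2 ≤ s} = {s | q + 2 ≤ s} := by
      ext s
      simp only [Set.mem_inter_iff, Set.mem_ofPred_eq]
      omega
    calc col {s | q < s} v = col {s | q < s} (col {s | q + 2 ≤ s} v) := by rw [hcol]
      _ = col {s | q + 2 ≤ s} v := by rw [col_col, e1]
      _ = v := hcol
  have h2 : ({s | q < s} : Set ℕ) = {s | q < s ∧ s < p} ∪ ({p} ∪ {s | p < s}) := by
    ext s
    simp only [Set.mem_ofPred_eq, Set.mem_union, Set.mem_singleton_iff]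
    omega
  have d1 : Disjoint ({s | q < s ∧ s < p} : Set ℕ) ({p} ∪ {s | p < s}) := by
    rw [Set.disjoint_left]
    intro s hs
    simp only [Set.mem_ofPred_eq, Set.mem_union, Set.mem_singleton_iff] at hs ⊢
    omega
  have d2 : Disjoint ({p} : Set ℕ) {s | p < s} := by
    rw [Set.disjoint_left]
    intro s hs
    simp only [Set.mem_ofPred_eq, Set.mem_singleton_iff] at hs ⊢
    omega
  have h3 : v = col {s | q < s ∧ s < p} v + (col {p} v + col {s | p < s} v) := by
    rw [← col_union d2, ← col_union d1, ← h2, h1]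
  have h4 : Phi v x = Phi (col {s | q < s ∧ s < p} v) x
      + (Phi (col {p} v) x + Phi (col {s | p < s} v) x) := by
    conv_lhs => rw [h3]
    rw [Phi_add_left, Phi_add_left]
  have h5 : Phi v x - Phi (col {p} v) x = Phi (col {s | q < s ∧ s < p} v) x
      + Phi (col {s | p < s} v) x := by
    rw [h4]; ring
  have h6 : ‖Phi (col {s | q < s ∧ s < p} v) x‖ ≤ 2 * 100 / m (q + 1) * nrm v := by
    apply abs_Phi_range_le q p v x 100 (by norm_num)
    intro s hs1 hs2
    exact hE.e2 e he v hv s (by omega) hs2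
  have h7 : ‖Phi (col {s | p < s} v) x‖ ≤ 100 / m (q + 1) * nrm v := by
    refine (hE.e3 e he v hv).trans ?_
    apply mul_le_mul_of_nonneg_right _ (nrm_nonneg v)
    have h8 : (m (q + 1) : ℝ) ≤ m p := by
      exact_mod_cast m_strictMono.monotone (show q + 1 ≤ p by omega)
    exact div_le_div_of_nonneg_left (by norm_num) (m_pos _) h8
  rw [h5]
  calc ‖Phi (col {s | q < s ∧ s < p} v) x + Phi (col {s | p < s} v) x‖
      ≤ ‖Phi (col {s | q < s ∧ s < p} v) x‖ + ‖Phi (col {s | p < s} v) x‖ := norm_add_le _ _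
    _ ≤ 2 * 100 / m (q + 1) * nrm v + 100 / m (q + 1) * nrm v := add_le_add h6 h7
    _ = 300 / m (q + 1) * nrm v := by ring

/-- partner of an index -/
private def HQ_par (k : ℕ) : ℕ := if k % 2 = 0 then k + 1 else k - 1

private lemma HQ_par_par (k : ℕ) : HQ_par (HQ_par k) = k := by
  unfold HQ_par
  split_ifs <;> omega

private lemma HQ_par_ne (k : ℕ) : HQ_par k ≠ k := by
  unfold HQ_par
  split_ifs <;> omega

private lemma HQ_par_pow (k : ℕ) : ((-1 : ℝ)) ^ (HQ_par k) = -((-1) ^ k) := by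
  unfold HQ_par
  split_ifs with h
  · rw [pow_succ]; ring
  · obtain ⟨j, rfl⟩ : ∃ j, k = j + 1 := ⟨k - 1, by omega⟩
    rw [Nat.add_sub_cancel, pow_succ]; ring

private lemma HQ_par_c {M M' : ℕ} (hM : M = 2 * M') {c : ℕ → ℚ}
    (hpair : ∀ j < M', c (2 * j + 1) = c (2 * j)) {k : ℕ} (hk : k < M) : c (HQ_par k) = c k := by
  unfold HQ_par
  split_ifs with h
  · have h1 := hpair (k / 2) (by omega)
    have e1 : 2 * (k / 2) = k := by omega
    rw [e1] at h1
    exact h1
  · have h1 := hpair (k / 2) (by omega)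
    have e1 : 2 * (k / 2) = k - 1 := by omega
    have e2 : k - 1 + 1 = k := by omega
    rw [e1, e2] at h1
    exact h1.symm

theorem qpart_estimate {q : ℕ} (hq : Odd q) {M M' : ℕ} (hM : M = 2 * M') {x : ℕ → X0 𝕜} {u : ℕ → V} {c : ℕ → ℚ}
    {lo hi : ℕ → ℕ} (hI : Ivals M lo hi) (hc : ∀ k < M, 0 < c k) (hpair : ∀ j < M', c (2 * j + 1) = c (2 * j))
    {D : ℕ} (hex : ∀ k < M, Exact (code q ((List.range k).map (fun i => c i • u i))) D (x k) (u k) (lo k) (hi k))
    {d : ℕ} (hd : nn q + d ≤ D) {v : V} (hv : G d v) {α β : ℕ} (hβ : β ≤ M) :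
    ∃ B ⊆ Finset.Ico α β, Kset (d + 3) (B.image hi) ∧
      ‖Phi (col {q} v) (∑ k ∈ Finset.Ico α β, ((-1) ^ k * (c k : ℝ)) • x k)‖ ≤
        nrm v * (300 / (m q * m (q + 1)) * l2 (fun k => (-1) ^ k * (c k : ℝ)) (Finset.Ico α β) +
          300 / m q * l2 (fun k => (-1) ^ k * (c k : ℝ)) B) := by
  classical
  have hq1 : 1 ≤ q := hq.pos
  set w : ℕ → V := fun i => c i • u i with hwdef
  set pk : ℕ → ℕ := fun k => code q ((List.range k).map w) with hpk
  set a : ℕ → ℝ := fun k => (-1) ^ k * (c k : ℝ) with hadef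
  set A := Finset.Ico α β with hA
  have hAM : ∀ k ∈ A, k < M := fun k hk => lt_of_lt_of_le (Finset.mem_Ico.mp hk).2 hβ
  obtain ⟨V', hV'def⟩ : ∃ V', V' = comp q v := ⟨_, rfl⟩
  have hV' : G (nn q + d) V' := by rw [hV'def]; exact G.comp_mem hv hq1
  have hV'col : col {s | q + 2 ≤ s} V' = V' := by rw [hV'def]; exact G.comp_odd hv hq
  obtain ⟨J, hJdef⟩ : ∃ J : ℕ → Set ℕ, J = fun k => Set.Icc (lo k) (hi k) := ⟨_, rfl⟩
  have hJd : ∀ i ∈ A, ∀ j ∈ A, i ≠ j → Disjoint (J i) (J j) := by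
    intro i hiA j hjA hij
    rw [hJdef]
    exact HQ_disj hI (hAM i hiA) (hAM j hjA) hij
  have hVk : ∀ k, G (nn q + d) (res (J k) V') := by
    intro k
    rw [hJdef]
    exact hV'.res Set.ordConnected_Icc
  have hVkcol : ∀ k, col {s | q + 2 ≤ s} (res (J k) V') = res (J k) V' := by
    intro k
    rw [← res_col, hV'col]
  -- the q-lemma
  have hwI : ∀ k < M, ∀ p ∈ (w k).support, lo k ≤ p.1 ∧ p.1 ≤ hi k := by
    intro k hk p hp
    exact (hex k hk).hu p (Finsupp.support_smul hp)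
  have hwc : ∀ k < M, col {code q ((List.range k).map w)} (w k) = w k := by
    intro k hk
    show col _ (c k • u k) = c k • u k
    rw [col_smul, (hex k hk).hcol]
  obtain ⟨Ch, γ, hChM, hChK, -, hγ, hγeq⟩ := qlemma hq hI hwI hwc hv 0 (fun _ _ => Nat.zero_le _)
  -- values
  have hPhik : ∀ k ∈ A, Phi V' (x k) = Phi (res (J k) V') (x k) := by
    intro k hk
    refine (Phi_res V' (x k) ?_).symm
    intro l hl
    rw [hJdef]
    exact (hex k (hAM k hk)).hx l hl
  have hrest : ∀ k ∈ A, ‖Phi V' (x k) - Phi (col {pk k} (res (J k) V')) (x k)‖ ≤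
      300 / m (q + 1) * nrm (res (J k) V') := by
    intro k hk
    rw [hPhik k hk]
    exact HQ_rest (code_ge q _) (hex k (hAM k hk)) hd (hVk k) (hVkcol k)
  have hapos : ∀ k ∈ A, |a k| = (c k : ℝ) := by
    intro k hk
    have h1 : (0 : ℝ) < (c k : ℝ) := by exact_mod_cast hc k (hAM k hk)
    show |(-1) ^ k * (c k : ℝ)| = _
    rw [abs_mul, abs_pow, abs_neg, abs_one, one_pow, one_mul, abs_of_pos h1]
  -- chosen terms
  have hch : ∀ k ∈ A, ‖Phi (col {pk k} (res (J k) V')) (x k)‖ ≤ 100 * nrm (res (J k) V') := by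
    intro k hk
    refine ((hex k (hAM k hk)).e1 (nn q + d) hd _ ((hVk k).col _)).trans ?_
    exact mul_le_mul_of_nonneg_left (nrm_col_le _ _) (by norm_num)
  -- unchosen terms
  have hun : ∀ k ∈ A, k ∉ Ch → Phi (col {pk k} (res (J k) V')) (x k)
      = (((γ k : ℝ) * (c k : ℝ) : ℝ) : 𝕜) := by
    intro k hk hkC
    have h1 : col {pk k} (res (J k) V') = γ k • w k := by
      rw [← res_col, hV'def, hJdef]
      exact hγ k (hAM k hk) hkC
    rw [h1, Phi_smul_left]
    show _ * Phi (c k • u k) (x k) = _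
    rw [Phi_smul_left, (hex k (hAM k hk)).hPhi]
    push_cast
    ring
  -- the sums
  obtain ⟨P, hP⟩ : ∃ P : ℕ → 𝕜, P = fun k => Phi (col {pk k} (res (J k) V')) (x k) := ⟨_, rfl⟩
  obtain ⟨T, hT⟩ : ∃ T : ℕ → 𝕜, T = fun k => ((a k : ℝ) : 𝕜) * P k := ⟨_, rfl⟩
  have hTle : ∀ k ∈ A, ‖T k‖ ≤ 100 * (|a k| * nrm (res (J k) V')) := by
    intro k hk
    rw [hT, hP]
    show ‖((a k : ℝ) : 𝕜) * Phi (col {pk k} (res (J k) V')) (x k)‖ ≤ _
    rw [norm_mul, RCLike.norm_ofReal]
    calc |a k| * ‖Phi (col {pk k} (res (J k) V')) (x k)‖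
        ≤ |a k| * (100 * nrm (res (J k) V')) := mul_le_mul_of_nonneg_left (hch k hk) (abs_nonneg _)
      _ = 100 * (|a k| * nrm (res (J k) V')) := by ring
  have hsumle : ∀ B ⊆ A, ‖∑ k ∈ B, T k‖ ≤ 100 * (nrm V' * l2 a B) := by
    intro B hB
    calc ‖∑ k ∈ B, T k‖ ≤ ∑ k ∈ B, ‖T k‖ := norm_sum_le _ _
      _ ≤ ∑ k ∈ B, 100 * (|a k| * nrm (res (J k) V')) :=
          Finset.sum_le_sum fun k hk => hTle k (hB hk)
      _ = 100 * ∑ k ∈ B, |a k| * nrm (res (J k) V') := by rw [Finset.mul_sum]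
      _ ≤ 100 * (nrm V' * l2 a B) := by
          apply mul_le_mul_of_nonneg_left _ (by norm_num)
          exact sum_abs_mul_nrm_le B J (fun i hi' j hj hij => hJd i (hB hi') j (hB hj) hij) V' a
  -- index sets
  set CA := A.filter (fun k => k ∈ Ch) with hCA
  set U := A.filter (fun k => k ∉ Ch) with hU
  set U1 := U.filter (fun k => HQ_par k ∈ U) with hU1
  set U' := U.filter (fun k => HQ_par k ∉ U) with hU'
  set U2 := U'.filter (fun k => HQ_par k ∈ A) with hU2
  set U3 := U'.filter (fun k => HQ_par k ∉ A) with hU3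
  have hUA : ∀ k ∈ U, k ∈ A ∧ k ∉ Ch := fun k hk => by
    rw [hU, Finset.mem_filter] at hk; exact hk
  have hU1sum : ∑ k ∈ U1, T k = 0 := by
    apply Finset.sum_involution (fun k _ => HQ_par k)
    · intro k hk
      rw [hU1, Finset.mem_filter] at hk
      obtain ⟨hkU, hkpU⟩ := hk
      obtain ⟨hkA, hkC⟩ := hUA k hkU
      obtain ⟨hpA, hpC⟩ := hUA _ hkpU
      have hg : γ (HQ_par k) = γ k := by
        have hkM := hAM k hkA
        have hpM := hAM _ hpA
        unfold HQ_par at hpC hpM ⊢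
        split_ifs at hpC hpM ⊢ with h
        · exact (hγeq k hpM hkC hpC).symm
        · have e2 : k - 1 + 1 = k := by omega
          have := hγeq (k - 1) (by omega) hpC (by rw [e2]; exact hkC)
          rw [e2] at this
          exact this
      have hcc : c (HQ_par k) = c k := HQ_par_c hM hpair (hAM k hkA)
      rw [hT, hP]
      show ((a k : ℝ) : 𝕜) * Phi (col {pk k} (res (J k) V')) (x k) +
        ((a (HQ_par k) : ℝ) : 𝕜) *
          Phi (col {pk (HQ_par k)} (res (J (HQ_par k)) V')) (x (HQ_par k)) = 0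
      rw [hun k hkA hkC, hun _ hpA hpC, hg, hcc]
      have ha : a (HQ_par k) = - a k := by
        show (-1) ^ (HQ_par k) * (c (HQ_par k) : ℝ) = -((-1) ^ k * (c k : ℝ))
        rw [HQ_par_pow, hcc]; ring
      rw [ha]
      push_cast
      ring
    · intro k _ _
      exact HQ_par_ne k
    · intro k hk
      rw [hU1, Finset.mem_filter] at hk ⊢
      exact ⟨hk.2, by rw [HQ_par_par]; exact hk.1⟩
    · intro k _
      exact HQ_par_par k
  have hsplit : ∑ k ∈ A, T k = ∑ k ∈ CA, T k + (∑ k ∈ U2, T k + ∑ k ∈ U3, T k) := by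
    have e1 : ∑ k ∈ A, T k = ∑ k ∈ CA, T k + ∑ k ∈ U, T k :=
      (Finset.sum_filter_add_sum_filter_not A (fun k => k ∈ Ch) T).symm
    have e2 : ∑ k ∈ U, T k = ∑ k ∈ U1, T k + ∑ k ∈ U', T k :=
      (Finset.sum_filter_add_sum_filter_not U (fun k => HQ_par k ∈ U) T).symm
    have e3 : ∑ k ∈ U', T k = ∑ k ∈ U2, T k + ∑ k ∈ U3, T k :=
      (Finset.sum_filter_add_sum_filter_not U' (fun k => HQ_par k ∈ A) T).symm
    rw [e1, e2, e3, hU1sum, zero_add]
  have hCAA : CA ⊆ A := Finset.filter_subset _ _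
  have hU'A : U' ⊆ A := (Finset.filter_subset _ _).trans (Finset.filter_subset _ _)
  have hU2A : U2 ⊆ A := (Finset.filter_subset _ _).trans hU'A
  have hU3A : U3 ⊆ A := (Finset.filter_subset _ _).trans hU'A
  set Bd := A.filter (fun k => k = α ∨ k = β - 1) with hBd
  have hBdA : Bd ⊆ A := Finset.filter_subset _ _
  have hU3B : U3 ⊆ Bd := by
    intro k hk
    have hkA := hU3A hk
    rw [hU3, Finset.mem_filter] at hk
    rw [hBd, Finset.mem_filter]
    refine ⟨hkA, ?_⟩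
    have h1 := hk.2
    rw [hA, Finset.mem_Ico] at h1 hkA
    unfold HQ_par at h1
    split_ifs at h1 with h
    · right; omega
    · left; omega
  have hU2l2 : l2 a U2 ≤ l2 a CA := by
    have e1 : l2 a U2 = l2 a (U2.image HQ_par) := by
      unfold l2
      congr 1
      rw [Finset.sum_image]
      · apply Finset.sum_congr rfl
        intro k hk
        have hkA := hU2A hk
        have hcc : c (HQ_par k) = c k := HQ_par_c hM hpair (hAM k hkA)
        show ((-1) ^ k * (c k : ℝ)) ^ 2 = ((-1) ^ (HQ_par k) * (c (HQ_par k) : ℝ)) ^ 2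
        rw [HQ_par_pow, hcc]; ring
      · intro i _ j _ hij
        have := congrArg HQ_par hij
        rwa [HQ_par_par, HQ_par_par] at this
    rw [e1]
    apply l2_mono
    intro j hj
    rw [Finset.mem_image] at hj
    obtain ⟨k, hk, rfl⟩ := hj
    rw [hU2, Finset.mem_filter, hU', Finset.mem_filter] at hk
    obtain ⟨⟨hkU, hkpU⟩, hkpA⟩ := hk
    rw [hCA, Finset.mem_filter]
    refine ⟨hkpA, ?_⟩
    by_contra hnot
    exact hkpU (by rw [hU, Finset.mem_filter]; exact ⟨hkpA, hnot⟩)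
  obtain ⟨B, hB⟩ : ∃ B, B = CA ∪ Bd := ⟨_, rfl⟩
  have hBA : B ⊆ A := by rw [hB]; exact Finset.union_subset hCAA hBdA
  have hCAB : CA ⊆ B := by rw [hB]; exact Finset.subset_union_left
  have hBdB : Bd ⊆ B := by rw [hB]; exact Finset.subset_union_right
  have hnV' : nrm V' ≤ nrm v := by rw [hV'def]; exact nrm_comp_le q v
  have hmain : ‖∑ k ∈ A, T k‖ ≤ 300 * (nrm V' * l2 a B) := by
    rw [hsplit]
    have h0 := nrm_nonneg V'
    have h1 : ‖∑ k ∈ CA, T k‖ ≤ 100 * (nrm V' * l2 a B) := by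
      refine (hsumle CA hCAA).trans ?_
      apply mul_le_mul_of_nonneg_left _ (by norm_num)
      exact mul_le_mul_of_nonneg_left (l2_mono a hCAB) h0
    have h2 : ‖∑ k ∈ U2, T k‖ ≤ 100 * (nrm V' * l2 a B) := by
      refine (hsumle U2 hU2A).trans ?_
      apply mul_le_mul_of_nonneg_left _ (by norm_num)
      exact mul_le_mul_of_nonneg_left (hU2l2.trans (l2_mono a hCAB)) h0
    have h3 : ‖∑ k ∈ U3, T k‖ ≤ 100 * (nrm V' * l2 a B) := by
      refine (hsumle U3 hU3A).trans ?_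
      apply mul_le_mul_of_nonneg_left _ (by norm_num)
      exact mul_le_mul_of_nonneg_left (l2_mono a (hU3B.trans hBdB)) h0
    calc ‖∑ k ∈ CA, T k + (∑ k ∈ U2, T k + ∑ k ∈ U3, T k)‖
        ≤ ‖∑ k ∈ CA, T k‖ + ‖∑ k ∈ U2, T k + ∑ k ∈ U3, T k‖ := norm_add_le _ _
      _ ≤ ‖∑ k ∈ CA, T k‖ + (‖∑ k ∈ U2, T k‖ + ‖∑ k ∈ U3, T k‖) := by
          have := norm_add_le (∑ k ∈ U2, T k) (∑ k ∈ U3, T k)
          linarith
      _ ≤ 300 * (nrm V' * l2 a B) := by linarith
  have hrestsum : ‖∑ k ∈ A, ((a k : ℝ) : 𝕜) * (Phi V' (x k) - P k)‖ ≤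
      300 / m (q + 1) * (nrm V' * l2 a A) := by
    calc ‖∑ k ∈ A, ((a k : ℝ) : 𝕜) * (Phi V' (x k) - P k)‖
        ≤ ∑ k ∈ A, ‖((a k : ℝ) : 𝕜) * (Phi V' (x k) - P k)‖ := norm_sum_le _ _
      _ ≤ ∑ k ∈ A, 300 / m (q + 1) * (|a k| * nrm (res (J k) V')) := by
          apply Finset.sum_le_sum
          intro k hk
          rw [norm_mul, RCLike.norm_ofReal, hP]
          calc |a k| * ‖Phi V' (x k) - Phi (col {pk k} (res (J k) V')) (x k)‖
              ≤ |a k| * (300 / m (q + 1) * nrm (res (J k) V')) :=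
                mul_le_mul_of_nonneg_left (hrest k hk) (abs_nonneg _)
            _ = 300 / m (q + 1) * (|a k| * nrm (res (J k) V')) := by ring
      _ = 300 / m (q + 1) * ∑ k ∈ A, |a k| * nrm (res (J k) V') := by rw [Finset.mul_sum]
      _ ≤ 300 / m (q + 1) * (nrm V' * l2 a A) := by
          apply mul_le_mul_of_nonneg_left _ (div_nonneg (by norm_num) (m_pos _).le)
          exact sum_abs_mul_nrm_le A J hJd V' a
  have hPhiV' : Phi V' (∑ k ∈ A, a k • x k) =
      ∑ k ∈ A, T k + ∑ k ∈ A, ((a k : ℝ) : 𝕜) * (Phi V' (x k) - P k) := by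
    rw [Phi_sum_right, ← Finset.sum_add_distrib]
    apply Finset.sum_congr rfl
    intro k _
    rw [Phi_smul_real, hT]
    ring
  refine ⟨B, hBA, ?_, ?_⟩
  · rw [hB, Finset.image_union]
    have k1 : Kset (d + 2) (CA.image hi) := by
      apply Kset.mono (show d + 1 ≤ d + 2 by omega)
      apply hChK.sub
      apply Finset.image_subset_image
      intro k hk
      rw [hCA, Finset.mem_filter] at hk
      exact hk.2
    have k2 : Kset (d + 2) (Bd.image hi) := by
      apply Kset.mono (show 1 ≤ d + 2 by omega)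
      apply Kset.of_card (b := 0) _ (fun _ _ => Nat.zero_le _)
      have h1 : Bd ⊆ {α, β - 1} := by
        intro k hk
        rw [hBd, Finset.mem_filter] at hk
        simpa using hk.2
      have h2 : Bd.card ≤ 2 := (Finset.card_le_card h1).trans Finset.card_le_two
      exact (Finset.card_image_le.trans h2).trans ((by norm_num : 2 ≤ 5).trans (five_le_g 0))
    exact Kset.union k1 k2
  · have hmq := m_pos q
    have hmq1 := m_pos (q + 1)
    have hl2A := l2_nonneg a A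
    have hl2B := l2_nonneg a B
    show ‖Phi (col {q} v) (∑ k ∈ A, a k • x k)‖ ≤
      nrm v * (300 / (m q * m (q + 1)) * l2 a A + 300 / m q * l2 a B)
    rw [norm_Phi_col_single, ← hV'def, hPhiV']
    calc ((m q : ℝ))⁻¹ * ‖∑ k ∈ A, T k + ∑ k ∈ A, ((a k : ℝ) : 𝕜) * (Phi V' (x k) - P k)‖
        ≤ ((m q : ℝ))⁻¹ * (300 * (nrm V' * l2 a B) + 300 / m (q + 1) * (nrm V' * l2 a A)) := by
          apply mul_le_mul_of_nonneg_left _ (inv_nonneg.mpr hmq.le)
          exact (norm_add_le _ _).trans (add_le_add hmain hrestsum)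
      _ = nrm V' * (300 / (m q * m (q + 1)) * l2 a A + 300 / m q * l2 a B) := by
          field_simp
          ring
      _ ≤ nrm v * (300 / (m q * m (q + 1)) * l2 a A + 300 / m q * l2 a B) := by
          apply mul_le_mul_of_nonneg_right hnV'
          positivity

end H94.WH
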