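import Pool.Agent.H94.WH.LD
import Pool.Agent.H94.WH.GT
import Pool.Agent.H94.WH.GR

/-!
# MODULE IS0: the leaf term and the tail term of the main estimate
`leaf_term`: `B = {k ∈ Ico α β : res [lo k,hi k] (leaf v) ≠ 0}`; `B.image hi ∈ K_d` by `G.leafset` and `Kset.of_inj` (`ψ (hi k)` = a leaf position in `[lo k, hi k]`); term by term
`‖Phi (leaf v) (x k)‖ = ‖Phi (res (Icc (lo k) (hi k)) (leaf v)) (x k)‖ ≤ Cc nrm (..)` (`Phi_res`, `G.leaf`, `G.res`), then `sum_abs_mul_nrm_le` over `B`.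
`tail_term`: for each `k`: `col {s | q < s} v = col {s | q < s ∧ s ∈ Crit k} v + col {s | q < s ∧ s ∉ Crit k} v`; second part: `h3` applied to `res (Icc (lo k) (hi k)) v`; first part: nonzero on `[lo k, hi k]`
only for `k ∈ B`, `B.image hi ∈ K_d` (`G.crit` for `col {s | q < s} v`), `≤ Cc nrm (res .. v)`.
-/

set_option autoImplicit false

namespace H94.WH

open Finset

variable {𝕜 : Type} [RCLike 𝕜]

private theorem IS0_lt {M : ℕ} {lo hi : ℕ → ℕ} (hI : Ivals M lo hi) {i j : ℕ} (hij : i < j)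
    (hj : j < M) : hi i < lo j := by
  induction j with
  | zero => omega
  | succ j ih =>
    rcases Nat.lt_succ_iff_lt_or_eq.1 hij with h | h
    · have h1 := ih h (by omega)
      have h2 := hI.1 j (by omega)
      have h3 := hI.2 j hj
      omega
    · subst h
      exact hI.2 i hj

private theorem IS0_disj {M : ℕ} {lo hi : ℕ → ℕ} (hI : Ivals M lo hi) {i j : ℕ} (hi' : i < M)
    (hj : j < M) (hij : i ≠ j) : Disjoint (Set.Icc (lo i) (hi i)) (Set.Icc (lo j) (hi j)) := by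
  rw [Set.disjoint_left]
  rintro p ⟨h1, h2⟩ ⟨h3, h4⟩
  rcases lt_or_gt_of_ne hij with h | h
  · have := IS0_lt hI h hj
    omega
  · have := IS0_lt hI h hi'
    omega

private theorem IS0_kset {M d : ℕ} {lo hi : ℕ → ℕ} (hI : Ivals M lo hi) {A : Finset ℕ}
    (hA : Kset d A) (B : Finset ℕ) (hB : ∀ k ∈ B, k < M)
    (h : ∀ k ∈ B, ∃ p ∈ A, lo k ≤ p ∧ p ≤ hi k) : Kset d (B.image hi) := by
  classical
  have h1 : ∀ b ∈ B.image hi, ∃ p ∈ A, ∃ k ∈ B, hi k = b ∧ lo k ≤ p ∧ p ≤ hi k := by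
    intro b hb
    obtain ⟨k, hk, rfl⟩ := Finset.mem_image.1 hb
    obtain ⟨p, hp, h2⟩ := h k hk
    exact ⟨p, hp, k, hk, rfl, h2⟩
  choose! ψ hψA κ hκB hκ1 hκ2 hκ3 using h1
  refine hA.of_inj ψ (fun b hb => ⟨hψA b hb, ?_⟩) ?_
  · exact (hκ3 b hb).trans (hκ1 b hb).le
  · intro b hb b' hb' he
    have hkk : κ b = κ b' := by
      by_contra hne
      have hd := IS0_disj hI (hB _ (hκB b hb)) (hB _ (hκB b' hb')) hne
      rw [Set.disjoint_left] at hd
      refine hd (a := ψ b) ⟨hκ2 b hb, hκ3 b hb⟩ ?_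
      rw [he]
      exact ⟨hκ2 b' hb', hκ3 b' hb'⟩
    rw [← hκ1 b hb, ← hκ1 b' hb', hkk]

private theorem IS0_sum (w : V) (s : Finset ℕ) (a : ℕ → ℝ) (x : ℕ → X0 𝕜) :
    ‖Phi w (∑ k ∈ s, a k • x k)‖ ≤ ∑ k ∈ s, |a k| * ‖Phi w (x k)‖ := by
  rw [Phi_sum_right]
  refine (norm_sum_le _ _).trans (Finset.sum_le_sum fun k _ => ?_)
  rw [Phi_smul_real, norm_mul, RCLike.norm_ofReal]

theorem leaf_term {M : ℕ} {lo hi : ℕ → ℕ} (hI : Ivals M lo hi) {x : ℕ → X0 𝕜} (a : ℕ → ℝ)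
    (hx : ∀ k < M, ∀ l ∈ (x k).support, lo k ≤ l ∧ l ≤ hi k) {d : ℕ} {Cc : ℝ} (hCc : 0 ≤ Cc)
    (h1 : ∀ k < M, ∀ v, G d v → ‖Phi v (x k)‖ ≤ Cc * nrm v)
    {v : V} (hv : G d v) {α β : ℕ} (hβ : β ≤ M) :
    ∃ B ⊆ Finset.Ico α β, Kset d (B.image hi) ∧
      ‖Phi (leaf v) (∑ k ∈ Finset.Ico α β, a k • x k)‖ ≤ nrm v * (Cc * l2 a B) := by
  classical
  set J : ℕ → Set ℕ := fun k => Set.Icc (lo k) (hi k) with hJ
  set B : Finset ℕ := (Finset.Ico α β).filter (fun k => res (J k) (leaf v) ≠ 0) with hB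
  have hBsub : B ⊆ Finset.Ico α β := Finset.filter_subset _ _
  have hlt : ∀ k ∈ Finset.Ico α β, k < M := fun k hk => (Finset.mem_Ico.1 hk).2.trans_le hβ
  have hBM : ∀ k ∈ B, k < M := fun k hk => hlt k (hBsub hk)
  refine ⟨B, hBsub, ?_, ?_⟩
  · refine IS0_kset hI hv.leafset B hBM fun k hk => ?_
    have hne : res (J k) (leaf v) ≠ 0 := (Finset.mem_filter.1 hk).2
    obtain ⟨p, hp⟩ := Finsupp.support_nonempty_iff.2 hne
    obtain ⟨hp1, hp2⟩ := mem_res.1 hp
    exact ⟨p.1, Finset.mem_image_of_mem _ hp1, hp2.1, hp2.2⟩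
  · refine (IS0_sum _ _ _ _).trans ?_
    have hterm : ∀ k ∈ Finset.Ico α β, Phi (leaf v) (x k) = Phi (res (J k) (leaf v)) (x k) :=
      fun k hk => (Phi_res (leaf v) (x k) (fun l hl => hx k (hlt k hk) l hl)).symm
    have hzero : ∀ k ∈ Finset.Ico α β, k ∉ B → |a k| * ‖Phi (leaf v) (x k)‖ = 0 := by
      intro k hk hkB
      have h0 : res (J k) (leaf v) = 0 := by
        by_contra hne
        exact hkB (Finset.mem_filter.2 ⟨hk, hne⟩)
      rw [hterm k hk, h0, Phi_zero_left, norm_zero, mul_zero]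
    rw [← Finset.sum_subset hBsub hzero]
    have hle : ∀ k ∈ B, |a k| * ‖Phi (leaf v) (x k)‖ ≤ Cc * (|a k| * nrm (res (J k) v)) := by
      intro k hk
      rw [hterm k (hBsub hk)]
      have hG : G d (res (J k) (leaf v)) := hv.leaf.res Set.ordConnected_Icc
      have h2 := h1 k (hBM k hk) _ hG
      have h3 : nrm (res (J k) (leaf v)) ≤ nrm (res (J k) v) := by
        rw [res_leaf]; exact nrm_leaf_le _
      calc |a k| * ‖Phi (res (J k) (leaf v)) (x k)‖ ≤ |a k| * (Cc * nrm (res (J k) v)) :=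
            mul_le_mul_of_nonneg_left (h2.trans (mul_le_mul_of_nonneg_left h3 hCc)) (abs_nonneg _)
        _ = Cc * (|a k| * nrm (res (J k) v)) := by ring
    refine (Finset.sum_le_sum hle).trans ?_
    rw [← Finset.mul_sum]
    have h4 := sum_abs_mul_nrm_le B J
      (fun i hi' j hj hij => IS0_disj hI (hBM i hi') (hBM j hj) hij) v a
    calc Cc * ∑ k ∈ B, |a k| * nrm (res (J k) v) ≤ Cc * (nrm v * l2 a B) :=
          mul_le_mul_of_nonneg_left h4 hCc
      _ = nrm v * (Cc * l2 a B) := by ring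

theorem tail_term {q : ℕ} {M : ℕ} {lo hi : ℕ → ℕ} (hI : Ivals M lo hi) {x : ℕ → X0 𝕜} (a : ℕ → ℝ)
    (hx : ∀ k < M, ∀ l ∈ (x k).support, lo k ≤ l ∧ l ≤ hi k) {d : ℕ} {Cc xt : ℝ} (hCc : 0 ≤ Cc) (hxt : 0 ≤ xt)
    (h1 : ∀ k < M, ∀ v, G d v → ‖Phi v (x k)‖ ≤ Cc * nrm v)
    (Crit : ℕ → Set ℕ) (hdis : ∀ i < M, ∀ j < M, i ≠ j → Disjoint (Crit i) (Crit j))
    (h3 : ∀ k < M, ∀ v, G d v → ‖Phi (col {s | q < s ∧ s ∉ Crit k} v) (x k)‖ ≤ xt * nrm v)
    {v : V} (hv : G d v) {α β : ℕ} (hβ : β ≤ M) :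
    ∃ B ⊆ Finset.Ico α β, Kset d (B.image hi) ∧
      ‖Phi (col {s | q < s} v) (∑ k ∈ Finset.Ico α β, a k • x k)‖ ≤
        nrm v * (xt * l2 a (Finset.Ico α β) + Cc * l2 a B) := by
  classical
  set J : ℕ → Set ℕ := fun k => Set.Icc (lo k) (hi k) with hJ
  set B : Finset ℕ := (Finset.Ico α β).filter
    (fun k => res (J k) (col (Crit k) (col {s | q < s} v)) ≠ 0) with hB
  have hBsub : B ⊆ Finset.Ico α β := Finset.filter_subset _ _
  have hlt : ∀ k ∈ Finset.Ico α β, k < M := fun k hk => (Finset.mem_Ico.1 hk).2.trans_le hβ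
  have hBM : ∀ k ∈ B, k < M := fun k hk => hlt k (hBsub hk)
  have hcc : ∀ k, col (Crit k) (col {s | q < s} v) = col {s | q < s ∧ s ∈ Crit k} v := by
    intro k
    rw [col_col]
    congr 1
    ext s
    exact and_comm
  refine ⟨B, hBsub, ?_, ?_⟩
  · have h5 := (hv.col {s | q < s}).crit hI Crit hdis
    refine h5.sub (Finset.image_subset_image fun k hk => ?_)
    exact Finset.mem_filter.2 ⟨Finset.mem_range.2 (hBM k hk), (Finset.mem_filter.1 hk).2⟩
  · refine (IS0_sum _ _ _ _).trans ?_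
    -- split every term
    have hsplit : ∀ k ∈ Finset.Ico α β, |a k| * ‖Phi (col {s | q < s} v) (x k)‖ ≤
        xt * (|a k| * nrm (res (J k) v)) +
          |a k| * ‖Phi (col {s | q < s ∧ s ∈ Crit k} v) (x k)‖ := by
      intro k hk
      have hset : ({s | q < s} : Set ℕ) = {s | q < s ∧ s ∈ Crit k} ∪ {s | q < s ∧ s ∉ Crit k} := by
        ext s
        simp only [Set.mem_ofPred_eq, Set.mem_union]
        tauto
      have hdj : Disjoint ({s | q < s ∧ s ∈ Crit k} : Set ℕ) {s | q < s ∧ s ∉ Crit k} := by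
        rw [Set.disjoint_left]
        rintro s ⟨_, hs⟩ ⟨_, hs'⟩
        exact hs' hs
      have e1 : Phi (col {s | q < s} v) (x k) = Phi (col {s | q < s ∧ s ∈ Crit k} v) (x k) +
          Phi (col {s | q < s ∧ s ∉ Crit k} v) (x k) := by
        conv_lhs => rw [hset, col_union hdj, Phi_add_left]
      have e2 : Phi (col {s | q < s ∧ s ∉ Crit k} v) (x k) =
          Phi (col {s | q < s ∧ s ∉ Crit k} (res (J k) v)) (x k) := by
        rw [← res_col, Phi_res (J := J k) _ (x k) (fun l hl => hx k (hlt k hk) l hl)]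
      have e3 := h3 k (hlt k hk) (res (J k) v) (hv.res Set.ordConnected_Icc)
      rw [← e2] at e3
      rw [e1]
      calc |a k| * ‖Phi (col {s | q < s ∧ s ∈ Crit k} v) (x k) +
            Phi (col {s | q < s ∧ s ∉ Crit k} v) (x k)‖
          ≤ |a k| * (‖Phi (col {s | q < s ∧ s ∈ Crit k} v) (x k)‖ + xt * nrm (res (J k) v)) :=
            mul_le_mul_of_nonneg_left ((norm_add_le _ _).trans (by linarith)) (abs_nonneg _)
        _ = _ := by ring
    refine (Finset.sum_le_sum hsplit).trans ?_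
    rw [Finset.sum_add_distrib, ← Finset.mul_sum]
    have hzero : ∀ k ∈ Finset.Ico α β, k ∉ B →
        |a k| * ‖Phi (col {s | q < s ∧ s ∈ Crit k} v) (x k)‖ = 0 := by
      intro k hk hkB
      have h0 : res (J k) (col (Crit k) (col {s | q < s} v)) = 0 := by
        by_contra hne
        exact hkB (Finset.mem_filter.2 ⟨hk, hne⟩)
      rw [← Phi_res (J := J k) _ (x k) (fun l hl => hx k (hlt k hk) l hl), ← hcc k, h0,
        Phi_zero_left, norm_zero, mul_zero]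
    rw [← Finset.sum_subset hBsub hzero]
    have hle : ∀ k ∈ B, |a k| * ‖Phi (col {s | q < s ∧ s ∈ Crit k} v) (x k)‖ ≤
        Cc * (|a k| * nrm (res (J k) v)) := by
      intro k hk
      rw [← Phi_res (J := J k) _ (x k) (fun l hl => hx k (hBM k hk) l hl), res_col]
      have hG : G d (col {s | q < s ∧ s ∈ Crit k} (res (J k) v)) :=
        (hv.res Set.ordConnected_Icc).col _
      have h2 := h1 k (hBM k hk) _ hG
      calc |a k| * ‖Phi (col {s | q < s ∧ s ∈ Crit k} (res (J k) v)) (x k)‖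
          ≤ |a k| * (Cc * nrm (res (J k) v)) :=
            mul_le_mul_of_nonneg_left (h2.trans (mul_le_mul_of_nonneg_left (nrm_col_le _ _) hCc))
              (abs_nonneg _)
        _ = Cc * (|a k| * nrm (res (J k) v)) := by ring
    have h4 := sum_abs_mul_nrm_le B J
      (fun i hi' j hj hij => IS0_disj hI (hBM i hi') (hBM j hj) hij) v a
    have h5 := sum_abs_mul_nrm_le (Finset.Ico α β) J
      (fun i hi' j hj hij => IS0_disj hI (hlt i hi') (hlt j hj) hij) v a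
    have h6 : ∑ k ∈ B, |a k| * ‖Phi (col {s | q < s ∧ s ∈ Crit k} v) (x k)‖ ≤
        Cc * (nrm v * l2 a B) := by
      refine (Finset.sum_le_sum hle).trans ?_
      rw [← Finset.mul_sum]
      exact mul_le_mul_of_nonneg_left h4 hCc
    have h7 := mul_le_mul_of_nonneg_left h5 hxt
    calc xt * ∑ k ∈ Finset.Ico α β, |a k| * nrm (res (J k) v) +
          ∑ k ∈ B, |a k| * ‖Phi (col {s | q < s ∧ s ∈ Crit k} v) (x k)‖
        ≤ xt * (nrm v * l2 a (Finset.Ico α β)) + Cc * (nrm v * l2 a B) := add_le_add h7 h6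
      _ = nrm v * (xt * l2 a (Finset.Ico α β) + Cc * l2 a B) := by ring

end H94.WH
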