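import Pool.Agent.H94.WH.JA0

/-!
# MODULE JA: James' argument (Lemma J, section 8)

`P t`: `∀ N, ∃ z ∈ Z, ∃ lo hi v, ∃ ρ : ℝ, N < lo, lo ≤ hi, supports of z and v in [lo,hi], nor z = 1, nrm v ≤ 1, adm ((n+1)*t) v, Phi v z = (ρ : 𝕜), 2^t/2 ≤ ρ`.
`P 0`: normalise a far vector, `exists_norming` (c = 1/2), multiply `z` by a scalar of absolute value 1 so that `Phi v z` is a positive real number (`Z` is a `𝕜`-subspace), `adm_of_C`.
`P t → P (t+1)`, assuming that every average as in the statement has `nor < 1/2`: apply `averages` with items `T = X0 × V × ℕ × ℕ` and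
`R h c (z,v,lo,hi)`: the `P t`-properties, and `(g 0)^D ≤ g lo` if `h = []`, `(g (hi' + 1))^D ≤ g lo` if the last item of `h` has upper end `hi'`
(the condition is monotone in `lo` and `g` is unbounded, so `hR` holds; items with `hi < lo` should be excluded by replacing `hi` by `max lo hi`). Then `y = ∑ b_k z_k`, `v = ∑ b_k v_k`, `nrm v ^2 = ∑ b_k^2 nrm v_k^2 ≤ 1`,
`Phi v y = ∑ b_k^2 Phi v_k z_k ≥ 2^t/2`, `0 < nor y < 1/2`, `z = (nor y)⁻¹ • y ∈ Z`; `adm_sum` with `n' = n+1`: `(n+1) + (n+1) t = (n+1)(t+1)`.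
End: `par4 n` gives `j` even with `(n+1)(2^(j+1)+2) ≤ nn j`; `t = 2^(j+1)+2`: `pre j v ∈ C` (`adm_even`), `1 = nor z ≥ ‖Phi (pre j v) z| ≥ 2^t/2/m_j = 2`. Contradiction.
-/

set_option autoImplicit false

namespace H94.WH

open Finset

variable {𝕜 : Type} [RCLike 𝕜]

theorem JA_lt {M : ℕ} {lo hi : ℕ → ℕ} (hI : Ivals M lo hi) {i j : ℕ} (hij : i < j) (hj : j < M) :
    hi i < lo j := by
  induction j with
  | zero => omega
  | succ j ih =>
    rcases Nat.lt_succ_iff_lt_or_eq.1 hij with h | h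
    · have h1 := ih h (by omega)
      have h2 := hI.1 j (by omega)
      have h3 := hI.2 j hj
      omega
    · subst h
      exact hI.2 i hj

/-- the items of the induction -/
def JA_P (Z : Submodule 𝕜 (X0 𝕜)) (n t : ℕ) (z : X0 𝕜) (v : V) (lo hi : ℕ) : Prop :=
  z ∈ Z ∧ lo ≤ hi ∧ (∀ l ∈ z.support, lo ≤ l ∧ l ≤ hi) ∧ (∀ p ∈ v.support, lo ≤ p.1 ∧ p.1 ≤ hi) ∧
    nor z = 1 ∧ nrm v ≤ 1 ∧ adm ((n + 1) * t) v ∧ ∃ ρ : ℝ, Phi v z = (ρ : 𝕜) ∧ 2 ^ t / 2 ≤ ρ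

theorem JA_support_smul (c : 𝕜) (z : X0 𝕜) {l : ℕ} (h : l ∈ (c • z).support) : l ∈ z.support := by
  rw [Finsupp.mem_support_iff, Finsupp.smul_apply] at h
  rw [Finsupp.mem_support_iff]
  intro h0
  rw [h0, smul_zero] at h
  exact h rfl

theorem JA_real_smul (c : ℝ) (z : X0 𝕜) : c • z = (c : 𝕜) • z := by
  ext l
  simp [RCLike.real_smul_eq_coe_mul]

theorem JA_zero {Z : Submodule 𝕜 (X0 𝕜)} (hZ : Far Z) (n N : ℕ) :
    ∃ (z : X0 𝕜) (v : V) (lo hi : ℕ), JA_P Z n 0 z v lo hi ∧ N < lo := by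
  obtain ⟨z0, hz0, hne, hsupp⟩ := hZ N
  have hpos : 0 < nor z0 := lt_of_le_of_ne (nor_nonneg z0) fun h => hne (eq_zero_of_nor h.symm)
  set hi := max (N + 1) (z0.support.sup id) with hhi
  have hz0b : ∀ l ∈ z0.support, N + 1 ≤ l ∧ l ≤ hi := fun l hl =>
    ⟨hsupp l hl, (Finset.le_sup (f := id) hl).trans (le_max_right _ _)⟩
  set z1 : X0 𝕜 := (((nor z0)⁻¹ : ℝ) : 𝕜) • z0 with hz1
  have hz1n : nor z1 = 1 := by
    rw [hz1, nor_smul, RCLike.norm_ofReal, abs_of_pos (inv_pos.2 hpos), inv_mul_cancel₀ hpos.ne']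
  have hz1b : ∀ l ∈ z1.support, N + 1 ≤ l ∧ l ≤ hi := fun l hl => hz0b l (JA_support_smul _ _ hl)
  obtain ⟨u, hu, hu1, hub, hu2⟩ := exists_norming (x := z1) (J := Set.Icc (N + 1) hi)
    Set.ordConnected_Icc (fun l hl => hz1b l hl) (c := 1 / 2) (by rw [hz1n]; norm_num)
  set w : 𝕜 := Phi u z1 with hw
  have hw0 : w ≠ 0 := by
    intro h
    rw [h, norm_zero] at hu2
    norm_num at hu2
  have hwn : (‖w‖ : 𝕜) ≠ 0 := by
    rw [Ne, RCLike.ofReal_eq_zero, norm_eq_zero]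
    exact hw0
  refine ⟨((‖w‖ : 𝕜) / w) • z1, u, N + 1, hi, ⟨?_, le_max_left _ _, ?_, ?_, ?_, hu1, ?_, ‖w‖, ?_, ?_⟩,
    Nat.lt_succ_self N⟩
  · exact Z.smul_mem _ (Z.smul_mem _ hz0)
  · exact fun l hl => hz1b l (JA_support_smul _ _ hl)
  · exact fun p hp => hub p hp
  · rw [nor_smul, hz1n, mul_one, norm_div, RCLike.norm_ofReal, abs_norm, div_self (norm_ne_zero_iff.2 hw0)]
  · rw [mul_zero]
    exact adm_of_C hu
  · rw [Phi_smul_right, ← hw, div_mul_cancel₀ _ hw0]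
  · rw [pow_zero]
    exact hu2.le

theorem JA_step {Z : Submodule 𝕜 (X0 𝕜)} (n D N0 : ℕ) {δ : ℝ} (hδ : 0 < δ)
    (hno : ¬ ∃ (M : ℕ) (z : ℕ → X0 𝕜) (lo hi : ℕ → ℕ) (b : ℕ → ℚ), 0 < M ∧ Ivals M lo hi ∧ N0 < lo 0 ∧
      (g 0) ^ D ≤ g (lo 0) ∧ (∀ k, k + 1 < M → (g (hi k + 1)) ^ D ≤ g (lo (k + 1))) ∧
      (∀ k < M, z k ∈ Z ∧ nor (z k) = 1 ∧ ∀ l ∈ (z k).support, lo k ≤ l ∧ l ≤ hi k) ∧
      (∀ k < M, 0 < b k) ∧ ∑ k ∈ Finset.range M, (b k) ^ 2 = 1 ∧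
      (∀ B ⊆ Finset.range M, Kset n (B.image hi) → ∑ k ∈ B, (b k : ℝ) ^ 2 ≤ δ) ∧
      1 / 2 ≤ nor (∑ k ∈ Finset.range M, (b k : ℝ) • z k)) (t : ℕ)
    (ih : ∀ N, ∃ (z : X0 𝕜) (v : V) (lo hi : ℕ), JA_P Z n t z v lo hi ∧ N < lo) (N : ℕ) :
    ∃ (z : X0 𝕜) (v : V) (lo hi : ℕ), JA_P Z n (t + 1) z v lo hi ∧ N < lo := by
  have : Inhabited (X0 𝕜 × V × ℕ × ℕ) := ⟨(0, 0, 0, 0)⟩
  obtain ⟨M, x, c, hM, hc, hR, hN, hlt, hsum, hK1, hK2, hmass⟩ := averages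
    (T := X0 𝕜 × V × ℕ × ℕ) (fun x => x.2.2.1) (fun x => max x.2.2.1 x.2.2.2)
    (fun x => le_max_left _ _)
    (fun h _ x => JA_P Z n t x.1 x.2.1 x.2.2.1 x.2.2.2 ∧ (g 0) ^ D ≤ g x.2.2.1 ∧
      ∀ p ∈ h, (g (max p.1.2.2.1 p.1.2.2.2 + 1)) ^ D ≤ g x.2.2.1) (by
      intro h _ N' _
      obtain ⟨b, hb⟩ := exists_le_g ((g 0) ^ D +
        (h.map (fun p => (g (max p.1.2.2.1 p.1.2.2.2 + 1)) ^ D)).sum)
      obtain ⟨z, v, lo, hi, hP, hlo⟩ := ih (max N' b)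
      have hblo : g b ≤ g lo := g_mono (by omega)
      refine ⟨(z, v, lo, hi), ⟨hP, ?_, fun p hp => ?_⟩, ?_⟩
      · show (g 0) ^ D ≤ g lo
        omega
      rotate_left
      · show N' < lo
        omega
      have h1 : (g (max p.1.2.2.1 p.1.2.2.2 + 1)) ^ D ≤
          (h.map (fun p => (g (max p.1.2.2.1 p.1.2.2.2 + 1)) ^ D)).sum :=
        List.single_le_sum (fun _ _ => Nat.zero_le _) _ (List.mem_map.2 ⟨p, hp, rfl⟩)
      show (g (max p.1.2.2.1 p.1.2.2.2 + 1)) ^ D ≤ g lo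
      omega) n δ hδ (max N N0)
  have hP : ∀ k < M, JA_P Z n t (x k).1 (x k).2.1 (x k).2.2.1 (x k).2.2.2 := fun k hk => (hR k hk).1
  set z : ℕ → X0 𝕜 := fun k => (x k).1 with hz
  set v : ℕ → V := fun k => (x k).2.1 with hv
  set lo : ℕ → ℕ := fun k => (x k).2.2.1 with hlo
  set hi : ℕ → ℕ := fun k => max (x k).2.2.1 (x k).2.2.2 with hhi
  have hhi' : ∀ k < M, hi k = (x k).2.2.2 := fun k hk => max_eq_right (hP k hk).2.1
  have hI : Ivals M lo hi := ⟨fun k _ => le_max_left _ _, hlt⟩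
  have hzb : ∀ k < M, ∀ l ∈ (z k).support, lo k ≤ l ∧ l ≤ hi k := by
    intro k hk l hl
    rw [hhi' k hk]
    exact (hP k hk).2.2.1 l hl
  have hvb : ∀ k < M, ∀ p ∈ (v k).support, lo k ≤ p.1 ∧ p.1 ≤ hi k := by
    intro k hk p hp
    rw [hhi' k hk]
    exact (hP k hk).2.2.2.1 p hp
  have hnor : nor (∑ k ∈ Finset.range M, (c k : ℝ) • z k) < 1 / 2 := by
    by_contra hcon
    push Not at hcon
    refine hno ⟨M, z, lo, hi, c, hM, hI, by simp only [hlo]; omega, (hR 0 hM).2.1, ?_, ?_, hc, hsum, ?_, hcon⟩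
    · intro k hk
      exact (hR (k + 1) hk).2.2 (x k, c k) (List.mem_map.2 ⟨k, List.mem_range.2 (Nat.lt_succ_self k), rfl⟩)
    · intro k hk
      exact ⟨(hP k hk).1, (hP k hk).2.2.2.2.1, hzb k hk⟩
    · exact hmass
  set y : X0 𝕜 := ∑ k ∈ Finset.range M, (c k : ℝ) • z k with hy
  set v' : V := ∑ k ∈ Finset.range M, c k • v k with hv'
  choose! ρ hρ1 hρ2 using fun k (hk : k < M) => (hP k hk).2.2.2.2.2.2.2
  have hsumR : ∑ k ∈ Finset.range M, (c k : ℝ) ^ 2 = 1 := by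
    exact_mod_cast congrArg (fun q : ℚ => (q : ℝ)) hsum
  -- the norm of `v'`
  have hdisj : ∀ i ∈ Finset.range M, ∀ j ∈ Finset.range M, i ≠ j →
      Disjoint (Set.Icc (lo i) (hi i)) (Set.Icc (lo j) (hi j)) := by
    intro i hi1 j hj1 hij
    rw [Finset.mem_range] at hi1 hj1
    rw [Set.disjoint_left]
    rintro a ⟨a1, a2⟩ ⟨a3, a4⟩
    rcases lt_or_gt_of_ne hij with h | h
    · have := JA_lt hI h hj1
      omega
    · have := JA_lt hI h hi1
      omega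
  have hnv : nrm v' ≤ 1 := by
    have h1 : nrm v' ^ 2 = ∑ k ∈ Finset.range M, nrm (c k • v k) ^ 2 := by
      refine nrm_sum_sq (Finset.range M) (fun k => Set.Icc (lo k) (hi k)) hdisj _ ?_
      intro k hk p hp
      rw [Finset.mem_range] at hk
      exact hvb k hk p (Finsupp.support_smul hp)
    have h2 : nrm v' ^ 2 ≤ 1 := by
      rw [h1, ← hsumR]
      refine Finset.sum_le_sum fun k hk => ?_
      rw [Finset.mem_range] at hk
      rw [nrm_smul, mul_pow, sq_abs]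
      have h3 := (hP k hk).2.2.2.2.2.1
      have h4 := nrm_nonneg (v k)
      have h5 : nrm (v k) ^ 2 ≤ 1 := by
        have : nrm (v k) ≤ 1 := h3
        nlinarith
      nlinarith [sq_nonneg (c k : ℝ)]
    nlinarith [nrm_nonneg v']
  -- the value
  have hval : Phi v' y = ((∑ k ∈ Finset.range M, (c k : ℝ) ^ 2 * ρ k : ℝ) : 𝕜) := by
    rw [hv', Phi_sum_left, RCLike.ofReal_sum]
    refine Finset.sum_congr rfl fun k hk => ?_
    rw [Phi_smul_left, hy, Phi_sum_right, Finset.sum_eq_single k]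
    · rw [Phi_smul_real]
      have hk' := Finset.mem_range.1 hk
      have : Phi (v k) (z k) = (ρ k : 𝕜) := hρ1 k hk'
      rw [this, RCLike.ofReal_mul, RCLike.ofReal_pow]
      ring
    · intro j hj hjk
      rw [Phi_smul_real]
      have : Phi (v k) (z j) = 0 := by
        refine Phi_eq_zero_of_disj _ _ fun p hp hp' => ?_
        have h1 := hvb k (Finset.mem_range.1 hk) p hp
        have h2 := hzb j (Finset.mem_range.1 hj) p.1 hp'
        exact Set.disjoint_left.1 (hdisj k hk j hj (Ne.symm hjk)) ⟨h1.1, h1.2⟩ ⟨h2.1, h2.2⟩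
      rw [this, mul_zero]
    · intro h
      exact absurd hk h
  set ρ' : ℝ := ∑ k ∈ Finset.range M, (c k : ℝ) ^ 2 * ρ k with hρ'
  have hρge : 2 ^ t / 2 ≤ ρ' := by
    calc (2 : ℝ) ^ t / 2 = ∑ k ∈ Finset.range M, (c k : ℝ) ^ 2 * (2 ^ t / 2) := by
          rw [← Finset.sum_mul, hsumR, one_mul]
      _ ≤ ρ' := by
          refine Finset.sum_le_sum fun k hk => ?_
          exact mul_le_mul_of_nonneg_left (hρ2 k (Finset.mem_range.1 hk)) (sq_nonneg _)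
  have hρpos : 0 < ρ' := lt_of_lt_of_le (by positivity) hρge
  have hy0 : y ≠ 0 := by
    intro h
    rw [h, Phi_zero_right] at hval
    have := (RCLike.ofReal_eq_zero (K := 𝕜)).1 hval.symm
    linarith
  have hynpos : 0 < nor y := lt_of_le_of_ne (nor_nonneg y) fun h => hy0 (eq_zero_of_nor h.symm)
  have hyZ : y ∈ Z := by
    refine Z.sum_mem fun k hk => ?_
    rw [JA_real_smul]
    exact Z.smul_mem _ (hP k (Finset.mem_range.1 hk)).1
  have hlo0 : ∀ k < M, lo 0 ≤ lo k := by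
    intro k hk
    rcases Nat.eq_zero_or_pos k with h | h
    · rw [h]
    · have h1 := JA_lt hI h hk
      have h2 := hI.1 0 hM
      omega
  have hhiM : ∀ k < M, hi k ≤ hi (M - 1) := by
    intro k hk
    rcases Nat.lt_or_ge k (M - 1) with h | h
    · have h1 := JA_lt hI h (by omega)
      have h2 := hI.1 (M - 1) (by omega)
      omega
    · have : k = M - 1 := by omega
      rw [this]
  have hysupp : ∀ l ∈ y.support, lo 0 ≤ l ∧ l ≤ hi (M - 1) := by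
    intro l hl
    have h1 : ∃ k ∈ Finset.range M, l ∈ (z k).support := by
      by_contra hcon
      push Not at hcon
      rw [Finsupp.mem_support_iff] at hl
      apply hl
      rw [hy, Finsupp.finsetSum_apply]
      refine Finset.sum_eq_zero fun k hk => ?_
      have := hcon k hk
      rw [Finsupp.mem_support_iff, not_not] at this
      rw [Finsupp.smul_apply, this, smul_zero]
    obtain ⟨k, hk, hk2⟩ := h1
    have hk' := Finset.mem_range.1 hk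
    have h2 := hzb k hk' l hk2
    exact ⟨(hlo0 k hk').trans h2.1, h2.2.trans (hhiM k hk')⟩
  have hv'supp : ∀ p ∈ v'.support, lo 0 ≤ p.1 ∧ p.1 ≤ hi (M - 1) := by
    intro p hp
    have h1 : ∃ k ∈ Finset.range M, p ∈ (v k).support := by
      by_contra hcon
      push Not at hcon
      rw [Finsupp.mem_support_iff] at hp
      apply hp
      rw [hv', Finsupp.finsetSum_apply]
      refine Finset.sum_eq_zero fun k hk => ?_
      have := hcon k hk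
      rw [Finsupp.mem_support_iff, not_not] at this
      rw [Finsupp.smul_apply, this, smul_zero]
    obtain ⟨k, hk, hk2⟩ := h1
    have hk' := Finset.mem_range.1 hk
    have h2 := hvb k hk' p hk2
    exact ⟨(hlo0 k hk').trans h2.1, h2.2.trans (hhiM k hk')⟩
  refine ⟨(((nor y)⁻¹ : ℝ) : 𝕜) • y, v', lo 0, hi (M - 1), ⟨Z.smul_mem _ hyZ, ?_, ?_, hv'supp, ?_, hnv, ?_,
    (nor y)⁻¹ * ρ', ?_, ?_⟩, by simp only [hlo]; omega⟩
  · exact (hI.1 0 hM).trans (hhiM 0 hM)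
  · exact fun l hl => hysupp l (JA_support_smul _ _ hl)
  · rw [nor_smul, RCLike.norm_ofReal, abs_of_pos (inv_pos.2 hynpos), inv_mul_cancel₀ hynpos.ne']
  · have h1 := adm_sum hI v c hvb (fun k hk => (hP k hk).2.2.2.2.2.2.1) hK2
    have h2 : (n + 1) + (n + 1) * t = (n + 1) * (t + 1) := by ring
    rw [h2] at h1
    exact h1
  · rw [Phi_smul_right, hval]
    push_cast
    ring
  · have h1 : 2 ≤ (nor y)⁻¹ := by
      rw [le_inv_comm₀ (by norm_num) hynpos]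
      linarith
    calc (2 : ℝ) ^ (t + 1) / 2 = 2 * (2 ^ t / 2) := by ring
      _ ≤ (nor y)⁻¹ * ρ' := mul_le_mul h1 hρge (by positivity) (by positivity)

theorem james {Z : Submodule 𝕜 (X0 𝕜)} (hZ : Far Z) (n D N : ℕ) {δ : ℝ} (hδ : 0 < δ) :
    ∃ (M : ℕ) (z : ℕ → X0 𝕜) (lo hi : ℕ → ℕ) (b : ℕ → ℚ), 0 < M ∧ Ivals M lo hi ∧ N < lo 0 ∧
      (g 0) ^ D ≤ g (lo 0) ∧ (∀ k, k + 1 < M → (g (hi k + 1)) ^ D ≤ g (lo (k + 1))) ∧
      (∀ k < M, z k ∈ Z ∧ nor (z k) = 1 ∧ ∀ l ∈ (z k).support, lo k ≤ l ∧ l ≤ hi k) ∧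
      (∀ k < M, 0 < b k) ∧ ∑ k ∈ Finset.range M, (b k) ^ 2 = 1 ∧
      (∀ B ⊆ Finset.range M, Kset n (B.image hi) → ∑ k ∈ B, (b k : ℝ) ^ 2 ≤ δ) ∧
      1 / 2 ≤ nor (∑ k ∈ Finset.range M, (b k : ℝ) • z k) := by
  by_contra hno
  have hP : ∀ t N, ∃ (z : X0 𝕜) (v : V) (lo hi : ℕ), JA_P Z n t z v lo hi ∧ N < lo := by
    intro t
    induction t with
    | zero => exact fun N => JA_zero hZ n N
    | succ t ih => exact fun N => JA_step n D _ hδ hno t ih N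
  obtain ⟨j, hj, hj2, hjn⟩ := par4 n
  obtain ⟨z, v, lo, hi, ⟨h1, h2, h3, h4, h5, h6, h7, ρ, h8, h9⟩, -⟩ := hP (2 ^ (j + 1) + 2) 0
  have hC : C (pre j v) := adm_even hj hj2 hjn h7
  have h10 := abs_Phi_le_nor hC z
  rw [nrm_pre, h5, mul_one, norm_Phi_pre, h8, RCLike.norm_ofReal] at h10
  have hmj : (2 : ℝ) ^ (2 ^ (j + 1) + 2) = 4 * m j := by
    rw [pow_add, m]
    push_cast
    ring
  rw [hmj] at h9
  have hmpos := m_pos j
  have h11 : 2 ≤ (m j : ℝ)⁻¹ * |ρ| := by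
    rw [inv_mul_eq_div, le_div_iff₀ hmpos]
    linarith [le_abs_self ρ]
  linarith

end H94.WH
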