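import Pool.Agent.H94.WH.NO
import Pool.Agent.H94.WH.AV
import Pool.Agent.H94.WH.GF

/-!
# MODULE JA0: admissible sums

`adm n v`: `v` is a sum of elements of the cone over the cells of a set of `K_n`.
`adm_sum` (concatenation): `v = ∑_{k<M} b_k • v_k`, `v_k` supported in `[lo k, hi k]`, `adm n v_k`, `{lo k} ∈ K_{n'}` ⟹ `adm (n'+n) v`:
take `A_k ⊆ [lo k, hi k]` (replace `A_k` by the image under `max (lo k)` and drop the elements `> hi k`; the conditions are preserved), `A = ⋃ A_k` (`Kset.comp` over the set `{lo k}`: for `a = lo k` the set `A_k`; `lo` is injective on `k < M`);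
for `a ∈ A_k`, `res (cell A a) v = b_k • res (cell A_k a) v_k` (the next element of `A` after `a` is in `A_k` or `> hi k`, and `v_{k+1}` vanishes before the first element of `A_{k+1}`), in `C` by `C.smul`.
`adm_even`: constructor `even` and `Kset.mono`.
-/

set_option autoImplicit false

namespace H94.WH

open Finset

/-- sum of elements of the cone over the cells of a member of `K_n` -/
def adm (n : ℕ) (v : V) : Prop := ∃ A, Kset n A ∧ (∀ p ∈ v.support, ∃ a ∈ A, a ≤ p.1) ∧
  ∀ a ∈ A, C (res (cell A a) v)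

private theorem JA0_lt {M : ℕ} {lo hi : ℕ → ℕ} (hI : Ivals M lo hi) {j k : ℕ} (hjk : j < k)
    (hk : k < M) : hi j < lo k := by
  obtain ⟨h1, h2⟩ := hI
  induction k, hjk using Nat.le_induction with
  | base => exact h2 j hk
  | succ k hk' ih =>
    have h3 := ih (by omega)
    have h4 := h1 k (by omega)
    have h5 := h2 k hk
    omega

/-- normalised cells -/
private theorem JA0_norm {n l h : ℕ} {v : V} (hv : ∀ p ∈ v.support, l ≤ p.1 ∧ p.1 ≤ h)
    (ha : adm n v) : ∃ A, Kset n A ∧ (∀ a ∈ A, l ≤ a ∧ a ≤ h) ∧ (∀ p ∈ v.support, ∃ a ∈ A, a ≤ p.1) ∧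
      ∀ a ∈ A, C (res (cell A a) v) := by
  obtain ⟨A', hK, hs, hC⟩ := ha
  refine ⟨(A'.image (fun a => max l a)).filter (· ≤ h), ?_, ?_, ?_, ?_⟩
  · exact (Kset.image hK _ fun a _ => le_max_right _ _).sub (Finset.filter_subset _ _)
  · intro a ha
    obtain ⟨h1, h2⟩ := Finset.mem_filter.1 ha
    obtain ⟨a', _, rfl⟩ := Finset.mem_image.1 h1
    exact ⟨le_max_left _ _, h2⟩
  · intro p hp
    obtain ⟨a', ha', hle⟩ := hs p hp
    obtain ⟨h1, h2⟩ := hv p hp
    have h3 : max l a' ≤ p.1 := max_le h1 hle
    exact ⟨max l a', Finset.mem_filter.2 ⟨Finset.mem_image_of_mem _ ha', h3.trans h2⟩, h3⟩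
  · intro a ha
    obtain ⟨h1, h2⟩ := Finset.mem_filter.1 ha
    obtain ⟨a', ha', ha2⟩ := Finset.mem_image.1 h1
    have hla : l ≤ a := by rw [← ha2]; exact le_max_left _ _
    have haa : a' ≤ a := by rw [← ha2]; exact le_max_right _ _
    have hne : (A'.filter (· ≤ a)).Nonempty := ⟨a', Finset.mem_filter.2 ⟨ha', haa⟩⟩
    obtain ⟨as, has, hmax⟩ := Finset.exists_max_image (A'.filter (· ≤ a)) id hne
    obtain ⟨has1, has2⟩ := Finset.mem_filter.1 has
    have hmax' : ∀ x ∈ A', as < x → a < x := by
      intro x hx hlt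
      by_contra hcon
      push Not at hcon
      have := hmax x (Finset.mem_filter.2 ⟨hx, hcon⟩)
      simp only [id] at this
      omega
    have hcase : a = as ∨ a = l := by
      rcases le_total l a' with h3 | h3
      · left
        rw [max_eq_right h3] at ha2
        have := hmax a' (Finset.mem_filter.2 ⟨ha', haa⟩)
        simp only [id] at this
        omega
      · right
        rw [max_eq_left h3] at ha2
        exact ha2.symm
    have hres : res (cell ((A'.image (fun a => max l a)).filter (· ≤ h)) a) v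
        = res (cell A' as) v := by
      apply res_congr
      intro p hp
      obtain ⟨h3, h4⟩ := hv p hp
      constructor
      · rintro ⟨h5, h6⟩
        refine ⟨by omega, fun x hx hlt => ?_⟩
        have h7 := hmax' x hx hlt
        rcases le_or_gt x h with h8 | h8
        · apply h6 x _ h7
          refine Finset.mem_filter.2 ⟨Finset.mem_image.2 ⟨x, hx, ?_⟩, h8⟩
          exact max_eq_right (by omega)
        · omega
      · rintro ⟨h5, h6⟩
        refine ⟨?_, fun x hx hlt => ?_⟩
        · rcases hcase with h7 | h7 <;> omega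
        · obtain ⟨h7, _⟩ := Finset.mem_filter.1 hx
          obtain ⟨y, hy, hyx⟩ := Finset.mem_image.1 h7
          have hxy : x = y := by
            rcases le_total l y with h8 | h8
            · rw [max_eq_right h8] at hyx; exact hyx.symm
            · rw [max_eq_left h8] at hyx; omega
          subst hxy
          exact h6 x hy (by omega)
    rw [hres]
    exact hC as has1

theorem adm_sum {n n' M : ℕ} {lo hi : ℕ → ℕ} (hI : Ivals M lo hi) (v : ℕ → V) (b : ℕ → ℚ)
    (hv : ∀ k < M, ∀ p ∈ (v k).support, lo k ≤ p.1 ∧ p.1 ≤ hi k) (ha : ∀ k < M, adm n (v k))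
    (hK : Kset n' ((Finset.range M).image lo)) : adm (n' + n) (∑ k ∈ Finset.range M, b k • v k) := by
  have hex : ∀ k, ∃ A, k < M → Kset n A ∧ (∀ a ∈ A, lo k ≤ a ∧ a ≤ hi k) ∧
      (∀ p ∈ (v k).support, ∃ a ∈ A, a ≤ p.1) ∧ ∀ a ∈ A, C (res (cell A a) (v k)) := by
    intro k
    by_cases hk : k < M
    · obtain ⟨A, hA⟩ := JA0_norm (hv k hk) (ha k hk)
      exact ⟨A, fun _ => hA⟩
    · exact ⟨∅, fun h => absurd h hk⟩
  choose A hA using hex
  have hinj : Set.InjOn lo (Set.Iio M) := by
    intro j hj k hk hjk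
    by_contra hne
    rcases lt_or_gt_of_ne hne with h | h
    · have h1 := JA0_lt hI h hk
      have h2 := hI.1 j hj
      omega
    · have h1 := JA0_lt hI h hj
      have h2 := hI.1 k hk
      omega
  have hinv : ∀ k < M, Function.invFunOn lo (Set.Iio M) (lo k) = k := fun k hk =>
    hinj.leftInvOn_invFunOn hk
  have hU : ((Finset.range M).image lo).biUnion (fun a => A (Function.invFunOn lo (Set.Iio M) a))
      = (Finset.range M).biUnion A := by
    rw [Finset.image_biUnion]
    refine Finset.biUnion_congr rfl fun k hk => ?_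
    rw [hinv k (Finset.mem_range.1 hk)]
  set AA := (Finset.range M).biUnion A with hAA
  have hmem : ∀ {a : ℕ}, a ∈ AA ↔ ∃ k < M, a ∈ A k := by
    intro a
    rw [hAA, Finset.mem_biUnion]
    simp only [Finset.mem_range]
  refine ⟨AA, ?_, ?_, ?_⟩
  · rw [← hU]
    refine Kset.comp hK _ ?_ ?_
    · intro a ha
      obtain ⟨k, hk, rfl⟩ := Finset.mem_image.1 ha
      rw [hinv k (Finset.mem_range.1 hk)]
      exact (hA k (Finset.mem_range.1 hk)).1
    · intro a ha x hx
      obtain ⟨k, hk, rfl⟩ := Finset.mem_image.1 ha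
      rw [hinv k (Finset.mem_range.1 hk)] at hx
      exact ((hA k (Finset.mem_range.1 hk)).2.1 x hx).1
  · intro p hp
    by_contra hcon
    push Not at hcon
    rw [Finsupp.mem_support_iff, Finsupp.finsetSum_apply] at hp
    apply hp
    refine Finset.sum_eq_zero fun k hk => ?_
    by_contra h0
    have hk' := Finset.mem_range.1 hk
    have hps : p ∈ (v k).support := by
      rw [Finsupp.mem_support_iff]
      intro h1
      apply h0
      rw [Finsupp.smul_apply, h1, smul_zero]
    obtain ⟨a, ha, hle⟩ := (hA k hk').2.2.1 p hps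
    have := hcon a (hmem.2 ⟨k, hk', ha⟩)
    omega
  · intro a haA
    obtain ⟨k, hk, hak⟩ := hmem.1 haA
    obtain ⟨hk1, hk2, hk3, hk4⟩ := hA k hk
    obtain ⟨hlo, hhi⟩ := hk2 a hak
    have hzero : ∀ j ∈ Finset.range M, j ≠ k → res (cell AA a) (b j • v j) = 0 := by
      intro j hj hne
      have hj' := Finset.mem_range.1 hj
      rw [res_smul]
      have : res (cell AA a) (v j) = 0 := by
        apply res_eq_zero
        intro p hp hcell
        obtain ⟨h1, h2⟩ := hv j hj' p hp
        rcases lt_or_gt_of_ne hne with h | h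
        · have h3 := JA0_lt hI h hk
          have h4 := hcell.1
          omega
        · have h3 := JA0_lt hI h hj'
          obtain ⟨c, hc, hle⟩ := (hA j hj').2.2.1 p hp
          have h4 := ((hA j hj').2.1 c hc).1
          have h5 := hcell.2 c (hmem.2 ⟨j, hj', hc⟩) (by omega)
          omega
      rw [this, smul_zero]
    rw [res_sum, Finset.sum_eq_single_of_mem k (Finset.mem_range.2 hk) hzero, res_smul]
    apply C.smul
    have hcongr : res (cell AA a) (v k) = res (cell (A k) a) (v k) := by
      apply res_congr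
      intro p hp
      obtain ⟨h1, h2⟩ := hv k hk p hp
      constructor
      · rintro ⟨h3, h4⟩
        exact ⟨h3, fun x hx hlt => h4 x (hmem.2 ⟨k, hk, hx⟩) hlt⟩
      · rintro ⟨h3, h4⟩
        refine ⟨h3, fun x hx hlt => ?_⟩
        obtain ⟨j, hj, hxj⟩ := hmem.1 hx
        obtain ⟨h5, h6⟩ := (hA j hj).2.1 x hxj
        rcases lt_trichotomy j k with h | h | h
        · have := JA0_lt hI h hk
          omega
        · subst h
          exact h4 x hxj hlt
        · have := JA0_lt hI h hj
          omega
    rw [hcongr]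
    exact hk4 a hak

theorem adm_even {n j : ℕ} (hj : 1 ≤ j) (hj2 : Even j) (hn : n ≤ nn j) {v : V} (h : adm n v) :
    C (pre j v) := by
  obtain ⟨A, hA, hs, hC⟩ := h
  exact C.even j hj hj2 v A (hA.mono hn) hs hC

theorem adm_of_C {v : V} (h : C v) : adm 0 v := by
  refine ⟨{0}, Kset.single 0 0, fun p _ => ⟨0, Finset.mem_singleton_self 0, Nat.zero_le _⟩, ?_⟩
  intro a ha
  rw [Finset.mem_singleton] at ha
  subst ha
  have : res (cell {0} 0) v = v := by
    apply res_eq_self
    intro p _
    refine ⟨Nat.zero_le _, fun x hx hlt => ?_⟩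
    rw [Finset.mem_singleton] at hx
    omega
  rw [this]
  exact h

end H94.WH
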