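import Pool.Agent.H94.WH.GC

/-!
# MODULE LD: the descent lemma (Lemma D, section 7)

Take `A0` from `G.cells` for `v, s`. For `k ∈ Ico α β`: `Phi (col {s} v) (x k) = (m s)⁻¹ Phi (comp s v) (x k)`, and it only depends on the restriction
of `v` to `[lo k, hi k]` (`Phi_res`).
Call `k` cut if some `a ∈ A0` has `lo k < a ∧ a ≤ hi k`. `Cut.image hi` is in `K_{nn s + d}` (`Kset.of_inj` with `ψ (hi k) = a`, the intervals are disjoint). Cut part:
`∑_{cut} |a_k| ‖Phi (res [lo k,hi k] (col {s} v)) (x k)‖ ≤ C1 ∑ |a_k| nrm (..) ≤ C1 * nrm v * l2 a Cut` (`G.col`, `G.res`, `sum_abs_mul_nrm_le`).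
Non-cut `k`: if no `a ∈ A0` is `≤ lo k` then `comp s v` vanishes on `[lo k, hi k]` (no contribution); otherwise let `a(k)` be the largest element of `A0` with `a(k) ≤ lo k`;
`[lo k, hi k] ⊆ cell A0 (a k)`. For `a ∈ A0` the set `I_a = {k ∈ Ico α β non-cut, a(k) = a}` is an interval `Ico (α_a) (β_a)` of indices (if `k < k' < k''`, `k, k'' ∈ I_a`, then no
point of `A0` is in `(lo k', hi k'']`..), disjoint for different `a`. Apply `hrec` to `v_a = res (cell A0 a) (comp s v) ∈ G d` and `Ico α_a β_a`: `B_a`.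
`∑_a (m s)⁻¹ nrm v_a (X l2 a I_a + Y l2 a B_a) ≤ (m s)⁻¹ nrm v (X l2 a (Ico α β) + Y l2 a (⋃ B_a))` (`sum_nrm_mul_l2_le`, `nrm_comp_le`).
`B = Cut ∪ ⋃ B_a`; `(⋃ B_a).image hi = A0.biUnion (fun a => (B_a).image hi) ∈ K_{(nn s + d) + c}` by `Kset.comp` (`hi k ≥ lo k ≥ a`), then `Kset.union`.
Suggested sub-lemma: the grouping lemma (purely combinatorial) in a separate theorem.
-/

set_option autoImplicit false

namespace H94.WH

open Finset

variable {𝕜 : Type} [RCLike 𝕜]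

theorem LD_lt {M : ℕ} {lo hi : ℕ → ℕ} (hI : Ivals M lo hi) :
    ∀ k' k, k < k' → k' < M → hi k < lo k' := by
  intro k'
  induction k' with
  | zero => intro k hk; omega
  | succ n ih =>
    intro k hk hM
    have h1 := hI.2 n hM
    rcases Nat.lt_succ_iff_lt_or_eq.1 hk with h | h
    · have h2 := ih k h (by omega)
      have h3 := hI.1 n (by omega)
      omega
    · subst h; exact h1

theorem LD_ico {M : ℕ} (I : Finset ℕ) (hM : ∀ k ∈ I, k < M)
    (hc : ∀ k ∈ I, ∀ k'' ∈ I, ∀ k', k ≤ k' → k' ≤ k'' → k' ∈ I) :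
    ∃ α β, β ≤ M ∧ I = Finset.Ico α β := by
  rcases I.eq_empty_or_nonempty with h | h
  · exact ⟨0, 0, by omega, by simp [h]⟩
  · refine ⟨I.min' h, I.max' h + 1, hM _ (I.max'_mem h), ?_⟩
    ext k
    rw [mem_Ico]
    constructor
    · intro hk
      exact ⟨I.min'_le k hk, Nat.lt_succ_of_le (I.le_max' k hk)⟩
    · rintro ⟨h1, h2⟩
      exact hc _ (I.min'_mem h) _ (I.max'_mem h) k h1 (Nat.lt_succ_iff.1 h2)

open Classical in
/-- the indices in `[α, β)` whose interval is in the cell of `a` -/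
noncomputable def LD_I (lo hi : ℕ → ℕ) (A : Finset ℕ) (α β a : ℕ) : Finset ℕ :=
  (Finset.Ico α β).filter (fun k => lo k ∈ cell A a ∧ hi k ∈ cell A a)

theorem LD_mem_I {lo hi : ℕ → ℕ} {A : Finset ℕ} {α β a k : ℕ} : k ∈ LD_I lo hi A α β a ↔
    k ∈ Finset.Ico α β ∧ lo k ∈ cell A a ∧ hi k ∈ cell A a := by
  classical
  unfold LD_I
  rw [mem_filter]

theorem LD_I_ico {M : ℕ} {lo hi : ℕ → ℕ} (hI : Ivals M lo hi) (A : Finset ℕ) {α β : ℕ} (hβ : β ≤ M) (a : ℕ) :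
    ∃ α' β', β' ≤ M ∧ LD_I lo hi A α β a = Finset.Ico α' β' := by
  apply LD_ico
  · intro k hk
    have := (mem_Ico.1 (LD_mem_I.1 hk).1).2
    omega
  · intro k hk k'' hk'' k' h1 h2
    obtain ⟨hk1, hk2, hk3⟩ := LD_mem_I.1 hk
    obtain ⟨hm1, hm2, hm3⟩ := LD_mem_I.1 hk''
    rw [mem_Ico] at hk1 hm1
    rcases h1.eq_or_lt with rfl | h1
    · exact hk
    rcases h2.eq_or_lt with rfl | h2
    · exact hk''
    have h3 := LD_lt hI k' k h1 (by omega)
    have h4 := LD_lt hI k'' k' h2 (by omega)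
    have h5 := hI.1 k (by omega)
    have h6 := hI.1 k' (by omega)
    rw [LD_mem_I, mem_Ico]
    refine ⟨⟨by omega, by omega⟩, ?_, ?_⟩
    · exact (ordConnected_cell A a).out hk2 hm2 ⟨by omega, by omega⟩
    · exact (ordConnected_cell A a).out hk2 hm2 ⟨by omega, by omega⟩

theorem LD_I_disj {lo hi : ℕ → ℕ} {A : Finset ℕ} {α β a a' : ℕ} (ha : a ∈ A) (ha' : a' ∈ A) (h : a ≠ a') :
    Disjoint (LD_I lo hi A α β a) (LD_I lo hi A α β a') := by
  rw [Finset.disjoint_left]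
  intro k hk hk'
  exact Set.disjoint_left.1 (cell_disjoint ha ha' h) (LD_mem_I.1 hk).2.1 (LD_mem_I.1 hk').2.1

/-- an index outside all groups on whose interval `w` does not vanish is cut by `A` -/
theorem LD_cut {lo hi : ℕ → ℕ} {A : Finset ℕ} {α β k : ℕ} (hk : k ∈ Finset.Ico α β)
    (hU : k ∉ A.biUnion (LD_I lo hi A α β)) {w : V} (hw : ∀ p ∈ w.support, ∃ a ∈ A, a ≤ p.1)
    (hne : res (Set.Icc (lo k) (hi k)) w ≠ 0) : ∃ a ∈ A, lo k < a ∧ a ≤ hi k := by
  obtain ⟨p, hp⟩ : ∃ p, p ∈ (res (Set.Icc (lo k) (hi k)) w).support := by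
    by_contra hcon
    push Not at hcon
    apply hne
    rw [← Finsupp.support_eq_empty]
    exact Finset.eq_empty_of_forall_notMem hcon
  rw [mem_res] at hp
  obtain ⟨hp1, hp2, hp3⟩ := hp
  obtain ⟨a, ha, hpa⟩ := mem_some_cell (hw p hp1)
  by_cases h1 : lo k ∈ cell A a
  · by_cases h2 : hi k ∈ cell A a
    · exact absurd (mem_biUnion.2 ⟨a, ha, LD_mem_I.2 ⟨hk, h1, h2⟩⟩) hU
    · have h3 : ∃ a' ∈ A, a < a' ∧ a' ≤ hi k := by
        by_contra hcon
        push Not at hcon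
        exact h2 ⟨hpa.1.trans hp3, fun a' ha' haa' => hcon a' ha' haa'⟩
      obtain ⟨a', ha', haa', h4⟩ := h3
      exact ⟨a', ha', hp2.trans_lt (hpa.2 a' ha' haa'), h4⟩
  · refine ⟨a, ha, ?_, hpa.1.trans hp3⟩
    by_contra hcon
    exact h1 ⟨not_lt.1 hcon, fun a' ha' haa' => hp2.trans_lt (hpa.2 a' ha' haa')⟩

/-- the set of cut indices is small -/
theorem LD_cut_K {M : ℕ} {lo hi : ℕ → ℕ} (hI : Ivals M lo hi) {n : ℕ} {A : Finset ℕ} (hA : Kset n A)
    (B : Finset ℕ) (hM : ∀ k ∈ B, k < M) (hB : ∀ k ∈ B, ∃ a ∈ A, lo k < a ∧ a ≤ hi k) :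
    Kset n (B.image hi) := by
  have h1 : ∀ b ∈ B.image hi, ∃ a ∈ A, ∃ k ∈ B, hi k = b ∧ lo k < a ∧ a ≤ hi k := by
    intro b hb
    obtain ⟨k, hk, rfl⟩ := mem_image.1 hb
    obtain ⟨a, ha, h2, h3⟩ := hB k hk
    exact ⟨a, ha, k, hk, rfl, h2, h3⟩
  choose! ψ hψA κ hκB hκ using h1
  refine Kset.of_inj hA ψ (fun b hb => ⟨hψA b hb, ?_⟩) ?_
  · have := hκ b hb
    omega
  · intro b hb b' hb' hbb
    have h2 := hκ b hb
    have h3 := hκ b' hb'
    rw [← hbb] at h3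
    rcases lt_trichotomy (κ b) (κ b') with h | h | h
    · have := LD_lt hI _ _ h (hM _ (hκB b' hb'))
      omega
    · rw [← h2.1, ← h3.1, h]
    · have := LD_lt hI _ _ h (hM _ (hκB b hb))
      omega

theorem LD_J_disj {M : ℕ} {lo hi : ℕ → ℕ} (hI : Ivals M lo hi) {i j : ℕ} (hi' : i < M) (hj : j < M)
    (h : i ≠ j) : Disjoint (Set.Icc (lo i) (hi i)) (Set.Icc (lo j) (hi j)) := by
  rw [Set.disjoint_left]
  intro l hl hl'
  rw [Set.mem_Icc] at hl hl'
  rcases lt_or_gt_of_ne h with h1 | h1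
  · have := LD_lt hI _ _ h1 hj
    omega
  · have := LD_lt hI _ _ h1 hi'
    omega

theorem descend {M : ℕ} {lo hi : ℕ → ℕ} (hI : Ivals M lo hi) {x : ℕ → X0 𝕜} (a : ℕ → ℝ)
    (hx : ∀ k < M, ∀ l ∈ (x k).support, lo k ≤ l ∧ l ≤ hi k) {s : ℕ} (hs : 1 ≤ s) {d c : ℕ} {X Y C1 : ℝ}
    (hX : 0 ≤ X) (hY : 0 ≤ Y) (hC1 : 0 ≤ C1)
    (h1 : ∀ k < M, ∀ v, G d v → ‖Phi v (x k)‖ ≤ C1 * nrm v)
    (hrec : ∀ v, G d v → ∀ α β, β ≤ M → ∃ B ⊆ Finset.Ico α β, Kset c (B.image hi) ∧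
      ‖Phi v (∑ k ∈ Finset.Ico α β, a k • x k)‖ ≤ nrm v * (X * l2 a (Finset.Ico α β) + Y * l2 a B)) :
    ∀ v, G d v → ∀ α β, β ≤ M → ∃ B ⊆ Finset.Ico α β, Kset (nn s + d + c + 1) (B.image hi) ∧
      ‖Phi (col {s} v) (∑ k ∈ Finset.Ico α β, a k • x k)‖ ≤
        nrm v * (X / m s * l2 a (Finset.Ico α β) + (Y / m s + C1) * l2 a B) := by
  classical
  intro v hv α β hβ
  obtain ⟨A, hA, hcov, hcell⟩ := G.cells hv hs
  set w := comp s v with hw
  have hms : (0 : ℝ) < m s := m_pos s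
  set T := Finset.Ico α β with hT
  set U := A.biUnion (LD_I lo hi A α β) with hU
  have hTM : ∀ k ∈ T, k < M := by
    intro k hk
    have := (mem_Ico.1 hk).2
    omega
  have hUT : U ⊆ T := by
    intro k hk
    obtain ⟨b, _, hk2⟩ := mem_biUnion.1 hk
    exact (LD_mem_I.1 hk2).1
  -- the groups
  have hgroup : ∀ b ∈ A, ∃ B ⊆ LD_I lo hi A α β b, Kset c (B.image hi) ∧
      ‖Phi (col {s} v) (∑ k ∈ LD_I lo hi A α β b, a k • x k)‖ ≤
        (m s : ℝ)⁻¹ * (nrm (res (cell A b) w) * (X * l2 a (LD_I lo hi A α β b) + Y * l2 a B)) := by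
    intro b hb
    obtain ⟨α', β', hβ', hIco⟩ := LD_I_ico hI A hβ b
    obtain ⟨B, hB1, hB2, hB3⟩ := hrec (res (cell A b) w)
      (hcell (cell A b) (ordConnected_cell A b) (sep_cell hb)) α' β' hβ'
    rw [← hIco] at hB1 hB3
    refine ⟨B, hB1, hB2, ?_⟩
    rw [norm_Phi_col_single]
    apply mul_le_mul_of_nonneg_left _ (by positivity)
    refine le_trans (le_of_eq ?_) hB3
    congr 1
    symm
    apply Phi_res
    intro l hl
    have h2 := Finsupp.support_finsetSum hl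
    obtain ⟨k, hk, hl2⟩ := mem_biUnion.1 h2
    have h3 : l ∈ (x k).support := Finsupp.support_smul hl2
    obtain ⟨hk1, hk2, hk3⟩ := LD_mem_I.1 hk
    have h4 := hx k (hTM k hk1) l h3
    exact (ordConnected_cell A b).out hk2 hk3 h4
  choose! B hBI hBK hBn using hgroup
  -- the cut indices
  set Q := (T \ U).filter (fun k => res (Set.Icc (lo k) (hi k)) w ≠ 0) with hQ
  have hQT : Q ⊆ T := (filter_subset _ _).trans sdiff_subset
  have hQcut : ∀ k ∈ Q, ∃ b ∈ A, lo k < b ∧ b ≤ hi k := by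
    intro k hk
    rw [hQ, mem_filter, mem_sdiff] at hk
    exact LD_cut hk.1.1 hk.1.2 hcov hk.2
  have hQK : Kset (nn s + d) (Q.image hi) :=
    LD_cut_K hI hA Q (fun k hk => hTM k (hQT hk)) hQcut
  set R := A.biUnion B with hR
  have hRK : Kset (nn s + d + c) (R.image hi) := by
    have h2 : R.image hi = A.biUnion (fun b => (B b).image hi) := by
      rw [hR, Finset.biUnion_image]
    rw [h2]
    refine Kset.comp hA _ hBK ?_
    intro b hb l hl
    obtain ⟨k, hk, rfl⟩ := mem_image.1 hl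
    exact (LD_mem_I.1 (hBI b hb hk)).2.2.1
  have hRU : R ⊆ U := by
    intro k hk
    obtain ⟨b, hb, hk2⟩ := mem_biUnion.1 hk
    exact mem_biUnion.2 ⟨b, hb, hBI b hb hk2⟩
  refine ⟨Q ∪ R, union_subset hQT (hRU.trans hUT), ?_, ?_⟩
  · rw [image_union]
    exact Kset.union (Kset.mono (by omega) hQK) hRK
  -- the estimate
  have hsum : Phi (col {s} v) (∑ k ∈ T, a k • x k) =
      (∑ b ∈ A, Phi (col {s} v) (∑ k ∈ LD_I lo hi A α β b, a k • x k)) +
      ∑ k ∈ Q, ((a k : ℝ) : 𝕜) * Phi (col {s} v) (x k) := by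
    have h2 : Phi (col {s} v) (∑ k ∈ T, a k • x k) =
        ∑ k ∈ T, ((a k : ℝ) : 𝕜) * Phi (col {s} v) (x k) := by
      rw [Phi_sum_right]
      exact sum_congr rfl (fun k _ => Phi_smul_real _ _ _)
    have h3 : ∀ b, Phi (col {s} v) (∑ k ∈ LD_I lo hi A α β b, a k • x k) =
        ∑ k ∈ LD_I lo hi A α β b, ((a k : ℝ) : 𝕜) * Phi (col {s} v) (x k) := by
      intro b
      rw [Phi_sum_right]
      exact sum_congr rfl (fun k _ => Phi_smul_real _ _ _)
    rw [h2, sum_congr rfl (fun b _ => h3 b), ← sum_biUnion, ← sum_sdiff hUT, add_comm]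
    · congr 1
      symm
      apply sum_subset (filter_subset _ _)
      intro k hk hkQ
      have h4 : res (Set.Icc (lo k) (hi k)) w = 0 := by
        by_contra hcon
        exact hkQ (mem_filter.2 ⟨hk, hcon⟩)
      have h5 : Phi (comp s v) (x k) = 0 := by
        rw [← hw, ← Phi_res (J := Set.Icc (lo k) (hi k)) w (x k), h4, Phi_zero_left]
        intro l hl
        exact hx k (hTM k (mem_sdiff.1 hk).1) l hl
      rw [Phi_col_single, h5, mul_zero, mul_zero]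
    · intro b hb b' hb' hbb
      exact LD_I_disj hb hb' hbb
  rw [hsum]
  refine (norm_add_le _ _).trans ?_
  have hpart1 : ‖∑ b ∈ A, Phi (col {s} v) (∑ k ∈ LD_I lo hi A α β b, a k • x k)‖ ≤
      (m s : ℝ)⁻¹ * (X * (nrm v * l2 a T) + Y * (nrm v * l2 a (Q ∪ R))) := by
    refine (norm_sum_le _ _).trans ((sum_le_sum hBn).trans ?_)
    rw [← mul_sum]
    apply mul_le_mul_of_nonneg_left _ (by positivity)
    have h2 : ∑ b ∈ A, nrm (res (cell A b) w) * (X * l2 a (LD_I lo hi A α β b) + Y * l2 a (B b)) =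
        X * ∑ b ∈ A, nrm (res (cell A b) w) * l2 a (LD_I lo hi A α β b) +
        Y * ∑ b ∈ A, nrm (res (cell A b) w) * l2 a (B b) := by
      rw [mul_sum, mul_sum, ← sum_add_distrib]
      exact sum_congr rfl (fun b _ => by ring)
    rw [h2]
    have h3 : ∑ b ∈ A, nrm (res (cell A b) w) * l2 a (LD_I lo hi A α β b) ≤ nrm w * l2 a U :=
      sum_nrm_mul_l2_le A (cell A) (fun i hi' j hj hij => cell_disjoint hi' hj hij) w a _
        (fun i hi' j hj hij => LD_I_disj hi' hj hij)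
    have h4 : ∑ b ∈ A, nrm (res (cell A b) w) * l2 a (B b) ≤ nrm w * l2 a R :=
      sum_nrm_mul_l2_le A (cell A) (fun i hi' j hj hij => cell_disjoint hi' hj hij) w a _
        (fun i hi' j hj hij => Finset.disjoint_of_subset_left (hBI i hi')
          (Finset.disjoint_of_subset_right (hBI j hj) (LD_I_disj hi' hj hij)))
    have h5 : nrm w ≤ nrm v := nrm_comp_le s v
    have h6 : nrm w * l2 a U ≤ nrm v * l2 a T :=
      mul_le_mul h5 (l2_mono a hUT) (l2_nonneg _ _) (nrm_nonneg _)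
    have h7 : nrm w * l2 a R ≤ nrm v * l2 a (Q ∪ R) :=
      mul_le_mul h5 (l2_mono a subset_union_right) (l2_nonneg _ _) (nrm_nonneg _)
    exact add_le_add (mul_le_mul_of_nonneg_left (h3.trans h6) hX)
      (mul_le_mul_of_nonneg_left (h4.trans h7) hY)
  have hpart2 : ‖∑ k ∈ Q, ((a k : ℝ) : 𝕜) * Phi (col {s} v) (x k)‖ ≤ C1 * (nrm v * l2 a (Q ∪ R)) := by
    refine (norm_sum_le _ _).trans ?_
    have h2 : ∀ k ∈ Q, ‖((a k : ℝ) : 𝕜) * Phi (col {s} v) (x k)‖ ≤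
        C1 * (|a k| * nrm (res (Set.Icc (lo k) (hi k)) (col {s} v))) := by
      intro k hk
      have hkM := hTM k (hQT hk)
      rw [norm_mul, RCLike.norm_ofReal]
      have h3 := h1 k hkM (res (Set.Icc (lo k) (hi k)) (col {s} v)) ((hv.col _).res Set.ordConnected_Icc)
      rw [Phi_res (J := Set.Icc (lo k) (hi k)) _ _ (fun l hl => hx k hkM l hl)] at h3
      calc |a k| * ‖Phi (col {s} v) (x k)‖
          ≤ |a k| * (C1 * nrm (res (Set.Icc (lo k) (hi k)) (col {s} v))) :=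
            mul_le_mul_of_nonneg_left h3 (abs_nonneg _)
        _ = _ := by ring
    refine (sum_le_sum h2).trans ?_
    rw [← mul_sum]
    apply mul_le_mul_of_nonneg_left _ hC1
    refine (sum_abs_mul_nrm_le Q (fun k => Set.Icc (lo k) (hi k))
      (fun i hi' j hj hij => LD_J_disj hI (hTM i (hQT hi')) (hTM j (hQT hj)) hij) (col {s} v) a).trans ?_
    exact mul_le_mul (nrm_col_le _ _) (l2_mono a subset_union_left) (l2_nonneg _ _) (nrm_nonneg _)
  refine (add_le_add hpart1 hpart2).trans (le_of_eq ?_)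
  rw [div_eq_mul_inv, div_eq_mul_inv]
  ring

end H94.WH
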