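import Pool.Agent.H94.WH.NO
import Pool.Agent.H94.WH.LD
import Pool.Agent.H94.WH.GT

/-!
# MODULE LB0: term by term estimate for sparse normalised blocks (section 8, (*))

`termwise`: `v ∈ G_d`, `d ≤ D`, sparse normalised blocks `z_k`. Let `S` be as in `G.starts`, `n1 k = 0` for `k = 0` and `hi (k-1) + 1` otherwise; `T = {k ∈ Ico α β : S ∩ [n1 k, hi k + 1) ≠ ∅}`,
`T.image hi ∈ K_{2d}` (`Kset.of_inj`; the intervals `[n1 k, hi k + 1)` are disjoint). `k ∈ T`: `‖Phi (res [lo k,hi k] v) (z k)‖ ≤ 4^D nrm (..)` (`abs_Phi_le_nor_G`). `k ∉ T`: `res [lo k, hi k] v` is a sum of at most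
`(g (n1 k))^d ≤ g (lo k)` elements of `C` with positions `≥ lo k` (restrict the elements `u i`), so it is in `G 1`: `≤ 4 nrm (..)`. Then `sum_abs_mul_nrm_le`. (If `d = 0` or `0 < d ≤ D`, `(g n)^d ≤ (g n)^D`.)
-/

set_option autoImplicit false

namespace H94.WH

open Finset

variable {𝕜 : Type} [RCLike 𝕜]

/-- left end of the zone of the block `k` -/
private def LB0_n (hi : ℕ → ℕ) (k : ℕ) : ℕ := if k = 0 then 0 else hi (k - 1) + 1

private theorem LB0_succ {M : ℕ} {lo hi : ℕ → ℕ} (hI : Ivals M lo hi) :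
    ∀ j k, j < k → k < M → hi j < lo k := by
  intro j k hjk
  induction k, hjk using Nat.le_induction with
  | base => intro hk; exact hI.2 j hk
  | succ k hk ih =>
    intro hk2
    have h1 := ih (by omega)
    have h2 := hI.1 k (by omega)
    have h3 := hI.2 k hk2
    omega

private theorem LB0_zone {M : ℕ} {lo hi : ℕ → ℕ} (hI : Ivals M lo hi) {j k a : ℕ} (hj : j < M)
    (hk : k < M) (h1 : LB0_n hi j ≤ a) (h2 : a ≤ hi j) (h3 : LB0_n hi k ≤ a) (h4 : a ≤ hi k) :
    j = k := by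
  have key : ∀ x y, x < y → y < M → LB0_n hi y ≤ a → a ≤ hi x → False := by
    intro x y hxy hy h5 h6
    unfold LB0_n at h5
    rw [if_neg (by omega)] at h5
    rcases (show x = y - 1 ∨ x < y - 1 by omega) with h7 | h7
    · subst h7
      omega
    · have h8 := LB0_succ hI x (y - 1) h7 (by omega)
      have h9 := hI.1 (y - 1) (by omega)
      omega
  rcases lt_trichotomy j k with h | h | h
  · exact absurd (key j k h hk h3 h2) id
  · exact h
  · exact absurd (key k j h hj h1 h4) id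

private theorem LB0_G1 {M : ℕ} {lo hi : ℕ → ℕ} (hI : Ivals M lo hi)
    (D : ℕ) (h0 : (g 0) ^ D ≤ g (lo 0)) (hsp : ∀ k, k + 1 < M → (g (hi k + 1)) ^ D ≤ g (lo (k + 1)))
    {d : ℕ} (hd : d ≤ D) {v : V} {S : Finset ℕ}
    (hS : ∀ n1 n2 : ℕ, n1 ≤ n2 → (∀ a ∈ S, ¬ (n1 ≤ a ∧ a < n2)) →
      ∃ (N : ℕ) (u : Fin N → V), N ≤ (g n1) ^ d ∧ (∀ i, C (u i)) ∧
        H94.WH.res (Set.Ico n1 n2) v = ∑ i, u i)
    {k : ℕ} (hk : k < M) (hno : ∀ a ∈ S, ¬ (LB0_n hi k ≤ a ∧ a < hi k + 1)) :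
    G 1 (res (Set.Icc (lo k) (hi k)) v) := by
  have hn : LB0_n hi k ≤ lo k := by
    unfold LB0_n
    split_ifs with h
    · omega
    · have h1 := hI.2 (k - 1) (by omega)
      rw [Nat.sub_add_cancel (by omega)] at h1
      omega
  have hlh := hI.1 k hk
  obtain ⟨N, u, hN, hu, hsum⟩ := hS (LB0_n hi k) (hi k + 1) (by omega) hno
  have hg : (g (LB0_n hi k)) ^ d ≤ g (lo k) := by
    have hgp : 0 < g (LB0_n hi k) := by
      have := five_le_g (LB0_n hi k)
      omega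
    refine (Nat.pow_le_pow_right hgp hd).trans ?_
    unfold LB0_n
    split_ifs with h
    · subst h
      exact h0
    · have h1 := hsp (k - 1) (by omega)
      rw [Nat.sub_add_cancel (by omega)] at h1
      exact h1
  refine ⟨lo k, N, fun i => res (Set.Icc (lo k) (hi k)) (u i), hN.trans hg, ?_, ?_, ?_⟩
  · intro i
    exact (hu i).res Set.ordConnected_Icc
  · intro i p hp
    rw [mem_res] at hp
    exact hp.2.1
  · rw [← res_sum, ← hsum, res_res]
    congr 1
    ext x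
    simp only [Set.mem_inter_iff, Set.mem_Icc, Set.mem_Ico]
    omega

theorem termwise {M : ℕ} {lo hi : ℕ → ℕ} (hI : Ivals M lo hi) {z : ℕ → X0 𝕜} (b : ℕ → ℝ)
    (hz : ∀ k < M, ∀ l ∈ (z k).support, lo k ≤ l ∧ l ≤ hi k) (hz1 : ∀ k < M, nor (z k) ≤ 1)
    (D : ℕ) (h0 : (g 0) ^ D ≤ g (lo 0)) (hsp : ∀ k, k + 1 < M → (g (hi k + 1)) ^ D ≤ g (lo (k + 1)))
    {d : ℕ} (hd : d ≤ D) {v : V} (hv : G d v) {α β : ℕ} (hβ : β ≤ M) :
    ∃ T ⊆ Finset.Ico α β, Kset (2 * d) (T.image hi) ∧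
      ‖Phi v (∑ k ∈ Finset.Ico α β, b k • z k)‖ ≤
        nrm v * (4 * l2 b (Finset.Ico α β) + 4 ^ D * l2 b T) := by
  classical
  obtain ⟨S, hSK, hS⟩ := hv.starts
  set T := (Finset.Ico α β).filter (fun k => ∃ a ∈ S, LB0_n hi k ≤ a ∧ a ≤ hi k) with hT
  have hTM : ∀ k ∈ T, k < M := by
    intro k hk
    rw [hT, Finset.mem_filter, Finset.mem_Ico] at hk
    omega
  refine ⟨T, Finset.filter_subset _ _, ?_, ?_⟩
  · have hex : ∀ x ∈ T.image hi, ∃ a, a ∈ S ∧ a ≤ x ∧ ∃ k ∈ T, hi k = x ∧ LB0_n hi k ≤ a := by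
      intro x hx
      rw [Finset.mem_image] at hx
      obtain ⟨k, hk, rfl⟩ := hx
      have hk' := hk
      rw [hT, Finset.mem_filter] at hk'
      obtain ⟨_, a, ha, ha1, ha2⟩ := hk'
      exact ⟨a, ha, ha2, k, hk, rfl, ha1⟩
    choose! ψ hψ1 hψ2 hψ3 using hex
    refine Kset.of_inj hSK ψ (fun x hx => ⟨hψ1 x hx, hψ2 x hx⟩) ?_
    intro x hx y hy hxy
    obtain ⟨k, hk, hk1, hk2⟩ := hψ3 x hx
    obtain ⟨j, hj, hj1, hj2⟩ := hψ3 y hy
    have h1 := hψ2 x hx
    have h2 := hψ2 y hy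
    have h3 : k = j := LB0_zone hI (a := ψ x) (hTM k hk) (hTM j hj) hk2 (by omega) (by omega)
      (by omega)
    rw [← hk1, ← hj1, h3]
  · have hdisj : ∀ i ∈ Finset.Ico α β, ∀ j ∈ Finset.Ico α β, i ≠ j →
        Disjoint (Set.Icc (lo i) (hi i)) (Set.Icc (lo j) (hi j)) := by
      intro i hi' j hj' hij
      rw [Finset.mem_Ico] at hi' hj'
      rw [Set.disjoint_left]
      rintro x ⟨hx1, hx2⟩ ⟨hx3, hx4⟩
      rcases lt_or_gt_of_ne hij with h | h
      · have := LB0_succ hI i j h (by omega)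
        omega
      · have := LB0_succ hI j i h (by omega)
        omega
    have hterm : ∀ k ∈ Finset.Ico α β, ‖Phi v (b k • z k)‖ ≤
        4 * (|b k| * nrm (res (Set.Icc (lo k) (hi k)) v)) +
          (if k ∈ T then 4 ^ D * (|b k| * nrm (res (Set.Icc (lo k) (hi k)) v)) else 0) := by
      intro k hk
      have hk' := Finset.mem_Ico.1 hk
      have hkM : k < M := by omega
      have hnn := nrm_nonneg (res (Set.Icc (lo k) (hi k)) v)
      have hbn : 0 ≤ |b k| * nrm (res (Set.Icc (lo k) (hi k)) v) := mul_nonneg (abs_nonneg _) hnn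
      have hP : Phi v (z k) = Phi (res (Set.Icc (lo k) (hi k)) v) (z k) :=
        (Phi_res v (z k) (fun l hl => hz k hkM l hl)).symm
      rw [Phi_smul_real, norm_mul, RCLike.norm_ofReal, hP]
      by_cases hkT : k ∈ T
      · rw [if_pos hkT]
        have h1 := abs_Phi_le_nor_G (hv.res (J := Set.Icc (lo k) (hi k)) Set.ordConnected_Icc) (z k)
        have h2 : (4 : ℝ) ^ d ≤ 4 ^ D := pow_le_pow_right₀ (by norm_num) hd
        have h3 : ‖Phi (res (Set.Icc (lo k) (hi k)) v) (z k)‖ ≤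
            4 ^ D * nrm (res (Set.Icc (lo k) (hi k)) v) := by
          calc ‖Phi (res (Set.Icc (lo k) (hi k)) v) (z k)‖
              ≤ 4 ^ d * nrm (res (Set.Icc (lo k) (hi k)) v) * nor (z k) := h1
            _ ≤ 4 ^ D * nrm (res (Set.Icc (lo k) (hi k)) v) * 1 := by
                exact mul_le_mul (by gcongr) (hz1 k hkM) (nor_nonneg _) (by positivity)
            _ = _ := mul_one _
        calc |b k| * ‖Phi (res (Set.Icc (lo k) (hi k)) v) (z k)‖
            ≤ |b k| * (4 ^ D * nrm (res (Set.Icc (lo k) (hi k)) v)) := by gcongr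
          _ = 4 ^ D * (|b k| * nrm (res (Set.Icc (lo k) (hi k)) v)) := by ring
          _ ≤ _ := by linarith
      · rw [if_neg hkT, add_zero]
        have hG1 : G 1 (res (Set.Icc (lo k) (hi k)) v) := by
          refine LB0_G1 hI D h0 hsp hd hS hkM ?_
          rintro a ha ⟨h1, h2⟩
          apply hkT
          rw [hT, Finset.mem_filter]
          exact ⟨hk, a, ha, h1, by omega⟩
        have h1 := abs_Phi_le_nor_G hG1 (z k)
        have h3 : ‖Phi (res (Set.Icc (lo k) (hi k)) v) (z k)‖ ≤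
            4 * nrm (res (Set.Icc (lo k) (hi k)) v) := by
          calc ‖Phi (res (Set.Icc (lo k) (hi k)) v) (z k)‖
              ≤ 4 ^ 1 * nrm (res (Set.Icc (lo k) (hi k)) v) * nor (z k) := h1
            _ ≤ 4 ^ 1 * nrm (res (Set.Icc (lo k) (hi k)) v) * 1 := by
                gcongr
                exact hz1 k hkM
            _ = _ := by ring
        calc |b k| * ‖Phi (res (Set.Icc (lo k) (hi k)) v) (z k)‖
            ≤ |b k| * (4 * nrm (res (Set.Icc (lo k) (hi k)) v)) := by gcongr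
          _ = _ := by ring
    have hs1 := sum_abs_mul_nrm_le (Finset.Ico α β) (fun k => Set.Icc (lo k) (hi k)) hdisj v b
    have hs2 := sum_abs_mul_nrm_le T (fun k => Set.Icc (lo k) (hi k))
      (fun i hi' j hj' => hdisj i (Finset.filter_subset _ _ hi') j (Finset.filter_subset _ _ hj')) v b
    have hsT : ∑ k ∈ Finset.Ico α β,
        (if k ∈ T then 4 ^ D * (|b k| * nrm (res (Set.Icc (lo k) (hi k)) v)) else 0) =
        4 ^ D * ∑ k ∈ T, |b k| * nrm (res (Set.Icc (lo k) (hi k)) v) := by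
      rw [← Finset.sum_filter, Finset.mul_sum]
      congr 1
      ext k
      simp only [Finset.mem_filter]
      exact ⟨fun h => h.2, fun h => ⟨Finset.filter_subset _ _ h, h⟩⟩
    calc ‖Phi v (∑ k ∈ Finset.Ico α β, b k • z k)‖
        = ‖∑ k ∈ Finset.Ico α β, Phi v (b k • z k)‖ := by rw [Phi_sum_right]
      _ ≤ ∑ k ∈ Finset.Ico α β, ‖Phi v (b k • z k)‖ := norm_sum_le _ _
      _ ≤ ∑ k ∈ Finset.Ico α β, (4 * (|b k| * nrm (res (Set.Icc (lo k) (hi k)) v)) +
          (if k ∈ T then 4 ^ D * (|b k| * nrm (res (Set.Icc (lo k) (hi k)) v)) else 0)) :=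
          Finset.sum_le_sum hterm
      _ = 4 * ∑ k ∈ Finset.Ico α β, |b k| * nrm (res (Set.Icc (lo k) (hi k)) v) +
          4 ^ D * ∑ k ∈ T, |b k| * nrm (res (Set.Icc (lo k) (hi k)) v) := by
          rw [Finset.sum_add_distrib, hsT, ← Finset.mul_sum]
      _ ≤ 4 * (nrm v * l2 b (Finset.Ico α β)) + 4 ^ D * (nrm v * l2 b T) := by gcongr
      _ = _ := by ring

end H94.WH
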