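import Pool.Agent.H94.WH.JA
import Pool.Agent.H94.WH.LB0

/-!
# MODULE LB: base vectors (Lemma B, section 8)

`base`: apply `james` with `n = nn j + 3*D + 2` (or larger), `δ` so small that all estimates below hold. `y = ∑ b_k z_k`.
First property: `termwise` with `α = 0, β = M`: `≤ nrm v (4 + 4^D √δ) ≤ 5 nrm v`. Second: `descend` with `X = 4`, `Y = 4^D`, `C1 = 4^D`, `c = 2D` (Kset.mono from `2d`): `≤ nrm v (4/m_s + (4^D/m_s + 4^D) √δ) ≤ 5/m_s nrm v`
for `s < j` (`1/m_s ≥ 1/m_j`).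
-/

set_option autoImplicit false

namespace H94.WH

open Finset

variable {𝕜 : Type} [RCLike 𝕜]

/-- `(C, D, j)`-good vectors -/
def Good (Cc : ℝ) (D j : ℕ) (y : X0 𝕜) : Prop := ∀ d ≤ D, ∀ v, G d v →
  ‖Phi v y‖ ≤ Cc * nrm v ∧ ∀ s, 1 ≤ s → s < j → ‖Phi (col {s} v) y‖ ≤ Cc / m s * nrm v

theorem LB_nrm_nonneg (v : V) : 0 ≤ nrm v := Real.sqrt_nonneg _

theorem LB_m_pos (s : ℕ) : (0 : ℝ) < m s := by
  unfold m; positivity

theorem LB_m_le {s j : ℕ} (h : s ≤ j) : (m s : ℝ) ≤ m j := by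
  have : m s ≤ m j := by
    unfold m
    exact Nat.pow_le_pow_right (by norm_num) (Nat.pow_le_pow_right (by norm_num) (by omega))
  exact_mod_cast this

theorem LB_nn_le {s j : ℕ} (h : s ≤ j) : nn s ≤ nn j := by
  unfold nn
  exact Nat.pow_le_pow_right (by norm_num) (Nat.pow_le_pow_left (by omega) 2)

theorem LB_lo {M : ℕ} {lo hi : ℕ → ℕ} (hI : Ivals M lo hi) : ∀ k, k < M → lo 0 ≤ lo k := by
  intro k
  induction k with
  | zero => intro _; exact le_rfl
  | succ k ih =>
    intro hk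
    have h1 := ih (by omega)
    have h2 := hI.1 k (by omega)
    have h3 := hI.2 k hk
    omega

theorem base {Z : Submodule 𝕜 (X0 𝕜)} (hZ : Far Z) (D j N : ℕ) :
    ∃ y ∈ Z, Good 5 D j y ∧ 1 / 2 ≤ nor y ∧ ∀ l ∈ y.support, N < l := by
  set σ : ℝ := 1 / (4 ^ D * (1 + m j)) with hσ
  have hσ0 : 0 < σ := by
    have := LB_m_pos j
    positivity
  obtain ⟨M, z, lo, hi, b, hM, hI, hN, h0, hsp, hz, hb, hsum, hsmall, hnor⟩ :=
    james hZ (nn j + 3 * D + 2) D N (δ := σ ^ 2) (by positivity)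
  have hsupp : ∀ k < M, ∀ l ∈ (z k).support, lo k ≤ l ∧ l ≤ hi k := fun k hk => (hz k hk).2.2
  have hz1 : ∀ k < M, nor (z k) ≤ 1 := fun k hk => (hz k hk).2.1.le
  have hIco : Finset.Ico 0 M = Finset.range M := by
    rw [Finset.range_eq_Ico]
  have hl2M : l2 (fun k => (b k : ℝ)) (Finset.range M) = 1 := by
    unfold l2
    have : ∑ k ∈ Finset.range M, ((b k : ℝ)) ^ 2 = 1 := by exact_mod_cast hsum
    rw [this, Real.sqrt_one]
  have hl2B : ∀ B ⊆ Finset.range M, Kset (nn j + 3 * D + 2) (B.image hi) →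
      l2 (fun k => (b k : ℝ)) B ≤ σ := by
    intro B hB hK
    unfold l2
    rw [Real.sqrt_le_left hσ0.le]
    exact hsmall B hB hK
  have hmj := LB_m_pos j
  have hterm : ∀ d ≤ D, ∀ v, G d v → ∀ α β, β ≤ M → ∃ T ⊆ Finset.Ico α β,
      Kset (2 * d) (T.image hi) ∧ ‖Phi v (∑ k ∈ Finset.Ico α β, (b k : ℝ) • z k)‖ ≤
        nrm v * (4 * l2 (fun k => (b k : ℝ)) (Finset.Ico α β)
          + 4 ^ D * l2 (fun k => (b k : ℝ)) T) := by
    intro d hd v hv α β hβ
    exact termwise hI (fun k => (b k : ℝ)) hsupp hz1 D h0 hsp hd hv hβ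
  refine ⟨∑ k ∈ Finset.range M, (b k : ℝ) • z k, ?_, ?_, hnor, ?_⟩
  · apply Submodule.sum_mem
    intro k hk
    rw [RCLike.real_smul_eq_coe_smul (K := 𝕜)]
    exact Z.smul_mem _ (hz k (Finset.mem_range.1 hk)).1
  · intro d hd v hv
    constructor
    · obtain ⟨T, hT, hTK, hle⟩ := hterm d hd v hv 0 M le_rfl
      rw [hIco] at hT hle
      rw [hl2M] at hle
      have h1 := hl2B T hT (Kset.mono (by omega) hTK)
      refine hle.trans ?_
      rw [mul_comm (5 : ℝ)]
      apply mul_le_mul_of_nonneg_left _ (LB_nrm_nonneg v)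
      have h2 : (4 : ℝ) ^ D * l2 (fun k => (b k : ℝ)) T ≤ 4 ^ D * σ :=
        mul_le_mul_of_nonneg_left h1 (by positivity)
      have h3 : (4 : ℝ) ^ D * σ ≤ 1 := by
        rw [hσ, mul_one_div, div_le_one (by positivity)]
        have : (0 : ℝ) < 4 ^ D := by positivity
        nlinarith
      linarith
    · intro s hs1 hsj
      have hms := LB_m_pos s
      obtain ⟨B, hB, hBK, hle⟩ := descend hI (fun k => (b k : ℝ)) hsupp hs1 (d := d) (c := 2 * D)
        (X := 4) (Y := 4 ^ D) (C1 := 4 ^ D) (by norm_num) (by positivity) (by positivity)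
        (by
          intro k hk v hv
          have h1 := abs_Phi_le_nor_G hv (z k)
          rw [(hz k hk).2.1, mul_one] at h1
          refine h1.trans (mul_le_mul_of_nonneg_right ?_ (LB_nrm_nonneg v))
          exact pow_le_pow_right₀ (by norm_num) hd)
        (by
          intro v hv α β hβ
          obtain ⟨T, hT, hTK, hle⟩ := hterm d hd v hv α β hβ
          exact ⟨T, hT, Kset.mono (by omega) hTK, hle⟩) v hv 0 M le_rfl
      rw [hIco] at hB hle
      rw [hl2M, mul_one] at hle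
      have hnn := LB_nn_le hsj.le
      have h1 := hl2B B hB (Kset.mono (by omega) hBK)
      refine hle.trans ?_
      rw [mul_comm (5 / (m s : ℝ))]
      apply mul_le_mul_of_nonneg_left _ (LB_nrm_nonneg v)
      have h2 : ((4 : ℝ) ^ D / m s + 4 ^ D) * l2 (fun k => (b k : ℝ)) B
          ≤ (4 ^ D / m s + 4 ^ D) * σ := mul_le_mul_of_nonneg_left h1 (by positivity)
      have h3 : ((4 : ℝ) ^ D / m s + 4 ^ D) * σ ≤ 1 / m s := by
        have h4 := LB_m_le hsj.le
        have h5 : ((4 : ℝ) ^ D / m s + 4 ^ D) * σ = (1 + m s) / (1 + m j) * (1 / m s) := by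
          rw [hσ]
          field_simp
        rw [h5]
        have h6 : (1 + (m s : ℝ)) / (1 + m j) ≤ 1 := by
          rw [div_le_one (by positivity)]
          linarith
        calc (1 + (m s : ℝ)) / (1 + m j) * (1 / m s) ≤ 1 * (1 / m s) :=
              mul_le_mul_of_nonneg_right h6 (by positivity)
          _ = 1 / m s := one_mul _
      have h7 : (5 : ℝ) / m s = 4 / m s + 1 / m s := by ring
      rw [h7]
      linarith
  · intro l hl
    have hex : ∃ k ∈ Finset.range M, l ∈ (z k).support := by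
      by_contra hcon
      push Not at hcon
      rw [Finsupp.mem_support_iff] at hl
      apply hl
      rw [Finsupp.finset_sum_apply]
      apply Finset.sum_eq_zero
      intro k hk
      have := Finsupp.notMem_support_iff.1 (hcon k hk)
      rw [Finsupp.smul_apply, this, smul_zero]
    obtain ⟨k, hk, hlk⟩ := hex
    have hkM := Finset.mem_range.1 hk
    have h1 := (hsupp k hkM l hlk).1
    have h2 := LB_lo hI k hkM
    omega

end H94.WH
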