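import Pool.Agent.H94.WH.SD
import Pool.Agent.H94.WH.HQ
import Pool.Agent.H94.WH.IS

/-!
# MODULE LH1: upper bound for special vectors (section 10)
`main_estimate` with `Cc = 100`, `xq = 300/(m_q m_{q+1})`, `yq = 300/m_q`, `xt = 300/m_{q+1}`, `Crit k = {p k}`, `p k = code q ((List.range k).map w)` (disjoint by `code_inj`), `D := 2^(q+2)`, `r = 2^(q+2)`, `d = 0`, `a k = (-1)^k c_k`:
h1: `e1` (`2^(q+2) ≤ nn (q+1)`, `par3`); h3: `{s | q < s ∧ s ≠ p k} = {q < s < p k} ∪ {p k < s}`: `abs_Phi_range_le` (c = 100) + `e3` (`m (p k) ≥ m (q+1)`): `≤ 300/m_{q+1}`; hq: `qpart_estimate` (`nn q + d ≤ nn (q+1)`, `par3`).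
`XX = 100/m_{q+1} + 2(xq+xt) ≤ 738/m_q^2` (`two_pow_inv'`, `m_{q+1} = m_q^2`, `m_q ≥ 16`), `l2 ≤ √2 ≤ 1.5`, `Kset (nn q - 2)` from `par2`, `YY * l2 B ≤ YY √δ ≤ 100/m_q^2`.
So `‖Phi v x‖ ≤ nrm v * 2000/m_q^2` for `v ∈ C = G 0`; `nor_le_of`.
-/

set_option autoImplicit false

namespace H94.WH

open Finset

variable {𝕜 : Type} [RCLike 𝕜]

theorem LH1_tail {p q D : ℕ} {x : X0 𝕜} {u : V} {lo hi : ℕ} (hp : q + 2 ≤ p)
    (h : Exact p D x u lo hi) {d : ℕ} (hd : d ≤ D) {v : V} (hv : G d v) :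
    ‖Phi (col {s | q < s ∧ s ∉ ({p} : Set ℕ)} v) x‖ ≤ 300 / m (q + 1) * nrm v := by
  have hset : {s : ℕ | q < s ∧ s ∉ ({p} : Set ℕ)} = {s | q < s ∧ s < p} ∪ {s | p < s} := by
    ext s
    simp only [Set.mem_singleton_iff, Set.mem_union]
    constructor
    · rintro ⟨h1, h2⟩
      rcases lt_or_gt_of_ne h2 with h3 | h3
      · exact Or.inl ⟨h1, h3⟩
      · exact Or.inr h3
    · rintro (⟨h1, h2⟩ | h1)
      · exact ⟨h1, h2.ne⟩
      · have h1' : p < s := h1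
        exact ⟨by omega, by omega⟩
  have hdis : Disjoint {s : ℕ | q < s ∧ s < p} {s | p < s} := by
    rw [Set.disjoint_left]
    rintro s ⟨-, h2⟩ h3
    have h3' : p < s := h3
    omega
  rw [hset, col_union hdis, Phi_add_left]
  have e1 := abs_Phi_range_le q p v x 100 (by norm_num)
    (fun s hs1 hs2 => h.e2 d hd v hv s (by omega) hs2)
  have e2 := h.e3 d hd v hv
  have hm : (m (q + 1) : ℝ) ≤ m p := by
    exact_mod_cast m_strictMono.monotone (by omega)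
  have h0 := m_pos (q + 1)
  have e3 : (100 : ℝ) / m p ≤ 100 / m (q + 1) := by gcongr
  have e4 : (100 : ℝ) / m p * nrm v ≤ 100 / m (q + 1) * nrm v :=
    mul_le_mul_of_nonneg_right e3 (nrm_nonneg v)
  calc _ ≤ ‖Phi (col {s | q < s ∧ s < p} v) x‖ + ‖Phi (col {s | p < s} v) x‖ := norm_add_le _ _
    _ ≤ 2 * 100 / m (q + 1) * nrm v + 100 / m (q + 1) * nrm v := by linarith
    _ = 300 / m (q + 1) * nrm v := by ring

theorem special_upper {q : ℕ} (hq : Odd q) {M' : ℕ} (hM : 0 < M') {δ : ℝ}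
    (hδ : YY q 100 (300 / m q) * Real.sqrt δ ≤ 100 / (m q) ^ 2)
    {x : ℕ → X0 𝕜} {u : ℕ → V} {c : ℕ → ℚ} {lo hi : ℕ → ℕ} (h : SpecialData q M' δ x u c lo hi) :
    nor (∑ k ∈ Finset.range (2 * M'), ((-1) ^ k * (c k : ℝ)) • x k) ≤ 2000 / (m q) ^ 2 := by
  have hq1 : 1 ≤ q := hq.pos
  have hmq : (16 : ℝ) ≤ m q := by
    have h1 : m 1 ≤ m q := m_strictMono.monotone hq1
    have h2 : m 1 = 16 := by rw [show (1 : ℕ) = 0 + 1 from rfl, m_succ, m_zero]; norm_num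
    rw [h2] at h1
    exact_mod_cast h1
  have hm1 : (m (q + 1) : ℝ) = (m q : ℝ) ^ 2 := by rw [m_succ]; push_cast; ring
  have hp3 := par3 q
  set a : ℕ → ℝ := fun k => (-1) ^ k * (c k : ℝ) with ha
  have main := main_estimate (𝕜 := 𝕜) hq1 h.hI (x := x) a (fun k hk => (h.hex k hk).hx)
    (2 ^ (q + 2)) (Cc := 100) (xq := 300 / (m q * m (q + 1))) (yq := 300 / m q)
    (xt := 300 / m (q + 1)) (by norm_num) (by positivity) (by positivity) (by positivity)
    (fun k hk d hd v hv => (h.hex k hk).e1 d (by omega) v hv)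
    (fun k => {code q ((List.range k).map (fun i => c i • u i))})
    (fun i _ j _ hij => by
      rw [Set.disjoint_singleton]
      intro he
      have h1 := congrArg List.length (code_inj he)
      simp only [List.length_map, List.length_range] at h1
      exact hij h1)
    (fun k hk d hd v hv => LH1_tail (code_ge q _) (h.hex k hk) (by omega) hv)
    (fun d hd v hv α β hβ => qpart_estimate hq rfl h.hI h.hc h.hpair h.hex (by omega) hv hβ)
    h.hg (2 ^ (q + 2)) 0 (by omega)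
  unfold nor
  refine Real.sSup_le ?_ (by positivity)
  rintro _ ⟨v, hv, hv1, rfl⟩
  obtain ⟨B, hB, hK, hle⟩ := main v hv 0 (2 * M') le_rfl
  rw [← Finset.range_eq_Ico] at hB hle
  have hK2 : Kset (nn q - 2) (B.image hi) := Kset.mono (par2 q hq1) hK
  have hsq : ∀ k, a k ^ 2 = (c k : ℝ) ^ 2 := by
    intro k
    have e : ((-1 : ℝ) ^ k) ^ 2 = 1 := by
      rw [← pow_mul, mul_comm, pow_mul, neg_one_sq, one_pow]
    simp only [ha, mul_pow]
    rw [e, one_mul]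
  have hl1 : l2 a (Finset.range (2 * M')) ≤ 3 / 2 := by
    have h1 : ∑ k ∈ Finset.range (2 * M'), a k ^ 2 ≤ 2 := by
      rw [Finset.sum_congr rfl fun k _ => hsq k]
      have := h.hsum
      have h2 : ((∑ k ∈ Finset.range (2 * M'), (c k) ^ 2 : ℚ) : ℝ) = 2 := by rw [this]; norm_num
      push_cast at h2
      exact h2.le
    refine (l2_le_sqrt h1).trans ?_
    rw [Real.sqrt_le_left (by norm_num)]
    norm_num
  have hl2 : l2 a B ≤ Real.sqrt δ := by
    refine l2_le_sqrt ?_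
    rw [Finset.sum_congr rfl fun k _ => hsq k]
    exact h.hsm B hB hK2
  have hXX : XX 100 (300 / (m q * m (q + 1))) (300 / m (q + 1)) (2 ^ (q + 2)) ≤
      738 / (m q : ℝ) ^ 2 := by
    unfold XX
    rw [two_pow_inv', hm1]
    have hpos : (0 : ℝ) < m q := by linarith
    rw [le_div_iff₀ (by positivity)]
    have e : (100 * ((m q : ℝ) ^ 2)⁻¹ + 2 * (300 / ((m q : ℝ) * (m q : ℝ) ^ 2) +
        300 / (m q : ℝ) ^ 2)) * (m q : ℝ) ^ 2 = 700 + 600 / (m q : ℝ) := by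
      field_simp
      ring
    rw [e]
    have : (600 : ℝ) / m q ≤ 600 / 16 := by gcongr
    linarith
  have hYY : 0 ≤ YY q 100 (300 / m q) := by unfold YY; positivity
  have hXn : 0 ≤ l2 a (Finset.range (2 * M')) := l2_nonneg _ _
  have hnn := nrm_nonneg v
  have hb1 : XX 100 (300 / (m q * m (q + 1))) (300 / m (q + 1)) (2 ^ (q + 2)) *
      l2 a (Finset.range (2 * M')) ≤ 738 / (m q : ℝ) ^ 2 * (3 / 2) :=
    mul_le_mul hXX hl1 hXn (by positivity)
  have hb2 : YY q 100 (300 / m q) * l2 a B ≤ 100 / (m q : ℝ) ^ 2 :=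
    (mul_le_mul_of_nonneg_left hl2 hYY).trans hδ
  have hb3 : (738 : ℝ) / (m q : ℝ) ^ 2 * (3 / 2) + 100 / (m q : ℝ) ^ 2 ≤ 2000 / (m q : ℝ) ^ 2 := by
    have hpos : (0 : ℝ) < (m q : ℝ) ^ 2 := by positivity
    rw [← sub_nonneg]
    have : (2000 : ℝ) / (m q : ℝ) ^ 2 - (738 / (m q : ℝ) ^ 2 * (3 / 2) + 100 / (m q : ℝ) ^ 2) =
        793 / (m q : ℝ) ^ 2 := by ring
    rw [this]; positivity
  refine hle.trans ?_
  calc nrm v * _ ≤ 1 * (2000 / (m q : ℝ) ^ 2) := by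
        refine mul_le_mul hv1 (by linarith) ?_ zero_le_one
        have hX0 : 0 ≤ XX 100 (300 / (m q * m (q + 1))) (300 / m (q + 1)) (2 ^ (q + 2)) := by
          unfold XX; positivity
        exact add_nonneg (mul_nonneg hX0 hXn) (mul_nonneg hYY (l2_nonneg _ _))
    _ = 2000 / (m q : ℝ) ^ 2 := one_mul _

end H94.WH
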