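import Pool.Agent.H94.WH.Defs

/-!
# MODULE PAR: inequalities between the parameters
`m s = 2^(2^(s+1))`, `nn s = 2^((s+5)^2)`. Hint for the sums: `(m s)⁻¹ ≤ 4⁻¹ ^ (s+1)` and, for `s ≥ t`,
`(m s)⁻¹ ≤ (m t)⁻¹ * 4⁻¹^(s-t)`; compare with a geometric series. For `par1`: `nn p = 2^(2p+9) * nn (p-1)` and `2^(p+1) ≤ nn (p-1)`.
-/

set_option autoImplicit false

namespace H94.WH

open Finset

theorem m_succ (s : ℕ) : m (s + 1) = m s ^ 2 := by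
  unfold m
  rw [← pow_mul]
  congr 1
theorem four_le_m (s : ℕ) : 4 ≤ m s := by
  unfold m
  have h1 : 2 ≤ 2 ^ (s + 1) := by
    have := Nat.one_le_two_pow (n := s)
    rw [pow_succ]
    omega
  calc 4 = 2 ^ 2 := by norm_num
    _ ≤ 2 ^ (2 ^ (s + 1)) := Nat.pow_le_pow_right (by norm_num) h1
theorem m_pos (s : ℕ) : (0 : ℝ) < m s := by
  have := four_le_m s
  exact_mod_cast (by omega : 0 < m s)
theorem m_strictMono : StrictMono m := by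
  apply strictMono_nat_of_lt_succ
  intro s
  rw [m_succ]
  have := four_le_m s
  nlinarith
theorem m_zero : m 0 = 4 := by
  simp [m]

theorem PAR_m_add (t k : ℕ) : m t * 4 ^ k ≤ m (t + k) := by
  induction k with
  | zero => simp
  | succ k ih =>
    rw [← add_assoc, m_succ, pow_succ]
    have := four_le_m (t + k)
    nlinarith

theorem PAR_geom (N : ℕ) : ∑ k ∈ Finset.range N, ((4 : ℝ)⁻¹) ^ k ≤ 4 / 3 := by
  have h : ∑ k ∈ Finset.range N, ((4 : ℝ)⁻¹) ^ k = 4 / 3 * (1 - (4 : ℝ)⁻¹ ^ N) := by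
    induction N with
    | zero => simp
    | succ N ih =>
      rw [Finset.sum_range_succ, ih, pow_succ]
      ring
  rw [h]
  have : (0 : ℝ) ≤ (4 : ℝ)⁻¹ ^ N := by positivity
  nlinarith

theorem PAR_inv_le (t s : ℕ) (h : t ≤ s) : ((m s : ℝ))⁻¹ ≤ ((m t : ℝ))⁻¹ * (4 : ℝ)⁻¹ ^ (s - t) := by
  have h1 := PAR_m_add t (s - t)
  rw [Nat.add_sub_cancel' h] at h1
  have h2 : (m t : ℝ) * 4 ^ (s - t) ≤ m s := by exact_mod_cast h1
  have h3 : (0 : ℝ) < (m t : ℝ) * 4 ^ (s - t) := mul_pos (m_pos t) (by positivity)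
  rw [inv_pow, ← mul_inv]
  exact inv_anti₀ h3 h2

theorem PAR_tail (S : Finset ℕ) (t : ℕ) (h : ∀ s ∈ S, t ≤ s) :
    ∑ s ∈ S, ((m s : ℝ))⁻¹ ≤ 4 / 3 * ((m t : ℝ))⁻¹ := by
  have h1 : ∑ s ∈ S, ((m s : ℝ))⁻¹ ≤ ∑ s ∈ S, ((m t : ℝ))⁻¹ * (4 : ℝ)⁻¹ ^ (s - t) :=
    Finset.sum_le_sum fun s hs => PAR_inv_le t s (h s hs)
  have h2 : ∑ s ∈ S, (4 : ℝ)⁻¹ ^ (s - t) = ∑ k ∈ S.image (fun s => s - t), (4 : ℝ)⁻¹ ^ k := by
    rw [Finset.sum_image]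
    intro a ha b hb hab
    have := h a ha
    have := h b hb
    simp only at hab
    omega
  obtain ⟨N, hN⟩ := (S.image (fun s => s - t)).exists_nat_subset_range
  have h3 : ∑ k ∈ S.image (fun s => s - t), (4 : ℝ)⁻¹ ^ k ≤ ∑ k ∈ Finset.range N, (4 : ℝ)⁻¹ ^ k :=
    Finset.sum_le_sum_of_subset_of_nonneg hN (fun _ _ _ => by positivity)
  have h4 := PAR_geom N
  rw [← Finset.mul_sum, h2] at h1
  have h5 : (0 : ℝ) ≤ ((m t : ℝ))⁻¹ := (inv_pos.2 (m_pos t)).le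
  calc ∑ s ∈ S, ((m s : ℝ))⁻¹ ≤ ((m t : ℝ))⁻¹ * ∑ k ∈ S.image (fun s => s - t), (4 : ℝ)⁻¹ ^ k := h1
    _ ≤ ((m t : ℝ))⁻¹ * (4 / 3) := mul_le_mul_of_nonneg_left (h3.trans h4) h5
    _ = 4 / 3 * ((m t : ℝ))⁻¹ := mul_comm _ _
/-- `∑_{s < q} 1/m_s ≤ 1/2` -/
theorem sum_inv_m_le (q : ℕ) : ∑ s ∈ Finset.range q, ((m s : ℝ))⁻¹ ≤ 1 / 2 := by
  have h1 := PAR_tail (Finset.range q) 0 (fun s _ => Nat.zero_le s)
  rw [m_zero] at h1
  norm_num at h1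
  linarith
/-- `∑_{s ∈ S} 1/m_s ≤ 2/m_t` if all elements of `S` are `≥ t` -/
theorem sum_inv_m_tail (S : Finset ℕ) (t : ℕ) (h : ∀ s ∈ S, t ≤ s) : ∑ s ∈ S, ((m s : ℝ))⁻¹ ≤ 2 / m t := by
  have h1 := PAR_tail S t h
  have h5 : (0 : ℝ) ≤ ((m t : ℝ))⁻¹ := (inv_pos.2 (m_pos t)).le
  rw [div_eq_mul_inv]
  linarith
/-- any finite sum of `1/m_s` over different symbols is `≤ 1/2` -/
theorem sum_inv_m_all (S : Finset ℕ) : ∑ s ∈ S, ((m s : ℝ))⁻¹ ≤ 1 / 2 := by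
  have h1 := PAR_tail S 0 (fun s _ => Nat.zero_le s)
  rw [m_zero] at h1
  norm_num at h1
  linarith
theorem two_pow_inv (p : ℕ) : ((2 : ℝ)⁻¹) ^ (2 ^ (p + 1)) = ((m p : ℝ))⁻¹ := by
  unfold m
  rw [inv_pow]
  push_cast
  rfl
theorem two_pow_inv' (q : ℕ) : ((2 : ℝ)⁻¹) ^ (2 ^ (q + 2)) = ((m (q + 1) : ℝ))⁻¹ :=
  two_pow_inv (q + 1)
theorem exists_m_ge (c : ℝ) : ∃ s, c ≤ m s := by
  obtain ⟨s, hs⟩ := exists_nat_ge c
  refine ⟨s, hs.trans ?_⟩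
  exact_mod_cast m_strictMono.id_le s

/-- complexity bound in Lemma IS -/
def cc (q r d : ℕ) : ℕ := r * (nn (q - 1) + d + r + 6)

theorem nn_mono : Monotone nn := by
  intro a b hab
  unfold nn
  exact Nat.pow_le_pow_right (by norm_num) (Nat.pow_le_pow_left (by omega) 2)
theorem one_le_nn (s : ℕ) : 1 ≤ nn s := Nat.one_le_two_pow

theorem PAR_two_pow_le_nn {a b : ℕ} (h : a ≤ (b + 5) ^ 2) : 2 ^ a ≤ nn b :=
  Nat.pow_le_pow_right (by norm_num) h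

theorem PAR_nn_succ (s : ℕ) : nn (s + 1) = 2 ^ (2 * s + 11) * nn s := by
  unfold nn
  rw [← pow_add]
  congr 1
  ring
theorem cc_mono {q r d d' : ℕ} (h : d ≤ d') : cc q r d ≤ cc q r d' := by
  unfold cc
  exact Nat.mul_le_mul_left _ (by omega)
theorem cc_step0 (q r d : ℕ) : cc q r (d + 1) + 1 ≤ cc q (r + 1) d := by
  unfold cc
  nlinarith [Nat.zero_le (nn (q - 1)), Nat.zero_le r, Nat.zero_le d]
theorem cc_stepS (q r d : ℕ) : nn (q - 1) + d + cc q r d + 1 + 1 ≤ cc q (r + 1) d := by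
  unfold cc
  nlinarith [Nat.zero_le (nn (q - 1)), Nat.zero_le r, Nat.zero_le d]
theorem cc_stepQ (q r d : ℕ) : d + 3 + 1 ≤ cc q (r + 1) d := by
  unfold cc
  nlinarith [Nat.zero_le (nn (q - 1)), Nat.zero_le r, Nat.zero_le d,
    Nat.zero_le (r * (nn (q - 1) + d + (r + 1) + 6))]
theorem par1 (p : ℕ) (hp : 1 ≤ p) :
    nn (p - 1) + nn (p - 1) + cc p (2 ^ (p + 1)) (nn (p - 1)) + 2 ≤ nn p - 1 := by
  obtain ⟨s, rfl⟩ : ∃ s, p = s + 1 := ⟨p - 1, by omega⟩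
  rw [Nat.add_sub_cancel]
  unfold cc
  rw [Nat.add_sub_cancel]
  have h1 : 2 ^ (s + 1 + 1) ≤ nn s := PAR_two_pow_le_nn (by nlinarith)
  have h2 : nn (s + 1) = 128 * (2 ^ (s + 1 + 1)) ^ 2 * nn s := by
    rw [PAR_nn_succ, show 2 * s + 11 = (s + 1 + 1) * 2 + 7 by ring, pow_add 2 _ 7, pow_mul,
      show (2 : ℕ) ^ 7 = 128 by norm_num]
    ring
  have h3 : 1 ≤ 2 ^ (s + 1 + 1) := Nat.one_le_two_pow
  have h4 := one_le_nn s
  generalize 2 ^ (s + 1 + 1) = R at *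
  generalize nn s = N at *
  have h5 : N + N + R * (N + N + R + 6) + 2 + 1 ≤ 14 * (R * N) := by
    have e1 : N ≤ R * N := Nat.le_mul_of_pos_left N h3
    have e2 : R ≤ R * N := Nat.le_mul_of_pos_right R h4
    have e3 : R * R ≤ R * N := Nat.mul_le_mul_left R h1
    have e4 : R * (N + N + R + 6) = 2 * (R * N) + R * R + 6 * R := by ring
    rw [e4]
    omega
  have h6 : 14 * (R * N) ≤ 128 * R ^ 2 * N := by
    have e1 : R ≤ R ^ 2 := by nlinarith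
    have e2 : R * N ≤ R ^ 2 * N := Nat.mul_le_mul_right N e1
    have e3 : 128 * R ^ 2 * N = 128 * (R ^ 2 * N) := by ring
    rw [e3]
    omega
  rw [h2]
  omega
theorem par2 (q : ℕ) (hq : 1 ≤ q) : cc q (2 ^ (q + 2)) 0 ≤ nn q - 2 := by
  obtain ⟨s, rfl⟩ : ∃ s, q = s + 1 := ⟨q - 1, by omega⟩
  unfold cc
  rw [Nat.add_sub_cancel]
  have h1 : 2 ^ (s + 1 + 2) ≤ nn s := PAR_two_pow_le_nn (by nlinarith)
  have h2 : nn (s + 1) = 32 * (2 ^ (s + 1 + 2)) ^ 2 * nn s := by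
    rw [PAR_nn_succ, show 2 * s + 11 = (s + 1 + 2) * 2 + 5 by ring, pow_add 2 _ 5, pow_mul,
      show (2 : ℕ) ^ 5 = 32 by norm_num]
    ring
  have h3 : 1 ≤ 2 ^ (s + 1 + 2) := Nat.one_le_two_pow
  have h4 := one_le_nn s
  generalize 2 ^ (s + 1 + 2) = R at *
  generalize nn s = N at *
  have h5 : R * (N + 0 + R + 6) + 2 ≤ 10 * (R * N) := by
    have e1 : N ≤ R * N := Nat.le_mul_of_pos_left N h3
    have e2 : R ≤ R * N := Nat.le_mul_of_pos_right R h4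
    have e3 : R * R ≤ R * N := Nat.mul_le_mul_left R h1
    have e4 : R * (N + 0 + R + 6) = R * N + R * R + 6 * R := by ring
    rw [e4]
    omega
  have h6 : 10 * (R * N) ≤ 32 * R ^ 2 * N := by
    have e1 : R ≤ R ^ 2 := by nlinarith
    have e2 : R * N ≤ R ^ 2 * N := Nat.mul_le_mul_right N e1
    have e3 : 32 * R ^ 2 * N = 32 * (R ^ 2 * N) := by ring
    rw [e3]
    omega
  rw [h2]
  omega
theorem par3 (q : ℕ) : nn q + 2 ^ (q + 2) ≤ nn (q + 1) := by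
  have h1 : 2 ^ (q + 2) ≤ nn q := PAR_two_pow_le_nn (by nlinarith)
  have h2 : 2 * nn q ≤ nn (q + 1) := by
    rw [PAR_nn_succ]
    apply Nat.mul_le_mul_right
    calc 2 = 2 ^ 1 := by norm_num
      _ ≤ 2 ^ (2 * q + 11) := Nat.pow_le_pow_right (by norm_num) (by omega)
  omega
theorem par4 (n : ℕ) : ∃ j, 1 ≤ j ∧ Even j ∧ (n + 1) * (2 ^ (j + 1) + 2) ≤ nn j := by
  refine ⟨2 * (n + 1), by omega, even_two_mul _, ?_⟩
  set j := 2 * (n + 1) with hj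
  have h1 : n + 1 ≤ 2 ^ j := by
    have := Nat.lt_two_pow_self (n := j)
    omega
  have h2 : 2 ^ (j + 1) + 2 ≤ 2 ^ (j + 2) := by
    have := Nat.one_le_two_pow (n := j)
    rw [pow_succ, pow_succ]
    have h3 : 1 ≤ j := by omega
    have h4 : 2 ^ 1 ≤ 2 ^ j := Nat.pow_le_pow_right (by norm_num) h3
    omega
  calc (n + 1) * (2 ^ (j + 1) + 2) ≤ 2 ^ j * 2 ^ (j + 2) := Nat.mul_le_mul h1 h2
    _ = 2 ^ (j + (j + 2)) := (pow_add 2 j (j + 2)).symm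
    _ ≤ nn j := PAR_two_pow_le_nn (by nlinarith)

end H94.WH
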