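import Pool.Agent.H94.WH.ED

/-!
# definition of the data of a special vector (no proof needed)
-/

set_option autoImplicit false

namespace H94.WH

open Finset

variable {𝕜 : Type} [RCLike 𝕜]

/-- the data of a special vector -/
structure SpecialData (q M' : ℕ) (δ : ℝ) (x : ℕ → X0 𝕜) (u : ℕ → V) (c : ℕ → ℚ) (lo hi : ℕ → ℕ) : Prop where
  hI : Ivals (2 * M') lo hi
  hc : ∀ k < 2 * M', 0 < c k
  hpair : ∀ j < M', c (2 * j + 1) = c (2 * j)
  hex : ∀ k < 2 * M', Exact (code q ((List.range k).map (fun i => c i • u i))) (nn (q + 1)) (x k) (u k) (lo k) (hi k)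
  hg : q + 5 ≤ g (lo 0)
  hsum : ∑ k ∈ Finset.range (2 * M'), (c k) ^ 2 = 2
  hlo : Kset (nn q) ((Finset.range (2 * M')).image lo)
  hsm : ∀ B ⊆ Finset.range (2 * M'), Kset (nn q - 2) (B.image hi) → ∑ k ∈ B, (c k : ℝ) ^ 2 ≤ δ

end H94.WH
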