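import Pool.Agent.H94.WH.NO

/-!
# MODULE SP: the Banach space (completion of `(c_00, nor)`)

`E0 𝕜` is a type synonym of `X0 𝕜` with the norm `nor`; `XB 𝕜 = UniformSpace.Completion (E0 𝕜)`; `toE : X0 𝕜 → E0 𝕜`, `ofE : E0 𝕜 → X0 𝕜` are the identity maps.
`exists_PhiE_bound`: `Phi v x = ∑_{a ∈ supp v} v a * wt a.2 * x a.1` and `abs_coord_le`. `PhiX v : XB 𝕜 →L[𝕜] 𝕜` is the continuous extension of `PhiE v` (definitions given).
All the statements for `XB` follow from those for `E0` by density (`UniformSpace.Completion.induction_on`, closedness) or by uniqueness of continuous extensions.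
`PhiX_res`: by `PhiX_eq_sum` both sides are finite combinations of coordinates; the coordinates `< h` vanish.
-/

set_option autoImplicit false

namespace H94.WH

open Finset

/-- type synonym of `c_00` for the norm `nor` -/
def E0 (𝕜 : Type) [RCLike 𝕜] : Type := X0 𝕜

variable {𝕜 : Type} [RCLike 𝕜]

noncomputable instance : AddCommGroup (E0 𝕜) := inferInstanceAs (AddCommGroup (X0 𝕜))
noncomputable instance : Module 𝕜 (E0 𝕜) := inferInstanceAs (Module 𝕜 (X0 𝕜))

/-- identity maps -/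
def toE (x : X0 𝕜) : E0 𝕜 := x
def ofE (x : E0 𝕜) : X0 𝕜 := x

/-- the norm -/
noncomputable def norE : AddGroupNorm (E0 𝕜) where
  toFun := fun x => nor (ofE x)
  map_zero' := nor_zero
  add_le' := fun x y => nor_add_le (ofE x) (ofE y)
  neg' := fun x => nor_neg (ofE x)
  eq_zero_of_map_eq_zero' := fun x h => eq_zero_of_nor (x := ofE x) h

noncomputable instance : NormedAddCommGroup (E0 𝕜) := norE.toNormedAddCommGroup

theorem norm_E0 (x : E0 𝕜) : ‖x‖ = nor (ofE x) := rfl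

noncomputable instance : NormedSpace 𝕜 (E0 𝕜) where
  norm_smul_le := fun c x => le_of_eq (nor_smul c (ofE x))

/-- the Banach space -/
abbrev XB (𝕜 : Type) [RCLike 𝕜] : Type := UniformSpace.Completion (E0 𝕜)

/-- embedding of `c_00` -/
noncomputable def emb (x : X0 𝕜) : XB 𝕜 := ((toE x : E0 𝕜) : XB 𝕜)

theorem exists_PhiE_bound (v : V) : ∃ K : ℝ, ∀ x : E0 𝕜, ‖Phi v (ofE x)‖ ≤ K * ‖x‖ := by
  refine ⟨∑ a ∈ v.support, ‖((((v a : ℚ) : ℝ) * wt a.2 : ℝ) : 𝕜)‖, fun x => ?_⟩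
  rw [norm_E0, Finset.sum_mul]
  unfold Phi Finsupp.sum
  refine (norm_sum_le _ _).trans (Finset.sum_le_sum fun a _ => ?_)
  rw [norm_mul]
  exact mul_le_mul_of_nonneg_left (abs_coord_le (ofE x) a.1) (norm_nonneg _)

/-- `Phi v` as a continuous linear functional on `E0` -/
noncomputable def PhiE (v : V) : E0 𝕜 →L[𝕜] 𝕜 :=
  LinearMap.mkContinuousOfExistsBound
    { toFun := fun x => Phi v (ofE x)
      map_add' := fun x y => Phi_add_right v (ofE x) (ofE y)
      map_smul' := fun c x => Phi_smul_right v c (ofE x) } (exists_PhiE_bound v)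

theorem PhiE_apply (v : V) (x : E0 𝕜) : PhiE v x = Phi v (ofE x) := rfl

/-- extension of `Phi v` to the Banach space -/
noncomputable def PhiX (v : V) : XB 𝕜 →L[𝕜] 𝕜 :=
  (PhiE v).extend (UniformSpace.Completion.toComplL : E0 𝕜 →L[𝕜] XB 𝕜)

theorem norm_emb (x : X0 𝕜) : ‖emb x‖ = nor x := UniformSpace.Completion.norm_coe (toE x)
theorem emb_add (x y : X0 𝕜) : emb (x + y) = emb x + emb y :=
  UniformSpace.Completion.coe_add (toE x) (toE y)
theorem emb_sub (x y : X0 𝕜) : emb (x - y) = emb x - emb y :=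
  UniformSpace.Completion.coe_sub (toE x) (toE y)
theorem emb_smul (c : 𝕜) (x : X0 𝕜) : emb (c • x) = c • emb x :=
  UniformSpace.Completion.coe_smul c (toE x)

/-- `emb` as a linear map -/
noncomputable def SP_emb : X0 𝕜 →ₗ[𝕜] XB 𝕜 where
  toFun := emb
  map_add' := emb_add
  map_smul' := emb_smul

theorem emb_sum {ι : Type*} (s : Finset ι) (x : ι → X0 𝕜) : emb (∑ i ∈ s, x i) = ∑ i ∈ s, emb (x i) :=
  map_sum (SP_emb : X0 𝕜 →ₗ[𝕜] XB 𝕜) x s
theorem SP_dr : DenseRange (⇑(UniformSpace.Completion.toComplL : E0 𝕜 →L[𝕜] XB 𝕜)) :=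
  UniformSpace.Completion.denseRange_coe
theorem SP_ui : IsUniformInducing (⇑(UniformSpace.Completion.toComplL : E0 𝕜 →L[𝕜] XB 𝕜)) :=
  UniformSpace.Completion.isUniformInducing_coe (E0 𝕜)
theorem SP_eq1 (v : V) (x : E0 𝕜) :
    (PhiE v).extend (UniformSpace.Completion.toComplL : E0 𝕜 →L[𝕜] XB 𝕜)
      ((UniformSpace.Completion.toComplL : E0 𝕜 →L[𝕜] XB 𝕜) x) = PhiE v x := by
  refine @ContinuousLinearMap.extend_eq _ _ _ _ _ _ _ _ _ _ _ _ _ _ _ _ _ _ _ _ _ _ _ _ _ _ ?_ ?_ x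
  · exact SP_dr
  · exact SP_ui
theorem PhiX_emb (v : V) (x : X0 𝕜) : PhiX v (emb x) = Phi v x :=
  SP_eq1 v (toE x)

theorem SP_ind {P : XB 𝕜 → Prop} (hc : IsClosed {x | P x}) (h : ∀ z : X0 𝕜, P (emb z)) (x : XB 𝕜) :
    P x := UniformSpace.Completion.induction_on x hc (fun a => h (ofE a))

/-- density -/
theorem dense_emb (x : XB 𝕜) {ε : ℝ} (hε : 0 < ε) : ∃ z : X0 𝕜, ‖x - emb z‖ < ε := by
  have h := (UniformSpace.Completion.denseRange_coe (α := E0 𝕜)).exists_dist_lt x hε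
  obtain ⟨z, hz⟩ := h
  exact ⟨ofE z, by rw [← dist_eq_norm]; exact hz⟩
theorem PhiX_add (v w : V) (x : XB 𝕜) : PhiX (v + w) x = PhiX v x + PhiX w x := by
  refine SP_ind (P := fun x => PhiX (v + w) x = PhiX v x + PhiX w x)
    (isClosed_eq (by fun_prop) (by fun_prop)) (fun z => ?_) x
  rw [PhiX_emb, PhiX_emb, PhiX_emb, Phi_add_left]
theorem PhiX_smul (c : ℚ) (v : V) (x : XB 𝕜) : PhiX (c • v) x = ((c : ℝ) : 𝕜) * PhiX v x := by
  refine SP_ind (P := fun x => PhiX (c • v) x = ((c : ℝ) : 𝕜) * PhiX v x)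
    (isClosed_eq (by fun_prop) (by fun_prop)) (fun z => ?_) x
  rw [PhiX_emb, PhiX_emb, Phi_smul_left]
theorem PhiX_sum {ι : Type*} (s : Finset ι) (u : ι → V) (x : XB 𝕜) : PhiX (∑ i ∈ s, u i) x = ∑ i ∈ s, PhiX (u i) x := by
  refine SP_ind (P := fun x => PhiX (∑ i ∈ s, u i) x = ∑ i ∈ s, PhiX (u i) x)
    (isClosed_eq (by fun_prop) (by fun_prop)) (fun z => ?_) x
  simp only [PhiX_emb, Phi_sum_left]
theorem PhiX_pre (s : ℕ) (v : V) (x : XB 𝕜) : PhiX (pre s v) x = (((m s : ℝ)⁻¹ : ℝ) : 𝕜) * PhiX v x := by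
  refine SP_ind (P := fun x => PhiX (pre s v) x = (((m s : ℝ)⁻¹ : ℝ) : 𝕜) * PhiX v x)
    (isClosed_eq (by fun_prop) (by fun_prop)) (fun z => ?_) x
  rw [PhiX_emb, PhiX_emb, Phi_pre]
theorem PhiX_le {v : V} (hv : C v) (x : XB 𝕜) : ‖PhiX v x‖ ≤ nrm v * ‖x‖ := by
  refine SP_ind (P := fun x => ‖PhiX v x‖ ≤ nrm v * ‖x‖)
    (isClosed_le (by fun_prop) (by fun_prop)) (fun z => ?_) x
  rw [PhiX_emb, norm_emb]
  exact abs_Phi_le_nor hv z
/-- coordinate functionals -/
noncomputable def coordX (l : ℕ) : XB 𝕜 →L[𝕜] 𝕜 := PhiX (Finsupp.single (l, []) 1)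
theorem coordX_emb (l : ℕ) (x : X0 𝕜) : coordX l (emb x) = x l := by
  unfold coordX
  rw [PhiX_emb, Phi_single]
  simp
theorem coordX_le (l : ℕ) (x : XB 𝕜) : ‖coordX l x‖ ≤ ‖x‖ := by
  refine SP_ind (P := fun x => ‖coordX l x‖ ≤ ‖x‖)
    (isClosed_le (by fun_prop) (by fun_prop)) (fun z => ?_) x
  rw [coordX_emb, norm_emb]
  exact abs_coord_le z l
/-- `PhiX` as a finite combination of coordinates -/
theorem PhiX_eq_sum (v : V) (x : XB 𝕜) :
    PhiX v x = ∑ a ∈ v.support, ((((v a : ℚ) : ℝ) * wt a.2 : ℝ) : 𝕜) * coordX a.1 x := by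
  refine SP_ind (P := fun x => PhiX v x =
      ∑ a ∈ v.support, ((((v a : ℚ) : ℝ) * wt a.2 : ℝ) : 𝕜) * coordX a.1 x)
    (isClosed_eq (by fun_prop) (by fun_prop)) (fun z => ?_) x
  rw [PhiX_emb]
  simp only [coordX_emb]
  rfl
theorem PhiX_res (h : ℕ) (v : V) (x : XB 𝕜) (hx : ∀ l < h, coordX l x = 0) :
    PhiX (res (Set.Ici h) v) x = PhiX v x := by
  rw [PhiX_eq_sum, PhiX_eq_sum v]
  have hsub : (res (Set.Ici h) v).support ⊆ v.support := fun p hp => (mem_res.1 hp).1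
  rw [← Finset.sum_subset hsub]
  · apply Finset.sum_congr rfl
    intro a ha
    have h1 := (mem_res.1 ha).2
    rw [res_apply, if_pos h1]
  · intro a ha hna
    have h1 : a.1 < h := by
      by_contra hc
      exact hna (mem_res.2 ⟨ha, not_lt.1 hc⟩)
    rw [hx _ h1, mul_zero]
/-- approximation with vanishing first coordinates: take `z = resX (Ici h) z0`, `‖x - emb z0‖ < δ` with
`(1 + 2 h) δ ≤ ε`; `nor (resX (Iio h) z0) ≤ 2 ∑_{l < h} ‖z0 l‖ ≤ 2 h δ` since `z0 l = coordX l (emb z0 - x)`. -/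
theorem exists_approx (h : ℕ) (x : XB 𝕜) (hx : ∀ l < h, coordX l x = 0) {ε : ℝ} (hε : 0 < ε) :
    ∃ z : X0 𝕜, (∀ l ∈ z.support, h ≤ l) ∧ ‖x - emb z‖ < ε := by
  set δ : ℝ := ε / (1 + 2 * h) with hδ
  have hh : (0 : ℝ) < 1 + 2 * h := by positivity
  have hδ0 : 0 < δ := by positivity
  obtain ⟨z0, hz0⟩ := dense_emb x hδ0
  have hcoord : ∀ l < h, ‖z0 l‖ ≤ δ := by
    intro l hl
    have h1 : z0 l = coordX l (emb z0 - x) := by
      rw [map_sub, hx l hl, sub_zero, coordX_emb]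
    rw [h1]
    refine (coordX_le l _).trans ?_
    rw [norm_sub_rev]
    exact hz0.le
  have hlow : nor (resX (Set.Iio h) z0) ≤ 2 * h * δ := by
    refine (nor_le_l1 _).trans ?_
    have h1 : ∑ l ∈ (resX (Set.Iio h) z0).support, ‖resX (Set.Iio h) z0 l‖ ≤
        ∑ l ∈ Finset.range h, δ := by
      have hs : (resX (Set.Iio h) z0).support ⊆ Finset.range h := fun l hl =>
        Finset.mem_range.2 (mem_resX_support.1 hl).2
      calc ∑ l ∈ (resX (Set.Iio h) z0).support, ‖resX (Set.Iio h) z0 l‖ ≤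
          ∑ l ∈ Finset.range h, ‖resX (Set.Iio h) z0 l‖ :=
            Finset.sum_le_sum_of_subset_of_nonneg hs (fun _ _ _ => norm_nonneg _)
        _ ≤ _ := Finset.sum_le_sum fun l hl => by
            have hl' : l < h := Finset.mem_range.1 hl
            rw [resX_apply_mem (show l ∈ Set.Iio h from hl')]
            exact hcoord l hl'
    rw [Finset.sum_const, Finset.card_range, nsmul_eq_mul] at h1
    linarith
  refine ⟨resX (Set.Ici h) z0, fun l hl => (mem_resX_support.1 hl).2, ?_⟩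
  have hsplit : z0 = resX (Set.Ici h) z0 + resX (Set.Iio h) z0 := by
    ext l
    rw [Finsupp.add_apply]
    by_cases hl : l < h
    · rw [resX_apply_not (show l ∉ Set.Ici h from fun h' => absurd hl (not_lt.2 h')),
        resX_apply_mem (show l ∈ Set.Iio h from hl), zero_add]
    · rw [resX_apply_mem (show l ∈ Set.Ici h from not_lt.1 hl),
        resX_apply_not (show l ∉ Set.Iio h from hl), add_zero]
  have h2 : x - emb (resX (Set.Ici h) z0) = (x - emb z0) + emb (resX (Set.Iio h) z0) := by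
    conv_rhs => rw [hsplit]
    rw [← hsplit, show emb z0 = emb (resX (Set.Ici h) z0) + emb (resX (Set.Iio h) z0) from by
      rw [← emb_add, ← hsplit]]
    abel
  rw [h2]
  calc ‖(x - emb z0) + emb (resX (Set.Iio h) z0)‖ ≤ ‖x - emb z0‖ + ‖emb (resX (Set.Iio h) z0)‖ :=
        norm_add_le _ _
    _ < δ + 2 * h * δ := by
        rw [norm_emb]
        linarith
    _ = ε := by rw [hδ]; field_simp
/-- norming functionals -/
theorem exists_normingX (h : ℕ) (x : XB 𝕜) (hx : ∀ l < h, coordX l x = 0) {c : ℝ} (hc : c < ‖x‖) :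
    ∃ u, C u ∧ nrm u ≤ 1 ∧ (∀ p ∈ u.support, h ≤ p.1) ∧ c < ‖PhiX u x‖ := by
  set ε : ℝ := (‖x‖ - c) / 2 with hε
  have hε0 : 0 < ε := by rw [hε]; linarith
  obtain ⟨z, hz, hzx⟩ := exists_approx h x hx hε0
  have h1 : ‖x‖ - ε < nor z := by
    rw [← norm_emb]
    have := norm_sub_norm_le x (emb z)
    linarith
  obtain ⟨u, hu, hun, hus, hul⟩ := exists_norming (J := Set.Ici h) Set.ordConnected_Ici hz h1
  refine ⟨u, hu, hun, hus, ?_⟩
  have h2 : ‖PhiX u (x - emb z)‖ ≤ ‖x - emb z‖ := by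
    refine (PhiX_le hu _).trans ?_
    exact mul_le_of_le_one_left (norm_nonneg _) hun
  rw [map_sub, PhiX_emb] at h2
  have h3 : ‖Phi u z‖ ≤ ‖PhiX u x‖ + ‖PhiX u x - Phi u z‖ := by
    have := norm_sub_norm_le (Phi u z) (PhiX u x)
    rw [norm_sub_rev] at this
    linarith
  linarith
/-- finite-dimensional subspaces are proper: linear independence of the `emb (single l 1)` (coordinates) -/
theorem not_finiteDimensional_XB : ¬ FiniteDimensional 𝕜 (XB 𝕜) := by
  intro hfd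
  have hinj : Function.Injective (SP_emb : X0 𝕜 →ₗ[𝕜] XB 𝕜) := by
    intro x y hxy
    ext l
    have h1 : emb x = emb y := hxy
    rw [← coordX_emb, h1, coordX_emb]
  have hfin : Module.Finite 𝕜 (X0 𝕜) := Module.Finite.of_injective _ hinj
  rcases Module.finite_finsupp_self_iff.1 hfin with h | h
  · exact not_subsingleton 𝕜 h
  · exact not_finite ℕ

end H94.WH
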