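import Pool.Agent.H94.WH.Defs

/-!
# MODULE VB1: algebra of `res`, `col`, `leaf`, `pre`, `comp`
Prove the `_apply` lemmas first; then everything is `ext ⟨l, π⟩; simp [..]` with a case split on `π`.
-/

set_option autoImplicit false

namespace H94.WH

open Finset

section apply
open Classical
theorem res_apply (J : Set ℕ) (v : V) (p : Atom) : res J v p = if p.1 ∈ J then v p else 0 := by
  unfold res; rw [Finsupp.filter_apply]
theorem leaf_apply (v : V) (p : Atom) : leaf v p = if p.2 = [] then v p else 0 := by
  unfold leaf; rw [Finsupp.filter_apply]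
theorem col_apply_cons (S : Set ℕ) (v : V) (l s : ℕ) (π : List ℕ) :
    col S v (l, s :: π) = if s ∈ S then v (l, s :: π) else 0 := by
  unfold col; rw [Finsupp.filter_apply]
  by_cases h : s ∈ S
  · rw [if_pos h, if_pos ⟨s, h, rfl⟩]
  · rw [if_neg h, if_neg]
    rintro ⟨t, ht, e⟩
    simp only [List.head?_cons, Option.some.injEq] at e
    exact h (e ▸ ht)
end apply
theorem col_apply_nil (S : Set ℕ) (v : V) (l : ℕ) : col S v (l, []) = 0 := by
  classical
  unfold col; rw [Finsupp.filter_apply, if_neg]
  rintro ⟨t, ht, e⟩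
  simp at e
theorem comp_apply (s : ℕ) (v : V) (l : ℕ) (π : List ℕ) : comp s v (l, π) = v (l, s :: π) := by
  unfold comp; rw [Finsupp.comapDomain_apply]
theorem VB1_inj (s : ℕ) : Function.Injective (fun a : Atom => ((a.1, s :: a.2) : Atom)) := by
  intro a b h
  simp only [Prod.mk.injEq, List.cons.injEq, true_and] at h
  exact Prod.ext h.1 h.2
theorem pre_apply_cons (s : ℕ) (v : V) (l : ℕ) (π : List ℕ) : pre s v (l, s :: π) = v (l, π) := by
  unfold pre
  exact Finsupp.mapDomain_apply (VB1_inj s) v (l, π)
theorem VB1_pre_not (s : ℕ) (v : V) (p : Atom) (h : ∀ a : Atom, (a.1, s :: a.2) ≠ p) : pre s v p = 0 := by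
  unfold pre
  apply Finsupp.mapDomain_of_notMem_range
  rintro ⟨a, ha⟩
  exact h a ha
theorem pre_apply_ne {s s' : ℕ} (h : s' ≠ s) (v : V) (l : ℕ) (π : List ℕ) : pre s v (l, s' :: π) = 0 := by
  apply VB1_pre_not
  intro a ha
  simp only [Prod.mk.injEq, List.cons.injEq] at ha
  exact h ha.2.1.symm
theorem pre_apply_nil (s : ℕ) (v : V) (l : ℕ) : pre s v (l, []) = 0 := by
  apply VB1_pre_not
  intro a ha
  simp only [Prod.mk.injEq] at ha
  exact absurd ha.2 (List.cons_ne_nil _ _)

/-! supports -/
theorem mem_res {J : Set ℕ} {v : V} {p : Atom} : p ∈ (res J v).support ↔ p ∈ v.support ∧ p.1 ∈ J := by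
  classical
  rw [Finsupp.mem_support_iff, Finsupp.mem_support_iff, res_apply]
  by_cases h : p.1 ∈ J <;> simp [h]
theorem mem_leaf {v : V} {p : Atom} : p ∈ (leaf v).support ↔ p ∈ v.support ∧ p.2 = [] := by
  classical
  rw [Finsupp.mem_support_iff, Finsupp.mem_support_iff, leaf_apply]
  by_cases h : p.2 = [] <;> simp [h]
theorem mem_col {S : Set ℕ} {v : V} {p : Atom} :
    p ∈ (col S v).support ↔ p ∈ v.support ∧ ∃ s ∈ S, ∃ π, p.2 = s :: π := by
  classical
  obtain ⟨l, π⟩ := p
  rw [Finsupp.mem_support_iff, Finsupp.mem_support_iff]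
  cases π with
  | nil => simp [col_apply_nil]
  | cons s π =>
    rw [col_apply_cons]
    by_cases h : s ∈ S
    · simp [h]
    · simp only [h, if_false]
      constructor
      · intro h'; exact absurd rfl h'
      · rintro ⟨-, t, ht, π', e⟩
        simp only [List.cons.injEq] at e
        exact absurd (e.1 ▸ ht) h
theorem mem_comp {s : ℕ} {v : V} {p : Atom} : p ∈ (comp s v).support ↔ (p.1, s :: p.2) ∈ v.support := by
  rw [Finsupp.mem_support_iff, Finsupp.mem_support_iff]
  obtain ⟨l, π⟩ := p
  rw [comp_apply]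
theorem mem_pre {s : ℕ} {v : V} {p : Atom} :
    p ∈ (pre s v).support ↔ ∃ q ∈ v.support, p = (q.1, s :: q.2) := by
  obtain ⟨l, π⟩ := p
  rw [Finsupp.mem_support_iff]
  constructor
  · intro h
    cases π with
    | nil => exact absurd (pre_apply_nil s v l) h
    | cons s' π =>
      by_cases e : s' = s
      · subst e
        rw [pre_apply_cons] at h
        exact ⟨(l, π), Finsupp.mem_support_iff.2 h, rfl⟩
      · exact absurd (pre_apply_ne e v l π) h
  · rintro ⟨⟨l', π'⟩, hq, e⟩
    simp only [Prod.mk.injEq] at e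
    obtain ⟨rfl, rfl⟩ := e
    rw [pre_apply_cons]
    exact Finsupp.mem_support_iff.1 hq

/-! additivity -/
theorem res_zero (J : Set ℕ) : res J (0 : V) = 0 := by
  
  classical
  unfold res; exact Finsupp.filter_zero _
theorem res_add (J : Set ℕ) (v w : V) : res J (v + w) = res J v + res J w := by
  
  classical
  unfold res; exact Finsupp.filter_add
theorem res_smul (J : Set ℕ) (c : ℚ) (v : V) : res J (c • v) = c • res J v := by
  
  classical
  unfold res; exact Finsupp.filter_smul
theorem res_sum {ι : Type*} (J : Set ℕ) (s : Finset ι) (u : ι → V) :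
    res J (∑ i ∈ s, u i) = ∑ i ∈ s, res J (u i) := by
  classical
  induction s using Finset.induction_on with
  | empty => simp [res_zero]
  | insert a s ha ih => rw [Finset.sum_insert ha, Finset.sum_insert ha, res_add, ih]
theorem col_zero (S : Set ℕ) : col S (0 : V) = 0 := by
  
  classical
  unfold col; exact Finsupp.filter_zero _
theorem col_add (S : Set ℕ) (v w : V) : col S (v + w) = col S v + col S w := by
  
  classical
  unfold col; exact Finsupp.filter_add
theorem col_smul (S : Set ℕ) (c : ℚ) (v : V) : col S (c • v) = c • col S v := by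
  
  classical
  unfold col; exact Finsupp.filter_smul
theorem col_sum {ι : Type*} (S : Set ℕ) (s : Finset ι) (u : ι → V) :
    col S (∑ i ∈ s, u i) = ∑ i ∈ s, col S (u i) := by
  classical
  induction s using Finset.induction_on with
  | empty => simp [col_zero]
  | insert a s ha ih => rw [Finset.sum_insert ha, Finset.sum_insert ha, col_add, ih]
theorem leaf_zero : leaf (0 : V) = 0 := by
  
  classical
  unfold leaf; exact Finsupp.filter_zero _
theorem leaf_add (v w : V) : leaf (v + w) = leaf v + leaf w := by
  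
  classical
  unfold leaf; exact Finsupp.filter_add
theorem leaf_smul (c : ℚ) (v : V) : leaf (c • v) = c • leaf v := by
  
  classical
  unfold leaf; exact Finsupp.filter_smul
theorem leaf_sum {ι : Type*} (s : Finset ι) (u : ι → V) :
    leaf (∑ i ∈ s, u i) = ∑ i ∈ s, leaf (u i) := by
  classical
  induction s using Finset.induction_on with
  | empty => simp [leaf_zero]
  | insert a s ha ih => rw [Finset.sum_insert ha, Finset.sum_insert ha, leaf_add, ih]
theorem comp_zero (t : ℕ) : comp t (0 : V) = 0 := by
  ext ⟨l, π⟩; rw [comp_apply]; rfl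
theorem comp_add (t : ℕ) (v w : V) : comp t (v + w) = comp t v + comp t w := by
  ext ⟨l, π⟩; rw [Finsupp.add_apply, comp_apply, comp_apply, comp_apply, Finsupp.add_apply]
theorem comp_smul (t : ℕ) (c : ℚ) (v : V) : comp t (c • v) = c • comp t v := by
  ext ⟨l, π⟩; rw [Finsupp.smul_apply, comp_apply, comp_apply, Finsupp.smul_apply]
theorem comp_sum {ι : Type*} (t : ℕ) (s : Finset ι) (u : ι → V) :
    comp t (∑ i ∈ s, u i) = ∑ i ∈ s, comp t (u i) := by
  classical
  induction s using Finset.induction_on with
  | empty => simp [comp_zero]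
  | insert a s ha ih => rw [Finset.sum_insert ha, Finset.sum_insert ha, comp_add, ih]
theorem pre_zero (t : ℕ) : pre t (0 : V) = 0 := by
  unfold pre; exact Finsupp.mapDomain_zero
theorem pre_add (t : ℕ) (v w : V) : pre t (v + w) = pre t v + pre t w := by
  unfold pre; exact Finsupp.mapDomain_add
theorem pre_smul (t : ℕ) (c : ℚ) (v : V) : pre t (c • v) = c • pre t v := by
  unfold pre; exact Finsupp.mapDomain_smul c v
theorem pre_sum {ι : Type*} (t : ℕ) (s : Finset ι) (u : ι → V) :
    pre t (∑ i ∈ s, u i) = ∑ i ∈ s, pre t (u i) := by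
  classical
  induction s using Finset.induction_on with
  | empty => simp [pre_zero]
  | insert a s ha ih => rw [Finset.sum_insert ha, Finset.sum_insert ha, pre_add, ih]

end H94.WH
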