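import Pool.Agent.H94.WH.VB1

/-!
# MODULE VB1b: interplay of `res`, `col`, `leaf`, `pre`, `comp`
Everything is `ext ⟨l, π⟩; cases π; simp [res_apply, col_apply_cons, ..]` (the `_apply` lemmas of VB1). `col_finset`: `Finsupp.finsetSum_apply`.
`exists_bound`: `Q` = a bound for all first symbols in the (finite) support.
-/

set_option autoImplicit false

namespace H94.WH

open Finset

theorem VB1b_res_in {J : Set ℕ} {v : V} {p : Atom} (h : p.1 ∈ J) : res J v p = v p := by
  classical
  rw [res_apply, if_pos h]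
theorem VB1b_res_out {J : Set ℕ} {v : V} {p : Atom} (h : p.1 ∉ J) : res J v p = 0 := by
  classical
  rw [res_apply, if_neg h]
theorem VB1b_col_in {S : Set ℕ} {v : V} {l s : ℕ} {π : List ℕ} (h : s ∈ S) : col S v (l, s :: π) = v (l, s :: π) := by
  classical
  rw [col_apply_cons, if_pos h]
theorem VB1b_col_out {S : Set ℕ} {v : V} {l s : ℕ} {π : List ℕ} (h : s ∉ S) : col S v (l, s :: π) = 0 := by
  classical
  rw [col_apply_cons, if_neg h]
theorem VB1b_leaf_nil (v : V) (l : ℕ) : leaf v (l, []) = v (l, []) := by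
  classical
  rw [leaf_apply, if_pos rfl]
theorem VB1b_leaf_cons (v : V) (l s : ℕ) (π : List ℕ) : leaf v (l, s :: π) = 0 := by
  classical
  rw [leaf_apply, if_neg (List.cons_ne_nil _ _)]

/-! interplay -/
theorem res_res (J K : Set ℕ) (v : V) : res J (res K v) = res (J ∩ K) v := by
  ext p
  by_cases hJ : p.1 ∈ J
  · by_cases hK : p.1 ∈ K
    · rw [VB1b_res_in hJ, VB1b_res_in hK, VB1b_res_in (J := J ∩ K) ⟨hJ, hK⟩]
    · rw [VB1b_res_in hJ, VB1b_res_out hK, VB1b_res_out (fun h => hK h.2)]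
  · rw [VB1b_res_out hJ, VB1b_res_out (fun h => hJ h.1)]
theorem res_eq_self {J : Set ℕ} {v : V} (h : ∀ p ∈ v.support, p.1 ∈ J) : res J v = v := by
  ext p
  by_cases hp : p ∈ v.support
  · rw [VB1b_res_in (h p hp)]
  · have h0 : v p = 0 := Finsupp.notMem_support_iff.1 hp
    by_cases hJ : p.1 ∈ J
    · rw [VB1b_res_in hJ]
    · rw [VB1b_res_out hJ, h0]
theorem res_eq_zero {J : Set ℕ} {v : V} (h : ∀ p ∈ v.support, p.1 ∉ J) : res J v = 0 := by
  ext p
  by_cases hp : p ∈ v.support
  · rw [VB1b_res_out (h p hp)]; rfl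
  · have h0 : v p = 0 := Finsupp.notMem_support_iff.1 hp
    by_cases hJ : p.1 ∈ J
    · rw [VB1b_res_in hJ, h0]; rfl
    · rw [VB1b_res_out hJ]; rfl
theorem res_congr {J K : Set ℕ} {v : V} (h : ∀ p ∈ v.support, p.1 ∈ J ↔ p.1 ∈ K) : res J v = res K v := by
  ext p
  by_cases hp : p ∈ v.support
  · by_cases hJ : p.1 ∈ J
    · rw [VB1b_res_in hJ, VB1b_res_in ((h p hp).1 hJ)]
    · rw [VB1b_res_out hJ, VB1b_res_out (fun hK => hJ ((h p hp).2 hK))]
  · have h0 : v p = 0 := Finsupp.notMem_support_iff.1 hp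
    have : ∀ L : Set ℕ, res L v p = 0 := by
      intro L
      by_cases hL : p.1 ∈ L
      · rw [VB1b_res_in hL, h0]
      · rw [VB1b_res_out hL]
    rw [this J, this K]
theorem res_col (J S : Set ℕ) (v : V) : res J (col S v) = col S (res J v) := by
  ext ⟨l, π⟩
  by_cases hJ : l ∈ J
  · rw [VB1b_res_in (p := (l, π)) hJ]
    cases π with
    | nil => rw [col_apply_nil, col_apply_nil]
    | cons s π =>
      by_cases hs : s ∈ S
      · rw [VB1b_col_in hs, VB1b_col_in hs, VB1b_res_in (p := (l, s :: π)) hJ]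
      · rw [VB1b_col_out hs, VB1b_col_out hs]
  · rw [VB1b_res_out (p := (l, π)) hJ]
    cases π with
    | nil => rw [col_apply_nil]
    | cons s π =>
      by_cases hs : s ∈ S
      · rw [VB1b_col_in hs, VB1b_res_out (p := (l, s :: π)) hJ]
      · rw [VB1b_col_out hs]
theorem res_leaf (J : Set ℕ) (v : V) : res J (leaf v) = leaf (res J v) := by
  ext ⟨l, π⟩
  by_cases hJ : l ∈ J
  · rw [VB1b_res_in (p := (l, π)) hJ]
    cases π with
    | nil => rw [VB1b_leaf_nil, VB1b_leaf_nil, VB1b_res_in (p := (l, [])) hJ]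
    | cons s π => rw [VB1b_leaf_cons, VB1b_leaf_cons]
  · rw [VB1b_res_out (p := (l, π)) hJ]
    cases π with
    | nil => rw [VB1b_leaf_nil, VB1b_res_out (p := (l, [])) hJ]
    | cons s π => rw [VB1b_leaf_cons]
theorem res_pre (J : Set ℕ) (s : ℕ) (v : V) : res J (pre s v) = pre s (res J v) := by
  ext ⟨l, π⟩
  by_cases hJ : l ∈ J
  · rw [VB1b_res_in (p := (l, π)) hJ]
    cases π with
    | nil => rw [pre_apply_nil, pre_apply_nil]
    | cons s' π =>
      by_cases hs : s' = s
      · subst hs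
        rw [pre_apply_cons, pre_apply_cons, VB1b_res_in (p := (l, π)) hJ]
      · rw [pre_apply_ne hs, pre_apply_ne hs]
  · rw [VB1b_res_out (p := (l, π)) hJ]
    cases π with
    | nil => rw [pre_apply_nil]
    | cons s' π =>
      by_cases hs : s' = s
      · subst hs
        rw [pre_apply_cons, VB1b_res_out (p := (l, π)) hJ]
      · rw [pre_apply_ne hs]
theorem res_comp (J : Set ℕ) (s : ℕ) (v : V) : res J (comp s v) = comp s (res J v) := by
  ext ⟨l, π⟩
  rw [comp_apply]
  by_cases hJ : l ∈ J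
  · rw [VB1b_res_in (p := (l, π)) hJ, VB1b_res_in (p := (l, s :: π)) hJ, comp_apply]
  · rw [VB1b_res_out (p := (l, π)) hJ, VB1b_res_out (p := (l, s :: π)) hJ]
theorem col_col (S T : Set ℕ) (v : V) : col S (col T v) = col (S ∩ T) v := by
  ext ⟨l, π⟩
  cases π with
  | nil => rw [col_apply_nil, col_apply_nil]
  | cons s π =>
    by_cases hS : s ∈ S
    · by_cases hT : s ∈ T
      · rw [VB1b_col_in hS, VB1b_col_in hT, VB1b_col_in (S := S ∩ T) ⟨hS, hT⟩]
      · rw [VB1b_col_in hS, VB1b_col_out hT, VB1b_col_out (fun h => hT h.2)]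
    · rw [VB1b_col_out hS, VB1b_col_out (fun h => hS h.1)]
theorem comp_pre (s : ℕ) (v : V) : comp s (pre s v) = v := by
  ext ⟨l, π⟩
  rw [comp_apply, pre_apply_cons]
theorem comp_pre_ne {s t : ℕ} (h : s ≠ t) (v : V) : comp s (pre t v) = 0 := by
  ext ⟨l, π⟩
  rw [comp_apply, pre_apply_ne h]; rfl
theorem pre_comp (s : ℕ) (v : V) : pre s (comp s v) = col {s} v := by
  ext ⟨l, π⟩
  cases π with
  | nil => rw [pre_apply_nil, col_apply_nil]
  | cons s' π =>
    by_cases hs : s' = s
    · subst hs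
      rw [pre_apply_cons, comp_apply, VB1b_col_in (Set.mem_singleton s')]
    · rw [pre_apply_ne hs, VB1b_col_out (by simpa using hs)]
theorem col_pre_mem {S : Set ℕ} {s : ℕ} (h : s ∈ S) (v : V) : col S (pre s v) = pre s v := by
  ext ⟨l, π⟩
  cases π with
  | nil => rw [col_apply_nil, pre_apply_nil]
  | cons s' π =>
    by_cases hs : s' = s
    · subst hs
      rw [VB1b_col_in h]
    · by_cases hS : s' ∈ S
      · rw [VB1b_col_in hS]
      · rw [VB1b_col_out hS, pre_apply_ne hs]
theorem col_pre_not {S : Set ℕ} {s : ℕ} (h : s ∉ S) (v : V) : col S (pre s v) = 0 := by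
  ext ⟨l, π⟩
  cases π with
  | nil => rw [col_apply_nil]; rfl
  | cons s' π =>
    by_cases hs : s' = s
    · subst hs
      rw [VB1b_col_out h]; rfl
    · by_cases hS : s' ∈ S
      · rw [VB1b_col_in hS, pre_apply_ne hs]; rfl
      · rw [VB1b_col_out hS]; rfl
theorem comp_col_mem {S : Set ℕ} {s : ℕ} (h : s ∈ S) (v : V) : comp s (col S v) = comp s v := by
  ext ⟨l, π⟩
  rw [comp_apply, comp_apply, VB1b_col_in h]
theorem comp_col_not {S : Set ℕ} {s : ℕ} (h : s ∉ S) (v : V) : comp s (col S v) = 0 := by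
  ext ⟨l, π⟩
  rw [comp_apply, VB1b_col_out h]; rfl
theorem leaf_pre (s : ℕ) (v : V) : leaf (pre s v) = 0 := by
  ext ⟨l, π⟩
  cases π with
  | nil => rw [VB1b_leaf_nil, pre_apply_nil]; rfl
  | cons s' π => rw [VB1b_leaf_cons]; rfl
theorem leaf_col (S : Set ℕ) (v : V) : leaf (col S v) = 0 := by
  ext ⟨l, π⟩
  cases π with
  | nil => rw [VB1b_leaf_nil, col_apply_nil]; rfl
  | cons s' π => rw [VB1b_leaf_cons]; rfl
theorem leaf_leaf (v : V) : leaf (leaf v) = leaf v := by
  ext ⟨l, π⟩
  cases π with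
  | nil => rw [VB1b_leaf_nil]
  | cons s' π => rw [VB1b_leaf_cons, VB1b_leaf_cons]
theorem col_leaf (S : Set ℕ) (v : V) : col S (leaf v) = 0 := by
  ext ⟨l, π⟩
  cases π with
  | nil => rw [col_apply_nil]; rfl
  | cons s' π =>
    by_cases hS : s' ∈ S
    · rw [VB1b_col_in hS, VB1b_leaf_cons]; rfl
    · rw [VB1b_col_out hS]; rfl
theorem comp_leaf (s : ℕ) (v : V) : comp s (leaf v) = 0 := by
  ext ⟨l, π⟩
  rw [comp_apply, VB1b_leaf_cons]; rfl
theorem VB1b_single_cons (l : ℕ) (c : ℚ) (l' s : ℕ) (π : List ℕ) : (Finsupp.single (l, []) c : V) (l', s :: π) = 0 := by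
  classical
  rw [Finsupp.single_apply, if_neg]
  intro h
  exact List.cons_ne_nil s π (Prod.mk.inj h).2.symm
theorem leaf_single (l : ℕ) (c : ℚ) : leaf (Finsupp.single (l, []) c) = Finsupp.single (l, []) c := by
  ext ⟨l', π⟩
  cases π with
  | nil => rw [VB1b_leaf_nil]
  | cons s' π => rw [VB1b_leaf_cons, VB1b_single_cons]
theorem col_single (S : Set ℕ) (l : ℕ) (c : ℚ) : col S (Finsupp.single (l, []) c) = 0 := by
  rw [← leaf_single, col_leaf]
theorem comp_single (s l : ℕ) (c : ℚ) : comp s (Finsupp.single (l, []) c) = 0 := by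
  rw [← leaf_single, comp_leaf]
theorem leaf_add_col (v : V) : leaf v + col Set.univ v = v := by
  ext ⟨l, π⟩
  rw [Finsupp.add_apply]
  cases π with
  | nil => rw [VB1b_leaf_nil, col_apply_nil, add_zero]
  | cons s' π => rw [VB1b_leaf_cons, VB1b_col_in (Set.mem_univ _), zero_add]
theorem col_union {S T : Set ℕ} (h : Disjoint S T) (v : V) : col (S ∪ T) v = col S v + col T v := by
  ext ⟨l, π⟩
  rw [Finsupp.add_apply]
  cases π with
  | nil => rw [col_apply_nil, col_apply_nil, col_apply_nil, add_zero]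
  | cons s π =>
    by_cases hS : s ∈ S
    · have hT : s ∉ T := fun h' => Set.disjoint_left.1 h hS h'
      rw [VB1b_col_in (S := S ∪ T) (Or.inl hS), VB1b_col_in hS, VB1b_col_out hT, add_zero]
    · by_cases hT : s ∈ T
      · rw [VB1b_col_in (S := S ∪ T) (Or.inr hT), VB1b_col_in hT, VB1b_col_out hS, zero_add]
      · rw [VB1b_col_out (S := S ∪ T) (fun h' => h'.elim hS hT), VB1b_col_out hT, VB1b_col_out hS, zero_add]
theorem col_finset (S : Finset ℕ) (v : V) : col (S : Set ℕ) v = ∑ s ∈ S, col {s} v := by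
  classical
  induction S using Finset.induction_on with
  | empty =>
    rw [Finset.sum_empty]
    ext ⟨l, π⟩
    cases π with
    | nil => rw [col_apply_nil]; rfl
    | cons s π => rw [VB1b_col_out (by simp)]; rfl
  | insert a S ha ih =>
    rw [Finset.sum_insert ha, ← ih, ← col_union (by simpa using ha), Finset.coe_insert, Set.insert_eq]
/-- symbols occurring in `v` -/
theorem exists_bound (v : V) : ∃ Q : ℕ, (∀ s, Q ≤ s → comp s v = 0) ∧ ∀ S : Set ℕ, col S v = col (S ∩ Set.Iio Q) v := by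
  classical
  have hv : ∀ p ∈ v.support, p.2.headI ≤ v.support.sup (fun p => p.2.headI) := fun p hp =>
    Finset.le_sup (f := fun p : Atom => p.2.headI) hp
  refine ⟨v.support.sup (fun p => p.2.headI) + 1, ?_, ?_⟩
  · intro s hs
    ext ⟨l, π⟩
    rw [comp_apply]
    by_contra hne
    have := hv (l, s :: π) (Finsupp.mem_support_iff.2 hne)
    simp only [List.headI_cons] at this
    omega
  · intro S
    ext ⟨l, π⟩
    cases π with
    | nil => rw [col_apply_nil, col_apply_nil]
    | cons s π =>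
      by_cases h0 : v (l, s :: π) = 0
      · have : ∀ T : Set ℕ, col T v (l, s :: π) = 0 := by
          intro T
          by_cases hT : s ∈ T
          · rw [VB1b_col_in hT, h0]
          · rw [VB1b_col_out hT]
        rw [this, this]
      · have h1 := hv (l, s :: π) (Finsupp.mem_support_iff.2 h0)
        simp only [List.headI_cons] at h1
        have h2 : s ∈ Set.Iio (v.support.sup (fun p => p.2.headI) + 1) := Nat.lt_succ_of_le h1
        by_cases hS : s ∈ S
        · rw [VB1b_col_in hS, VB1b_col_in (S := S ∩ Set.Iio _) ⟨hS, h2⟩]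
        · rw [VB1b_col_out hS, VB1b_col_out (fun h => hS h.1)]
/-- `v` = sum of its restrictions to disjoint pieces covering the support -/
theorem sum_res_eq {ι : Type*} (s : Finset ι) (J : ι → Set ℕ) (hd : ∀ i ∈ s, ∀ j ∈ s, i ≠ j → Disjoint (J i) (J j))
    (v : V) (h : ∀ p ∈ v.support, ∃ i ∈ s, p.1 ∈ J i) : ∑ i ∈ s, res (J i) v = v := by
  classical
  ext p
  rw [Finsupp.finsetSum_apply]
  by_cases hp : p ∈ v.support
  · obtain ⟨i, hi, hpi⟩ := h p hp
    rw [Finset.sum_eq_single_of_mem i hi, VB1b_res_in hpi]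
    intro j hj hji
    exact VB1b_res_out (fun hpj => Set.disjoint_left.1 (hd j hj i hi hji) hpj hpi)
  · have h0 : v p = 0 := Finsupp.notMem_support_iff.1 hp
    rw [h0]
    apply Finset.sum_eq_zero
    intro j _
    by_cases hJ : p.1 ∈ J j
    · rw [VB1b_res_in hJ, h0]
    · rw [VB1b_res_out hJ]

end H94.WH
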