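import Pool.Agent.H94.WH.VB1b

/-!
# MODULE VB2: the Hilbert norm `nrm` of a lift
`nrm v = sqrt (∑ a ∈ v.support, (v a)^2)`. For `nrm_pre`/`nrm_comp` re-index the sums (`Finsupp.sum_mapDomain_index_inj`,
or `Finset.sum_bij`). For the sums over disjoint pieces: exchange sums, each atom is in at most one piece.
-/

set_option autoImplicit false

namespace H94.WH

open Finset

theorem nrm_nonneg (v : V) : 0 ≤ nrm v := Real.sqrt_nonneg _
theorem nrm_sq (v : V) : nrm v ^ 2 = ∑ a ∈ v.support, (v a : ℝ) ^ 2 := by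
  unfold nrm
  rw [Real.sq_sqrt (Finset.sum_nonneg fun a _ => sq_nonneg _)]
/-- sum over any finite set containing the support -/
theorem nrm_sq_of_subset (v : V) (s : Finset Atom) (h : v.support ⊆ s) : nrm v ^ 2 = ∑ a ∈ s, (v a : ℝ) ^ 2 := by
  rw [nrm_sq]
  apply Finset.sum_subset h
  intro a _ ha
  rw [Finsupp.notMem_support_iff.1 ha]; simp
theorem VB2_le {v w : V} (h : nrm v ^ 2 ≤ nrm w ^ 2) : nrm v ≤ nrm w :=
  (pow_le_pow_iff_left₀ (nrm_nonneg v) (nrm_nonneg w) two_ne_zero).1 h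
theorem nrm_zero : nrm 0 = 0 := by
  unfold nrm; simp
theorem nrm_eq_zero {v : V} (h : nrm v = 0) : v = 0 := by
  have h2 : ∑ a ∈ v.support, (v a : ℝ) ^ 2 = 0 := by rw [← nrm_sq, h]; norm_num
  rw [Finset.sum_eq_zero_iff_of_nonneg (fun a _ => sq_nonneg _)] at h2
  ext a
  by_contra ha
  have h3 := h2 a (Finsupp.mem_support_iff.2 ha)
  rw [sq_eq_zero_iff] at h3
  exact ha (by exact_mod_cast h3)
theorem nrm_smul (c : ℚ) (v : V) : nrm (c • v) = |(c : ℝ)| * nrm v := by
  have h : nrm (c • v) ^ 2 = (|(c : ℝ)| * nrm v) ^ 2 := by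
    rw [nrm_sq_of_subset (c • v) v.support Finsupp.support_smul, mul_pow, nrm_sq, sq_abs, Finset.mul_sum]
    apply Finset.sum_congr rfl
    intro a _
    rw [Finsupp.smul_apply, smul_eq_mul, Rat.cast_mul, mul_pow]
  exact (pow_left_inj₀ (nrm_nonneg _) (mul_nonneg (abs_nonneg _) (nrm_nonneg v)) two_ne_zero).1 h
theorem nrm_single (p : Atom) (c : ℚ) : nrm (Finsupp.single p c) = |(c : ℝ)| := by
  classical
  have h : nrm (Finsupp.single p c) ^ 2 = |(c : ℝ)| ^ 2 := by
    rw [nrm_sq_of_subset _ {p} Finsupp.support_single_subset, Finset.sum_singleton, Finsupp.single_eq_same, sq_abs]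
  exact (pow_left_inj₀ (nrm_nonneg _) (abs_nonneg _) two_ne_zero).1 h
theorem nrm_add_le (v w : V) : nrm (v + w) ≤ nrm v + nrm w := by
  classical
  set s := v.support ∪ w.support
  have hv : nrm v ^ 2 = ∑ a ∈ s, (v a : ℝ) ^ 2 := nrm_sq_of_subset v s Finset.subset_union_left
  have hw : nrm w ^ 2 = ∑ a ∈ s, (w a : ℝ) ^ 2 := nrm_sq_of_subset w s Finset.subset_union_right
  have hvw : nrm (v + w) ^ 2 = ∑ a ∈ s, ((v + w) a : ℝ) ^ 2 := nrm_sq_of_subset (v + w) s Finsupp.support_add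
  have cs := Finset.sum_mul_sq_le_sq_mul_sq s (fun a => (v a : ℝ)) (fun a => (w a : ℝ))
  rw [← hv, ← hw] at cs
  have cs2 : ∑ a ∈ s, (v a : ℝ) * (w a : ℝ) ≤ nrm v * nrm w := by
    apply le_of_sq_le_sq _ (mul_nonneg (nrm_nonneg v) (nrm_nonneg w))
    rw [mul_pow]; exact cs
  apply le_of_sq_le_sq _ (add_nonneg (nrm_nonneg v) (nrm_nonneg w))
  have e : nrm (v + w) ^ 2 = nrm v ^ 2 + 2 * ∑ a ∈ s, (v a : ℝ) * (w a : ℝ) + nrm w ^ 2 := by
    rw [hvw, hv, hw, Finset.mul_sum, ← Finset.sum_add_distrib, ← Finset.sum_add_distrib]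
    apply Finset.sum_congr rfl
    intro a _
    rw [Finsupp.add_apply, Rat.cast_add]; ring
  rw [e]; nlinarith
theorem VB2_filter_le {v w : V} (h : ∀ a, w a = 0 ∨ w a = v a) : nrm w ≤ nrm v := by
  apply VB2_le
  have hs : w.support ⊆ v.support := by
    intro a ha
    rw [Finsupp.mem_support_iff] at ha ⊢
    rcases h a with h | h
    · exact absurd h ha
    · rwa [← h]
  rw [nrm_sq_of_subset w _ hs, nrm_sq]
  apply Finset.sum_le_sum
  intro a _
  rcases h a with h | h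
  · rw [h]; simpa using sq_nonneg ((v a : ℝ))
  · rw [h]
theorem nrm_res_le (J : Set ℕ) (v : V) : nrm (res J v) ≤ nrm v := by
  classical
  apply VB2_filter_le
  intro a
  rw [res_apply]
  by_cases h : a.1 ∈ J <;> simp [h]
theorem nrm_col_le (S : Set ℕ) (v : V) : nrm (col S v) ≤ nrm v := by
  classical
  apply VB2_filter_le
  rintro ⟨l, π⟩
  cases π with
  | nil => left; exact col_apply_nil S v l
  | cons s π =>
    rw [col_apply_cons]
    by_cases h : s ∈ S <;> simp [h]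
theorem nrm_leaf_le (v : V) : nrm (leaf v) ≤ nrm v := by
  classical
  apply VB2_filter_le
  intro a
  rw [leaf_apply]
  by_cases h : a.2 = [] <;> simp [h]
theorem nrm_pre (s : ℕ) (v : V) : nrm (pre s v) = nrm v := by
  classical
  have h : nrm (pre s v) ^ 2 = nrm v ^ 2 := by
    have e : (pre s v).support ⊆ v.support.image (fun a => ((a.1, s :: a.2) : Atom)) := by
      intro p hp
      obtain ⟨q, hq, rfl⟩ := mem_pre.1 hp
      exact Finset.mem_image_of_mem _ hq
    rw [nrm_sq_of_subset _ _ e, Finset.sum_image (fun a _ b _ h => VB1_inj s h), nrm_sq]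
    apply Finset.sum_congr rfl
    rintro ⟨l, π⟩ _
    rw [pre_apply_cons]
  exact (pow_left_inj₀ (nrm_nonneg _) (nrm_nonneg v) two_ne_zero).1 h
theorem nrm_comp (s : ℕ) (v : V) : nrm (comp s v) = nrm (col {s} v) := by
  rw [← pre_comp, nrm_pre]
theorem nrm_comp_le (s : ℕ) (v : V) : nrm (comp s v) ≤ nrm v := by
  rw [nrm_comp]; exact nrm_col_le _ _
theorem abs_apply_le (v : V) (p : Atom) : |(v p : ℝ)| ≤ nrm v := by
  classical
  apply le_of_sq_le_sq _ (nrm_nonneg v)
  rw [sq_abs, nrm_sq]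
  by_cases h : p ∈ v.support
  · exact Finset.single_le_sum (f := fun a => (v a : ℝ) ^ 2) (fun a _ => sq_nonneg _) h
  · rw [Finsupp.notMem_support_iff.1 h]
    simp only [Rat.cast_zero, ne_eq, OfNat.ofNat_ne_zero, not_false_eq_true, zero_pow]
    exact Finset.sum_nonneg fun a _ => sq_nonneg _
/-- Bessel for disjoint position sets -/
theorem sum_nrm_res_sq_le {ι : Type*} (s : Finset ι) (J : ι → Set ℕ)
    (hd : ∀ i ∈ s, ∀ j ∈ s, i ≠ j → Disjoint (J i) (J j)) (v : V) :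
    ∑ i ∈ s, nrm (res (J i) v) ^ 2 ≤ nrm v ^ 2 := by
  classical
  have h1 : ∀ i ∈ s, nrm (res (J i) v) ^ 2 = ∑ a ∈ v.support, (if a.1 ∈ J i then (v a : ℝ) ^ 2 else 0) := by
    intro i _
    have hs : (res (J i) v).support ⊆ v.support := fun p hp => (mem_res.1 hp).1
    rw [nrm_sq_of_subset _ _ hs]
    apply Finset.sum_congr rfl
    intro a _
    rw [res_apply]
    by_cases h : a.1 ∈ J i <;> simp [h]
  rw [Finset.sum_congr rfl h1, Finset.sum_comm, nrm_sq]
  apply Finset.sum_le_sum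
  intro a _
  by_cases h : ∃ i ∈ s, a.1 ∈ J i
  · obtain ⟨i, hi, ha⟩ := h
    rw [Finset.sum_eq_single_of_mem i hi, if_pos ha]
    intro j hj hji
    rw [if_neg]
    intro hj'
    exact Set.disjoint_left.1 (hd j hj i hi hji) hj' ha
  · rw [Finset.sum_eq_zero]
    · exact sq_nonneg _
    · intro i hi
      rw [if_neg]
      intro h'
      exact h ⟨i, hi, h'⟩
/-- Pythagoras for sums of pieces living on disjoint position sets -/
theorem nrm_sum_sq {ι : Type*} (s : Finset ι) (J : ι → Set ℕ)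
    (hd : ∀ i ∈ s, ∀ j ∈ s, i ≠ j → Disjoint (J i) (J j)) (u : ι → V)
    (hu : ∀ i ∈ s, ∀ p ∈ (u i).support, p.1 ∈ J i) : nrm (∑ i ∈ s, u i) ^ 2 = ∑ i ∈ s, nrm (u i) ^ 2 := by
  classical
  set S : Finset Atom := s.biUnion (fun i => (u i).support) with hS
  have hsub : (∑ i ∈ s, u i).support ⊆ S := by
    intro p hp
    by_contra hn
    rw [Finsupp.mem_support_iff, Finsupp.finsetSum_apply] at hp
    apply hp
    apply Finset.sum_eq_zero
    intro i hi
    by_contra h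
    exact hn (Finset.mem_biUnion.2 ⟨i, hi, Finsupp.mem_support_iff.2 h⟩)
  have h1 : ∀ i ∈ s, nrm (u i) ^ 2 = ∑ a ∈ S, (u i a : ℝ) ^ 2 := fun i hi =>
    nrm_sq_of_subset _ _ (fun p hp => Finset.mem_biUnion.2 ⟨i, hi, hp⟩)
  rw [Finset.sum_congr rfl h1, Finset.sum_comm, nrm_sq_of_subset _ _ hsub]
  apply Finset.sum_congr rfl
  intro a ha
  obtain ⟨i, hi, hia⟩ := Finset.mem_biUnion.1 ha
  have hz : ∀ j ∈ s, j ≠ i → u j a = 0 := by
    intro j hj hji
    by_contra h
    exact Set.disjoint_left.1 (hd j hj i hi hji) (hu j hj a (Finsupp.mem_support_iff.2 h)) (hu i hi a hia)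
  rw [Finsupp.finsetSum_apply, Finset.sum_eq_single_of_mem i hi hz,
    Finset.sum_eq_single_of_mem i hi (fun j hj hji => by rw [hz j hj hji]; simp)]

end H94.WH
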