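import Pool.Agent.H94.WH.VL2
import Pool.Agent.H94.WH.PAR

/-!
# MODULE VB3: the pairing `Phi`
`Phi v x = v.sum (fun a c => c * wt a.2 * x a.1)`; bilinear (rational scalars on the left, `𝕜`- and `ℝ`-scalars on the right; `(c : ℝ) • x` for `x : ℕ →₀ 𝕜` is `(c : 𝕜) • x`).
-/

set_option autoImplicit false

namespace H94.WH

open Finset

variable {𝕜 : Type} [RCLike 𝕜]

theorem wt_nil : wt [] = 1 := by
  unfold wt; simp
theorem wt_cons (s : ℕ) (π : List ℕ) : wt (s :: π) = ((m s : ℝ))⁻¹ * wt π := by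
  unfold wt; simp
theorem wt_pos (π : List ℕ) : 0 < wt π := by
  induction π with
  | nil => rw [wt_nil]; exact one_pos
  | cons s π ih => rw [wt_cons]; exact mul_pos (inv_pos.2 (m_pos s)) ih

/-- `Phi` as a sum over any finset containing the support -/
theorem VB3_Phi_subset (v : V) (x : X0 𝕜) (s : Finset Atom) (h : v.support ⊆ s) :
    Phi v x = ∑ a ∈ s, ((((v a : ℚ) : ℝ) * wt a.2 : ℝ) : 𝕜) * x a.1 := by
  unfold Phi Finsupp.sum
  apply Finset.sum_subset h
  intro a _ ha
  rw [Finsupp.notMem_support_iff.1 ha]; simp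
theorem Phi_zero_left (x : X0 𝕜) : Phi 0 x = 0 := by
  unfold Phi; exact Finsupp.sum_zero_index
theorem Phi_add_left (v w : V) (x : X0 𝕜) : Phi (v + w) x = Phi v x + Phi w x := by
  unfold Phi
  apply Finsupp.sum_add_index'
  · intro a; simp
  · intro a c d
    push_cast
    ring
theorem Phi_smul_left (c : ℚ) (v : V) (x : X0 𝕜) : Phi (c • v) x = ((c : ℝ) : 𝕜) * Phi v x := by
  rw [VB3_Phi_subset (c • v) x v.support Finsupp.support_smul, VB3_Phi_subset v x v.support subset_rfl, Finset.mul_sum]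
  apply Finset.sum_congr rfl
  intro a _
  rw [Finsupp.smul_apply, smul_eq_mul]
  push_cast
  ring
theorem Phi_sum_left {ι : Type*} (s : Finset ι) (u : ι → V) (x : X0 𝕜) :
    Phi (∑ i ∈ s, u i) x = ∑ i ∈ s, Phi (u i) x := by
  classical
  induction s using Finset.induction_on with
  | empty => simp [Phi_zero_left]
  | insert a s ha ih => rw [Finset.sum_insert ha, Finset.sum_insert ha, Phi_add_left, ih]
theorem Phi_zero_right (v : V) : Phi v (0 : X0 𝕜) = 0 := by
  unfold Phi Finsupp.sum; simp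
theorem Phi_add_right (v : V) (x y : X0 𝕜) : Phi v (x + y) = Phi v x + Phi v y := by
  unfold Phi Finsupp.sum
  rw [← Finset.sum_add_distrib]
  apply Finset.sum_congr rfl
  intro a _
  beta_reduce
  rw [Finsupp.add_apply]; ring
theorem Phi_smul_right (v : V) (c : 𝕜) (x : X0 𝕜) : Phi v (c • x) = c * Phi v x := by
  unfold Phi Finsupp.sum
  rw [Finset.mul_sum]
  apply Finset.sum_congr rfl
  intro a _
  beta_reduce
  rw [Finsupp.smul_apply, smul_eq_mul]; ring
theorem Phi_smul_real (v : V) (c : ℝ) (x : X0 𝕜) : Phi v (c • x) = (c : 𝕜) * Phi v x := by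
  rw [← Phi_smul_right]
  congr 1
  ext l
  rw [Finsupp.smul_apply, Finsupp.smul_apply, smul_eq_mul, RCLike.real_smul_eq_coe_mul]
theorem Phi_sum_right {ι : Type*} (v : V) (s : Finset ι) (x : ι → X0 𝕜) :
    Phi v (∑ i ∈ s, x i) = ∑ i ∈ s, Phi v (x i) := by
  classical
  induction s using Finset.induction_on with
  | empty => simp [Phi_zero_right]
  | insert a s ha ih => rw [Finset.sum_insert ha, Finset.sum_insert ha, Phi_add_right, ih]
theorem Phi_neg_right (v : V) (x : X0 𝕜) : Phi v (-x) = - Phi v x := by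
  have h := Phi_add_right v x (-x)
  rw [add_neg_cancel, Phi_zero_right] at h
  exact (neg_eq_of_add_eq_zero_right h.symm).symm
theorem Phi_sub_right (v : V) (x y : X0 𝕜) : Phi v (x - y) = Phi v x - Phi v y := by
  rw [sub_eq_add_neg, Phi_add_right, Phi_neg_right, sub_eq_add_neg]
theorem Phi_single (l : ℕ) (c : ℚ) (x : X0 𝕜) : Phi (Finsupp.single (l, []) c) x = ((c : ℝ) : 𝕜) * x l := by
  classical
  rw [VB3_Phi_subset _ x {(l, [])} Finsupp.support_single_subset, Finset.sum_singleton, Finsupp.single_eq_same, wt_nil,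
    mul_one]
theorem Phi_pre (s : ℕ) (v : V) (x : X0 𝕜) : Phi (pre s v) x = (((m s : ℝ)⁻¹ : ℝ) : 𝕜) * Phi v x := by
  classical
  have e : (pre s v).support ⊆ v.support.image (fun a => ((a.1, s :: a.2) : Atom)) := by
    intro p hp
    obtain ⟨q, hq, rfl⟩ := mem_pre.1 hp
    exact Finset.mem_image_of_mem _ hq
  rw [VB3_Phi_subset _ x _ e, Finset.sum_image (fun a _ b _ h => VB1_inj s h),
    VB3_Phi_subset v x v.support subset_rfl, Finset.mul_sum]
  apply Finset.sum_congr rfl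
  rintro ⟨l, π⟩ _
  simp only [pre_apply_cons, wt_cons]
  push_cast
  ring
theorem Phi_col_single (s : ℕ) (v : V) (x : X0 𝕜) :
    Phi (col {s} v) x = (((m s : ℝ)⁻¹ : ℝ) : 𝕜) * Phi (comp s v) x := by
  rw [← pre_comp, Phi_pre]
theorem norm_Phi_smul_left (c : ℚ) (v : V) (x : X0 𝕜) : ‖Phi (c • v) x‖ = |(c : ℝ)| * ‖Phi v x‖ := by
  rw [Phi_smul_left, norm_mul, RCLike.norm_ofReal]
theorem norm_Phi_pre (s : ℕ) (v : V) (x : X0 𝕜) : ‖Phi (pre s v) x‖ = (m s : ℝ)⁻¹ * ‖Phi v x‖ := by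
  rw [Phi_pre, norm_mul, RCLike.norm_ofReal, abs_of_pos (inv_pos.2 (m_pos s))]
theorem norm_Phi_col_single (s : ℕ) (v : V) (x : X0 𝕜) :
    ‖Phi (col {s} v) x‖ = (m s : ℝ)⁻¹ * ‖Phi (comp s v) x‖ := by
  rw [Phi_col_single, norm_mul, RCLike.norm_ofReal, abs_of_pos (inv_pos.2 (m_pos s))]
/-- restriction does not matter if `x` lives on `J` -/
theorem Phi_res {J : Set ℕ} (v : V) (x : X0 𝕜) (h : ∀ l ∈ x.support, l ∈ J) : Phi (res J v) x = Phi v x := by
  classical
  have hs : (res J v).support ⊆ v.support := fun p hp => (mem_res.1 hp).1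
  rw [VB3_Phi_subset _ x _ hs, VB3_Phi_subset v x v.support subset_rfl]
  apply Finset.sum_congr rfl
  intro a _
  rw [res_apply]
  by_cases hx : x a.1 = 0
  · rw [hx]; simp
  · rw [if_pos (h _ (Finsupp.mem_support_iff.2 hx))]
theorem Phi_res_eq (J : Set ℕ) (v : V) (x : X0 𝕜) : Phi (res J v) x = Phi v (resX J x) := by
  classical
  have hs : (res J v).support ⊆ v.support := fun p hp => (mem_res.1 hp).1
  rw [VB3_Phi_subset _ x _ hs, VB3_Phi_subset v _ v.support subset_rfl]
  apply Finset.sum_congr rfl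
  intro a _
  rw [res_apply]
  unfold resX
  rw [Finsupp.filter_apply]
  by_cases hx : a.1 ∈ J
  · simp [hx]
  · simp [hx]
theorem Phi_eq_zero_of_disj (v : V) (x : X0 𝕜) (h : ∀ p ∈ v.support, p.1 ∉ x.support) : Phi v x = 0 := by
  unfold Phi Finsupp.sum
  apply Finset.sum_eq_zero
  intro a ha
  beta_reduce
  rw [Finsupp.notMem_support_iff.1 (h a ha), mul_zero]

end H94.WH
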