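import Pool.Agent.H94.WH.VB2

/-!
# MODULE VL2: `l2` and the two Cauchy-Schwarz lemmas
`Finset.sum_mul_le_sqrt_mul_sqrt` or `Finset.sum_mul_sq_le_sq_mul_sq`, then `sum_nrm_res_sq_le`.
-/

set_option autoImplicit false

namespace H94.WH

open Finset

/-! `l2` -/
theorem l2_nonneg (a : ℕ → ℝ) (B : Finset ℕ) : 0 ≤ l2 a B := Real.sqrt_nonneg _
theorem l2_sq (a : ℕ → ℝ) (B : Finset ℕ) : l2 a B ^ 2 = ∑ k ∈ B, a k ^ 2 := by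
  unfold l2
  rw [Real.sq_sqrt (Finset.sum_nonneg fun a _ => sq_nonneg _)]
theorem l2_mono (a : ℕ → ℝ) {B B' : Finset ℕ} (h : B ⊆ B') : l2 a B ≤ l2 a B' := by
  unfold l2
  apply Real.sqrt_le_sqrt
  exact Finset.sum_le_sum_of_subset_of_nonneg h (fun i _ _ => sq_nonneg _)
theorem l2_empty (a : ℕ → ℝ) : l2 a ∅ = 0 := by
  unfold l2; simp
theorem l2_congr {a b : ℕ → ℝ} (B : Finset ℕ) (h : ∀ k ∈ B, a k ^ 2 = b k ^ 2) : l2 a B = l2 b B := by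
  unfold l2
  rw [Finset.sum_congr rfl h]
theorem l2_le_sqrt {a : ℕ → ℝ} {B : Finset ℕ} {δ : ℝ} (h : ∑ k ∈ B, a k ^ 2 ≤ δ) : l2 a B ≤ Real.sqrt δ :=
  Real.sqrt_le_sqrt h
/-- general Cauchy-Schwarz -/
theorem VL2_cs {ι : Type*} (s : Finset ι) (f h : ι → ℝ) {A B : ℝ} (hA : 0 ≤ A) (hB : 0 ≤ B)
    (hf : ∑ i ∈ s, f i ^ 2 ≤ A ^ 2) (hh : ∑ i ∈ s, h i ^ 2 ≤ B ^ 2) : ∑ i ∈ s, f i * h i ≤ A * B := by
  have cs := Finset.sum_mul_sq_le_sq_mul_sq s f h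
  apply le_of_sq_le_sq _ (mul_nonneg hA hB)
  rw [mul_pow]
  exact cs.trans (mul_le_mul hf hh (Finset.sum_nonneg fun i _ => sq_nonneg _) (sq_nonneg _))
/-- Cauchy-Schwarz: terms `|a_k| * nrm (v|J_k)` -/
theorem sum_abs_mul_nrm_le (B : Finset ℕ) (J : ℕ → Set ℕ)
    (hd : ∀ i ∈ B, ∀ j ∈ B, i ≠ j → Disjoint (J i) (J j)) (v : V) (a : ℕ → ℝ) :
    ∑ k ∈ B, |a k| * nrm (res (J k) v) ≤ nrm v * l2 a B := by
  rw [mul_comm]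
  apply VL2_cs B _ _ (l2_nonneg a B) (nrm_nonneg v)
  · rw [l2_sq]
    apply le_of_eq
    exact Finset.sum_congr rfl fun i _ => sq_abs _
  · exact sum_nrm_res_sq_le B J hd v
/-- Cauchy-Schwarz over groups of indices: `∑_i nrm (v|J_i) * l2 a (B i) ≤ nrm v * l2 a (⋃ B i)`, `B i` disjoint -/
theorem sum_nrm_mul_l2_le {ι : Type*} [DecidableEq ι] (s : Finset ι) (J : ι → Set ℕ)
    (hd : ∀ i ∈ s, ∀ j ∈ s, i ≠ j → Disjoint (J i) (J j)) (v : V) (a : ℕ → ℝ) (B : ι → Finset ℕ)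
    (hB : ∀ i ∈ s, ∀ j ∈ s, i ≠ j → Disjoint (B i) (B j)) :
    ∑ i ∈ s, nrm (res (J i) v) * l2 a (B i) ≤ nrm v * l2 a (s.biUnion B) := by
  apply VL2_cs s _ _ (nrm_nonneg v) (l2_nonneg a _)
  · exact sum_nrm_res_sq_le s J hd v
  · rw [l2_sq, Finset.sum_biUnion (fun i hi j hj hij => hB i hi j hj hij)]
    apply le_of_eq
    exact Finset.sum_congr rfl fun i _ => l2_sq _ _

end H94.WH
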