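import Mathlib

/-!
# MODULE WH1: nets in spheres of finite-dimensional spaces
Real dimension `n' = finrank ℝ F = finrank ℝ 𝕜 * finrank 𝕜 F ≤ 2 * finrank 𝕜 F` (use `NormedSpace.restrictScalars ℝ 𝕜 F` / `Module.complexToReal`-like instances locally).
A `1/2`-separated finite subset of the unit sphere has at most `5^n'` elements: `Besicovitch.card_le_of_separated` applied to `2 • s`; take a finset `s` of unit vectors, pairwise at distance `≥ 1/2`, of maximal
cardinality (bounded by `5^n' ≤ 25^(finrank 𝕜 F)`); every unit vector is within `1/2` of an element of `s`.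
-/

set_option autoImplicit false

namespace H94.WH

open Module

theorem WH1_two (𝕜 : Type) [RCLike 𝕜] : finrank ℝ 𝕜 ≤ 2 := by
  classical
  have h1 : Submodule.span ℝ (({1, RCLike.I} : Finset 𝕜) : Set 𝕜) = ⊤ := by
    rw [eq_top_iff]
    intro z _
    have h2 : z = (RCLike.re z) • (1 : 𝕜) + (RCLike.im z) • (RCLike.I : 𝕜) := by
      rw [RCLike.real_smul_eq_coe_mul, RCLike.real_smul_eq_coe_mul, mul_one]
      exact (RCLike.re_add_im z).symm
    rw [h2]
    apply Submodule.add_mem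
    · exact Submodule.smul_mem _ _ (Submodule.subset_span (by simp))
    · exact Submodule.smul_mem _ _ (Submodule.subset_span (by simp))
  have h3 := finrank_span_finset_le_card (R := ℝ) ({1, RCLike.I} : Finset 𝕜)
  rw [Set.finrank, h1, finrank_top] at h3
  exact h3.trans Finset.card_le_two

theorem WH1_bound (𝕜 : Type) [RCLike 𝕜] {F : Type*} [NormedAddCommGroup F] [NormedSpace 𝕜 F]
    [FiniteDimensional 𝕜 F] (s : Finset F) (h1 : ∀ y ∈ s, ‖y‖ = 1)
    (h2 : ∀ y ∈ s, ∀ z ∈ s, y ≠ z → 1 / 2 ≤ ‖y - z‖) : s.card ≤ 25 ^ finrank 𝕜 F := by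
  classical
  letI : NormedSpace ℝ F := NormedSpace.restrictScalars ℝ 𝕜 F
  haveI : IsScalarTower ℝ 𝕜 F := RestrictScalars.isScalarTower ℝ 𝕜 F
  haveI : FiniteDimensional ℝ F := Module.Finite.trans (R := ℝ) 𝕜 F
  have hinj : Function.Injective (fun y : F => (2 : ℝ) • y) := fun y z h => by
    simpa using h
  have h3 : (s.image (fun y : F => (2 : ℝ) • y)).card ≤ 5 ^ finrank ℝ F := by
    apply Besicovitch.card_le_of_separated
    · intro c hc
      obtain ⟨y, hy, rfl⟩ := Finset.mem_image.mp hc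
      rw [norm_smul, h1 y hy]
      norm_num
    · intro c hc d hd hcd
      obtain ⟨y, hy, rfl⟩ := Finset.mem_image.mp hc
      obtain ⟨z, hz, rfl⟩ := Finset.mem_image.mp hd
      have hne : y ≠ z := fun h => hcd (by rw [h])
      have := h2 y hy z hz hne
      rw [← smul_sub, norm_smul, Real.norm_ofNat]
      linarith
  rw [Finset.card_image_of_injective _ hinj] at h3
  have h4 : finrank ℝ F ≤ 2 * finrank 𝕜 F := by
    rw [← Module.finrank_mul_finrank ℝ 𝕜 F]
    exact Nat.mul_le_mul_right _ (WH1_two 𝕜)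
  calc s.card ≤ 5 ^ finrank ℝ F := h3
    _ ≤ 5 ^ (2 * finrank 𝕜 F) := Nat.pow_le_pow_right (by norm_num) h4
    _ = 25 ^ finrank 𝕜 F := by rw [pow_mul]; norm_num

theorem exists_net (𝕜 : Type) [RCLike 𝕜] {F : Type*} [NormedAddCommGroup F] [NormedSpace 𝕜 F] [FiniteDimensional 𝕜 F] :
    ∃ s : Finset F, s.card ≤ 25 ^ finrank 𝕜 F ∧ (∀ y ∈ s, ‖y‖ = 1) ∧
      ∀ x : F, ‖x‖ = 1 → ∃ y ∈ s, ‖x - y‖ ≤ 1 / 2 := by
  classical
  set P : ℕ → Prop := fun n => ∃ s : Finset F, s.card = n ∧ (∀ y ∈ s, ‖y‖ = 1) ∧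
    (∀ y ∈ s, ∀ z ∈ s, y ≠ z → 1 / 2 ≤ ‖y - z‖) with hP
  have hP0 : P 0 := ⟨∅, by simp, by simp, by simp⟩
  have hbd : ∀ n, P n → n ≤ 25 ^ finrank 𝕜 F := by
    rintro n ⟨s, rfl, h1, h2⟩
    exact WH1_bound 𝕜 s h1 h2
  set n := Nat.findGreatest P (25 ^ finrank 𝕜 F) with hn
  have hPn : P n := Nat.findGreatest_spec (P := P) (Nat.zero_le _) hP0
  have hmax : ∀ k, P k → k ≤ n := fun k hk => Nat.le_findGreatest (hbd k hk) hk
  obtain ⟨s, hs, h1, h2⟩ := hPn
  refine ⟨s, hs ▸ Nat.findGreatest_le _, h1, ?_⟩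
  intro x hx
  by_contra hcon
  push Not at hcon
  have hxs : x ∉ s := by
    intro h
    have := hcon x h
    rw [sub_self, norm_zero] at this
    linarith
  have h3 : P (n + 1) := by
    refine ⟨insert x s, by rw [Finset.card_insert_of_notMem hxs, hs], ?_, ?_⟩
    · intro y hy
      rcases Finset.mem_insert.mp hy with rfl | hy
      · exact hx
      · exact h1 y hy
    · intro y hy z hz hyz
      rcases Finset.mem_insert.mp hy with h | hy
      · rcases Finset.mem_insert.mp hz with h' | hz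
        · exact absurd (h.trans h'.symm) hyz
        · rw [h]; exact (hcon z hz).le
      · rcases Finset.mem_insert.mp hz with h' | hz
        · rw [h', norm_sub_rev]; exact (hcon y hy).le
        · exact h2 y hy z hz hyz
  have := hmax _ h3
  omega

end H94.WH
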