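import Pool.Agent.H94.WH.SP

/-!
# MODULE WH2: the merge bound
For rational `t`: `w = ∑ t_i • u_i` is such that `pre 0 w ∈ C` (constructor `merge` with `t_i • u_i`), so `‖PhiX w x‖ = 4 ‖PhiX (pre 0 w) x‖ ≤ 4 nrm w ‖x‖` (`m_zero`), and `nrm w = √(∑_{a ∈ S} (w a)^2)` for every finset `S` containing the supports.
For real `t`: both sides are continuous in `t` and the rational points are dense (`Rat.denseRange_cast`, `DenseRange.piMap`, or a sequence of rational points).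
For `t : Fin N → 𝕜` split `t = re t + I im t`: `≤ 4 (‖∑ re t_i u_i‖ + ‖∑ im t_i u_i‖) ‖x‖ ≤ 8 ‖∑ t_i u_i‖ ‖x‖`.
-/

set_option autoImplicit false

namespace H94.WH

open Finset

variable {𝕜 : Type} [RCLike 𝕜]

theorem WH2_rat {b N : ℕ} (hN : N ≤ g b) (u : Fin N → V) (hu : ∀ i, C (u i))
    (hb : ∀ i, ∀ p ∈ (u i).support, b ≤ p.1) (S : Finset Atom) (hS : ∀ i, (u i).support ⊆ S)
    (t : Fin N → ℚ) (x : XB 𝕜) :
    ‖∑ i, (((t i : ℝ)) : 𝕜) * PhiX (u i) x‖ ≤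
      4 * Real.sqrt (∑ a ∈ S, (∑ i, (t i : ℝ) * (((u i) a : ℚ) : ℝ)) ^ 2) * ‖x‖ := by
  set w : V := ∑ i, t i • u i with hw
  have hC : C (pre 0 w) := by
    refine C.merge b N hN (fun i => t i • u i) (fun i => C.smul (t i) (hu i)) ?_
    intro i p hp
    exact hb i p (Finsupp.support_smul hp)
  have h1 := PhiX_le hC x
  rw [nrm_pre, PhiX_pre] at h1
  have hm : (m 0 : ℝ) = 4 := by norm_num [m]
  rw [hm, norm_mul, RCLike.norm_ofReal] at h1
  have h2 : PhiX w x = ∑ i, (((t i : ℝ)) : 𝕜) * PhiX (u i) x := by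
    rw [hw, PhiX_sum]
    exact Finset.sum_congr rfl (fun i _ => PhiX_smul _ _ _)
  have hwS : w.support ⊆ S := by
    rw [hw]
    refine (Finsupp.support_finsetSum).trans ?_
    intro p hp
    obtain ⟨i, _, hi⟩ := Finset.mem_biUnion.1 hp
    exact hS i (Finsupp.support_smul hi)
  have h3 : nrm w = Real.sqrt (∑ a ∈ S, (∑ i, (t i : ℝ) * (((u i) a : ℚ) : ℝ)) ^ 2) := by
    rw [← Real.sqrt_sq (nrm_nonneg w), nrm_sq_of_subset w S hwS]
    congr 1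
    refine Finset.sum_congr rfl (fun a _ => ?_)
    congr 1
    rw [hw, Finsupp.finsetSum_apply]
    push_cast
    refine Finset.sum_congr rfl (fun i _ => ?_)
    rw [Pi.smul_apply, smul_eq_mul]
    push_cast
    ring
  rw [← h2, ← h3]
  have h4 : |((4 : ℝ))⁻¹| = 1 / 4 := by norm_num
  rw [h4] at h1
  linarith

theorem WH2_real {b N : ℕ} (hN : N ≤ g b) (u : Fin N → V) (hu : ∀ i, C (u i))
    (hb : ∀ i, ∀ p ∈ (u i).support, b ≤ p.1) (S : Finset Atom) (hS : ∀ i, (u i).support ⊆ S)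
    (t : Fin N → ℝ) (x : XB 𝕜) :
    ‖∑ i, ((t i : ℝ) : 𝕜) * PhiX (u i) x‖ ≤
      4 * Real.sqrt (∑ a ∈ S, (∑ i, (t i) * (((u i) a : ℚ) : ℝ)) ^ 2) * ‖x‖ := by
  have hd : DenseRange (Pi.map (fun (_ : Fin N) (q : ℚ) => (q : ℝ))) :=
    DenseRange.piMap (fun _ => Rat.denseRange_cast)
  refine hd.induction_on (p := fun t : Fin N → ℝ => ‖∑ i, ((t i : ℝ) : 𝕜) * PhiX (u i) x‖ ≤
      4 * Real.sqrt (∑ a ∈ S, (∑ i, (t i) * (((u i) a : ℚ) : ℝ)) ^ 2) * ‖x‖) t ?_ ?_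
  · refine isClosed_le ?_ ?_
    · refine Continuous.norm ?_
      refine continuous_finsetSum _ (fun i _ => ?_)
      exact (RCLike.continuous_ofReal.comp (continuous_apply i)).mul continuous_const
    · refine Continuous.mul ?_ continuous_const
      refine Continuous.mul continuous_const ?_
      refine Real.continuous_sqrt.comp ?_
      refine continuous_finsetSum _ (fun a _ => ?_)
      refine Continuous.pow ?_ 2
      refine continuous_finsetSum _ (fun i _ => ?_)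
      exact (continuous_apply i).mul continuous_const
  · intro q
    exact WH2_rat hN u hu hb S hS q x

theorem merge_bound {b N : ℕ} (hN : N ≤ g b) (u : Fin N → V) (hu : ∀ i, C (u i))
    (hb : ∀ i, ∀ p ∈ (u i).support, b ≤ p.1) (S : Finset Atom) (hS : ∀ i, (u i).support ⊆ S)
    (t : Fin N → 𝕜) (x : XB 𝕜) :
    ‖∑ i, t i * PhiX (u i) x‖ ≤ 8 * Real.sqrt (∑ a ∈ S, ‖∑ i, t i * ((((u i) a : ℚ) : ℝ) : 𝕜)‖ ^ 2) * ‖x‖ := by
  have h1 := WH2_real hN u hu hb S hS (fun i => RCLike.re (t i)) x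
  have h2 := WH2_real hN u hu hb S hS (fun i => RCLike.im (t i)) x
  have e1 : ∑ a ∈ S, (∑ i, RCLike.re (t i) * (((u i) a : ℚ) : ℝ)) ^ 2 ≤
      ∑ a ∈ S, ‖∑ i, t i * ((((u i) a : ℚ) : ℝ) : 𝕜)‖ ^ 2 := by
    refine Finset.sum_le_sum (fun a _ => ?_)
    have : ∑ i, RCLike.re (t i) * (((u i) a : ℚ) : ℝ) = RCLike.re (∑ i, t i * ((((u i) a : ℚ) : ℝ) : 𝕜)) := by
      rw [map_sum]
      exact Finset.sum_congr rfl (fun i _ => (RCLike.re_mul_ofReal _ _).symm)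
    rw [this, ← sq_abs]
    exact pow_le_pow_left₀ (abs_nonneg _) (RCLike.abs_re_le_norm _) 2
  have e2 : ∑ a ∈ S, (∑ i, RCLike.im (t i) * (((u i) a : ℚ) : ℝ)) ^ 2 ≤
      ∑ a ∈ S, ‖∑ i, t i * ((((u i) a : ℚ) : ℝ) : 𝕜)‖ ^ 2 := by
    refine Finset.sum_le_sum (fun a _ => ?_)
    have : ∑ i, RCLike.im (t i) * (((u i) a : ℚ) : ℝ) = RCLike.im (∑ i, t i * ((((u i) a : ℚ) : ℝ) : 𝕜)) := by
      rw [map_sum]
      exact Finset.sum_congr rfl (fun i _ => (RCLike.im_mul_ofReal _ _).symm)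
    rw [this, ← sq_abs]
    exact pow_le_pow_left₀ (abs_nonneg _) (RCLike.abs_im_le_norm _) 2
  have e3 : ∑ i, t i * PhiX (u i) x = ∑ i, ((RCLike.re (t i) : ℝ) : 𝕜) * PhiX (u i) x +
      (∑ i, ((RCLike.im (t i) : ℝ) : 𝕜) * PhiX (u i) x) * (RCLike.I : 𝕜) := by
    rw [Finset.sum_mul, ← Finset.sum_add_distrib]
    refine Finset.sum_congr rfl (fun i _ => ?_)
    conv_lhs => rw [← RCLike.re_add_im (t i)]
    ring
  have hI : ‖(RCLike.I : 𝕜)‖ ≤ 1 := by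
    by_cases h0 : (RCLike.I : 𝕜) = 0
    · rw [h0]; simp
    · exact (RCLike.norm_I_of_ne_zero h0).le
  have s1 := Real.sqrt_le_sqrt e1
  have s2 := Real.sqrt_le_sqrt e2
  have hx := norm_nonneg x
  rw [e3]
  refine (norm_add_le _ _).trans ?_
  rw [norm_mul]
  have h3 : ‖∑ i, ((RCLike.im (t i) : ℝ) : 𝕜) * PhiX (u i) x‖ * ‖(RCLike.I : 𝕜)‖ ≤
      ‖∑ i, ((RCLike.im (t i) : ℝ) : 𝕜) * PhiX (u i) x‖ := mul_le_of_le_one_right (norm_nonneg _) hI
  have k1 := mul_le_mul_of_nonneg_right (mul_le_mul_of_nonneg_left s1 (by norm_num : (0:ℝ) ≤ 4)) hx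
  have k2 := mul_le_mul_of_nonneg_right (mul_le_mul_of_nonneg_left s2 (by norm_num : (0:ℝ) ≤ 4)) hx
  linarith

end H94.WH
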