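import Mathlib

/-!
# MODULE WH3: abstract Hilbert space argument
`U = span 𝕜 (range u) ⊆ H = EuclideanSpace 𝕜 S`, `T = orthogonal projection onto U after θ : X → H` (`U.starProjection`), `⟪∑ t_i u_i, T x⟫ = ⟪∑ t_i u_i, θ x⟫`. `T x ∈ U` is itself of the form `∑ t_i u_i`, so
`‖T x‖^2 = |⟪T x, θ x⟫| ≤ 8 ‖T x‖ ‖x‖`. For `x ∈ F`, `‖x‖ = 1`: `1/4 ≤ |⟪u_i, θ x⟫| = |⟪u_i, T x⟫| ≤ ‖T x‖`; by homogeneity `‖x‖ ≤ 4 ‖T x‖` on `F`.
Let `W = T(F)`, a subspace of `H` of dimension `finrank F`; `W ≃ₗᵢ EuclideanSpace 𝕜 (Fin (finrank W))` (`stdOrthonormalBasis`). Isomorphism: `F → W → EuclideanSpace`, norm `≤ 8`, inverse norm `≤ 4`.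
Projection: `P = (T|F)⁻¹ ∘ proj_W ∘ T`, `‖P‖ ≤ 4 * 8`.
-/

set_option autoImplicit false

namespace H94.WH

open Module

theorem hilbert_part {𝕜 : Type} [RCLike 𝕜] {X : Type} [NormedAddCommGroup X] [NormedSpace 𝕜 X] (F : Submodule 𝕜 X)
    [FiniteDimensional 𝕜 F] {ι S : Type} [Fintype ι] [Fintype S] (u : ι → EuclideanSpace 𝕜 S)
    (θ : X →L[𝕜] EuclideanSpace 𝕜 S)
    (hb : ∀ (t : ι → 𝕜) (x : X), ‖(inner 𝕜 (∑ i, t i • u i) (θ x) : 𝕜)‖ ≤ 8 * ‖∑ i, t i • u i‖ * ‖x‖)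
    (hl : ∀ x ∈ F, ‖x‖ = 1 → ∃ i, ‖u i‖ ≤ 1 ∧ 1 / 4 ≤ ‖(inner 𝕜 (u i) (θ x) : 𝕜)‖) :
    (∃ T : F ≃L[𝕜] EuclideanSpace 𝕜 (Fin (finrank 𝕜 F)),
      ‖(T : F →L[𝕜] EuclideanSpace 𝕜 (Fin (finrank 𝕜 F)))‖ *
        ‖(T.symm : EuclideanSpace 𝕜 (Fin (finrank 𝕜 F)) →L[𝕜] F)‖ ≤ 32) ∧
    ∃ P : X →L[𝕜] X, (∀ x, P x ∈ F) ∧ (∀ x ∈ F, P x = x) ∧ ‖P‖ ≤ 32 := by
  classical
  set U : Submodule 𝕜 (EuclideanSpace 𝕜 S) := Submodule.span 𝕜 (Set.range u) with hU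
  let T : X →L[𝕜] EuclideanSpace 𝕜 S := U.starProjection.comp θ
  have hTU : ∀ x, T x ∈ U := fun x => U.starProjection_apply_mem (θ x)
  have hinner : ∀ w ∈ U, ∀ x, (inner 𝕜 w (T x) : 𝕜) = inner 𝕜 w (θ x) := by
    intro w hw x
    have h1 : (inner 𝕜 w (θ x - U.starProjection (θ x)) : 𝕜) = 0 :=
      Submodule.inner_right_of_mem_orthogonal hw (U.sub_starProjection_mem_orthogonal (θ x))
    rw [inner_sub_right, sub_eq_zero] at h1
    exact h1.symm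
  have hup : ∀ x, ‖T x‖ ≤ 8 * ‖x‖ := by
    intro x
    obtain ⟨t, ht⟩ := (Submodule.mem_span_range_iff_exists_fun 𝕜).mp (hTU x)
    have h1 := hb t x
    rw [ht, ← hinner _ (hTU x) x, inner_self_eq_norm_sq_to_K] at h1
    rw [norm_pow, RCLike.norm_ofReal, abs_of_nonneg (norm_nonneg _)] at h1
    rcases eq_or_lt_of_le (norm_nonneg (T x)) with h2 | h2
    · rw [← h2]; positivity
    · have h3 : ‖T x‖ * ‖T x‖ ≤ (8 * ‖x‖) * ‖T x‖ := by nlinarith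
      exact le_of_mul_le_mul_right h3 h2
  have hlow : ∀ x ∈ F, ‖x‖ ≤ 4 * ‖T x‖ := by
    intro x hx
    rcases eq_or_lt_of_le (norm_nonneg x) with h0 | h0
    · rw [← h0]; positivity
    · have hx0 : x ≠ 0 := norm_pos_iff.mp h0
      set y : X := ((‖x‖ : 𝕜)⁻¹) • x with hy
      have hyF : y ∈ F := F.smul_mem _ hx
      have hy1 : ‖y‖ = 1 := norm_smul_inv_norm hx0
      obtain ⟨i, hi1, hi2⟩ := hl y hyF hy1
      have h1 : 1 / 4 ≤ ‖T y‖ := by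
        have h2 := hinner (u i) (Submodule.subset_span ⟨i, rfl⟩) y
        rw [← h2] at hi2
        have h3 := norm_inner_le_norm (𝕜 := 𝕜) (u i) (T y)
        have h4 : ‖u i‖ * ‖T y‖ ≤ 1 * ‖T y‖ := mul_le_mul_of_nonneg_right hi1 (norm_nonneg _)
        linarith
      rw [hy, map_smul, norm_smul, norm_inv, RCLike.norm_ofReal, abs_of_nonneg h0.le] at h1
      have h5 : ‖x‖ * (‖x‖⁻¹ * ‖T x‖) = ‖T x‖ := by field_simp
      nlinarith [mul_le_mul_of_nonneg_left h1 h0.le]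
  -- restriction to `F`
  let TF : F →ₗ[𝕜] EuclideanSpace 𝕜 S := T.toLinearMap.comp F.subtype
  have hTF : ∀ x : F, TF x = T (x : X) := fun x => rfl
  have hinj : Function.Injective TF := by
    rw [injective_iff_map_eq_zero]
    intro x hx
    have h1 := hlow x x.2
    rw [← hTF, hx, norm_zero, mul_zero] at h1
    exact Subtype.ext (norm_le_zero_iff.mp h1)
  let W : Submodule 𝕜 (EuclideanSpace 𝕜 S) := LinearMap.range TF
  let e1 : F ≃ₗ[𝕜] W := LinearEquiv.ofInjective TF hinj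
  have he1 : ∀ x : F, ((e1 x : W) : EuclideanSpace 𝕜 S) = T (x : X) := fun x => rfl
  have hfr : finrank 𝕜 W = finrank 𝕜 F := e1.symm.finrank_eq
  have he1s : ∀ w : W, ‖e1.symm w‖ ≤ 4 * ‖w‖ := by
    intro w
    have h1 := hlow (e1.symm w) (e1.symm w).2
    rw [← he1, e1.apply_symm_apply] at h1
    exact h1
  constructor
  · let b : OrthonormalBasis (Fin (finrank 𝕜 F)) 𝕜 W :=
      (stdOrthonormalBasis 𝕜 W).reindex (finCongr hfr)
    let e : F ≃ₗ[𝕜] EuclideanSpace 𝕜 (Fin (finrank 𝕜 F)) := e1.trans b.repr.toLinearEquiv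
    refine ⟨e.toContinuousLinearEquiv, ?_⟩
    have h1 : ‖(e.toContinuousLinearEquiv : F →L[𝕜] EuclideanSpace 𝕜 (Fin (finrank 𝕜 F)))‖ ≤ 8 := by
      apply ContinuousLinearMap.opNorm_le_bound _ (by norm_num)
      intro x
      have h2 : ‖e x‖ = ‖T (x : X)‖ := by
        change ‖b.repr (e1 x)‖ = _
        rw [b.repr.norm_map]
        rfl
      change ‖e x‖ ≤ _
      rw [h2]
      exact hup x
    have h3 : ‖(e.toContinuousLinearEquiv.symm : EuclideanSpace 𝕜 (Fin (finrank 𝕜 F)) →L[𝕜] F)‖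
        ≤ 4 := by
      apply ContinuousLinearMap.opNorm_le_bound _ (by norm_num)
      intro y
      change ‖e1.symm (b.repr.symm y)‖ ≤ _
      refine (he1s _).trans (le_of_eq ?_)
      rw [b.repr.symm.norm_map]
    calc _ ≤ (8 : ℝ) * 4 := mul_le_mul h1 h3 (norm_nonneg _) (by norm_num)
      _ = 32 := by norm_num
  · let P0 : X →ₗ[𝕜] X := F.subtype.comp (e1.symm.toLinearMap.comp
      ((W.orthogonalProjectionOnto).toLinearMap.comp T.toLinearMap))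
    have hP0 : ∀ x, P0 x = ((e1.symm (W.orthogonalProjectionOnto (T x)) : F) : X) := fun x => rfl
    have hbd : ∀ x, ‖P0 x‖ ≤ 32 * ‖x‖ := by
      intro x
      rw [hP0]
      have h1 := he1s (W.orthogonalProjectionOnto (T x))
      have h2 : ‖W.orthogonalProjectionOnto (T x)‖ ≤ ‖T x‖ := W.norm_orthogonalProjectionOnto_apply_le (T x)
      have h3 := hup x
      calc ‖((e1.symm (W.orthogonalProjectionOnto (T x)) : F) : X)‖ ≤ _ := h1
        _ ≤ 4 * (8 * ‖x‖) := by gcongr; exact h2.trans h3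
        _ = 32 * ‖x‖ := by ring
    refine ⟨P0.mkContinuous 32 hbd, ?_, ?_, ?_⟩
    · intro x
      rw [LinearMap.mkContinuous_apply, hP0]
      exact (e1.symm (W.orthogonalProjectionOnto (T x))).2
    · intro x hx
      rw [LinearMap.mkContinuous_apply, hP0]
      have h1 : T x = ((e1 ⟨x, hx⟩ : W) : EuclideanSpace 𝕜 S) := (he1 ⟨x, hx⟩).symm
      rw [h1, Submodule.orthogonalProjectionOnto_mem_subspace_eq_self, e1.symm_apply_apply]
    · exact LinearMap.mkContinuous_norm_le _ (by norm_num) _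

end H94.WH
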