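import Pool.Agent.H94.WH.WH1
import Pool.Agent.H94.WH.WH2
import Pool.Agent.H94.WH.WH3
import Pool.Agent.H94.WH.Stmt

/-!
# MODULE WHP: the completion is a weak Hilbert space (section 4), `δ = 1/2`, `C = 32`

Let `E` be finite-dimensional, `n = finrank E`, `h = n / 2`, `F = E ⊓ ⋂_{l<h} ker (coordX l)`: `finrank F ≥ n - h` (rank-nullity for the map `E → (Fin h → 𝕜)`), so `n/2 ≤ finrank F ≤ n ≤ 2h+1`.
`exists_net` for `F`: `s.card ≤ 25^(finrank F) ≤ 25^(2h+1) = g h`. For every net point `x_i` choose (`exists_normingX` with `c = 3/4 < 1 = ‖x_i‖`) `u_i ∈ C`, `nrm u_i ≤ 1`, positions `≥ h`, `‖PhiX u_i x_i‖ ≥ 3/4`.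
`S` = union of the supports (type `↥S`), `û_i a = u_i a`, `θ x a = wt a.2 * coordX a.1 x`; `inner (û_i) (θ x) = PhiX u_i x` (`PhiX_eq_sum`; `inner (∑ t_i û_i) (θ x) = ∑ conj t_i * PhiX u_i x`, the `u_i` are real);
`hb` = `merge_bound` with `conj t`; `hl`: `‖PhiX u_i x‖ ≥ 3/4 - ‖x - x_i‖ ≥ 1/4` (`PhiX_le`).
-/

set_option autoImplicit false

namespace H94.WH

open Finset Module

theorem WHP_sub (𝕜 : Type) [RCLike 𝕜] (E : Submodule 𝕜 (XB 𝕜)) [FiniteDimensional 𝕜 E] (h : ℕ) :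
    ∃ F : Submodule 𝕜 (XB 𝕜), F ≤ E ∧ finrank 𝕜 E ≤ finrank 𝕜 F + h ∧
      (∀ x ∈ F, ∀ l < h, coordX l x = 0) := by
  let φ : E →ₗ[𝕜] (Fin h → 𝕜) := LinearMap.pi (fun l =>
    ((coordX (𝕜 := 𝕜) l : XB 𝕜 →L[𝕜] 𝕜) : XB 𝕜 →ₗ[𝕜] 𝕜).comp E.subtype)
  refine ⟨(LinearMap.ker φ).map E.subtype, ?_, ?_, ?_⟩
  · exact Submodule.map_subtype_le _ _
  · have h1 := LinearMap.finrank_range_add_finrank_ker φ
    have h2 : finrank 𝕜 (LinearMap.range φ) ≤ h := by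
      have := Submodule.finrank_le (LinearMap.range φ)
      simpa using this
    have h3 : finrank 𝕜 ((LinearMap.ker φ).map E.subtype) = finrank 𝕜 (LinearMap.ker φ) :=
      Submodule.finrank_map_subtype_eq _ _
    omega
  · rintro x ⟨y, hy, rfl⟩ l hl
    exact congrFun (LinearMap.mem_ker.1 hy) ⟨l, hl⟩

theorem WHP_main (𝕜 : Type) [RCLike 𝕜] (F : Submodule 𝕜 (XB 𝕜)) [FiniteDimensional 𝕜 F] (h : ℕ)
    (hF : finrank 𝕜 F ≤ 2 * h + 1) (hco : ∀ x ∈ F, ∀ l < h, coordX l x = 0) :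
    (∃ T : F ≃L[𝕜] EuclideanSpace 𝕜 (Fin (finrank 𝕜 F)),
      ‖(T : F →L[𝕜] EuclideanSpace 𝕜 (Fin (finrank 𝕜 F)))‖ *
        ‖(T.symm : EuclideanSpace 𝕜 (Fin (finrank 𝕜 F)) →L[𝕜] F)‖ ≤ 32) ∧
    ∃ P : XB 𝕜 →L[𝕜] XB 𝕜, (∀ x, P x ∈ F) ∧ (∀ x ∈ F, P x = x) ∧ ‖P‖ ≤ 32 := by
  classical
  obtain ⟨s, hs1, hs2, hs3⟩ := exists_net 𝕜 (F := F)
  have hN : s.card ≤ g h := by
    calc s.card ≤ 25 ^ finrank 𝕜 F := hs1
      _ ≤ 25 ^ (2 * h + 1) := Nat.pow_le_pow_right (by norm_num) hF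
      _ = g h := by
        unfold g
        rw [show 4 * h + 2 = 2 * (2 * h + 1) by ring, pow_mul]
        norm_num
  let e := s.equivFin
  have hu : ∀ i : Fin s.card, ∃ u, C u ∧ nrm u ≤ 1 ∧ (∀ p ∈ u.support, h ≤ p.1) ∧
      (3 / 4 : ℝ) < ‖PhiX u (((e.symm i : s) : F) : XB 𝕜)‖ := by
    intro i
    apply exists_normingX h _ (hco _ ((e.symm i : s) : F).2)
    have h1 : ‖(((e.symm i : s) : F) : XB 𝕜)‖ = 1 := hs2 _ (e.symm i).2
    rw [h1]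
    norm_num
  choose u hC hnr hpos hnorm using hu
  let S : Finset Atom := Finset.univ.biUnion (fun i => (u i).support)
  have hS : ∀ i, (u i).support ⊆ S := fun i =>
    Finset.subset_biUnion_of_mem (fun i => (u i).support) (Finset.mem_univ i)
  let uh : Fin s.card → EuclideanSpace 𝕜 S := fun i =>
    WithLp.toLp 2 (fun a : S => (((u i (a : Atom) : ℚ) : ℝ) : 𝕜))
  let θ : XB 𝕜 →L[𝕜] EuclideanSpace 𝕜 S :=
    ((EuclideanSpace.equiv S 𝕜).symm : (S → 𝕜) →L[𝕜] EuclideanSpace 𝕜 S).comp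
      (ContinuousLinearMap.pi (fun a : S => ((wt (a : Atom).2 : ℝ) : 𝕜) • coordX (a : Atom).1))
  have hθ : ∀ x (a : S), θ x a = ((wt (a : Atom).2 : ℝ) : 𝕜) * coordX (a : Atom).1 x :=
    fun x a => rfl
  have huh : ∀ i (a : S), uh i a = (((u i (a : Atom) : ℚ) : ℝ) : 𝕜) := fun i a => rfl
  have hinner : ∀ (i : Fin s.card) (x : XB 𝕜), (inner 𝕜 (uh i) (θ x) : 𝕜) = PhiX (u i) x := by
    intro i x
    rw [PiLp.inner_apply, PhiX_eq_sum]
    have h1 : ∀ a : S, (inner 𝕜 (uh i a) (θ x a) : 𝕜)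
        = ((((u i (a : Atom) : ℚ) : ℝ) * wt (a : Atom).2 : ℝ) : 𝕜) * coordX (a : Atom).1 x := by
      intro a
      rw [hθ, huh, RCLike.inner_apply, RCLike.conj_ofReal]
      push_cast
      ring
    rw [Finset.sum_congr rfl (fun a _ => h1 a)]
    rw [Finset.sum_coe_sort S (fun a : Atom =>
      ((((u i a : ℚ) : ℝ) * wt a.2 : ℝ) : 𝕜) * coordX a.1 x)]
    symm
    apply Finset.sum_subset (hS i)
    intro a _ ha
    rw [Finsupp.notMem_support_iff.1 ha]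
    simp
  refine hilbert_part F uh θ ?_ ?_
  · intro t x
    have h1 : (inner 𝕜 (∑ i, t i • uh i) (θ x) : 𝕜) = ∑ i, (starRingEnd 𝕜) (t i) * PhiX (u i) x := by
      rw [sum_inner]
      refine Finset.sum_congr rfl fun i _ => ?_
      rw [inner_smul_left, hinner]
    rw [h1]
    refine (merge_bound hN u hC hpos S hS (fun i => (starRingEnd 𝕜) (t i)) x).trans ?_
    have h2 : Real.sqrt (∑ a ∈ S, ‖∑ i, (starRingEnd 𝕜) (t i) * ((((u i) a : ℚ) : ℝ) : 𝕜)‖ ^ 2)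
        = ‖∑ i, t i • uh i‖ := by
      rw [EuclideanSpace.norm_eq]
      congr 1
      rw [← Finset.sum_coe_sort S (fun a : Atom =>
        ‖∑ i, (starRingEnd 𝕜) (t i) * ((((u i) a : ℚ) : ℝ) : 𝕜)‖ ^ 2)]
      refine Finset.sum_congr rfl fun a _ => ?_
      congr 1
      have h3 : (∑ i, t i • uh i : EuclideanSpace 𝕜 S) a
          = ∑ i, t i * ((((u i) (a : Atom) : ℚ) : ℝ) : 𝕜) := by
        have h4 : (∑ i, t i • uh i : EuclideanSpace 𝕜 S) a = ∑ i, (t i • uh i : EuclideanSpace 𝕜 S) a := by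
          simp
        rw [h4]
        rfl
      rw [h3, ← RCLike.norm_conj, map_sum]
      congr 1
      refine Finset.sum_congr rfl fun i _ => ?_
      rw [map_mul, RCLike.conj_conj, RCLike.conj_ofReal]
    rw [h2]
  · intro x hx hx1
    obtain ⟨y, hy, hxy⟩ := hs3 ⟨x, hx⟩ (by simpa using hx1)
    refine ⟨e ⟨y, hy⟩, ?_, ?_⟩
    · have h5 : ‖uh (e ⟨y, hy⟩)‖ = nrm (u (e ⟨y, hy⟩)) := by
        rw [EuclideanSpace.norm_eq]
        unfold nrm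
        congr 1
        have h6 : ∀ a : S, ‖uh (e ⟨y, hy⟩) a‖ ^ 2 = ((u (e ⟨y, hy⟩) (a : Atom) : ℚ) : ℝ) ^ 2 := by
          intro a
          rw [huh, RCLike.norm_ofReal, sq_abs]
        rw [Finset.sum_congr rfl (fun a _ => h6 a)]
        rw [Finset.sum_coe_sort S (fun a : Atom => ((u (e ⟨y, hy⟩) a : ℚ) : ℝ) ^ 2)]
        symm
        apply Finset.sum_subset (hS _)
        intro a _ ha
        rw [Finsupp.notMem_support_iff.1 ha]
        simp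
      rw [h5]
      exact hnr _
    · rw [hinner]
      have h7 := hnorm (e ⟨y, hy⟩)
      rw [Equiv.symm_apply_apply] at h7
      have h8 : ‖PhiX (u (e ⟨y, hy⟩)) (x - (y : XB 𝕜))‖ ≤ 1 / 2 := by
        refine (PhiX_le (hC _) _).trans ?_
        have h9 : ‖x - (y : XB 𝕜)‖ ≤ 1 / 2 := hxy
        have h10 := hnr (e ⟨y, hy⟩)
        calc nrm (u (e ⟨y, hy⟩)) * ‖x - (y : XB 𝕜)‖ ≤ 1 * ‖x - (y : XB 𝕜)‖ :=
              mul_le_mul_of_nonneg_right h10 (norm_nonneg _)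
          _ ≤ 1 / 2 := by rw [one_mul]; exact h9
      rw [map_sub] at h8
      have h11 := norm_sub_norm_le (PhiX (u (e ⟨y, hy⟩)) (y : XB 𝕜)) (PhiX (u (e ⟨y, hy⟩)) x)
      rw [norm_sub_rev] at h11
      linarith

theorem weakHilbert_XB (𝕜 : Type) [RCLike 𝕜] : IsWeakHilbert 𝕜 (XB 𝕜) := by
  refine ⟨not_finiteDimensional_XB, 1 / 2, 32, by norm_num, by norm_num, by norm_num, ?_⟩
  intro E hE
  obtain ⟨F, hFE, hrk, hco⟩ := WHP_sub 𝕜 E (finrank 𝕜 E / 2)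
  have : FiniteDimensional 𝕜 F := Submodule.finiteDimensional_of_le hFE
  have hFn : finrank 𝕜 F ≤ finrank 𝕜 E := Submodule.finrank_mono hFE
  refine ⟨F, hFE, ?_, ?_⟩
  · have h1 : finrank 𝕜 E ≤ 2 * finrank 𝕜 F := by omega
    have h2 : (finrank 𝕜 E : ℝ) ≤ 2 * (finrank 𝕜 F : ℝ) := by exact_mod_cast h1
    linarith
  · exact WHP_main 𝕜 F (finrank 𝕜 E / 2) (by omega) hco

end H94.WH
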